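import Pool.Agent.P.MP_f17f76_ag.E.AxS
import Pool.Agent.P.MP_f17f76_ag.E.Hs

/-!
Interface of the main loop, algebraic part: the model, tight subspaces, towers, families, chains.
-/

namespace Pool.Agent.P.MP_f17f76_ag

open Module Set E N

noncomputable section

/-- Subspaces of `ℂ^g` (columns, or rows acting by the dot product). -/
abbrev Sub (g : ℕ) : Type := Submodule ℂ (Fin g → ℂ)

open Classical in
/-- A ring homomorphism on a subfield of `ℂ`, extended by zero. -/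
def xt {K : Subfield ℂ} {R : Type} [CommRing R] (ι : K →+* R) (a : ℂ) : R :=
  if h : a ∈ K then ι ⟨a, h⟩ else 0

namespace AbVar

variable {g N : ℕ} (A : AbVar g N)

/-- `U` is a rational subspace in the interval `[Q₁, Q₂]`. -/
def Btw (Q₁ U Q₂ : Sub g) : Prop := A.IsLie U ∧ Q₁ ≤ U ∧ U ≤ Q₂

/-- The internal point `y` of projective space is the exponential of the internal vector `x`. -/
def Exp (x : Fin g → Cs) (y : Fin N → Cs) : Prop :=
  ∃ t : Cs, ∀ j, y j = t * app (fun _ w => A.θ w j) x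

end AbVar

/-- A countable algebraically closed subfield of `ℂ` containing `k`. -/
structure Fld (k F : Subfield ℂ) : Prop where
  cnt : (F : Set ℂ).Countable
  acl : acl (F : Set ℂ) = F
  le : k ≤ F

/-- A generic point `(z, exp w)` over `k0` in top form. -/
structure Model {g N : ℕ} (A : AbVar g N) where
  k0 : Subfield ℂ
  z : Fin g → ℂ
  w : Fin g → ℂ
  fld : Fld k0 k0
  ov : A.Over k0
  rot : ∀ U, A.IsLie U →
    finrank ℂ U ≤ trd (k0 : Set ℂ) (range (A.pr U z) ∪ range (A.crd (A.pr U w)))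
  top : trd (k0 : Set ℂ) (range z ∪ range (A.crd w)) = g
  frz : ∀ U, A.IsLie U → U ≠ ⊥ → ¬ range (A.pr U z) ⊆ k0
  fra : ∀ U, A.IsLie U → U ≠ ⊥ → ¬ range (A.crd (A.pr U w)) ⊆ k0

namespace Model

variable {g N : ℕ} {A : AbVar g N} (M : Model A)

/-- The coordinates of `z_U`. -/
def zs (U : Sub g) : Set ℂ := range (A.pr U M.z)

/-- The coordinates of `a_U`. -/
def as (U : Sub g) : Set ℂ := range (A.crd (A.pr U M.w))

/-- The coordinates of `(z_(Q₁), a_(Q₂))`. -/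
def qs (Q₁ Q₂ : Sub g) : Set ℂ := M.zs Q₁ ∪ M.as Q₂

/-- `H Q₁ Q₂ = trd (k0; z_(Q₁), a_(Q₂))`. The base is `k0`, not `k'`: for `Q₁, Q₂ ≥ C'` this is
the function `H` of the paper plus `dim C'`, and all dimensions are absolute. -/
def H (Q₁ Q₂ : Sub g) : ℕ := trd (M.k0 : Set ℂ) (M.qs Q₁ Q₂)

/-- Tight subspaces. -/
def Tight (U : Sub g) : Prop := A.IsLie U ∧ M.H U U = finrank ℂ U

/-- The field `acl k0 (q_U)`. -/
def kq (U : Sub g) : Subfield ℂ := acl ((M.k0 : Set ℂ) ∪ M.qs U U)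

/-- `e` embeds `acl k0 (q_C)` over `k0` in the ultrapower and sends `q_C` to the graph of the
exponential map. -/
structure Sol (C : Sub g) (e : M.kq C →+* Cs) : Prop where
  id : ∀ a ∈ M.k0, xt e a = co a
  exp : A.Exp (fun k => xt e (A.pr C M.z k)) fun j => xt e (A.crd (A.pr C M.w) j)

/-- A generic solution on `C`. -/
def GS (C : Sub g) : Prop := ∃ e, M.Sol C e

/-- The data of one induction step: `C' < C1 = C' + X ≤ C`, all tight. -/
structure Tow (C' X C1 C : Sub g) : Prop where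
  t' : M.Tight C'
  tX : M.Tight X
  t1 : M.Tight C1
  t : M.Tight C
  ne : X ≠ ⊥
  disj : C' ⊓ X = ⊥
  sup : C' ⊔ X = C1
  le : C1 ≤ C
  min : ∀ U, M.Tight U → C' ≤ U → U ≠ C' → U ≤ C → C1 ≤ U

/-- `Nn` is the conormal space of a family on the interval `[Q₁, Q₂]` with field of definition
`E` and rank function `κ - κ Q₁`. -/
def Fam (κ : Sub g → ℕ) (Q₁ Q₂ : Sub g) (E : Subfield ℂ) (Nn : Sub g) : Prop :=
  ∃ (kb : Subfield ℂ) (b : Fin g → ℂ), Fld M.k0 kb ∧ b ∈ A.rel Q₂ Q₁ ∧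
    E = acl ((kb : Set ℂ) ∪ range (A.crd b)) ∧ Nn = A.con kb b (A.rel Q₂ Q₁) ∧
    ∀ Q, A.Btw Q₁ Q Q₂ → κ Q = κ Q₁ + finrank ℂ (Nn ⊓ A.du (A.rel Q Q₁) : Sub g)

/-- The basic inequality (it contains I1, I2, g1, g2, g3) at the pair `(a_(Qa), z_Q)`. -/
def Ineq (κ : Sub g → ℕ) (Qa Q : Sub g) : Prop := finrank ℂ Qa + κ Q ≤ κ Qa + M.H Q Qa

/-- Equality in the basic inequality: `Q` is a maximiser for `Qa`. -/
def Eqn (κ : Sub g → ℕ) (Qa Q : Sub g) : Prop := finrank ℂ Qa + κ Q = κ Qa + M.H Q Qa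

/-- Chain data ending at `C`. Stage `j` is the triple `U j ≤ U (j+1) ≤ U (j+2)`. -/
structure Chain (C : Sub g) where
  m : ℕ
  U : ℕ → Sub g
  κ : Sub g → ℕ
  lie : ∀ j, A.IsLie (U j)
  mono : ∀ j, U j ≤ U (j + 1)
  last : ∀ j, m ≤ j → U j = C
  fam : ∀ j Q₁ Q₂, A.Btw (U (j + 1)) Q₁ Q₂ → A.Btw Q₁ Q₂ (U (j + 2)) →
    ∃ E Nn, M.Fam κ Q₁ Q₂ E Nn
  ineq : ∀ j Qa Q, A.Btw (U j) Qa (U (j + 1)) → A.Btw (U (j + 1)) Q (U (j + 2)) → M.Ineq κ Qa Q
  eqn : ∀ j, M.Eqn κ (U (j + 1)) (U (j + 2))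
  att : ∀ j A' A'' Z, A.Btw (U j) A' A'' → A.Btw A' A'' (U (j + 1)) →
    A.Btw (U (j + 1)) Z (U (j + 2)) → M.Eqn κ A' Z →
      ∃ Z'', A.Btw Z Z'' (U (j + 2)) ∧ M.Eqn κ A'' Z''

/-- The special case at the end of phase one: `z` and `a` are independent on `C1` over `k'`, and
`z_(X')` lies in a translate over `k'` of a subspace `L` over `k0` of the right dimension. -/
def Special (C' C1 : Sub g) : Prop :=
  M.H C1 C' + M.H C' C1 = finrank ℂ C1 + finrank ℂ C' ∧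
    ∃ L : Sub g, L ≤ A.rel C1 C' ∧ finrank ℂ L + finrank ℂ C' = M.H C1 C' ∧ Ov M.k0 L ∧
      ∃ c : Fin g → ℂ, (∀ k, c k ∈ M.kq C') ∧ A.pr (A.rel C1 C') M.z - c ∈ L

end Model

/-- Reduction to the top form, and the theorem from a generic solution. -/
def S_TOP : Prop := ∀ {g N : ℕ} (A : AbVar g N) (I : Set (MvPolynomial (Fin g ⊕ Fin N) ℂ)),
  A.Irred (A.zeroSet I) → A.Free (A.zeroSet I) → A.Rotund (A.zeroSet I) →
    ∃ M : Model A, M.GS ⊤ → ∃ z : Fin g → ℂ, (z, z) ∈ A.zeroSet I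

/-- Existence of the tower below a nonzero tight subspace. -/
def S_TOW : Prop := ∀ {g N : ℕ} {A : AbVar g N} (M : Model A) (C : Sub g), M.Tight C → C ≠ ⊥ →
  ∃ C' X C1, M.Tow C' X C1 C

/-- The trivial generic solution. -/
def S_GS0 : Prop := ∀ {g N : ℕ} {A : AbVar g N} (M : Model A), M.GS ⊥

/-- Existence of chain data between two tight subspaces (section 0.1; pad the minimising chain by
repeating its first term). -/
def S_CHAIN : Prop := ∀ {g N : ℕ} {A : AbVar g N} (M : Model A) (C₀ C : Sub g),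
  M.Tight C₀ → M.Tight C → C₀ ≤ C → ∃ ch : M.Chain C, ch.U 0 = C₀ ∧ ch.U 1 = C₀

/-- Elementary properties of `H`. -/
def S_HB : Prop := ∀ {g N : ℕ} {A : AbVar g N} (M : Model A),
  M.Tight ⊤ ∧ ∀ Z U U', A.IsLie Z → A.IsLie U → A.IsLie U' → U ≤ U' →
    M.H Z U' + finrank ℂ U ≤ M.H Z U + finrank ℂ U'

end

end Pool.Agent.P.MP_f17f76_ag
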