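import Pool.Agent.P.MP_f17f76_ag.S.Tow
import Pool.Agent.P.MP_f17f76_ag.E.Aut

/-!
The algebraic half of the dichotomy at the end of phase one.
-/

namespace Pool.Agent.P.MP_f17f76_ag

open Module Set E

theorem E.Free.inf_le {K : Type} [Field K] {F S T : Set K} (h : Free F S T) :
    acl (F ∪ S) ⊓ acl (F ∪ T) ≤ acl F := fun x hx => by
  have := h.acl_left {x} (singleton_subset_iff.2 hx.1) (finite_singleton x)
  rw [(trd_eq_zero_iff (finite_singleton x)).2 (singleton_subset_iff.2 hx.2), eq_comm,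
    trd_eq_zero_iff (finite_singleton x)] at this
  exact this rfl

/-- A point whose tangent space is defined over the base lies in a translate of it. -/
theorem E.exists_center {K ι : Type} [Field K] [CharZero K] [Fintype ι] {F : Set K} {z : ι → K}
    (h : Ov (acl F) ((kil F).map (dv z))) :
    ∃ c : ι → K, (∀ i, c i ∈ acl F) ∧ z - c ∈ (kil F).map (dv z) := by
  obtain ⟨φ, h1, h2, h3⟩ := exists_proj (acl F)
  refine ⟨fun i => φ (z i), fun i => h3 _, h.mem_of_forms fun a ha h4 => ?_⟩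
  have h5 : a ⬝ᵥ z ∈ acl F := mem_acl_iff_der.2 fun D hD => by
    rw [← h4 _ ⟨D, hD, rfl⟩, dotProduct, dotProduct, map_sum]
    exact Finset.sum_congr rfl fun i _ => by simp [show D (a i) = 0 from acl_le_cst hD (ha i)]
  have h6 := h1 1 _ h5
  rw [one_mul, h2, one_mul] at h6
  rw [dotProduct_sub, sub_eq_zero, ← h6, dotProduct, dotProduct, map_sum]
  exact Finset.sum_congr rfl fun i _ => by rw [mul_comm, h1 _ _ (ha i), mul_comm]

namespace Model

variable {g N : ℕ} {A : AbVar g N} (M : Model A) {U V U' V' C' X C1 C A0 : Sub g}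

theorem k0_sub (S : Set ℂ) : (M.k0 : Set ℂ) ⊆ acl (M.k0 ∪ S) :=
  subset_union_left.trans (subset_acl _)

theorem fin_zs (U : Sub g) : (M.zs U).Finite := finite_range _

theorem fin_as (U : Sub g) : (M.as U).Finite := finite_range _

theorem fin_qs (U V : Sub g) : (M.qs U V).Finite := (M.fin_zs U).union (M.fin_as V)

theorem zs_le {S : Set ℂ} (hU : A.IsLie U) (h : U ≤ U') (hk : (M.k0 : Set ℂ) ⊆ acl S)
    (hS : M.zs U' ⊆ acl S) : M.zs U ⊆ acl S := M.ov.pr_le hU h hk hS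

theorem as_le {S : Set ℂ} (hV : A.IsLie V) (h : V ≤ V') (hk : (M.k0 : Set ℂ) ⊆ acl S)
    (hS : M.as V' ⊆ acl S) : M.as V ⊆ acl S := M.ov.crd_pr_le hV h hk hS

theorem zs_acl (U V : Sub g) : M.zs U ⊆ acl (M.k0 ∪ M.qs U V) :=
  (subset_union_left.trans subset_union_right).trans (subset_acl _)

theorem as_acl (U V : Sub g) : M.as V ⊆ acl (M.k0 ∪ M.qs U V) :=
  (subset_union_right.trans subset_union_right).trans (subset_acl _)

theorem qs_le (hU : A.IsLie U) (hV : A.IsLie V) (h : U ≤ U') (h' : V ≤ V') :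
    M.qs U V ⊆ acl (M.k0 ∪ M.qs U' V') :=
  union_subset (M.zs_le hU h (M.k0_sub _) (M.zs_acl _ _)) (M.as_le hV h' (M.k0_sub _) (M.as_acl _ _))

theorem H_cross (hU : A.IsLie U) (h : U ≤ V) :
    M.H U U + M.H V V ≤ M.H V U + M.H U V :=
  trd_submod (T' := M.qs V V) (M.fin_qs _ _) (M.fin_qs _ _) (M.fin_qs U U) (M.qs_le hU hU h le_rfl)
    (M.qs_le hU hU le_rfl h) (union_subset
      ((M.zs_acl V U).trans (acl_mono (union_subset_union_right _ subset_union_left)))
      ((M.as_acl U V).trans (acl_mono (union_subset_union_right _ subset_union_right))))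

theorem H_add_z (hU : A.IsLie U) (hV : A.IsLie V) (h : U ≤ U') :
    M.H U' V = M.H U V + trd (M.k0 ∪ M.qs U V) (M.zs U') := by
  rw [H, H, ← trd_union (M.fin_qs _ _) (M.fin_zs _)]
  exact trd_congr (fun x hx => subset_acl _ (.inr (hx.elim .inr fun h => .inl (.inr h))))
    (union_subset (M.qs_le hU hV h le_rfl) (M.zs_acl _ _))

theorem H_add_a (hU : A.IsLie U) (hV : A.IsLie V) (h : V ≤ V') :
    M.H U V' = M.H U V + trd (M.k0 ∪ M.qs U V) (M.as V') := by
  rw [H, H, ← trd_union (M.fin_qs _ _) (M.fin_as _)]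
  exact trd_congr (fun x hx => subset_acl _ (.inr (hx.elim (fun h => .inl (.inl h)) .inr)))
    (union_subset (M.qs_le hU hV le_rfl h) (M.as_acl _ _))

variable {M}

theorem Tow.free' (h : M.Tow C' X C1 C) : Free (M.k0 : Set ℂ) (M.qs X X) (M.qs C' C') :=
  h.t'.free h.tX h.disj

theorem Tow.pr_inj (h : M.Tow C' X C1 C) {v : Fin g → ℂ} (hv : v ∈ A.rel C1 C')
    (h0 : A.pr X v = 0) : v = 0 := by
  rw [← A.pr_of_mem hv.1, ← h.sup, A.pr_sup_eq_zero_iff]
  exact ⟨A.pr_eq_zero_iff.2 hv.2, h0⟩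

/-- The tangent space of `z` over `k'`, if defined over `k'`, gives the second half of the special
case. -/
theorem Tow.special (h : M.Tow C' X C1 C) (h1 : M.H C1 C' + M.H C' C1 = finrank ℂ C1 + finrank ℂ C')
    (h2 : Ov (M.kq C') ((kil (M.k0 ∪ M.qs C' C')).map (dv (A.pr C1 M.z)))) : M.Special C' C1 := by
  have hk : kil (M.k0 ∪ M.qs C' C') ≤ kil (M.k0 : Set ℂ) := kil_anti subset_union_left
  have h3 : ∀ D ∈ kil (M.k0 ∪ M.qs C' C'), dv (A.pr C' M.z) D = 0 := fun D hD =>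
    dv_eq_zero.2 (kil_anti (subset_union_left.trans subset_union_right) hD)
  have h4 : (kil (M.k0 ∪ M.qs C' C')).map (dv (A.pr (A.rel C1 C') M.z)) =
      (kil (M.k0 ∪ M.qs C' C')).map (dv (A.pr C1 M.z)) :=
    Submodule.ext fun _ => exists_congr fun D => and_congr_right fun hD => by
      rw [M.ov.dv_pr (h.t1.1.rel h.t'.1) (hk hD), A.pr_rel h.le', ← M.ov.dv_pr h.t'.1 (hk hD),
        h3 D hD, sub_zero, M.ov.dv_pr h.t1.1 (hk hD)]
  have h5 := finrank_map_dv (M.k0 ∪ M.qs C' C') (A.pr C1 M.z)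
  have h6 := M.H_add_z h.t'.1 h.t'.1 h.le'
  rw [← h4] at h2 h5
  obtain ⟨c, hc⟩ := exists_center h2
  have h7 : ((kil (M.k0 ∪ M.qs C' C')).map (dv (A.pr (A.rel C1 C') M.z))).map (A.pr X) =
      (kil (M.k0 : Set ℂ)).map (dv (A.pr X M.z)) := by
    rw [h4, ← (h.free'.mono subset_union_left (subset_union_right.trans (subset_acl _))).map_kil
      (M.fin_zs X) _ fun D hD => dv_eq_zero.2 (kil_anti subset_union_right hD), ← Submodule.map_comp]
    exact Submodule.ext fun _ => exists_congr fun D => and_congr_right fun hD => by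
      rw [LinearMap.comp_apply, ← M.ov.dv_pr h.tX.1 (hk hD), A.pr_pr_of_le h.leX]
  have h8 : (kil (M.k0 ∪ M.qs C' C')).map (dv (A.pr (A.rel C1 C') M.z)) ≤ A.rel C1 C' := by
    rintro _ ⟨D, hD, rfl⟩
    rw [M.ov.dv_pr (h.t1.1.rel h.t'.1) (hk hD)]
    exact A.pr_mem _ _
  generalize (kil (M.k0 ∪ M.qs C' C')).map (dv (A.pr (A.rel C1 C') M.z)) = T at *
  have h9 : Ov (acl (M.k0 : Set ℂ)) (T.map (A.pr X)) := by
    refine (Ov.inf_field (h7 ▸ ov_map_dv _ _) (ov_iff_der.2 ?_)).mono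
      (h.free'.mono subset_union_left (subset_union_right.trans (subset_acl _))).inf_le
    rintro D hD _ ⟨x, hx, rfl⟩
    exact ⟨_, ov_iff_der.1 h2 D hD x hx, (M.ov.dv_pr h.tX.1 (hk hD) x).symm⟩
  refine ⟨h1, T, h8, ?_, M.fld.acl ▸ ov_iff_der.2 fun D hD x hx => ?_, c, hc⟩
  · rw [h6, h.t'.2, h5, add_comm]
    rfl
  · obtain ⟨y, hy, e⟩ := ov_iff_der.1 h9 D hD _ ⟨x, hx, rfl⟩
    rw [M.ov.dv_pr h.tX.1 hD, ← sub_eq_zero, ← map_sub] at e
    rwa [← sub_eq_zero.1 (h.pr_inj (sub_mem (h8 hy)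
      ((M.ov.ov_lie (h.t1.1.rel h.t'.1)).der hD (h8 hx))) e)]

/-- If `z` on `C1` lies in an affine space of the critical dimension over a field that contains
`z` on `A0` and `a` on `C1`, and has the full transcendence degree, the tower is special. -/
theorem Tow.special_of (h : M.Tow C' X C1 C) (hA : A.Btw C' A0 C1) (hne : A0 ≠ C1) {F : Set ℂ}
    (hF : (M.k0 : Set ℂ) ∪ M.qs A0 C1 ⊆ acl F) {J : Type} [Fintype J]
    (hn : Fintype.card J + finrank ℂ A0 = M.H C1 A0) {μ : J → Fin g → ℂ}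
    (hμ : ∀ l i, μ l i ∈ acl F)
    (hz : ∀ D ∈ kil F, dv (A.pr C1 M.z) D ∈ Submodule.span ℂ (range μ))
    (htr : Fintype.card J ≤ trd F (M.zs C1)) : M.Special C' C1 := by
  have h1 := trd_anti (M.fin_zs C1) hF
  have h2 := M.H_add_z hA.1 h.t1.1 hA.2.2
  have h3 := M.H_cross hA.1 hA.2.2
  have h4 : finrank ℂ A0 ≤ M.H A0 A0 := M.rot A0 hA.1
  have h5 := h.t1.2
  obtain rfl : A0 = C' := by_contra fun e => hne (le_antisymm hA.2.2
    (h.min A0 ⟨hA.1, by omega⟩ hA.2.1 e (hA.2.2.trans h.le)))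
  refine h.special (by omega) ?_
  have h6 := M.H_add_z hA.1 hA.1 hA.2.2
  have h7 : (M.k0 : Set ℂ) ∪ M.qs A0 A0 ⊆ acl F :=
    (union_subset (M.k0_sub _) (M.qs_le hA.1 hA.1 le_rfl hA.2.2)).trans (acl_le hF)
  have h8 := finrank_map_dv (M.k0 ∪ M.qs A0 A0) (A.pr C1 M.z)
  have h9 := finrank_map_dv F (A.pr C1 M.z)
  have h10 := finrank_range_le_card (R := ℂ) μ
  have h11 := h.t'.2
  unfold zs Set.finrank at *
  have e1 : (kil F).map (dv (A.pr C1 M.z)) = (kil (M.k0 ∪ M.qs A0 A0)).map (dv (A.pr C1 M.z)) :=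
    Submodule.eq_of_le_of_finrank_le (Submodule.map_mono (kil_le h7)) (by omega)
  have e2 : (kil F).map (dv (A.pr C1 M.z)) = Submodule.span ℂ (range μ) :=
    Submodule.eq_of_le_of_finrank_le (by rintro _ ⟨D, hD, rfl⟩; exact hz D hD) (by omega)
  have h12 : Free (M.k0 ∪ M.qs A0 A0) (range (A.pr C1 M.z)) F := free_of_trd (finite_range _) (by
    rw [trd_congr_base (finite_range _) (union_subset h7 (subset_acl F))
      (subset_union_right.trans (subset_acl _))]
    omega)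
  refine (Ov.inf_field (ov_map_dv _ _) ?_).mono h12.inf_le
  rw [← e1, e2]
  exact (ov_span (forall_mem_range.2 hμ)).mono (acl_mono subset_union_right)

end Model

end Pool.Agent.P.MP_f17f76_ag
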