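import Pool.Agent.P.MP_f17f76_ag.S.Alg
import Pool.Agent.P.MP_f17f76_ag.E.Hol2
import Pool.Agent.P.MP_f17f76_ag.E.Hs3

/-!
Interface of the main loop, analytic part: the state, the relation between consecutive states,
groups and blocks of rows, and the steps.
-/

namespace Pool.Agent.P.MP_f17f76_ag

open Module Set Matrix E N

noncomputable section

/-- A standard row applied to an internal vector. -/
def dot {g : ℕ} {R : Type} [AddCommMonoid R] [Module Cs R] (u : Fin g → ℂ) (x : Fin g → R) : R :=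
  ∑ k, co (u k) • x k

/-- `x` is an internal lattice vector in `U`. -/
def AbVar.Lat {g N : ℕ} (A : AbVar g N) (U : Sub g) (x : Fin g → Cs) : Prop :=
  Hold (fun _ v => v ∈ A.Λ ∧ v ∈ U) x

/-- The integer variables `ν i = n x i`. -/
def nuv {Jν : Type} (J : Type) [Fintype Jν] [Fintype J] (n : ℝ*) (i : Jν) : H (Jν ⊕ J) :=
  ofR n • xc (.inl i)

variable {g N : ℕ} {A : AbVar g N}

/-- The data of the state at `(A', Z)`: integer variables `Jν`, spatial variables `J`. -/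
structure Dat (g : ℕ) (Jν J : Type) [Fintype Jν] [Fintype J] where
  c : Subfield ℂ
  K : Subfield ℂ
  ι : K →+* H (Jν ⊕ J)
  n : ℝ*
  Lam : Fin g → MvPolynomial Jν Cs
  row : J → Fin g → ℂ
  π : J → MvPolynomial Jν Cs
  ρ : J → Cs

namespace Dat

variable {Jν J : Type} [Fintype Jν] [Fintype J] (s : Dat g Jν J)

/-- The integer variables. -/
def nu (i : Jν) : H (Jν ⊕ J) := nuv J s.n i

/-- Standard constants. -/
def Std : Set ℂ := {a | a ∈ s.c ∧ xt s.ι a = cn (co a)}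

/-- The reduced logarithm `ι z_(A') - Lam ν`. -/
def wt (M : Model A) (A' : Sub g) (k : Fin g) : H (Jν ⊕ J) :=
  xt s.ι (A.pr A' M.z k) - MvPolynomial.aeval s.nu (s.Lam k)

end Dat

/-- The state at `(A', Z)` above the tight subspace `C'` at the scale `T`. -/
structure Core (M : Model A) (C' : Sub g) (T : ℝ*) (Jν J : Type) [Fintype Jν] [Fintype J]
    (A' Z : Sub g) extends Dat g Jν J where
  inf : Ll 1 T
  tight : M.Tight C'
  btw : A.Btw C' A' Z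
  lie : A.IsLie Z
  fld : Fld (M.kq C') c
  free : Free ((M.k0 : Set ℂ) ∪ M.qs C' C') (M.qs ⊤ ⊤) c
  hK : K = acl ((c : Set ℂ) ∪ M.qs Z A')
  id : ∀ a ∈ M.k0, xt ι a = cn (co a)
  cst : ∀ a ∈ c, ∃ b, xt ι a = cn b
  stab : StabH ι
  pg : PG T ((ev 0).comp ι)
  npos : 0 < n
  nlo : Big T n
  nhi : Poly T n
  lat : ∀ α, A.Lat A' fun k => (Lam k).coeff α
  bdd : ∀ k, Lc (nm (ev 0 (toDat.wt M A' k))) 1
  var : ∀ k x, Pt x → Ll (nm (ev x (toDat.wt M A' k) - ev 0 (toDat.wt M A' k))) 1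
  exp : ∀ x, Pt x →
    A.Exp (evv x (toDat.wt M A')) fun j => ev x (xt ι (A.crd (A.pr A' M.w) j))
  du : ∀ l, row l ∈ A.du Z
  std : ∀ l k, row l k ∈ toDat.Std
  coord : ∀ l, xt ι (row l ⬝ᵥ M.z) = MvPolynomial.aeval toDat.nu (π l) + ρ l • xc (.inr l)
  rho : ∀ l, ¬ Tiny T (nm (ρ l))
  basis : ∀ D ∈ kil (c : Set ℂ), (∀ l, D (row l ⬝ᵥ M.z) = 0) →
    dv (A.pr A' M.z) D = A.dl (A.pr A' M.w) D → D ∈ kil (M.qs Z A')
  count : Fintype.card J + finrank ℂ A' = M.H Z A'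

/-- A block of the queue: a family on the subspace `B`, a matrix `G` and weights. -/
structure Blk (g : ℕ) where
  B : Sub g
  E : Subfield ℂ
  k1 : Subfield ℂ
  Nn : Sub g
  G : Matrix (Fin g) (Fin g) ℂ
  r : Fin g → ℝ*

/-- The algebraic clauses of a block on the interval `[Z₁, Z₂]`. -/
structure Blk.Ok (b : Blk g) (M : Model A) (κ : Sub g → ℕ) (Z₁ Z₂ : Sub g) : Prop where
  eq : b.B = A.rel Z₂ Z₁
  fam : M.Fam κ Z₁ Z₂ b.E b.Nn
  fld : Fld M.k0 b.k1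
  free : Free (M.k0 : Set ℂ) b.k1 b.E
  det : b.G.det ≠ 0
  mem : ∀ i j, b.G i j ∈ b.k1

variable {M : Model A} {C' : Sub g} {T : ℝ*} {Jν Jν' J J' : Type} [Fintype Jν] [Fintype Jν']
  [Fintype J] [Fintype J'] [DecidableEq Jν] [DecidableEq Jν'] [DecidableEq J] [DecidableEq J']
  {A' Z A'' Z'' : Sub g}

namespace Core

variable (s : Core M C' T Jν J A' Z)

/-- The reduced logarithm. -/
abbrev w : Fin g → H (Jν ⊕ J) := s.toDat.wt M A'

/-- The spatial derivatives of `ι a` at the origin. -/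
def dr (a : ℂ) (l : J) : Cs := ev 0 (dd (.inr l) (xt s.ι a))

/-- All spatial derivatives of `z_U` are bounded by a standard multiple of `a`. -/
def Rate (U : Sub g) (a : ℝ*) : Prop :=
  ∀ u ∈ A.du U, (∀ k, u k ∈ M.k0) → ∀ l, Lc (nm (s.dr (u ⬝ᵥ M.z) l)) a

/-- All spatial derivatives of `z_U` are infinitely smaller than `a`. -/
def Less (U : Sub g) (a : ℝ*) : Prop :=
  ∀ u ∈ A.du U, (∀ k, u k ∈ M.k0) → ∀ l, Ll (nm (s.dr (u ⬝ᵥ M.z) l)) a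

/-- `s'` refines `s` along the map `φ` of polydiscs; spatial lengths shrink by `η`. -/
structure Ref (η : ℝ*) (s' : Core M C' T Jν J' A'' Z'') (φ : Jν ⊕ J → H (Jν ⊕ J')) (h : Cs) :
    Prop where
  maps : Maps φ
  c : s.c ≤ s'.c
  K : s.K ≤ s'.K
  le : A' ≤ A''
  leZ : Z ≤ Z''
  ι : ∀ a ∈ s.K, xt s'.ι a = pull φ (xt s.ι a)
  nat : ∃ u : ℕ → ℕ, (∀ n, 0 < u n) ∧ h = qs fun n => u n
  nu : ∀ i, ∃ ν₀ : Cs, pull φ (s.nu i) = cn ν₀ + h • s'.nu i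
  wt : ∀ u ∈ A.du A', dot u s'.w = pull φ (dot u s.w)
  sp : ∀ l l', Lc (nm (ev 0 (dd (.inr l') (φ (.inr l))))) η

/-- What the bookkeeping needs from a step: bounds for spatial derivatives are multiplied
by `η`. -/
structure Tr (η : ℝ*) (s' : Core M C' T Jν' J' A'' Z'') : Prop where
  std : s.Std ⊆ s'.Std
  der : ∀ a ∈ s.K, ∀ b, 0 ≤ b → (∀ l, Lc (nm (s.dr a l)) b) → ∀ l, Lc (nm (s'.dr a l)) (η * b)

/-- The rows `I` form a group on `[V₁, V₂]` of rate `R`. -/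
structure Grp (κ : Sub g → ℕ) (V₁ V₂ : Sub g) (I : Set J) (R : ℝ*) : Prop where
  du : ∀ l ∈ I, s.row l ∈ A.du V₂
  rho : ∀ l ∈ I, nm (s.ρ l) = R
  card : finrank ℂ (Submodule.span ℂ (s.row '' I)) + κ V₁ = κ V₂
  rank : ∀ Q, A.Btw V₁ Q V₂ →
    κ Q ≤ κ V₁ + finrank ℂ (Submodule.span ℂ (s.row '' I) ⊓ ann (A.rel V₂ Q) : Sub g)
  rate : s.Rate (A.rel V₂ V₁) R

/-- The rows `I` belong to the block `b`, with defect exponent `d`. -/
structure Has (b : Blk g) (I : Set J) (d : ℕ) : Prop where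
  std : ∀ i j, b.G⁻¹ i j ∈ s.Std
  mem : ∀ l ∈ I, ∀ k, s.row l k ∈ acl ((b.k1 : Set ℂ) ∪ b.E)
  span : Submodule.span ℂ (s.row '' I) = b.Nn
  ent : ∀ l ∈ I, ∀ j, (s.row l ᵥ* b.G) j ≠ 0 → Lc (b.r j) (nm (s.ρ l))
  bd : ∀ j l, Lc (nm (s.dr ((b.G⁻¹ *ᵥ A.pr b.B M.z) j) l)) (T ^ d * b.r j)
  poly : ∀ j, Poly T (b.r j)

/-- `z_(C1)` drifts along the lattice vectors `μ i` of `C1 - A0`. -/
structure SL (C1 A0 : Sub g) (μ : Jν → Fin g → Cs) : Prop where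
  le : C1 ≤ Z
  lat : ∀ i, A.Lat (A.rel C1 A0) (μ i)
  var : ∀ k x, Pt x → ¬ Big T (nm (ev x (xt s.ι (A.pr C1 M.z k) - ∑ i, μ i k • s.nu i) -
    ev 0 (xt s.ι (A.pr C1 M.z k) - ∑ i, μ i k • s.nu i)))

/-- The passenger created by the step NU. -/
def P1 (C1 : Sub g) : Prop := ∃ A0 μ, s.SL C1 A0 μ ∧ A.Btw C' A0 C1 ∧ A0 ≠ C1 ∧
  Fintype.card Jν + finrank ℂ A0 = M.H C1 A0 ∧
  ∀ (v : Jν → Cs) i, Lc (nm (v i)) (∑ k, nm (∑ j, v j * μ j k))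

/-- The passenger created by the special start. -/
def P2 (C1 : Sub g) : Prop := ∃ μ, s.SL C1 C' μ ∧ ∃ u ∈ A.du (A.rel C1 C'), (∀ k, u k ∈ M.k0) ∧
  u ⬝ᵥ M.z ∈ M.kq C' ∧ ∃ i, ¬ Tiny T (nm (dot u (μ i)))

/-- The reduced logarithm is not frozen on `C1 - C'`. -/
def NF (C1 : Sub g) : Prop := C1 ≤ A' ∧ ∃ u ∈ A.du (A.rel C1 C'),
  (∀ l, dd (.inr l) (dot u s.w) = 0) ∧
    ∃ (i : Jν) (k : ℕ), ∀ x, Pt x → 1 ≤ nm (ev x (dd (.inl i) (dot u s.w))) * T ^ k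

/-- The hypothesis of NOFR: phase one, or not frozen. -/
def PH (C1 : Sub g) : Prop := ¬ C1 ≤ A' ∨ s.NF C1

end Core

/-- Bounds are transported along a refinement. -/
def S_DER : Prop := ∀ {g N : ℕ} {A : AbVar g N} {M : Model A} {C' : Sub g} {T : ℝ*}
  {Jν J J' : Type} [Fintype Jν] [Fintype J] [Fintype J'] [DecidableEq Jν] [DecidableEq J]
  [DecidableEq J'] {A' Z A'' Z'' : Sub g} (s : Core M C' T Jν J A' Z)
  (s' : Core M C' T Jν J' A'' Z'') (η : ℝ*) φ h, s.Ref η s' φ h → s.Tr η s'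

/-- The passengers are transported along a refinement. -/
def S_PASS : Prop := ∀ {g N : ℕ} {A : AbVar g N} {M : Model A} {C' : Sub g} {T : ℝ*}
  {Jν J J' : Type} [Fintype Jν] [Fintype J] [Fintype J'] [DecidableEq Jν] [DecidableEq J]
  [DecidableEq J'] {A' Z A'' Z'' : Sub g} (s : Core M C' T Jν J A' Z)
  (s' : Core M C' T Jν J' A'' Z'') (η : ℝ*) φ h (C1 : Sub g), A.IsLie C1 → s.Ref η s' φ h →
    (s.P1 C1 → s'.P1 C1) ∧ (s.P2 C1 → s'.P2 C1) ∧ (s.NF C1 → s'.NF C1)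

/-- The first state. -/
def S_START : Prop := ∀ {g N : ℕ} {A : AbVar g N} (M : Model A) (C' : Sub g), M.Tight C' →
  M.GS C' → ∃ T, Nonempty (Core M C' T Empty Empty C' C')

/-- The last state gives a generic solution. -/
def S_FIN : Prop := ∀ {g N : ℕ} {A : AbVar g N} {M : Model A} {C' : Sub g} {T : ℝ*}
  {Jν J : Type} [Fintype Jν] [Fintype J] {C : Sub g}, Core M C' T Jν J C C → M.GS C

/-- Absorption of `U - A'`, on which `a` is generic; `r` bounds the rate of `z_(U - A')`. -/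
def S_ABS : Prop := ∀ {g N : ℕ} {A : AbVar g N} {M : Model A} {C' X C1 C : Sub g} {T : ℝ*}
  {Jν J : Type} [Fintype Jν] [Fintype J] [DecidableEq Jν] [DecidableEq J] {A' Z : Sub g}
  (s : Core M C' T Jν J A' Z) (U : Sub g) (r η : ℝ*), M.Tow C' X C1 C → Z ≤ C → s.PH C1 →
    A.Btw A' U Z → M.H Z U + finrank ℂ A' = M.H Z A' + finrank ℂ U →
    s.Rate (A.rel U A') r → 1 ≤ r → ¬ Tiny T η → Ll (η * r) 1 →
    ∃ (s' : Core M C' T Jν J U Z) (φ : _) (h : _), s.Ref η s' φ h ∧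
      ∀ l, s'.row l = s.row l ∧ nm (s'.ρ l) = η * nm (s.ρ l)

/-- No combination of the rows of the first group lives on a slower part. -/
def S_SPLIT : Prop := ∀ {g N : ℕ} {A : AbVar g N} {M : Model A} {C' : Sub g} {T : ℝ*}
  {Jν J : Type} [Fintype Jν] [Fintype J] [DecidableEq Jν] [DecidableEq J] {A' Z : Sub g}
  (s : Core M C' T Jν J A' Z) (Q V : Sub g) (I : Set J) (R : ℝ*), A.Btw A' Q V → A.Btw Q V Z →
    (∀ l ∈ I, s.row l ∈ A.du V) → (∀ l ∈ I, nm (s.ρ l) = R) → Ll 1 R → s.Less (A.rel Q A') R →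
    Submodule.span ℂ (s.row '' I) ⊓ ann (A.rel V Q) = ⊥

/-- The main step `(A', Z) → (A'', Z'')`: the first group `I` is consumed and a new block on
`[Z, Z'']` is created. -/
def S_GF : Prop := ∀ {g N : ℕ} {A : AbVar g N} {M : Model A} {C' X C1 C : Sub g} {T : ℝ*}
  {Jν J : Type} [Fintype Jν] [Fintype J] [DecidableEq Jν] [DecidableEq J] {A' Z : Sub g}
  (s : Core M C' T Jν J A' Z) (κ : Sub g → ℕ) (A'' Z'' : Sub g) (I : Finset J) (R : ℝ*),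
    M.Tow C' X C1 C → s.PH C1 → A.Btw A' A'' Z → A.Btw Z Z'' C →
    (∃ E Nn, M.Fam κ Z Z'' E Nn) →
    (∀ Qa Q, A.Btw A' Qa A'' → A.Btw Z Q Z'' → M.Ineq κ Qa Q) → M.Eqn κ A' Z → M.Eqn κ A'' Z'' →
    s.Grp κ A' A'' I R → 1 ≤ R → Poly T R → (A'' ≠ A' → Ll 1 R ∧ I.Nonempty) →
    (∀ Q, A.Btw A' Q A'' → s.Less (A.rel Q A') R → Q = A') →
    ∃ k d : ℕ, ∀ (lo : ℕ) (e₀ : ℝ*), Ll e₀ 1 →
      ∃ (e : ℝ*) (s' : Core M C' T Jν ({l // l ∉ I} ⊕ Fin k) A'' Z'') (φ : _) (h : _) (b : Blk g),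
        e₀ ≤ e ∧ Ll e 1 ∧ s.Ref (e / R) s' φ h ∧
        (∀ l, s'.row (.inl l) = s.row l ∧ nm (s'.ρ (.inl l)) = e / R * nm (s.ρ l)) ∧
        b.Ok M κ Z Z'' ∧ s'.Has b (range .inr) d ∧ ∀ j, T ^ lo ≤ b.r j

/-- The first block of the queue becomes the current block. -/
def S_NEXT : Prop := ∀ g : ℕ, ∃ f : ℕ → ℕ, ∀ {N : ℕ} {A : AbVar g N} {M : Model A} {C' : Sub g}
  {T : ℝ*} {Jν J : Type} [Fintype Jν] [Fintype J] [DecidableEq Jν] [DecidableEq J] {A' Z : Sub g}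
  (s : Core M C' T Jν J A' Z) (κ : Sub g → ℕ) (Z₁ : Sub g) (b : Blk g) (I : Set J) (d : ℕ),
    A.Btw A' Z₁ Z → A' ≠ Z₁ → b.Ok M κ A' Z₁ → s.Has b I d → (∀ j, Ll 1 (b.r j)) →
    ∃ (s' : Core M C' T Jν J A' Z) (φ : _) (h : _) (η : ℝ*) (q : ℕ) (V : ℕ → Sub g)
      (R : ℕ → ℝ*) (lab : J → ℕ), s.Ref 1 s' φ h ∧ η ≤ 1 ∧ 1 ≤ η * T ^ f d ∧
      (∀ l ∉ I, s'.row l = s.row l ∧ nm (s'.ρ l) = η * nm (s.ρ l)) ∧
      V 0 = A' ∧ V q = Z₁ ∧ (∀ l ∈ I, lab l < q) ∧ (∀ i i', i < i' → i' < q → Ll (R i) (R i')) ∧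
      ∀ i < q, A.IsLie (V i) ∧ V i ≤ V (i + 1) ∧
        s'.Grp κ (V i) (V (i + 1)) {l ∈ I | lab l = i} (R i) ∧
        (∃ j, Lc (b.r j) (T ^ f d * R i)) ∧ ∃ j, Lc (R i) (T ^ f d * b.r j)

/-- Creation of the integer variables. -/
def S_NU : Prop := ∀ {g N : ℕ} {A : AbVar g N} {M : Model A} {C' : Sub g} {T : ℝ*}
  {J : Type} [Fintype J] [DecidableEq J] {A0 C1 : Sub g} (s : Core M C' T Empty J A0 C1)
  (R η : ℝ*), A0 ≠ C1 → 0 < R → Big T R → Poly T R → s.Rate (A.rel C1 A0) R →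
    (∀ l, ¬ Big T (R / nm (s.ρ l))) → ¬ Tiny T η → ¬ Big T (η * R) →
    ∃ s' : Core M C' T J J A0 C1, s.Tr η s' ∧ s'.P1 C1 ∧
      ∀ l, s'.row l = s.row l ∧ nm (s'.ρ l) = η * nm (s.ρ l)

/-- The start in the special case: one group on `[C', C1]`. -/
def S_SPEC : Prop := ∀ {g N : ℕ} {A : AbVar g N} (M : Model A) (C' X C1 C : Sub g),
  M.Tow C' X C1 C → M.GS C' → M.Special C' C1 →
    ∃ (T : ℝ*) (n : ℕ) (s : Core M C' T Unit (Fin n) C' C1) (R : ℝ*), Ll 1 R ∧ Poly T R ∧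
      s.P2 C1 ∧ s.Grp (fun Q => g + finrank ℂ Q - M.H C1 Q) C' C1 univ R

/-- The end of phase one after NU. -/
def S_END1 : Prop := ∀ {g N : ℕ} {A : AbVar g N} {M : Model A} {C' X C1 C : Sub g} {T : ℝ*}
  {Jν J : Type} [Fintype Jν] [Fintype J] [DecidableEq Jν] [DecidableEq J]
  (s : Core M C' T Jν J C1 C1), M.Tow C' X C1 C → s.P1 C1 →
    (∃ s' : Core M C' T Jν J C1 C1, s'.NF C1) ∨ M.Special C' C1

/-- The end of phase one after the special start. -/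
def S_END2 : Prop := ∀ {g N : ℕ} {A : AbVar g N} {M : Model A} {C' X C1 C : Sub g} {T : ℝ*}
  {Jν J : Type} [Fintype Jν] [Fintype J] [DecidableEq Jν] [DecidableEq J]
  (s : Core M C' T Jν J C1 C1), M.Tow C' X C1 C → s.P2 C1 → s.NF C1

end

end Pool.Agent.P.MP_f17f76_ag
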