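import Pool.Agent.P.MP_f17f76_ag.E.Tw1
import Pool.Agent.P.MP_f17f76_ag.S.Alg

/-!
Tight subspaces and the tower.
-/

namespace Pool.Agent.P.MP_f17f76_ag

open Set Module E N AbVar

variable {g N : ℕ} {A : AbVar g N} {P₁ P₂ Q₁ Q₂ U U' C C' X C1 : Sub g}

theorem AbVar.Btw.left (h : A.IsLie Q₁) (h' : Q₁ ≤ Q₂) : A.Btw Q₁ Q₁ Q₂ := ⟨h, le_rfl, h'⟩

theorem AbVar.Btw.right (h : A.IsLie Q₂) (h' : Q₁ ≤ Q₂) : A.Btw Q₁ Q₂ Q₂ := ⟨h, h', le_rfl⟩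

theorem AbVar.Btw.mono (h : A.Btw Q₁ U Q₂) (h₁ : P₁ ≤ Q₁) (h₂ : Q₂ ≤ P₂) : A.Btw P₁ U P₂ :=
  ⟨h.1, h₁.trans h.2.1, h.2.2.trans h₂⟩

theorem AbVar.Btw.le (h : A.Btw Q₁ U Q₂) : Q₁ ≤ Q₂ := h.2.1.trans h.2.2

theorem AbVar.Btw.sup (h : A.Btw Q₁ U Q₂) (h' : A.Btw Q₁ U' Q₂) : A.Btw Q₁ (U ⊔ U') Q₂ :=
  ⟨h.1.sup h'.1, h.2.1.trans le_sup_left, sup_le h.2.2 h'.2.2⟩

theorem AbVar.Btw.inf (h : A.Btw Q₁ U Q₂) (h' : A.Btw Q₁ U' Q₂) : A.Btw Q₁ (U ⊓ U') Q₂ :=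
  ⟨h.1.inf h'.1, le_inf h.2.1 h'.2.1, inf_le_left.trans h.2.2⟩

theorem AbVar.Btw.eq (h : A.Btw Q₁ U Q₁) : U = Q₁ := le_antisymm h.2.2 h.2.1

theorem Fld.of_acl {k : Subfield ℂ} {S : Set ℂ} (hS : S.Countable) (hk : (k : Set ℂ) ⊆ E.acl S) :
    Fld k (E.acl S) := ⟨countable_acl hS, acl_acl S, hk⟩

theorem Fld.isAlgClosed {k F : Subfield ℂ} (h : Fld k F) : IsAlgClosed F :=
  h.acl ▸ (inferInstance : IsAlgClosed (E.acl (F : Set ℂ)))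

theorem Fld.sub {k F : Subfield ℂ} (h : Fld k F) : (k : Set ℂ) ⊆ E.acl (F : Set ℂ) :=
  Subset.trans h.le (subset_acl _)

theorem xt_of_mem {K : Subfield ℂ} {R : Type} [CommRing R] (ι : K →+* R) {a : ℂ} (h : a ∈ K) :
    xt ι a = ι ⟨a, h⟩ := dif_pos h

namespace Model

variable (M : Model A)

theorem qs_eq (Q₁ Q₂ : Sub g) : M.qs Q₁ Q₂ = A.qq M.z M.w Q₁ Q₂ := rfl

theorem H_eq (Q₁ Q₂ : Sub g) : M.H Q₁ Q₂ = A.HH M.k0 M.z M.w Q₁ Q₂ := rfl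

theorem ksub : (M.k0 : Set ℂ) ⊆ acl (M.k0 : Set ℂ) := subset_acl _

theorem finite_qs (Q₁ Q₂ : Sub g) : (M.qs Q₁ Q₂).Finite := A.finite_qq _ _ _ _

theorem zs_sub (Q₁ Q₂ : Sub g) : M.zs Q₁ ⊆ M.qs Q₁ Q₂ := subset_union_left

theorem as_sub (Q₁ Q₂ : Sub g) : M.as Q₂ ⊆ M.qs Q₁ Q₂ := subset_union_right

theorem fld_kq (U : Sub g) : Fld M.k0 (M.kq U) :=
  Fld.of_acl (M.fld.cnt.union (M.finite_qs U U).countable) (acl_ul _ _)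

theorem qs_kq (U : Sub g) : M.qs U U ⊆ M.kq U := acl_ur _ _

theorem le_H (hU : A.IsLie U) : finrank ℂ U ≤ M.H U U := M.rot U hU

theorem H_mono (l₁ : A.IsLie P₁) (l₂ : A.IsLie P₂) (h₁ : P₁ ≤ Q₁) (h₂ : P₂ ≤ Q₂) :
    M.H P₁ P₂ ≤ M.H Q₁ Q₂ := M.ov.HH_mono M.ksub l₁ l₂ h₁ h₂

theorem le_H' (hU : A.IsLie U) (h : U ≤ U') : finrank ℂ U ≤ M.H U' U :=
  (M.le_H hU).trans (M.H_mono hU hU h le_rfl)

theorem H_submod (l₁ : A.IsLie P₁) (l₂ : A.IsLie P₂) (m₁ : A.IsLie Q₁) (m₂ : A.IsLie Q₂) :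
    M.H (P₁ ⊓ Q₁) (P₂ ⊓ Q₂) + M.H (P₁ ⊔ Q₁) (P₂ ⊔ Q₂) ≤ M.H P₁ P₂ + M.H Q₁ Q₂ :=
  M.ov.HH_submod M.ksub l₁ l₂ m₁ m₂

theorem H_le_right (m₁ : A.IsLie Q₁) (l₂ : A.IsLie P₂) (m₂ : A.IsLie Q₂) (h₂ : P₂ ≤ Q₂) :
    M.H Q₁ Q₂ + finrank ℂ P₂ ≤ M.H Q₁ P₂ + finrank ℂ Q₂ := M.ov.HH_le_right M.ksub m₁ l₂ m₂ h₂

theorem H_le_left (l₁ : A.IsLie P₁) (m₁ : A.IsLie Q₁) (m₂ : A.IsLie Q₂) (h₁ : P₁ ≤ Q₁) :
    M.H Q₁ Q₂ + finrank ℂ P₁ ≤ M.H P₁ Q₂ + finrank ℂ Q₁ := M.ov.HH_le_left M.ksub l₁ m₁ m₂ h₁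

theorem H_add (l₁ : A.IsLie P₁) (l₂ : A.IsLie P₂) (h₁ : P₁ ≤ Q₁) (h₂ : P₂ ≤ Q₂) :
    M.H Q₁ Q₂ = M.H P₁ P₂ + trd ((M.k0 : Set ℂ) ∪ M.qs P₁ P₂) (M.qs Q₁ Q₂) :=
  M.ov.HH_add M.ksub l₁ l₂ h₁ h₂

/-- The transcendence degree over a field `c ≥ k'` that is free from the point over `k'`. -/
theorem H_free (hC : M.Tight C') (h₁ : C' ≤ Q₁) (h₂ : C' ≤ Q₂) {c : Set ℂ}
    (hc : (M.kq C' : Set ℂ) ⊆ acl c) (hf : E.Free (M.kq C' : Set ℂ) (M.qs Q₁ Q₂) c) :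
    M.H Q₁ Q₂ = finrank ℂ C' + trd c (M.qs Q₁ Q₂) := by
  rw [M.H_add hC.1 hC.1 h₁ h₂, hC.2, ← trd_acl_base (M.finite_qs _ _),
    ← trd_congr_base (M.finite_qs _ _) (union_subset hc (subset_acl c)) (acl_ur _ c),
    hf _ subset_rfl (M.finite_qs _ _)]
  rfl

theorem H_kq (hC : M.Tight C') (h₁ : C' ≤ Q₁) (h₂ : C' ≤ Q₂) :
    M.H Q₁ Q₂ = finrank ℂ C' + trd (M.kq C' : Set ℂ) (M.qs Q₁ Q₂) := by
  rw [M.H_add hC.1 hC.1 h₁ h₂, hC.2, ← trd_acl_base (M.finite_qs _ _)]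
  rfl

theorem tight_of_le (hU : A.IsLie U) (hle : M.H U U ≤ finrank ℂ U) : M.Tight U :=
  ⟨hU, le_antisymm hle (M.rot U hU)⟩

theorem tight_bot : M.Tight ⊥ :=
  ⟨isLie_bot, by rw [finrank_bot, H_eq, HH_eq_zero_iff]; exact M.ov.qq_bot M.ksub⟩

theorem tight_top : M.Tight ⊤ :=
  ⟨isLie_top, by rw [H, qs, zs, as, pr_top, pr_top, M.top, finrank_top, finrank_fin_fun]⟩

variable {M}

theorem Tight.sup_inf (h₁ : M.Tight U) (h₂ : M.Tight U') : M.Tight (U ⊔ U') ∧ M.Tight (U ⊓ U') := by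
  have h3 := M.H_submod h₁.1 h₁.1 h₂.1 h₂.1
  have h4 := M.le_H (h₁.1.sup h₂.1)
  have h5 := M.le_H (h₁.1.inf h₂.1)
  have h6 := Submodule.finrank_sup_add_finrank_inf_eq U U'
  rw [h₁.2, h₂.2] at h3
  exact ⟨⟨h₁.1.sup h₂.1, by omega⟩, h₁.1.inf h₂.1, by omega⟩

theorem Tight.sup (h₁ : M.Tight U) (h₂ : M.Tight U') : M.Tight (U ⊔ U') := (h₁.sup_inf h₂).1

theorem Tight.inf (h₁ : M.Tight U) (h₂ : M.Tight U') : M.Tight (U ⊓ U') := (h₁.sup_inf h₂).2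

/-- Disjoint tight subspaces are independent. -/
theorem Tight.free (h₁ : M.Tight U) (h₂ : M.Tight U') (h : U ⊓ U' = ⊥) :
    E.Free (M.k0 : Set ℂ) (M.qs U' U') (M.qs U U) := by
  refine free_of_trd (M.finite_qs _ _) ?_
  have h13 := trd_union (F := (M.k0 : Set ℂ)) (M.finite_qs U U) (M.finite_qs U' U')
  have h19 : M.qs (U ⊔ U') (U ⊔ U') ⊆ acl ((M.k0 : Set ℂ) ∪ (M.qs U U ∪ M.qs U' U')) :=
    M.ov.qq_sup (acl_ul _ _) h₁.1 h₁.1 h₂.1 h₂.1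
      (subset_union_left.trans (acl_ur _ _)) (subset_union_right.trans (acl_ur _ _))
  have h14 := trd_le ((M.finite_qs U U).union (M.finite_qs U' U')) h19
  have h15 := Submodule.finrank_sup_add_finrank_inf_eq U U'
  have h16 := (h₁.sup h₂).2
  have h17 := h₁.2
  have h18 := h₂.2
  rw [h, finrank_bot] at h15
  rw [H] at h16 h17 h18
  omega

theorem Tow.le' (t : M.Tow C' X C1 C) : C' ≤ C1 := t.sup ▸ le_sup_left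

theorem Tow.leX (t : M.Tow C' X C1 C) : X ≤ C1 := t.sup ▸ le_sup_right

theorem Tow.lt (t : M.Tow C' X C1 C) : C' < C1 :=
  lt_of_le_of_ne t.le' fun e => t.ne (by rw [← t.disj, inf_eq_right.2 (e ▸ t.leX)])

theorem Tow.free (t : M.Tow C' X C1 C) : E.Free (M.k0 : Set ℂ) (M.qs X X) (M.kq C') :=
  (t.t'.free t.tX t.disj).acl_right

theorem Tow.sub_k0 (t : M.Tow C' X C1 C) {T : Set ℂ} (h₁ : T ⊆ M.qs X X) (h₂ : T ⊆ M.kq C') :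
    T ⊆ M.k0 := by
  have h3 := (M.finite_qs X X).subset h₁
  have h4 := (trd_eq_zero_iff h3).1 ((t.free T h₁ h3).symm.trans
    ((trd_eq_zero_iff h3).2 (h₂.trans (acl_ur _ _))))
  rwa [M.fld.acl] at h4

/-- `z_(C1)` is not algebraic over `q_(C')`. -/
theorem Tow.nz (t : M.Tow C' X C1 C) : ¬ M.zs C1 ⊆ M.kq C' := fun e =>
  M.frz X t.tX.1 t.ne (t.sub_k0 (M.zs_sub X X) (M.ov.pr_le t.tX.1 t.leX (acl_ul _ _) e))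

/-- `a_(C1)` is not algebraic over `q_(C')`. -/
theorem Tow.na (t : M.Tow C' X C1 C) : ¬ M.as C1 ⊆ M.kq C' := fun e =>
  M.fra X t.tX.1 t.ne (t.sub_k0 (M.as_sub X X) (M.ov.crd_pr_le t.tX.1 t.leX (acl_ul _ _) e))

/-- A subspace between `C'` and `C` of predimension at most zero is `C'` or contains `C1`. -/
theorem Tow.eq_or_le (t : M.Tow C' X C1 C) (hU : A.Btw C' U C) (hle : M.H U U ≤ finrank ℂ U) :
    U = C' ∨ C1 ≤ U :=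
  or_iff_not_imp_left.2 fun e => t.min U (M.tight_of_le hU.1 hle) hU.2.1 e hU.2.2

/-- No part of `z` above `C'` is algebraic over `q_(C')`. -/
theorem Tow.eq_of_z (t : M.Tow C' X C1 C) (hU : A.Btw C' U C) (hz : M.zs U ⊆ M.kq C') :
    U = C' := by
  refine (t.eq_or_le hU ?_).resolve_right fun e => t.nz (M.ov.pr_le t.t1.1 e (acl_ul _ _) hz)
  have h1 := M.H_le_right hU.1 t.t'.1 hU.1 hU.2.1
  have h2 := M.H_add t.t'.1 t.t'.1 hU.2.1 le_rfl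
  rw [(trd_eq_zero_iff (M.finite_qs _ _)).2
    (union_subset hz ((M.as_sub C' C').trans (acl_ur _ _))), t.t'.2] at h2
  omega

/-- No part of `a` above `C'` is algebraic over `q_(C')`. -/
theorem Tow.eq_of_a (t : M.Tow C' X C1 C) (hU : A.Btw C' U C) (ha : M.as U ⊆ M.kq C') :
    U = C' := by
  refine (t.eq_or_le hU ?_).resolve_right fun e => t.na (M.ov.crd_pr_le t.t1.1 e (acl_ul _ _) ha)
  have h1 := M.H_le_left t.t'.1 hU.1 hU.1 hU.2.1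
  have h2 := M.H_add t.t'.1 t.t'.1 le_rfl hU.2.1
  rw [(trd_eq_zero_iff (M.finite_qs _ _)).2
    (union_subset ((M.zs_sub C' C').trans (acl_ur _ _)) ha), t.t'.2] at h2
  omega

/-- Below `C1` the vector `z_(C1)` is never absorbed. -/
theorem Tow.lt_H (t : M.Tow C' X C1 C) (hU : A.Btw C' U C1) (hne : U ≠ C1) :
    finrank ℂ U < M.H C1 U := by
  by_contra hle
  rcases t.eq_or_le (hU.mono le_rfl t.le) ((M.H_mono hU.1 hU.1 hU.2.2 le_rfl).trans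
    (not_lt.1 hle)) with rfl | e
  · have h2 := M.H_add t.t'.1 t.t'.1 t.le' le_rfl
    rw [t.t'.2] at h2
    exact t.nz ((M.zs_sub C1 U).trans ((trd_eq_zero_iff (M.finite_qs _ _)).1 (by omega)))
  · exact hne (le_antisymm hU.2.2 e)

/-- The last group of the last block of phase one is not empty. -/
theorem Tow.lt_of_eqn (t : M.Tow C' X C1 C) {κ : Sub g → ℕ} (hU : A.Btw C' U C1) (hne : U ≠ C1)
    (h : M.Eqn κ U C1) : κ U < κ C1 := by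
  have := t.lt_H hU hne
  rw [Eqn] at h
  omega

end Model

theorem s_tow : S_TOW := fun {g N A} M C hC h0 => by
  obtain ⟨X, ⟨h1, h2, h3⟩, h4⟩ := exists_min_sub (p := fun X => M.Tight X ∧ X ≠ ⊥ ∧ X ≤ C)
    ⟨C, hC, h0, le_rfl⟩
  obtain ⟨C', ⟨h5, h6, h7⟩, h8⟩ := exists_max_sub
    (p := fun U => M.Tight U ∧ U ≤ C ∧ ¬ X ≤ U) ⟨⊥, M.tight_bot, bot_le, mt le_bot_iff.1 h2⟩
  exact ⟨C', X, _, h5, h1, h5.sup h1, hC, h2, by_contra fun e => h4 _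
    ⟨h5.inf h1, e, inf_le_right.trans h3⟩ (lt_of_le_of_ne inf_le_right fun e' =>
      h7 (inf_eq_right.1 e')), rfl, sup_le h6 h3, fun U hU h9 h10 h11 => sup_le h9
        (by_contra fun e => h8 U ⟨hU, h11, e⟩ (lt_of_le_of_ne h9 h10.symm))⟩

theorem s_hb : S_HB := fun M => ⟨M.tight_top, fun _ _ _ h₁ h₂ h₃ h => M.H_le_right h₁ h₂ h₃ h⟩

theorem s_gs0 : S_GS0 := fun {g N A} M => by
  have h1 : ∀ a ∈ M.kq ⊥, xt (co.comp (M.kq ⊥).subtype) a = co a := fun a ha => xt_of_mem _ ha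
  refine ⟨co.comp (M.kq ⊥).subtype, fun a ha => h1 a ((M.fld_kq ⊥).le ha),
    co (piv (A.θ 0))⁻¹, fun j => ?_⟩
  dsimp only
  rw [h1 _ (M.qs_kq ⊥ (Or.inr ⟨j, rfl⟩)), show (fun k => xt (co.comp (M.kq ⊥).subtype)
    (A.pr ⊥ M.z k)) = vec fun _ => 0 from funext fun k => by
      rw [h1 _ (M.qs_kq ⊥ (Or.inl ⟨k, rfl⟩)), pr_bot]
      rfl, app_vec, pr_bot, ← co_eq, ← map_mul]
  rfl

end Pool.Agent.P.MP_f17f76_ag
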