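import Pool.Agent.P.MP_f17f76_ag.S.NofrA
import Pool.Agent.P.MP_f17f76_ag.S.St
import Pool.Agent.P.MP_f17f76_ag.S.Tow
import Pool.Agent.P.MP_f17f76_ag.S.EndA
import Pool.Agent.P.MP_f17f76_ag.E.Red
import Pool.Agent.P.MP_f17f76_ag.K.HV

/-!
No frozen quotient, genericity of the state over the constants, and the extension of the
embedding in an absorption step.
-/

namespace Pool.Agent.P.MP_f17f76_ag

open Module Set E N MvPolynomial AbVar

set_option linter.unusedSectionVars false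

variable {g N : ℕ} {A : AbVar g N} {M : Model A} {C' X C1 C : Sub g} {T : ℝ*} {Jν J : Type}
  [Fintype Jν] [Fintype J] [DecidableEq Jν] [DecidableEq J] {A' Z U : Sub g}

theorem dot_lx_pr {I : Type} [Fintype I] {u : Fin g → ℂ} (hu : u ∈ A.du U) (x : Fin g → H I) :
    dot u (lx (A.pr U) x) = dot u x := by
  simp only [dot, lx_apply, Finset.smul_sum]
  rw [Finset.sum_comm]
  refine Finset.sum_congr rfl fun i _ => ?_
  have := A.dot_pr hu (Pi.single i 1)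
  rw [dotProduct_single_one] at this
  rw [← this, dotProduct, map_sum, Finset.sum_smul]
  exact Finset.sum_congr rfl fun k _ => by
    rw [map_mul, mul_smul, Algebra.smul_def (co (A.pr _ _ _))]
    rfl

namespace Core

variable (s : Core M C' T Jν J A' Z)

theorem nf_c : (s.c : Set ℂ) ⊆ s.K := s.hK ▸ acl_ul _ _

theorem nf_q : M.qs Z A' ⊆ s.K := s.hK ▸ acl_ur _ _

theorem nf_k : M.k0 ≤ s.c := (M.fld_kq C').le.trans s.fld.le

theorem nf_cnt : ((s.c : Set ℂ) ∪ M.qs Z A').Countable :=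
  s.fld.cnt.union (M.finite_qs _ _).countable

theorem nf_z (hU : A.IsLie U) (h : U ≤ Z) (k : Fin g) : A.pr U M.z k ∈ s.K :=
  s.hK ▸ M.ov.pr_le hU h (acl_tl (Subset.trans s.nf_k (subset_acl _)) _)
    ((M.zs_sub Z A').trans (acl_ur _ _)) ⟨k, rfl⟩

theorem nf_xt {a : ℂ} (h : a ∈ s.K) : xt s.ι a ∈ PB (Jν ⊕ J) s.inf :=
  xt_of_mem s.ι h ▸ s.stab.mem_PB s.inf s.pg _

theorem nf_w (k : Fin g) : s.w k ∈ PB (Jν ⊕ J) s.inf := fun x hx =>
  poly_of_lc s.inf (lc_of_near (s.var k x hx.pt) (s.bdd k))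

theorem nf_n : cn (ofR s.n) ∈ PB (Jν ⊕ J) s.inf :=
  cn_mem_PB s.inf (by simpa [abs_of_pos s.npos] using s.nhi)

theorem nf_dd (l : J) (p : MvPolynomial Jν Cs) : dd (.inr l) (aeval s.nu p) = 0 := by
  induction p using MvPolynomial.induction_on with
  | C a => simp [algebraMap_eq_cn]
  | add p q hp hq => simp [hp, hq]
  | mul_X p i hp => simp [hp, Dat.nu, nuv, dd_xc]

/-- A map `j` that is the identity on `K`. -/
theorem exists_tau : ∃ τ : Tau (Jν ⊕ J) s.inf, ∀ a ∈ s.K, τ.R a (xt s.ι a) :=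
  (exists_tau' s.inf (s.hK ▸ countable_acl s.nf_cnt) (s.stab.mem_PB s.inf s.pg)).imp
    fun _ h a ha => xt_of_mem s.ι ha ▸ ⟨_, h ⟨a, ha⟩⟩

/-- The constants and the integer variables. -/
def nfG (τ : Tau (Jν ⊕ J) s.inf) : Set ℂ :=
  (csts (range τ.D) : Set ℂ) ∪ range fun i => τ.f (xc (.inl i))

variable {τ : Tau (Jν ⊕ J) s.inf}

theorem nf_cn {a : Cs} (h : cn a ∈ PB (Jν ⊕ J) s.inf) : τ.f (cn a) ∈ acl (s.nfG τ) :=
  acl_ul _ _ (mem_csts.2 (forall_mem_range.2 (τ.r_f h).der_cn))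

theorem nf_aeval {p : MvPolynomial Jν Cs} (h : aeval s.nu p ∈ PB (Jν ⊕ J) s.inf) :
    τ.f (aeval s.nu p) ∈ acl (s.nfG τ) := by
  have h1 : ofR s.n ≠ 0 := by simpa using s.npos.ne'
  have h2 := poly_coeff s.inf (w := s.nu) (fun i => by simp [Dat.nu, nuv, ev_xc .zero])
    (fun i => ⟨.inl i, (ofR s.n)⁻¹, poly_of_lc s.inf (.of_le (by
      simpa [abs_of_pos s.npos] using inv_le_one_of_one_le₀ (s.nlo.ll s.inf s.npos.le).le)),
      fun t => by
        simp [Dat.nu, nuv, dd_xc, Algebra.smul_def, algebraMap_eq_cn, ← map_mul, h1]⟩) h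
  have h3 := fun i => (τ.r_f s.nf_n).mul (τ.r_f (xc_mem_PB s.inf (.inl i)))
  exact Tau.aeval_mem (O := (acl (s.nfG τ)).toSubring) (fun i => (h3 i).mem) h2
    (fun m => s.nf_cn (cn_mem_PB _ (h2 m))) fun i => (h3 i).f_eq ▸
      mul_mem (s.nf_cn s.nf_n) (acl_ur _ _ ⟨i, rfl⟩)

variable (hτ : ∀ a ∈ s.K, τ.R a (xt s.ι a))
include hτ

theorem nf_id (a : ℂ) (h : a ∈ M.k0) : τ.R a (cn (co a)) := s.id a h ▸ hτ a (s.nf_c (s.nf_k h))

theorem nf_cst : (s.c : Set ℂ) ⊆ csts (range τ.D) := fun a ha =>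
  let ⟨_, h⟩ := s.cst a ha
  mem_csts.2 (forall_mem_range.2 (h ▸ hτ a (s.nf_c ha)).der_cn)

theorem nf_kG : (M.k0 : Set ℂ) ⊆ acl (s.nfG τ) :=
  (Subset.trans s.nf_k (s.nf_cst hτ)).trans (acl_ul _ _)

theorem nf_K : (s.K : Set ℂ) ⊆ acl (s.nfG τ ∪ M.qs Z A') :=
  s.hK ▸ acl_mono (union_subset_union_left _ ((s.nf_cst hτ).trans subset_union_left))

/-- The logarithmic derivative is the derivative of the reduced logarithm. -/
theorem tau_dl (i : Jν ⊕ J) (k : Fin g) :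
    τ.R (A.dl (A.pr A' M.w) (τ.D i) k) (dd i (s.w k)) := by
  obtain ⟨j, hj⟩ := exists_nrm_eq_one (A.ne_zero (A.pr A' M.w))
  exact M.ov.tau_dl (s.nf_id hτ) s.nf_w (y := fun j => xt s.ι (A.crd (A.pr A' M.w) j)) (i := j)
    (by rw [show A.crd _ j = 1 from hj, xt_of_mem _ (one_mem _)]; exact map_one _) s.exp
    (A.piv_inv_ne _) (fun j => hτ _ (s.nf_q (.inr ⟨j, rfl⟩))) i k

theorem nf_sub {a : ℂ} (ha : a ∈ s.K) {p : MvPolynomial Jν Cs}
    (h : xt s.ι a - aeval s.nu p ∈ PB (Jν ⊕ J) s.inf) :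
    a - τ.f (xt s.ι a - aeval s.nu p) ∈ acl (s.nfG τ) := by
  have h1 := (hτ a ha).sub (τ.r_f h)
  rw [sub_sub_cancel] at h1
  exact h1.f_eq ▸ s.nf_aeval h1.mem

theorem nf_X : range (fun i => τ.f (xc i)) ⊆ acl (s.nfG τ ∪ M.qs Z A') := by
  rintro _ ⟨i | l, rfl⟩
  · exact acl_ul _ _ (.inr ⟨i, rfl⟩)
  have h1 : s.row l ⬝ᵥ M.z ∈ s.K := A.dot_pr (s.du l) M.z ▸
    sum_mem fun k _ => mul_mem (s.nf_c (s.std l k).1) (s.nf_z s.lie le_rfl k)
  have h2 := dd_mem_PB _ (s.nf_xt h1) (.inr l)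
  rw [s.coord, map_add, s.nf_dd, zero_add, Derivation.map_smul, dd_xc, if_pos rfl,
    ← Algebra.algebraMap_eq_smul_one] at h2
  have h3 := (τ.r_f h2).mul (τ.r_f (xc_mem_PB s.inf (.inr l)))
  rw [← Algebra.smul_def, ← sub_eq_iff_eq_add'.2 (s.coord l)] at h3
  have h4 := s.nf_sub hτ h1 h3.mem
  rw [h3.f_eq] at h4
  have h5 : τ.f (cn (s.ρ l)) ≠ 0 := fun e => s.rho l (frz_cn.1 ((τ.r_f h2).zero_iff.1 e))
  have h6 := mul_mem (inv_mem (acl_mono subset_union_left (s.nf_cn h2)))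
    (sub_mem (s.nf_K hτ h1) (acl_mono subset_union_left h4))
  rwa [sub_sub_cancel, algebraMap_eq_cn, inv_mul_cancel_left₀ h5] at h6

theorem nf_as (hU : A.Btw C' U Z) {a W : Fin g → ℂ} (ha : A.pr C' a = A.pr C' M.w)
    (h1 : ∀ i, A.dl a (τ.D i) = dv W (τ.D i)) (h2 : range (A.pr U M.z - W) ⊆ acl (s.nfG τ)) :
    ∃ V, A.Btw C' V U ∧ range (A.crd (A.pr V a)) ⊆ csts (range τ.D) ∧
      range (A.pr V W) ⊆ csts (range τ.D) ∧ M.zs V ⊆ acl (s.nfG τ) ∧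
      Fintype.card J + finrank ℂ U ≤ trd (s.nfG τ) (M.qs Z A') +
        trd (s.nfG τ ∪ M.qs Z A') (range (A.crd a)) + finrank ℂ V := by
  obtain ⟨V, h3, h4, h5, h6, h7, h8⟩ := M.ov.as_frz M.fld.cnt (D := τ.D)
    (fun i c hc => (s.nf_id hτ c hc).der_cn i) (X := fun i => τ.f (xc i))
    (fun i l => by simpa only [eq_comm] using (τ.r_f (xc_mem_PB _ l)).der_xc i) hU.1 h1
  refine ⟨V, ⟨h3, h7 C' hU.2.1 s.tight.1 (ha ▸ ((M.as_sub C' C').trans (M.qs_kq C')).trans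
    (Subset.trans s.fld.le (s.nf_cst hτ))), h4⟩, h5, h6, range_subset_iff.2 fun k => ?_, ?_⟩
  · have := add_mem (M.ov.pr_acl h3 (s.nf_kG hτ) h2 ⟨k, rfl⟩) (acl_ul _ _ (h6 ⟨k, rfl⟩))
    rwa [map_sub, Pi.sub_apply, sub_add_cancel, A.pr_pr_of_le h4] at this
  have h9 : range (fun i => τ.f (xc i)) ∪ (range (A.crd a) ∪ range W) ⊆
      acl (s.nfG τ ∪ M.qs Z A' ∪ range (A.crd a)) := by
    refine union_subset ((s.nf_X hτ).trans (acl_mono subset_union_left)) (union_subset (acl_ur _ _)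
      (Subset.trans (range_subset_iff.2 fun k => ?_) (acl_mono subset_union_left)))
    simpa using sub_mem (s.nf_K hτ (s.nf_z hU.1 hU.2.2 k))
      (acl_mono subset_union_left (h2 ⟨k, rfl⟩))
  rw [nfG, union_assoc, union_assoc] at h9
  replace h9 := trd_le ((finite_range _).union ((M.finite_qs Z A').union (finite_range _))) h9
  rw [trd_union (finite_range _) ((M.finite_qs _ _).union (finite_range _)),
    trd_union (M.finite_qs _ _) (finite_range _)] at h9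
  have h10 := trd_range_le (F := csts (range τ.D)) fun i => τ.f (xc (.inl i))
  rw [Fintype.card_sum] at h8
  unfold nfG
  omega

theorem nf_dl (i : Jν ⊕ J) : A.dl (A.pr A' M.w) (τ.D i) = dv (fun k => τ.f (s.w k)) (τ.D i) :=
  funext fun k => by
    rw [dv_apply]
    exact (s.tau_dl hτ i k).eq ((τ.r_f (s.nf_w k)).dd i)

theorem nf_zw : range (A.pr A' M.z - fun k => τ.f (s.w k)) ⊆ acl (s.nfG τ) :=
  range_subset_iff.2 fun k => s.nf_sub hτ (s.nf_z s.btw.1 s.btw.2.2 k) (s.nf_w k)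

omit hτ in
/-- NOFR: genericity of `K` over the constants and the integer variables. -/
theorem nofr (t : M.Tow C' X C1 C) (hZ : Z ≤ C) (hP : s.PH C1) {τ : Tau (Jν ⊕ J) s.inf}
    (hτ : ∀ a ∈ s.K, τ.R a (xt s.ι a)) : E.Free (M.kq C' : Set ℂ) (M.qs Z A')
      ((csts (range τ.D) : Set ℂ) ∪ range fun i => τ.f (xc (.inl i))) := by
  obtain ⟨V, h1, h2, h3, h4, h5⟩ := s.nf_as hτ s.btw (A.pr_pr_of_le s.btw.2.1 _) (s.nf_dl hτ)
    (s.nf_zw hτ)
  rw [(trd_eq_zero_iff (finite_range _)).2 ((M.as_sub Z A').trans (acl_ur _ _)), s.count] at h5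
  rw [A.pr_pr_of_le h1.2.2] at h2
  have h6 := M.H_add h1.1 h1.1 (h1.2.2.trans s.btw.2.2) h1.2.2
  have h7 := trd_anti (M.finite_qs Z A') (union_subset (s.nf_kG hτ)
    (union_subset h4 (h2.trans (acl_ul _ _))) : (M.k0 : Set ℂ) ∪ M.qs V V ⊆ _)
  rcases t.eq_or_le (h1.mono le_rfl (s.btw.2.2.trans hZ)) (by omega) with rfl | h8
  · have h8 := M.H_kq s.tight s.btw.le s.btw.2.1
    have h9 := trd_anti (M.finite_qs Z A') (F' := M.kq V ∪ s.nfG τ) (acl_ur _ _)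
    have h10 := trd_anti (M.finite_qs Z A') (F' := s.nfG τ) (union_subset
      ((Subset.trans s.fld.le (s.nf_cst hτ)).trans (acl_ul _ _)) (subset_acl _))
    exact free_of_trd (M.finite_qs _ _) (show _ ≤ trd (_ ∪ s.nfG τ) _ by omega)
  obtain ⟨-, u, hu, -, i, k, h9⟩ := hP.resolve_left (not_not.2 (h8.trans h1.2.2))
  have h10 : Frz T (dd (.inl i) (dot u s.w)) := by
    rw [← dot_lx_pr (A.du_mono ((A.rel_le _ _).trans h8) hu), dot, map_sum]
    refine .sum s.inf fun e _ => ?_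
    rw [Derivation.map_smul, Algebra.smul_def, mul_comm, lx_apply]
    refine .mul s.inf (((Tau.R.sum fun e' _ => (s.nf_id hτ _ (M.ov.pr V h1.1 e' e)).mul
      (τ.r_f (s.nf_w e'))).dd _).zero_iff.1 ?_) (co_mem_PB _ _)
    have := mem_csts.1 (h3 ⟨e, rfl⟩) _ ⟨.inl i, rfl⟩
    rwa [← lx_self, lx_apply] at this
  exact ((h10.zero.ll_pow s.inf k).not_lc one_pos (.of_le (h9 0 .zero))).elim

/-- The count of an absorption step. -/
theorem abs_cnt (t : M.Tow C' X C1 C) (hZ : Z ≤ C) (hP : s.PH C1) (hU : A.Btw A' U Z)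
    {u W : Fin g → ℂ} (hu : u ∈ A.rel U A') (h1 : ∀ i, A.dl u (τ.D i) = dv W (τ.D i))
    (h2 : range (A.pr (A.rel U A') M.z - W) ⊆ acl (s.nfG τ)) :
    finrank ℂ (A.rel U A') ≤ trd ((s.c : Set ℂ) ∪ M.qs Z A') (range (A.crd u)) := by
  have hU' := hU.mono s.btw.2.1 le_rfl
  obtain ⟨V, h3, -, -, h4, h5⟩ := s.nf_as hτ hU' (a := A.pr A' M.w + u)
    (W := (fun k => τ.f (s.w k)) + W)
    (by rw [map_add, A.pr_pr_of_le s.btw.2.1, A.pr_eq_zero_iff.2 (A.perp_anti s.btw.2.1 hu.2),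
      add_zero])
    (fun i => by
      rw [M.ov.dl_add fun c hc => (s.nf_id hτ c hc).der_cn i, s.nf_dl hτ, h1]
      exact funext fun k => (map_add (τ.D i) _ _).symm)
    (range_subset_iff.2 fun k => by
      have := add_mem (s.nf_zw hτ ⟨k, rfl⟩) (h2 ⟨k, rfl⟩)
      rw [A.pr_rel hU.2.1] at this
      refine (congrArg (· ∈ acl (s.nfG τ)) ?_).mp this
      simp only [Pi.sub_apply, Pi.add_apply]
      ring)
  have h6 : M.zs V ⊆ M.kq C' := fun x hx => (M.fld_kq C').acl.le ((s.nofr t hZ hP hτ).inf_le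
    ⟨M.ov.pr_le h3.1 (h3.2.2.trans hU.2.2) (acl_tl (M.fld_kq C').sub _)
      ((M.zs_sub Z A').trans (acl_ur _ _)) hx, acl_mono subset_union_right (h4 hx)⟩)
  obtain rfl := t.eq_of_z (h3.mono le_rfl (hU.2.2.trans hZ)) h6
  have h7 := trd_le (F := s.nfG τ ∪ M.qs Z A') (finite_range (A.crd u))
    (M.ov.crd_add_acl (acl_tl (acl_tl (s.nf_kG hτ) _) _)
      (acl_tl ((M.as_sub Z A').trans (acl_ur _ _)) _) (acl_ur _ _))
  have h8 := trd_anti (finite_range (A.crd u)) ((union_subset s.nf_c s.nf_q).trans (s.nf_K hτ))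
  have h9 := M.H_kq s.tight s.btw.le s.btw.2.1
  have h10 := trd_anti (M.finite_qs Z A') (F' := s.nfG τ)
    ((Subset.trans s.fld.le (s.nf_cst hτ)).trans (acl_ul _ _))
  have h11 := s.count
  have h12 := A.finrank_rel hU.2.1
  omega

omit hτ in
theorem abs_gen (hU : A.Btw A' U Z) (hc : M.H Z U + finrank ℂ A' = M.H Z A' + finrank ℂ U) :
    finrank ℂ (A.rel U A') ≤
      trd ((s.c : Set ℂ) ∪ M.qs Z A') (range (A.crd (A.pr (A.rel U A') M.w))) := by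
  have h0 : (M.k0 : Set ℂ) ⊆ acl (s.c : Set ℂ) := Subset.trans s.nf_k (subset_acl _)
  have h1 : ∀ Q, A.Btw C' Q Z → M.H Z Q = M.H C' C' + A.HH s.c M.z M.w Z Q := fun Q hQ =>
    M.ov.HH_free M.ksub s.tight.1 s.tight.1 s.btw.le hQ.2.1
      ((subset_acl _).trans s.fld.sub) (s.free.acl_left.mono (M.ov.qq_le
        (acl_tl (acl_ul _ _) _) s.lie hQ.1 le_top le_top (acl_ur _ _)) (acl_ur _ _))
  have h2 := h1 _ s.btw
  have h3 := h1 _ (hU.mono s.btw.2.1 le_rfl)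
  have h4 := M.ov.HH_add (z := M.z) (w := M.w) h0 s.lie s.btw.1 le_rfl hU.2.1
  rw [M.ov.HH_rel_right (acl_tl h0 _) s.lie s.btw.1 hU.1 hU.2.1 (acl_ur _ _)] at h4
  have h5 := A.finrank_rel hU.2.1
  rw [M.qs_eq]
  omega

omit hτ in
/-- ABS: `ι` extends to `K[aff i b]`, and nonzero elements are not frozen. -/
theorem abs_ext (t : M.Tow C' X C1 C) (hZ : Z ≤ C) (hP : s.PH C1) (hU : A.Btw A' U Z)
    (hc : M.H Z U + finrank ℂ A' = M.H Z A' + finrank ℂ U) {Λ : Fin g → MvPolynomial Jν Cs}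
    {W : Fin g → H (Jν ⊕ J)}
    (hW : ∀ k, W k = xt s.ι (A.pr (A.rel U A') M.z k) - aeval s.nu (Λ k))
    (hB : ∀ x, Pt x → evv x W ∈ St (A.rel U A')) {w₀ : Fin g → ℂ}
    (hn : ∀ x, Pt x → Near (evv x W) w₀) {i : Fin N} (hi : A.θ w₀ i ≠ 0) {y : Fin N → H (Jν ⊕ J)}
    (hy : ExpCh A i W y) :
    A.θ (A.pr (A.rel U A') M.w) i ≠ 0 ∧ ∀ p : MvPolynomial (Fin N) s.K,
      eval₂ s.ι y p ∈ PB (Jν ⊕ J) s.inf ∧
      (aeval (A.aff i (A.pr (A.rel U A') M.w)) p = 0 → eval₂ s.ι y p = 0) ∧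
      (aeval (A.aff i (A.pr (A.rel U A') M.w)) p ≠ 0 →
        ∃ x, (∀ j, nm (x j) ≤ 1 / 2) ∧ ¬ Tiny T (nm (ev x (eval₂ s.ι y p)))) := by
  obtain ⟨τ, hτ⟩ := s.exists_tau
  have hL := hU.1.rel s.btw.1
  have hk : (M.k0 : Set ℂ) ⊆ acl ((s.c : Set ℂ) ∪ M.qs Z A') :=
    acl_tl (Subset.trans s.nf_k (subset_acl _)) _
  have h1 : ∀ k, W k ∈ PB _ s.inf := fun k x hx => poly_of_lc s.inf ((hn x hx.pt).lc k)
  have h2 : ∀ j, y j ∈ PB _ s.inf := fun j x hx => poly_of_lc s.inf (hy.eq x hx.pt j ▸ lc_of_near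
    ((hn x hx.pt).app (continuousAt_pi.1 (aff_analytic hi).continuousAt j)) (lc_co _))
  have h3 : y i = 1 := H.ext fun x hx => (hy.eq x hx i).trans
    (((qs_eq (v := 1)).2 ((hy.ne x hx).mono fun n hn => aff_self hn)).trans (by simp))
  have h4 : ∀ x, Pt x → A.Exp (evv x W) (evv x y) := fun x hx =>
    ⟨qs fun n => (A.θ (rep (evv x W) n) i)⁻¹, hy.eq x hx⟩
  have h5 : ∀ {u β : _} {t : ℂ}, β = t • A.θ u → β i = 1 →
      t ≠ 0 ∧ A.θ u i ≠ 0 ∧ β = A.aff i u := fun {u β t} e e' => by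
    rw [e, Pi.smul_apply, smul_eq_mul] at e'
    exact ⟨left_ne_zero_of_mul_eq_one e', right_ne_zero_of_mul_eq_one e',
      by rw [e, eq_inv_of_mul_eq_one_left e']; rfl⟩
  obtain ⟨u, hu, t', e⟩ := M.ov.pt_H hL hB h4 τ.R (fun c h => h.eq τ.r_zero) (s.nf_id hτ)
    (fun _ _ _ _ => .add) (fun _ _ _ _ => .mul) fun j => τ.r_f (h2 j)
  obtain ⟨h6, h7, h8⟩ := h5 e (h3 ▸ τ.r_one.f_eq)
  have hg := s.abs_gen hU hc
  obtain ⟨σ, h9, h10⟩ := M.ov.gen_conj s.nf_cnt hk hL (A.pr_mem _ _) hu hg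
    (s.abs_cnt hτ t hZ hP hU hu (W := fun k => τ.f (W k)) (fun l => funext fun k => by
      rw [dv_apply]
      exact (M.ov.tau_dl (s.nf_id hτ) h1 h3 h4 h6 (fun j => e ▸ τ.r_f (h2 j)) l k).eq
        ((τ.r_f (h1 k)).dd l)) (range_subset_iff.2 fun k => by
      have := s.nf_sub hτ (s.nf_z hL ((A.rel_le _ _).trans hU.2.2) k) (hW k ▸ h1 k)
      rwa [← hW] at this))
  rw [← s.hK] at h9
  refine ⟨crd_ne_zero_iff.1 fun h => crd_ne_zero_iff.2 h7 (by simp [h10, h]), fun p => ?_⟩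
  have h11 : τ.R (σ (aeval (A.aff i (A.pr (A.rel U A') M.w)) p)) (eval₂ s.ι y p) := by
    induction p using MvPolynomial.induction_on with
    | C a =>
      rw [aeval_C, eval₂_C, ← xt_of_mem s.ι a.2]
      exact (h9 a a.2).symm ▸ hτ a a.2
    | add p q hp hq => simpa only [map_add, eval₂_add] using hp.add hq
    | mul_X p j hp =>
      rw [map_mul, map_mul, eval₂_mul, eval₂_X, aeval_X]
      exact hp.mul ((aff_map (σ : ℂ →+* ℂ) h10 i j).symm.trans (congrFun h8 j).symm ▸ τ.r_f (h2 j))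
  refine ⟨h11.mem, fun h => H.ext fun x hx => ?_, fun h => ?_⟩
  · have : Uncountable ℂ := Complex.ofReal_injective.uncountable
    obtain ⟨ω, hω⟩ := exists_equiv_sub mk_Cs.symm s.K (s.hK ▸ countable_acl s.nf_cnt)
      ((ev x).comp s.ι)
    obtain ⟨v, hv, t'', e'⟩ := M.ov.pt_H hL hB h4 (fun c f => ω c = ev x f)
      (fun c h => by simpa using h) (fun c hc => by
        rw [← s.id c hc, xt_of_mem _ (s.nf_c (s.nf_k hc))]
        exact hω ⟨c, _⟩) (fun _ _ _ _ h h' => by rw [map_add, map_add, h, h'])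
      (fun _ _ _ _ h h' => by rw [map_mul, map_mul, h, h']) (β := fun j => ω.symm (ev x (y j)))
      fun j => ω.apply_symm_apply _
    obtain ⟨-, h12, h13⟩ := h5 e' (by simp [h3])
    have h14 := M.ov.eval_aff s.nf_cnt hk hL (A.pr_mem _ _) hg hv h12 ((cf_map p).mono s.hK.le)
      (by rwa [eval_map])
    rw [← h13, eval_map] at h14
    replace h14 := congrArg (ω : ℂ →+* Cs) h14
    rw [eval₂_comp_left, map_zero] at h14
    rw [eval₂_comp_left, map_zero, ← h14]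
    congr 1
    exacts [RingHom.ext fun a => (hω a).symm, funext fun j => (ω.apply_symm_apply _).symm]
  · obtain ⟨x, h12, h13⟩ := by
      simpa only [Frz, not_forall] using mt h11.zero_iff.2 ((map_ne_zero σ).2 h)
    exact ⟨x, fun j => by simpa using ((h12 j).ll s.inf).le_coe one_half_pos, h13⟩

end Core

end Pool.Agent.P.MP_f17f76_ag
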