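import Pool.Agent.P.MP_f17f76_ag.S.St
import Pool.Agent.P.MP_f17f76_ag.S.Tow
import Pool.Agent.P.MP_f17f76_ag.E.Rc
import Pool.Agent.P.MP_f17f76_ag.E.Tau
import Pool.Agent.P.MP_f17f76_ag.E.Ext

/-!
Bounded valence for the functions of a state, and the extension of a state by a generic point
after recentring.
-/

namespace Pool.Agent.P.MP_f17f76_ag.Core

open Module Set E N MvPolynomial AbVar

variable {g N : ℕ} {A : AbVar g N} {M : Model A} {C' : Sub g} {T : ℝ*} {Jν J : Type} [Fintype Jν]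
  [Fintype J] {A' Z : Sub g} (s : Core M C' T Jν J A' Z)

theorem aeval_nu_mem (P : MvPolynomial Jν Cs) :
    aeval s.nu P ∈ Algebra.adjoin Cs (range (xc : _ → H (Jν ⊕ J))) :=
  (Algebra.adjoin_le (S := Algebra.adjoin Cs (range xc)) (range_subset_iff.2 fun _ =>
    Subalgebra.smul_mem _ (Algebra.subset_adjoin (mem_range_self _)) _))
    ((Algebra.adjoin_range_eq_range_aeval Cs _).ge ⟨P, rfl⟩)

/-- Polynomial expressions in the functions of the state, the coordinates and chart coordinates of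
exponentials have bounded valence. -/
theorem hval {f : H (Jν ⊕ J)} (hf : f ∈ Algebra.adjoin Cs (range s.ι ∪ range xc ∪ Cht A s.ι)) :
    HVal f := by
  have h1 : M.k0 ≤ s.c := (M.fld_kq C').le.trans s.fld.le
  have h2 : s.c ≤ s.K := s.hK ▸ acl_ul _ _
  have h3 : M.qs Z A' ⊆ s.K := s.hK ▸ acl_ur _ _
  have h4 := subset_acl (s.K : Set ℂ)
  have h5 : acl (s.K : Set ℂ) ≤ s.K := by rw [s.hK, acl_acl]
  refine valence M.ov h1 h2 (s.hK ▸ countable_acl (s.fld.cnt.union (M.finite_qs _ _).countable))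
    s.ι s.id s.cst (y := fun l => s.row l ⬝ᵥ M.z) (fun l => ?_) (fun l => ?_)
    (u := A.pr A' M.z) (a := A.pr A' M.w) (W := s.toDat.wt M A')
    (w₀ := fun k => stc (ev 0 (s.toDat.wt M A' k)))
    (fun e => h5 (M.ov.pr_le s.btw.1 s.btw.2.2 ((h1.trans h2).trans h4)
      (((M.zs_sub _ _).trans h3).trans h4) ⟨e, rfl⟩))
    (fun m => h3 (.inr ⟨m, rfl⟩)) (fun e => ?_)
    (fun x hx e => near_trans (s.var e x hx) (near_stc (s.bdd e))) s.exp (fun D h6 h7 h8 => ?_) hf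
  · rw [← A.dot_pr (s.du l)]
    exact sum_mem fun k _ => mul_mem (h2 (s.std l k).1) (h3 (.inl ⟨k, rfl⟩))
  · rw [s.coord]
    exact add_mem (s.aeval_nu_mem _)
      (Subalgebra.smul_mem _ (Algebra.subset_adjoin (mem_range_self _)) _)
  · rw [Dat.wt, sub_sub_cancel]
    exact s.aeval_nu_mem _
  · rw [s.hK, kil_acl, kil_union]
    exact ⟨h6, s.basis D h6 (congrFun h7) h8⟩

/-- Recentring and extension by a point `b` whose exponential is represented by `y`. -/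
theorem rc_ext {W : Fin g → H (Jν ⊕ J)} {i : Fin N} {y : Fin N → H (Jν ⊕ J)}
    (hy : ExpCh A i W y) (hW : ∀ k, W k ∈ Algebra.adjoin Cs (range s.ι ∪ range xc))
    {b : Fin N → ℂ} (h0 : ∀ p : MvPolynomial (Fin N) s.K, eval₂ s.ι y p ∈ PB (Jν ⊕ J) s.inf ∧
      (aeval b p = 0 → eval₂ s.ι y p = 0) ∧ (aeval b p ≠ 0 →
        ∃ x, (∀ j, nm (x j) ≤ 1 / 2) ∧ ¬ Tiny T (nm (ev x (eval₂ s.ι y p)))))
    {K' : Subfield ℂ} (hK : s.K ≤ K') (hb : ∀ m, b m ∈ K') (hK' : K' ≤ acl (s.K ∪ range b))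
    {e : ℝ*} (he : 0 ≤ e) (he' : Ll e 1) :
    ∃ (ν₀ : Jν → Cs) (n' : ℝ*) (p : J → Cs) (φ : Jν ⊕ J → H (Jν ⊕ J)) (ι' : K' →+* H (Jν ⊕ J)),
      (∀ j, ν₀ j ∈ Zs) ∧ 0 < n' ∧ Big T n' ∧ n' ≤ s.n ∧ Maps φ ∧
      (∀ j, pull φ (nuv J s.n j) = cn (ν₀ j) + (1 : Cs) • nuv J n' j) ∧
      (∀ l, φ (.inr l) = cn (p l) + cn (ofR e) * xc (.inr l)) ∧ StabH ι' ∧
      PG T ((ev 0).comp ι') ∧ (∀ a ∈ s.K, xt ι' a = pull φ (xt s.ι a)) ∧
      ∀ m, xt ι' (b m) = pull φ (y m) := by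
  have : Countable s.K := s.hK ▸ countable_acl (s.fld.cnt.union (M.finite_qs _ _).countable)
  have : Countable (MvPolynomial (Fin N) s.K) := Cardinal.mk_le_aleph0_iff.1
    (cardinalMk_le_max_lift.trans (by simp))
  have hT := s.inf
  obtain ⟨p, h2, h3, h4⟩ := rc_stab (g := fun r : MvPolynomial (Fin N) s.K => eval₂Hom s.ι y r)
    (fun r => s.hval (by
      induction r using MvPolynomial.induction_on with
      | C a => simpa using Algebra.subset_adjoin (.inl (.inl ⟨a, rfl⟩))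
      | add p q hp hq => simpa using add_mem hp hq
      | mul_X p m hp =>
        simpa using mul_mem hp (Algebra.subset_adjoin (.inr ⟨i, W, y, m, hy, hW, rfl⟩))))
    (range .inl)
  obtain ⟨ε, hε, -⟩ := exists_slow hT countable_empty (by simp)
  choose ν₀ h5 h6 using fun j => exists_round ((p (.inl j)).re * s.n)
  have hn : ofR s.n ≠ 0 := by simpa using s.npos.ne'
  have hn' : nm (ofR s.n) = s.n := nm_ofR_of_nonneg s.npos.le
  have hφ : ∀ x, Pt x → Near (evv x (aff (Sum.elim (fun j => ν₀ j / ofR s.n) fun l =>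
      co (p (.inr l))) (Sum.elim (fun _ => ofR ε) fun _ => ofR e) fun j => j)) p := fun x hx => by
    rw [evv_aff _ _ _ hx]
    have h7 : ∀ (a : ℝ*) j c, 0 ≤ a → Ll a 1 → Ll (nm (c + ofR a * x j - c)) 1 :=
      fun a j c h h' => by
        rw [add_sub_cancel_left, map_mul, nm_ofR_of_nonneg h]
        exact h'.mul_one (.of_le (hx j).le) (nm.nonneg _)
    rintro (j | l)
    · refine near_trans (h7 ε (.inl j) _ hε.1.le hε.2.1) ?_
      have h8 := h6 j
      rw [map_mul, ofR_coe, Complex.conj_eq_iff_re.1 (Complex.conj_eq_iff_im.2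
        (h2 _ ⟨j, rfl⟩))] at h8
      rw [Sum.elim_inl, div_sub' hn, map_div₀, hn', ll_div s.npos, mul_comm]
      exact Ll.le_trans (h8.trans (by norm_num)) (s.nlo.ll hT s.npos.le)
    · exact h7 e (.inr l) _ he he'
  obtain ⟨h7, h8⟩ := h4 _ hφ
  obtain ⟨ι', h9, h10, h11⟩ := ext_sub' hT (F := K') (aeval b : _ →ₐ[s.K] ℂ).toRingHom
    (fun r => eval_map_sub b r ▸ ((cf_map r).mono hK).eval_mem' le_rfl hb)
    (hK'.trans (acl_mono (union_subset (fun a ha => ⟨C ⟨a, ha⟩, aeval_C _ _⟩)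
      (range_subset_iff.2 fun m => ⟨X m, aeval_X _ _⟩))))
    ((pull _).comp (eval₂Hom s.ι y))
    (fun r hr => (congrArg (pull _) ((h0 r).2.1 hr)).trans (map_zero _)) fun r hr => by
      obtain ⟨x, hx, h1⟩ := (h0 r).2.2 hr
      obtain ⟨h9, h10⟩ := h8 r fun h => h1 (by
        rw [show eval₂ _ _ _ = _ from h, map_zero, map_zero]; exact tiny_zero)
      refine ⟨h9, ?_, ((not_tiny hT (nm.nonneg _)).1 fun h => h1 (.of_lc hT (h10 x hx) h)).2⟩
      rw [RingHom.comp_apply, ev_pull h7 .zero]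
      exact (h0 r).1 _ ⟨1 / 4, by norm_num, fun j => ((hφ 0 .zero).lt h3 j).le⟩
  refine ⟨ν₀, s.n * ε, fun l => co (p (.inr l)), _, ι', h5, mul_pos s.npos hε.1, s.nlo.mul_slow hT s.npos.le hε,
    mul_le_of_le_one_right s.npos.le hε.2.1.le, h7, fun j => ?_, fun l => ?_, h9, h10,
    fun a ha => ?_, fun m => ?_⟩
  · simp only [Algebra.smul_def, algebraMap_eq_cn, nuv, map_mul, pull_cn, pull_xc h7, map_one,
      one_mul]
    show _ * (cn _ + cn _ * _) = _
    simp only [Sum.elim_inl, mul_add, ← mul_assoc, ← map_mul cn, mul_div_cancel₀ _ hn]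
  · rfl
  · rw [xt_of_mem _ ha, xt_of_mem _ (hK ha)]
    exact (congrArg ι' (Subtype.ext (aeval_C b (⟨a, ha⟩ : s.K)).symm)).trans
      ((h11 (C ⟨a, ha⟩)).trans (congrArg (pull _) (eval₂_C _ _ _)))
  · rw [xt_of_mem _ (hb m)]
    exact (congrArg ι' (Subtype.ext (aeval_X _ m).symm)).trans
      ((h11 (X m)).trans (congrArg (pull _) (eval₂_X _ _ _)))

end Pool.Agent.P.MP_f17f76_ag.Core
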