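import Pool.Agent.P.MP_f17f76_ag.S.Alg
import Pool.Agent.P.MP_f17f76_ag.E.Loc

/-!
Reduction to the top form, and the theorem from a generic solution.
-/

namespace Pool.Agent.P.MP_f17f76_ag

open MvPolynomial Filter Topology Module Set E N

theorem finrank_sup_ker {V W : Type} [AddCommGroup V] [Module ℂ V] [FiniteDimensional ℂ V]
    [AddCommGroup W] [Module ℂ W] (f : V →ₗ[ℂ] W) (T : Submodule ℂ V) :
    finrank ℂ ↥(T ⊔ LinearMap.ker f) = finrank ℂ (T.map f) + finrank ℂ (LinearMap.ker f) := by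
  rw [← (f.domRestrict (T ⊔ LinearMap.ker f)).finrank_range_add_finrank_ker,
    LinearMap.range_domRestrict, LinearMap.ker_domRestrict,
    (Submodule.comapSubtypeEquivOfLe le_sup_right).finrank_eq, Submodule.map_sup,
    (LinearMap.le_ker_iff_map.1 le_rfl), sup_bot_eq]

theorem eval₂_vec {σ : Type} (u : ℕ → σ → ℂ) (p : MvPolynomial σ ℂ) :
    eval₂ co (vec u) p = qs fun n => eval (u n) p := by
  induction p using MvPolynomial.induction_on with
  | C a => simpa using co_eq a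
  | add p q hp hq =>
    simp only [eval₂_add, hp, hq, map_add]
    rfl
  | mul_X p i hp =>
    simp only [eval₂_mul, eval₂_X, hp, map_mul, eval_X]
    rfl

theorem xt_eval {σ R : Type} [CommRing R] {k K : Subfield ℂ} (e : K →+* R) (c : ℂ →+* R)
    (hk : k ≤ K) (he : ∀ a ∈ k, xt e a = c a) {p : MvPolynomial σ ℂ} (hp : Cf k p) {v : σ → ℂ}
    (hv : ∀ i, v i ∈ K) : xt e (eval v p) = eval₂ c (fun i => xt e (v i)) p :=
  (hp.rel' c (fun a b => a ∈ K ∧ xt e a = b) (fun a ha => ⟨hk ha, he a ha⟩)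
    (fun _ _ _ _ ⟨h1, h2⟩ ⟨h3, h4⟩ => ⟨add_mem h1 h3, by
      rw [← h2, ← h4, xt, xt, xt, dif_pos h1, dif_pos h3, dif_pos (add_mem h1 h3), ← map_add]
      rfl⟩)
    (fun _ _ _ _ ⟨h1, h2⟩ ⟨h3, h4⟩ => ⟨mul_mem h1 h3, by
      rw [← h2, ← h4, xt, xt, xt, dif_pos h1, dif_pos h3, dif_pos (mul_mem h1 h3), ← map_mul]
      rfl⟩) fun i => ⟨hv i, rfl⟩).2

namespace AbVar

variable {g N : ℕ} {A : AbVar g N} {k : Subfield ℂ} {F : Set ℂ} {U U' : Sub g}

theorem Over.finrank_sup_perp (h : A.Over k) (hk : (k : Set ℂ) ⊆ acl F) (hU : A.IsLie U)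
    (hU' : A.IsLie U') (z w : Fin g → ℂ) :
    finrank ℂ ↥((kil F).map ((dv z).prod (A.dl w)) ⊔ (A.perp U).prod (A.perp U')) =
      trd F (range (A.pr U z) ∪ range (A.crd (A.pr U' w))) + finrank ℂ (A.perp U) +
        finrank ℂ (A.perp U') := by
  have h1 : ∀ U, LinearMap.ker (A.pr U) = A.perp U := fun U =>
    Submodule.ext fun _ => A.pr_eq_zero_iff
  rw [add_assoc, ← finrank_prod', ← h1, ← h1, ← LinearMap.ker_prodMap, finrank_sup_ker,
    h.trd_pair hk, ← Submodule.map_comp]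
  refine congrArg (fun T : Submodule ℂ _ => finrank ℂ T + _)
    (SetLike.coe_injective (image_congr fun D hD => Prod.ext ?_ ?_))
  exacts [(h.dv_pr hU (kil_le hk hD) z).symm, (h.dl_pr (kil_le hk hD) hU' w).symm]

/-- A generic point of an irreducible variety over a countable field of definition. -/
theorem Irred.exists_generic {V : Set ((Fin g → ℂ) × (Fin g → ℂ))} (hV : A.Irred V) :
    ∃ (S : Set ℂ) (z w : Fin g → ℂ), S.Countable ∧ A.Over (acl S) ∧
      A.locI (acl S) (z, w) = A.idl V ∧ ∀ U U', A.IsLie U → A.IsLie U' →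
        tdeg (A.idl (AbVar.sat₂ (A.perp U) (A.perp U') V)) =
          trd S (range (A.pr U z) ∪ range (A.crd (A.pr U' w))) + finrank ℂ (A.perp U) +
            finrank ℂ (A.perp U') + 1 := by
  obtain ⟨J, hJ⟩ := IsNoetherian.noetherian (R := MvPolynomial (Fin g ⊕ Fin N) ℂ) (A.idl V)
  obtain ⟨S, h1, h2, h3⟩ := A.exists_over (S := ⋃ p ∈ J, (p.coeffs : Set ℂ))
    (J.countable_toSet.biUnion fun p _ => Finset.countable_toSet _)
  obtain ⟨ι, _, Ω, Ψ₀, h4⟩ := hV.exists_isPar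
  obtain ⟨y₀, h5, h6⟩ := exists_of_residual h4.isOpen h4.nonempty (h4.loc_residual
    (countable_acl h1) (hJ.ge.trans (Ideal.span_mono fun p hp => ⟨cf_of_coeffs
      ((subset_biUnion_of_mem (u := fun p : MvPolynomial _ ℂ => (p.coeffs : Set ℂ)) hp).trans h2)
      (subset_acl _), hJ.le (Ideal.subset_span hp)⟩)))
  obtain ⟨n, x, ε, i, Ψ, e, -, -, -, -, h7, h8⟩ := h3.exists_loc h1 subset_rfl (Ψ₀ y₀)
  rw [h6 h5] at h7 h8
  obtain ⟨y, h9, h10, h11⟩ := exists_of_residual h7.isOpen h7.nonempty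
    ((ind_residual h1).and h7.generic_residual)
  refine ⟨S, (Ψ y).1, (Ψ y).2, h1, h3, (h8 y h9).2.2 h10, fun U U' hU hU' => ?_⟩
  rw [← h11 h9 _ _ hU.perp hU'.perp, (h8 y h9).1.range h3 subset_rfl h10,
    h3.finrank_sup_perp subset_rfl hU hU']

end AbVar

open AbVar in
theorem s_top : S_TOP := by
  intro g N A I hV hf hr
  obtain ⟨W, h1, h2, h3, h4, -, h5⟩ := exists_cut hV hf hr ((Ideal.ne_top_iff_one _).1 hV.ne_top)
  obtain ⟨S, z, w, h6, h7, h8, h9⟩ := h1.exists_generic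
  have hb : ∀ {T : Set ℂ}, T.Finite → trd (acl S : Set ℂ) T = trd S T := trd_acl_base
  have hfin : ∀ z w : Fin g → ℂ, (range z ∪ range (A.crd w)).Finite := fun z w => A.finite_cs (z, w)
  have hp : ∀ U, U ≠ ⊥ → A.perp U ≠ ⊤ := fun U h e => h (by rw [← A.perp_perp U, e, perp_top])
  have ht : finrank ℂ (⊤ : Sub g) = g := by simp
  refine ⟨⟨acl S, z, w, ⟨countable_acl h6, acl_acl S, le_rfl⟩, h7, fun U hU => ?_, ?_,
    fun U hU h0 h => ?_, fun U hU h0 h => ?_⟩, ?_⟩
  · have h10 := (rotund_iff h1).1 h3 _ hU.perp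
    have h11 := A.finrank_perp U
    rw [sat_eq, h9 U U hU hU] at h10
    rw [hb (hfin _ _)]
    omega
  · rw [← h8, h7.tdeg_locI h6 subset_rfl] at h5
    rw [hb (hfin _ _)]
    exact Nat.succ_injective h5
  · have h10 := ((free_iff h1).1 h2 _ hU.perp (hp U h0)).1
    have h11 := h9 U ⊥ hU isLie_bot
    rw [perp_bot, (trd_eq_zero_iff (hfin _ _)).2 (union_subset h (by
      rw [pr_bot]
      exact range_subset_iff.2 h7.crd_zero))] at h11
    omega
  · have h10 := ((free_iff h1).1 h2 _ hU.perp (hp U h0)).2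
    have h11 := h9 ⊥ U isLie_bot hU
    rw [perp_bot, (trd_eq_zero_iff (hfin _ _)).2 (union_subset (by
      rw [pr_bot]
      exact range_subset_iff.2 fun _ => zero_mem _) h)] at h11
    omega
  · rintro ⟨e, he, t, h10⟩
    obtain ⟨J, hJ, h11⟩ := (Submodule.fg_span_iff_fg_span_finset_subset _).1
      (IsNoetherian.noetherian (R := MvPolynomial (Fin g ⊕ Fin N) ℂ) (A.locI (acl S) (z, w)))
    obtain ⟨τ, rfl⟩ := qs_surj t
    simp only [pr_top] at h10
    set u := rep fun k => xt e (z k)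
    have hv : ∀ i, Sum.elim z (A.crd w) i ∈ acl ((acl S : Set ℂ) ∪
        (range (A.pr ⊤ z) ∪ range (A.crd (A.pr ⊤ w)))) := fun i => mem_acl_of_mem (Or.inr (by
      rw [pr_top, pr_top, ← Sum.elim_range]
      exact ⟨i, rfl⟩))
    have key : ∀ p, Cf (acl S) p → xt e (eval (Sum.elim z (A.crd w)) p) =
        qs fun n => eval (Sum.elim (u n) (τ n • A.θ (u n))) p := fun p hp => by
      rw [xt_eval e co (subset_union_left.trans (subset_acl _)) he hp hv, ← eval₂_vec]
      congr 1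
      funext i
      cases i with
      | inl i => exact (congrFun (vec_rep fun k => xt e (z k)) i).symm
      | inr i => exact (h10 i).trans (map_mul qs _ _).symm
    obtain ⟨j, hj⟩ := exists_nrm_eq_one (A.ne_zero w)
    have h12 := key _ (cf_X (Sum.inr j))
    rw [eval_X, Sum.elim_inr, show A.crd w j = 1 from hj, he 1 (one_mem _), map_one] at h12
    obtain ⟨n, h13, h14⟩ := ((qs_ne_zero.1 (h12 ▸ one_ne_zero)).and
      ((eventually_all_finset J).2 fun p hp => qs_eq_zero.1 ((key p (hJ hp).1).symm.trans (by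
        rw [show eval (Sum.elim z (A.crd w)) p = 0 from (hJ hp).2 _, he 0 (zero_mem _),
          map_zero])))).exists
    have h15 : τ n ≠ 0 := left_ne_zero_of_mul (by simpa using h13)
    refine ⟨u n, fun p hp s => ?_⟩
    have h16 := A.idl_scale W (u n) (τ n • A.θ (u n)) (s * (τ n)⁻¹) (fun p hp =>
      Ideal.span_le (I := RingHom.ker (eval _)).2 h14 (h11.le (h8.ge hp))) p
      (h4 (A.mem_idl.2 fun q hq => hq p hp))
    rwa [mul_smul, inv_smul_smul₀ h15] at h16

end Pool.Agent.P.MP_f17f76_ag
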