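import Pool.Agent.P.MP_f17f76_ag.S.St
import Pool.Agent.P.MP_f17f76_ag.S.Top
import Pool.Agent.P.MP_f17f76_ag.S.Tow
import Pool.Agent.P.MP_f17f76_ag.E.Log
import Pool.Agent.P.MP_f17f76_ag.E.NdA

/-!
The spatial vector fields of a state are algebraic; transport of bounds and of the passengers.
-/

namespace Pool.Agent.P.MP_f17f76_ag

open Module Set Matrix E N MvPolynomial

noncomputable section

namespace Vf

variable {K : Subfield ℂ} {R : Type} [CommRing R] (ι : K →+* R) {a b : ℂ}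

theorem xt_add (ha : a ∈ K) (hb : b ∈ K) : xt ι (a + b) = xt ι a + xt ι b := by
  rw [xt_of_mem ι ha, xt_of_mem ι hb, xt_of_mem ι (add_mem ha hb), ← map_add]
  rfl

theorem xt_mul (ha : a ∈ K) (hb : b ∈ K) : xt ι (a * b) = xt ι a * xt ι b := by
  rw [xt_of_mem ι ha, xt_of_mem ι hb, xt_of_mem ι (mul_mem ha hb), ← map_mul]
  rfl

theorem xt_sub (ha : a ∈ K) (hb : b ∈ K) : xt ι (a - b) = xt ι a - xt ι b := by
  rw [xt_of_mem ι ha, xt_of_mem ι hb, xt_of_mem ι (sub_mem ha hb), ← map_sub]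
  rfl

theorem xt_zero : xt ι 0 = 0 := (xt_of_mem ι K.zero_mem).trans (map_zero ι)

theorem xt_one : xt ι 1 = 1 := (xt_of_mem ι K.one_mem).trans (map_one ι)

theorem xt_sum {α : Type} {s : Finset α} {f : α → ℂ} (h : ∀ i, f i ∈ K) :
    xt ι (∑ i ∈ s, f i) = ∑ i ∈ s, xt ι (f i) := by
  simp only [xt_of_mem ι (h _), ← map_sum, xt_of_mem ι (sum_mem fun i (_ : i ∈ s) => h i)]
  exact congrArg ι (Subtype.ext (by simp))

theorem xt_dot {α : Type} [Fintype α] {u z : α → ℂ} (hu : ∀ i, u i ∈ K) (hz : ∀ i, z i ∈ K) :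
    xt ι (u ⬝ᵥ z) = ∑ i, xt ι (u i) * xt ι (z i) := by
  rw [dotProduct, xt_sum ι fun i => mul_mem (hu i) (hz i)]
  exact Finset.sum_congr rfl fun i _ => xt_mul ι (hu i) (hz i)

/-- Linear forms over `K` separate the points of `R`. -/
theorem exists_form {f : R} (hf : f ≠ 0) : ∃ φ : R →+ ℂ,
    (∀ a ∈ K, ∀ r, φ (xt ι a * r) = a * φ r) ∧ (∀ r, φ r ∈ K) ∧ φ f = 1 := by
  let _ := ι.toAlgebra
  obtain ⟨φ, hφ⟩ := Module.Projective.exists_dual_eq_one K hf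
  refine ⟨(K.subtype : K →+ ℂ).comp φ.toAddMonoidHom, fun a ha r => ?_, fun r => (φ r).2,
    congrArg Subtype.val hφ⟩
  rw [xt_of_mem ι ha]
  exact congrArg Subtype.val (φ.map_smul (⟨a, ha⟩ : K) r)

theorem exists_der_form (d : R →+ R) (hd : ∀ a b, d (a * b) = a * d b + b * d a) (φ : R →+ ℂ)
    (hφ : ∀ a ∈ K, ∀ r, φ (xt ι a * r) = a * φ r) :
    ∃ D : Der ℂ, ∀ a ∈ K, D a = φ (d (xt ι a)) := by
  obtain ⟨D, hD, -⟩ := exists_der_ext K (φ.comp (d.comp (ι : K →+ R))) (fun a b => by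
    simp only [AddMonoidHom.comp_apply, AddMonoidHom.coe_coe, map_mul, hd, map_add, ← hφ _ a.2,
      ← hφ _ b.2, xt_of_mem ι a.2, xt_of_mem ι b.2]) (v := (Empty.elim : Empty → ℂ))
    algebraicIndependent_empty_type Empty.elim
  exact ⟨D, fun a ha => by rw [xt_of_mem ι ha]; exact hD ⟨a, ha⟩⟩

/-- The chart formula for the logarithmic derivative, algebraically and analytically. -/
theorem dl_key {n N : ℕ} {A : AbVar n N} {k : Subfield ℂ} (h : A.Over k) (p : Fin n → ℂ) :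
    ∃ (ρ : MvPolynomial (Fin N) ℂ) (G : Fin n → Fin N → MvPolynomial (Fin N) ℂ), Cf k ρ ∧
      (∀ i j, Cf k (G i j)) ∧ eval (A.crd p) ρ ≠ 0 ∧ (∀ D ∈ kil (k : Set ℂ), ∀ i,
        eval (A.crd p) ρ * A.dl p D i = ∑ j, eval (A.crd p) (G i j) * D (A.crd p j)) ∧
      ∀ {I : Type} [Fintype I] [DecidableEq I] (w : Fin n → H I) (y : Fin N → H I),
        (∃ j, y j = 1) → (∀ x, Pt x → A.Exp (evv x w) (evv x y)) → ∀ l i,
        eval₂ (cn.comp co) y ρ * dd l (w i) = ∑ j, eval₂ (cn.comp co) y (G i j) * dd l (y j) := by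
  obtain ⟨ρ, G, a1, a2, a3, a4⟩ := h.dl_chart p (A.piv_inv_ne p)
  refine ⟨ρ, G, a1, a2, a3, fun D hD i => ?_, fun w y ⟨j₀, h0⟩ h1 l i => ?_⟩
  · obtain ⟨t, a5⟩ := h.dl_spec hD p
    rw [A.crd_eq, a4 _ _ _ t, ← a5]
    rfl
  have h2 : ∀ x, Pt x → ∃ t, ∀ j, ev x (y j) = t * ev x (thH A w j) := fun x hx =>
    (h1 x hx).imp fun t ht j => (ht j).trans (by rw [thH, ev_cmp' (diff_th A j) w hx])
  obtain ⟨s, hs⟩ := (isUnit_of_ne (g := thH A w j₀) fun x hx e => by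
    obtain ⟨t, ht⟩ := h2 x hx
    simpa [h0, e] using ht j₀).exists_left_inv
  obtain rfl : (fun j => s * thH A w j) = y := funext fun j => H.ext fun x hx => by
    obtain ⟨t, ht⟩ := h2 x hx
    have := ht j₀
    rw [h0, ← hs, map_mul] at this
    rw [map_mul, ht, mul_right_cancel₀ (right_ne_zero_of_mul_eq_one
      ((map_mul _ _ _).symm.trans ((congrArg _ hs).trans (map_one _)))) this]
  refine H.ext fun x hx => ?_
  obtain ⟨u, hu⟩ := vec_surj (evv x w)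
  obtain ⟨v, hv⟩ := vec_surj (evv x fun k => dd l (w k))
  obtain ⟨σ, hσ⟩ := qs_surj (ev x s)
  obtain ⟨τ, hτ⟩ := qs_surj (ev x (dd l s))
  have b1 : ∀ q, ev x (eval₂ (cn.comp co) (fun j => s * thH A w j) q) =
      qs fun m => eval (σ m • A.θ (u m)) q := fun q => by
    rw [← aeval_vec, eval₂_comp_left, aeval_def]
    congr 1
    · exact RingHom.ext fun a => ev_cn x _
    · funext j
      rw [Function.comp_apply, map_mul, ev_thH A hx hu.symm, ← hσ]
      rfl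
  simp only [map_mul (ev x), map_sum (ev x), b1, Derivation.leibniz, smul_eq_mul, map_add,
    ev_dd_thH A hx hu.symm hv.symm, ev_thH A hx hu.symm, ← hσ, ← hτ,
    show ev x (dd l (w i)) = qs fun m => v m i from (congrFun hv i).symm]
  simp only [← map_mul, ← map_add, ← map_sum]
  refine qs_eq.2 ((qs_ne_zero.1 (hσ ▸ ((IsUnit.of_mul_eq_one _ hs).map (ev x)).ne_zero)).mono
    fun m hm => ?_)
  rw [Finset.sum_apply]
  refine (a4 _ _ _ (τ m / σ m) i).trans (Finset.sum_congr rfl fun j _ => ?_)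
  simp only [AbVar.tm_apply, Pi.add_apply, Pi.mul_apply, Pi.smul_apply, smul_eq_mul]
  field_simp

theorem dd_aeval {I σ : Type} [Fintype I] [DecidableEq I] {l : I} {w : σ → H I}
    (h : ∀ i, dd l (w i) = 0) (p : MvPolynomial σ Cs) : dd l (aeval w p) = 0 := by
  induction p using MvPolynomial.induction_on with
  | C a => simp
  | add p q hp hq => rw [map_add, map_add, hp, hq, add_zero]
  | mul_X p i hp => simp [hp, h]

theorem not_big_add {T a b c : ℝ*} (hT : Ll 1 T) (ha : ¬ Big T a) (hb : ¬ Big T b) (h0 : 0 ≤ a)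
    (hc : 0 ≤ c) (h : c ≤ a + b) : ¬ Big T c := fun e => by
  have := e.of_lc hT hc (h0.trans (le_max_left a b))
    (Lc.le_trans h ((Lc.of_le (le_max_left a b)).add (Lc.of_le (le_max_right a b))))
  rcases max_choice a b with e' | e' <;> rw [e'] at this
  exacts [ha this, hb this]

end Vf

open Vf

variable {g N : ℕ} {A : AbVar g N} {M : Model A} {C' : Sub g} {T : ℝ*} {Jν J J' : Type}
  [Fintype Jν] [Fintype J] [Fintype J'] {A' Z A'' Z'' U : Sub g}

namespace Core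

variable (s : Core M C' T Jν J A' Z)

theorem k0_le : M.k0 ≤ s.c := (M.fld_kq C').le.trans s.fld.le

theorem c_le : s.c ≤ s.K := s.hK ▸ subset_union_left.trans (subset_acl _)

theorem qs_sub : M.qs Z A' ⊆ s.K := s.hK ▸ subset_union_right.trans (subset_acl _)

theorem acl_K : acl (s.K : Set ℂ) = s.K := by rw [s.hK, acl_acl]

theorem z_mem (hU : A.IsLie U) (h : U ≤ Z) (k : Fin g) : A.pr U M.z k ∈ s.K :=
  s.acl_K.le (M.ov.pr_le hU h ((s.k0_le.trans s.c_le).trans s.acl_K.ge)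
    (((M.zs_sub _ _).trans s.qs_sub).trans s.acl_K.ge) ⟨k, rfl⟩)

theorem a_mem (hU : A.IsLie U) (h : U ≤ A') (j : Fin N) : A.crd (A.pr U M.w) j ∈ s.K :=
  s.acl_K.le (M.ov.crd_pr_le hU h ((s.k0_le.trans s.c_le).trans s.acl_K.ge)
    (((M.as_sub _ _).trans s.qs_sub).trans s.acl_K.ge) ⟨j, rfl⟩)

theorem dot_z_mem {u : Fin g → ℂ} (hu : u ∈ A.du Z) (h : ∀ k, u k ∈ s.K) : u ⬝ᵥ M.z ∈ s.K :=
  A.dot_pr hu M.z ▸ dot_mem h (s.z_mem s.lie le_rfl)

theorem y_mem (l : J) : s.row l ⬝ᵥ M.z ∈ s.K := s.dot_z_mem (s.du l) fun k => s.c_le (s.std l k).1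

theorem rho_ne (l : J) : s.ρ l ≠ 0 := fun e => s.rho l (by simpa [e] using tiny_zero)

/-- The standard constants form a field. -/
def StdF : Subfield ℂ where
  carrier := s.Std
  mul_mem' ha hb := ⟨mul_mem ha.1 hb.1, by
    rw [xt_mul _ (s.c_le ha.1) (s.c_le hb.1), ha.2, hb.2, map_mul, map_mul]⟩
  one_mem' := ⟨one_mem _, by rw [xt_one, map_one, map_one]⟩
  add_mem' ha hb := ⟨add_mem ha.1 hb.1, by
    rw [xt_add _ (s.c_le ha.1) (s.c_le hb.1), ha.2, hb.2, map_add, map_add]⟩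
  zero_mem' := ⟨zero_mem _, by rw [xt_zero, map_zero, map_zero]⟩
  neg_mem' {a} ha := ⟨neg_mem ha.1, by
    rw [← zero_sub, xt_sub _ (zero_mem _) (s.c_le ha.1), ha.2, xt_zero, map_sub, map_sub, map_zero,
      map_zero]⟩
  inv_mem' a ha := ⟨inv_mem ha.1, by
    rcases eq_or_ne a 0 with rfl | h
    · rw [_root_.inv_zero, ha.2]
    refine mul_left_cancel₀ (a := cn (co a)) (by simpa using h) ?_
    rw [← map_mul, ← map_mul, ← ha.2, ← xt_mul _ (s.c_le ha.1) (s.c_le (inv_mem ha.1)),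
      mul_inv_cancel₀ h, xt_one, map_one, map_one]⟩

theorem k0_std : M.k0 ≤ s.StdF := fun a ha => ⟨s.k0_le ha, s.id a ha⟩

theorem xt_std_dot {α : Type} [Fintype α] {u z : α → ℂ} (hu : ∀ i, u i ∈ s.Std)
    (hz : ∀ i, z i ∈ s.K) : xt s.ι (u ⬝ᵥ z) = ∑ i, co (u i) • xt s.ι (z i) := by
  rw [xt_dot _ (fun i => s.c_le (hu i).1) hz]
  exact Finset.sum_congr rfl fun i _ => by rw [(hu i).2, Algebra.smul_def, algebraMap_eq_cn]

variable [DecidableEq Jν] [DecidableEq J] [DecidableEq J']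

theorem dd_nu (l : J) (i : Jν) : dd (.inr l) (s.nu i) = 0 := by
  simp [Dat.nu, nuv, dd_xc]

theorem dd_y (l m : J) : dd (.inr l) (xt s.ι (s.row m ⬝ᵥ M.z)) = if l = m then cn (s.ρ l) else 0 := by
  rw [s.coord, map_add, dd_aeval (s.dd_nu l), zero_add, Derivation.map_smul, dd_xc]
  split_ifs with h1 h2 h2
  · rw [h2, Algebra.smul_def, mul_one, algebraMap_eq_cn]
  · exact absurd (Sum.inr_injective h1).symm h2
  · exact absurd (congrArg _ h2.symm) h1
  · exact smul_zero _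

theorem dd_z (l : J) (k : Fin g) : dd (.inr l) (xt s.ι (A.pr A' M.z k)) = dd (.inr l) (s.w k) := by
  rw [w, Dat.wt, map_sub, dd_aeval (s.dd_nu l), sub_zero]

/-- The spatial vector fields are algebraic. -/
theorem exists_D : ∃ D : J → Der ℂ, (∀ l, D l ∈ kil (s.c : Set ℂ) ∧ (∀ a ∈ s.K, D l a ∈ s.K) ∧
    (∀ m, D l (s.row m ⬝ᵥ M.z) = if l = m then 1 else 0) ∧
      dv (A.pr A' M.z) (D l) = A.dl (A.pr A' M.w) (D l)) ∧
    ∀ a ∈ s.K, ∀ l, dd (.inr l) (xt s.ι a) = s.ρ l • xt s.ι (D l a) := by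
  obtain ⟨ρ, G, a1, a2, a3, a4, a5⟩ := dl_key M.ov (A.pr A' M.w)
  have hk := s.k0_le.trans s.c_le
  have ha := s.a_mem s.btw.1 le_rfl
  have a6 := a5 s.w (fun j => xt s.ι (A.crd (A.pr A' M.w) j))
    ((exists_nrm_eq_one (A.ne_zero (A.pr A' M.w))).imp fun j hj =>
      (congrArg (xt s.ι) hj).trans (xt_one _)) s.exp
  simp only [← xt_eval s.ι (cn.comp co) hk s.id a1 ha,
    ← xt_eval s.ι (cn.comp co) hk s.id (a2 _ _) ha] at a6
  have key : ∀ (l : J) (φ : H (Jν ⊕ J) →+ ℂ), (∀ a ∈ s.K, ∀ r, φ (xt s.ι a * r) = a * φ r) →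
      ∃ D : Der ℂ, (∀ a ∈ s.K, D a = φ (cn (s.ρ l)⁻¹ * dd (.inr l) (xt s.ι a))) ∧
        D ∈ kil (s.c : Set ℂ) ∧ (∀ m, D (s.row m ⬝ᵥ M.z) = if l = m then φ 1 else 0) ∧
        dv (A.pr A' M.z) D = A.dl (A.pr A' M.w) D := fun l φ hφ => by
    obtain ⟨D, hD⟩ := exists_der_form s.ι ((AddMonoidHom.mulLeft (cn (s.ρ l)⁻¹)).comp
      (dd (Sum.inr l : Jν ⊕ J)).toLinearMap.toAddMonoidHom) (fun a b => by simp; ring) φ hφ
    replace hD : ∀ a ∈ s.K, D a = φ (cn (s.ρ l)⁻¹ * dd (.inr l) (xt s.ι a)) := hD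
    have h1 : D ∈ kil (s.c : Set ℂ) := fun a ha => by
      obtain ⟨b, hb⟩ := s.cst a ha
      simp [hD a (s.c_le ha), hb]
    refine ⟨D, hD, h1, fun m => ?_, funext fun i => mul_left_cancel₀ a3 ?_⟩
    · rw [hD _ (s.y_mem m), s.dd_y]
      split_ifs
      · rw [← map_mul, inv_mul_cancel₀ (s.rho_ne l), map_one]
      · simp
    · rw [a4 D (kil_anti s.k0_le h1), dv_apply, hD _ (s.z_mem s.btw.1 s.btw.2.2 i),
        ← hφ _ (a1.eval_mem' hk ha), mul_left_comm, s.dd_z, a6, Finset.mul_sum, map_sum]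
      exact Finset.sum_congr rfl fun j _ => by
        rw [mul_left_comm, hφ _ ((a2 i j).eval_mem' hk ha), hD _ (ha j)]
  obtain ⟨φ₀, b1, b2, b3⟩ := exists_form s.ι one_ne_zero
  choose D b4 b5 b6 b7 using fun l => key l φ₀ b1
  have b8 : ∀ l, ∀ a ∈ s.K, D l a ∈ s.K := fun l a ha => b4 l a ha ▸ b2 _
  refine ⟨D, fun l => ⟨b5 l, b8 l, b3 ▸ b6 l, b7 l⟩, fun a ha l => ?_⟩
  have : cn (s.ρ l)⁻¹ * dd (.inr l) (xt s.ι a) - xt s.ι (D l a) = 0 := by_contra fun e => by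
    obtain ⟨φ, c1, -, c3⟩ := exists_form s.ι e
    obtain ⟨D', c4, c5, c6, c7⟩ := key l φ c1
    have c8 := sub_mem c5 (Submodule.smul_mem _ (φ 1) (b5 l))
    have c9 := s.basis _ c8 (fun m => by
      simp only [Derivation.sub_apply, Derivation.smul_apply, c6, b6, b3]
      split_ifs <;> simp) (by simp only [map_sub, map_smul, c7, b7])
    have c10 := acl_le_cst ((kil_union _ _).ge ⟨c8, c9⟩) (s.hK.le ha)
    rw [mem_cst, Derivation.sub_apply, Derivation.smul_apply, c4 a ha, smul_eq_mul, mul_comm (φ 1),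
      ← c1 _ (b8 l a ha), mul_one, ← map_sub, c3] at c10
    exact one_ne_zero c10
  rw [← sub_eq_zero.1 this, Algebra.smul_def, algebraMap_eq_cn, ← mul_assoc, ← map_mul,
    mul_inv_cancel₀ (s.rho_ne l), map_one, one_mul]

/-- Spatial derivatives have the same size at all points. -/
theorem dd_le {a : ℂ} (ha : a ∈ s.K) {x : Jν ⊕ J → Cs} (hx : Pt x) (l : J) :
    Lc (nm (ev x (dd (.inr l) (xt s.ι a)))) (nm (s.dr a l)) := by
  obtain ⟨D, h1, h2⟩ := s.exists_D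
  rw [dr, h2 a ha, ev_smul, ev_smul, map_mul, map_mul, xt_of_mem _ ((h1 l).2.1 a ha)]
  exact (s.stab.lc hx Pt.zero _).mul_left (nm.nonneg _)

theorem li : LinearIndependent ℂ s.row := by
  obtain ⟨D, h1, -⟩ := s.exists_D
  refine Fintype.linearIndependent_iff.2 fun a ha l => ?_
  have := congrArg (· ⬝ᵥ dv M.z (D l)) ha
  simpa [sum_dotProduct, ← der_dot_of fun k => (h1 l).1 _ (s.std _ k).1, (h1 l).2.2.1] using this

variable {s} {s' : Core M C' T Jν J' A'' Z''} {η : ℝ*} {φ : Jν ⊕ J → H (Jν ⊕ J')} {h : Cs}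

omit [DecidableEq J] in
theorem Ref.dd_inl (r : s.Ref η s' φ h) (i : Jν) (j : Jν ⊕ J') :
    dd j (φ (.inl i)) = if Sum.inl i = j then cn (h * ofR s'.n / ofR s.n) else 0 := by
  obtain ⟨ν₀, e⟩ := r.nu i
  have h0 : ofR s.n ≠ 0 := (map_ne_zero _).2 s.npos.ne'
  have e' := congrArg (fun f => cn (ofR s.n)⁻¹ * dd j f) e
  simp only [Dat.nu, nuv, Algebra.smul_def, algebraMap_eq_cn, map_mul, pull_cn, pull_xc r.maps,
    map_add, Derivation.leibniz, dd_cn, Algebra.algebraMap_self, RingHom.id_apply, mul_zero,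
    add_zero, zero_add, dd_xc] at e'
  rw [← mul_assoc, ← map_mul, inv_mul_cancel₀ h0, map_one, one_mul] at e'
  rw [e']
  split_ifs
  · simp only [div_eq_mul_inv, map_mul]
    ring
  · simp

theorem Ref.dd_inr (r : s.Ref η s' φ h) (f : H (Jν ⊕ J)) (l' : J') : dd (.inr l') (pull φ f) =
    ∑ l, pull φ (dd (.inr l) f) * dd (.inr l') (φ (.inr l)) := by
  simp [dd_pull r.maps, r.dd_inl]

end Core

theorem s_der : S_DER := fun s s' η φ h r => by
  refine ⟨fun a ha => ⟨r.c ha.1, by rw [r.ι a (s.c_le ha.1), ha.2, pull_cn]⟩,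
    fun a ha b hb h1 l' => ?_⟩
  rw [Core.dr, r.ι a ha, r.dd_inr, map_sum]
  refine Lc.le_trans (nm.sum_le _ _) (Lc.sum fun l _ => ?_)
  rw [map_mul, map_mul, ev_pull r.maps Pt.zero, mul_comm η]
  exact ((s.dd_le ha (r.maps 0 Pt.zero) l).trans (h1 l)).mul (r.sp l l') (nm.nonneg _) hb

theorem Core.Ref.sl {s : Core M C' T Jν J A' Z} {s' : Core M C' T Jν J' A'' Z''} {η : ℝ*}
    {φ : Jν ⊕ J → H (Jν ⊕ J')} {h : Cs} {C1 A0 : Sub g} {μ : Jν → Fin g → Cs}
    [DecidableEq Jν] [DecidableEq J] [DecidableEq J'] (r : s.Ref η s' φ h) (hC : A.IsLie C1)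
    (h1 : s.SL C1 A0 μ) : s'.SL C1 A0 fun i => h • μ i := by
  have hZ : h ∈ Zs := PosZ.mem r.nat
  refine ⟨h1.le.trans r.leZ, fun i => ?_, fun k x hx => ?_⟩
  · have := (st_inter (x := μ i) (S := A.Λ) (S' := A.rel C1 A0)).1 (h1.lat i)
    exact (st_inter (x := h • μ i) (S := A.Λ) (S' := A.rel C1 A0)).2 ⟨St.zsmul this.1 hZ, St.smul this.2 h⟩
  choose ν₀ h2 using r.nu
  have e : xt s'.ι (A.pr C1 M.z k) - ∑ i, (h • μ i) k • s'.nu i =
      pull φ (xt s.ι (A.pr C1 M.z k) - ∑ i, μ i k • s.nu i) + cn (∑ i, μ i k * ν₀ i) := by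
    simp only [r.ι _ (s.z_mem hC h1.le k), map_sub, map_sum, Algebra.smul_def, algebraMap_eq_cn,
      map_mul, pull_cn, h2, Pi.smul_apply, Algebra.algebraMap_self, RingHom.id_apply, mul_add,
      Finset.sum_add_distrib, mul_assoc, mul_left_comm (cn h)]
    ring
  rw [e, map_add, map_add, ev_cn, ev_cn, add_sub_add_right_eq_sub, ev_pull r.maps hx,
    ev_pull r.maps Pt.zero]
  exact not_big_add s.inf (h1.var k _ (r.maps x hx)) (h1.var k _ (r.maps 0 Pt.zero)) (nm.nonneg _)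
    (nm.nonneg _) ((nm.sub_le _ _ _).trans_eq (congrArg _ (nm.map_sub _ _)))

theorem s_pass : S_PASS := fun {g N A M C' T Jν J J' _ _ _ _ _ _ A' Z A'' Z''} s s' η φ h C1 hC r => by
  have h1 : 1 ≤ nm h := (PosZ.eq r.nat).2
  refine ⟨fun ⟨A0, μ, a1, a2, a3, a4, a5⟩ => ⟨A0, _, r.sl hC a1, a2, a3, a4, fun v i => ?_⟩,
    fun ⟨μ, a1, u, a2, a3, a4, i, a5⟩ => ⟨_, r.sl hC a1, u, a2, a3, a4, i, fun e => a5 ?_⟩,
    fun ⟨a1, u, a2, a3, i, k, a4⟩ => ?_⟩
  · refine (a5 v i).trans_le (Finset.sum_le_sum fun k _ => ?_)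
    simp only [Pi.smul_apply, smul_eq_mul, mul_left_comm _ h, ← Finset.mul_sum, map_mul]
    exact le_mul_of_one_le_left (nm.nonneg _) h1
  · refine e.of_le s.inf ?_
    simp only [dot, Pi.smul_apply, smul_eq_mul, mul_left_comm _ h, ← Finset.mul_sum, map_mul]
    exact le_mul_of_one_le_left (nm.nonneg _) h1
  have e := r.wt u (A.du_mono ((A.rel_le _ _).trans a1) a2)
  obtain ⟨m, hm⟩ := s.nhi
  refine ⟨a1.trans r.le, u, a2, fun l => by simp [e, r.dd_inr, a3], i, k + m, fun x hx => ?_⟩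
  have e' : dd (.inl i) (dot u s'.w) =
      pull φ (dd (.inl i) (dot u s.w)) * cn (h * ofR s'.n / ofR s.n) := by
    simp [e, dd_pull r.maps, r.dd_inl, a3]
  rw [e', map_mul, ev_pull r.maps hx, ev_cn, map_mul, map_div₀, map_mul,
    nm_ofR_of_nonneg s.npos.le, nm_ofR_of_nonneg s'.npos.le, pow_add, mul_mul_mul_comm]
  refine one_le_mul_of_one_le_of_one_le (a4 _ (r.maps x hx)) ?_
  rw [div_mul_eq_mul_div, one_le_div s.npos]
  exact hm.trans (le_mul_of_one_le_left (pow_nonneg s.inf.pos.le _)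
    (one_le_mul_of_one_le_of_one_le h1 (s'.nlo.ll s.inf s'.npos.le).le))

theorem s_split : S_SPLIT := fun {g N A M C' T Jν J _ _ _ _ A' Z} s Q V I R hQ hV h1 h2 h3 h4 => by
  classical
  have hI : Submodule.span ℂ (s.row '' I) ≤ A.du V := Submodule.span_le.2 (image_subset_iff.2 h1)
  refine eq_bot_iff.2 (((ov_span (k := s.StdF) ?_).inf ((M.ov.ov_lie (hV.1.rel hQ.1)).ann.mono
    s.k0_std)).le_of fun u hu h5 => ?_)
  · rintro _ ⟨l, -, rfl⟩
    exact s.std l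
  obtain ⟨π, b1, b2, b3⟩ := exists_proj s.StdF
  obtain ⟨a, rfl⟩ := (Fintype.mem_span_image_iff_exists_fun ℂ).1 hu.1
  have e : ∑ l : I, a l • s.row l = ∑ l : I, π (a l) • s.row l := funext fun k => by
    have := b1 1 _ (h5 k)
    rw [one_mul, b2, one_mul] at this
    rw [← this]
    simp only [Finset.sum_apply, Pi.smul_apply, smul_eq_mul, map_sum, b1 _ _ (s.std _ k)]
  suffices ∀ l, π (a l) = 0 by simp [e, this]
  intro l
  have e1 : (∑ l : I, a l • s.row l) ⬝ᵥ M.z = (∑ l : I, a l • s.row l) ⬝ᵥ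
      (A.pr A' M.z + A.pr (A.rel Q A') M.z) := by
    rw [A.pr_rel hQ.2.1, add_sub_cancel, ← A.dot_pr (hI hu.1), eq_comm, ← sub_eq_zero,
      ← dotProduct_sub, ← neg_sub, ← A.pr_rel hV.2.1, dotProduct_neg, hu.2 _ (A.pr_mem _ _), neg_zero]
  have c1 := s.z_mem s.btw.1 s.btw.2.2
  have c2 := s.z_mem (hQ.1.rel s.btw.1) ((A.rel_le _ _).trans (hV.2.1.trans hV.2.2))
  have e2 : s.dr ((∑ l : I, a l • s.row l) ⬝ᵥ M.z) l = co (π (a l)) * s.ρ l := by
    have : (∑ l : I, π (a l) • s.row l) ⬝ᵥ M.z = (fun l => π (a l)) ⬝ᵥ fun l : I => s.row l ⬝ᵥ M.z := by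
      simp only [sum_dotProduct, smul_dotProduct, smul_eq_mul]
      rfl
    rw [e, this, Core.dr, s.xt_std_dot (fun l => b3 _) fun l : I => s.y_mem l]
    simp only [map_sum, Derivation.map_smul, s.dd_y, ev_smul, Subtype.coe_inj]
    simp [apply_ite]
  have e3 : Ll (nm (s.dr ((∑ l : I, a l • s.row l) ⬝ᵥ M.z) l)) R := by
    rw [e1, Core.dr, s.xt_std_dot (z := _ + _) h5 fun k => add_mem (c1 k) (c2 k), map_sum, map_sum]
    refine Ll.le_trans (nm.sum_le _ _) (Ll.sum h3.nonneg fun k _ => ?_)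
    rw [Derivation.map_smul, ev_smul, map_mul, ← one_mul R]
    refine (lc_co _).mul_ll ?_ (nm.nonneg _) zero_le_one
    rw [Pi.add_apply, xt_add _ (c1 k) (c2 k), map_add, map_add]
    refine Ll.le_trans (nm.add_le _ _) (Ll.add ?_ ?_)
    · obtain ⟨b, b4, b5⟩ := exists_le_ll (g := s.w k - cn (ev 0 (s.w k))) (by simpa using s.var k)
      have := b5.cauchy_zero (.inr l.1)
      rw [map_sub, dd_cn, sub_zero, ← s.dd_z, two_mul] at this
      exact Ll.le_trans this ((b4.add b4).trans h3)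
    · have := h4 (fun i => A.pr (A.rel Q A') (Pi.single i 1) k) (A.mem_du.2 fun v => by
        simp only [dotProduct, mul_comm _ (v _), mul_comm _ (A.pr _ v _), ← A.pr_apply,
          A.pr_pr_of_ge le_rfl]) (fun i => M.ov.pr _ (hQ.1.rel s.btw.1) i k) l
      rwa [dotProduct_comm, dotProduct, ← A.pr_apply] at this
  rw [e2, map_mul, h2 l l.2, nm_co] at e3
  have := (ll_div h3.pos).2 e3
  rw [mul_div_cancel_right₀ _ h3.pos.ne'] at this
  exact norm_le_zero_iff.1 this.coe_le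

end

end Pool.Agent.P.MP_f17f76_ag
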