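import Pool.Agent.P.MP_f17f76_ag.S.Step
import Pool.Agent.P.MP_f17f76_ag.S.Nofr
import Pool.Agent.P.MP_f17f76_ag.S.Vf
import Pool.Agent.P.MP_f17f76_ag.S.Val

/-!
The absorption step.
-/

namespace Pool.Agent.P.MP_f17f76_ag

open Module Set Matrix E N MvPolynomial

variable {g N : ℕ} {A : AbVar g N} {M : Model A} {C' : Sub g} {T : ℝ*} {Jν J : Type}
  [Fintype Jν] [Fintype J] [DecidableEq Jν] [DecidableEq J] {A' Z B U : Sub g}

namespace Core

variable (s : Core M C' T Jν J A' Z)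

/-- The rate bounds the derivatives of the coordinates. -/
theorem Rate.pr {s : Core M C' T Jν J A' Z} {r : ℝ*} (h : s.Rate B r) (hB : A.IsLie B) (k : Fin g)
    (l : J) : Lc (nm (s.dr (A.pr B M.z k) l)) r := by
  have := h (fun i => A.pr B (Pi.single i 1) k) (A.mem_du.2 fun v => by
    simp only [dotProduct, mul_comm _ (v _), mul_comm _ (A.pr _ v _), ← A.pr_apply,
      A.pr_pr_of_ge le_rfl]) (fun i => M.ov.pr _ hB i k) l
  rwa [dotProduct_comm, dotProduct, ← A.pr_apply] at this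

/-- Small spatial derivatives give a small variation in the spatial directions. -/
theorem near_sp {a : ℂ} (ha : a ∈ s.K) (P : MvPolynomial Jν Cs) (h : ∀ l, Ll (nm (s.dr a l)) 1)
    {x : Jν ⊕ J → Cs} (hx : Pt x) : ∃ x', Pt x' ∧ (∀ l, x' (.inr l) = 0) ∧
      Ll (nm (ev x (xt s.ι a - aeval s.nu P) - ev x' (xt s.ι a - aeval s.nu P))) 1 := by
  choose c h1 h2 using fun l => exists_le_ll (g := dd (.inr l) (xt s.ι a - aeval s.nu P))
    fun x hx => by
      rw [map_sub, Vf.dd_aeval (s.dd_nu l), sub_zero]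
      exact (s.dd_le ha hx l).trans_ll (h l)
  have h3 : Pt (Sum.elim (fun j => x (.inl j)) 0 : Jν ⊕ J → Cs) :=
    Sum.rec (fun j => hx _) fun l => by simp
  refine ⟨_, h3, fun _ => rfl, Ll.le_trans (mean_value (c := Sum.elim 0 c)
    (Sum.rec (fun j => .inl rfl) fun l => .inr (h2 l)) h3 hx) (.sum zero_le_one ?_)⟩
  rintro (j | l) -
  · simpa using Ll.zero zero_le_one
  · simpa using (h1 l).mul_one (.of_le (hx (.inr l)).le) (nm.nonneg _)

omit [DecidableEq Jν] [DecidableEq J] in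
theorem K_le (hU : A.Btw A' U Z) : s.K ≤ acl ((s.c : Set ℂ) ∪ M.qs Z U) :=
  s.hK.trans_le (acl_le (union_subset (acl_ul _ _) (union_subset
    ((M.zs_sub _ _).trans (acl_ur _ _)) (M.ov.crd_pr_le s.btw.1 hU.2.1
      (Subset.trans s.k0_le (acl_ul _ _)) ((M.as_sub _ _).trans (acl_ur _ _))))))

omit [DecidableEq Jν] [DecidableEq J] in
/-- The basis clause for a larger subspace. -/
theorem basis_le (hU : A.Btw A' U Z) (D) (hD : D ∈ kil (s.c : Set ℂ))
    (h1 : ∀ l, D (s.row l ⬝ᵥ M.z) = 0) (h2 : dv (A.pr U M.z) D = A.dl (A.pr U M.w) D) :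
    D ∈ kil (M.qs Z U) := by
  have h3 := kil_anti s.k0_le hD
  have h4 := ((kil_union _ _).le (s.basis D hD h1 (by
    rw [← A.pr_pr_of_le hU.2.1, M.ov.dv_pr s.btw.1 h3, h2, ← M.ov.dl_pr h3 s.btw.1,
      A.pr_pr_of_le hU.2.1]))).1
  refine (kil_union _ _).ge ⟨h4, (M.ov.dl_eq_zero_iff h3).1 ?_⟩
  rw [← h2, ← A.pr_pr_of_le hU.2.2, M.ov.dv_pr hU.1 h3, dv_eq_zero.2 h4, map_zero]

end Core

theorem s_abs : S_ABS := by
  intro g N A M C' X C1 C T Jν J _ _ _ _ A' Z s U r η t hZ hP hU hc hR hr hη hηr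
  have hT := s.inf
  have h0 : 0 < η := lt_of_not_ge fun e => hη (tiny_zero.of_le hT e)
  obtain ⟨e, e0, e1, e2⟩ := exists_ll_ge (countable_singleton (η * r)) one_pos (by simpa)
  have e3 : Ll (η / e * r) 1 := by
    rw [div_mul_eq_mul_div, ll_div e0]
    exact e2 _ rfl
  have e4 := div_pos h0 e0
  obtain ⟨s₁, φ₁, h₁, L, δ, r₁, -, -, c3, c4, c5, c6, c7, -, c9, c10⟩ := s.prep hU
    (fun h => hη (h.of_le hT (le_div_self h0.le e0 e1.le)))
    ((le_mul_of_one_le_right e4.le hr).trans e3.le)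
  have hB := hU.1.rel s.btw.1
  have hBZ := (A.rel_le U A').trans hU.2.2
  have hz := s₁.z_mem hB hBZ
  have hn : ∀ x, Pt x → Near (evv x (wB M s₁.ι s₁.n (A.rel U A') L))
      fun k => stc (ev 0 (wB M s₁.ι s₁.n (A.rel U A') L k)) := fun x hx k => by
    obtain ⟨x', d1, d2, d3⟩ := s₁.near_sp (hz k) (L k) (fun l => ((s_der s s₁ _ _ _ r₁).der _
      (s.z_mem hB hBZ k) r (zero_le_one.trans hr) (hR.pr hB k) l).trans_ll e3) hx
    exact near_trans (near_trans d3 (.le_trans (c10 k x' d1 d2) (c9.ll hT))) (near_stc (c7 k))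
  obtain ⟨i, hi⟩ := Function.ne_iff.1
    (A.ne_zero fun k => stc (ev 0 (wB M s₁.ι s₁.n (A.rel U A') L k)))
  obtain ⟨y, hy⟩ := exists_expCh hi hn
  have hk := s₁.k0_le.trans s₁.c_le
  obtain ⟨b1, b2⟩ := s₁.abs_ext t hZ (hP.imp_right (s_pass s s₁ _ _ _ C1 t.t1.1 r₁).2.2) hU hc
    (fun _ => rfl) (fun x _ => wB_mem hB hk s₁.id hz _ c6 x) hn hi hy
  have k1 := s₁.K_le hU
  have k2 := range_subset_iff.1 (M.ov.crd_pr_le hB (A.rel_le U A') (hk.trans k1)
    ((M.as_sub Z U).trans (acl_ur (s₁.c : Set ℂ) _)))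
  have k3 := Subset.trans hk (acl_ul _ (range (A.aff i (A.pr (A.rel U A') M.w))))
  obtain ⟨ν₀, n', p, φ, ι', f1, f2, f3, f4, f5, f6, f7, f8, f9, f10, f11⟩ := s₁.rc_ext hy
    (fun k => sub_mem (Algebra.subset_adjoin (.inl ⟨_, (xt_of_mem _ (hz k)).symm⟩))
      (Algebra.adjoin_mono subset_union_right (s₁.aeval_nu_mem _))) b2 k1
    (fun m => A.aff_eq_crd _ _ ▸ mul_mem (inv_mem (k2 i)) (k2 m))
    (acl_le (union_subset (Subset.trans s₁.c_le (acl_ul _ _)) (union_subset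
      (((M.zs_sub _ _).trans s₁.qs_sub).trans (acl_ul _ _)) (by
        rw [Model.as, ← A.sup_rel hU.2.1]
        nth_rw 2 [A.sup_rel hU.2.1]
        exact M.ov.crd_pr_sup s.btw.1 hB k3 (((M.as_sub _ _).trans s₁.qs_sub).trans (acl_ul _ _))
          (range_subset_iff.2 (AbVar.nrm_aff b1 ▸ nrm_mem fun m => acl_ur _ _ ⟨m, rfl⟩))))))
    e0.le e1
  have hW : wB M ι' n' (A.rel U A') (fun k => subs ν₀ 1 (L k)) =
      fun k => pull φ (wB M s₁.ι s₁.n (A.rel U A') L k) := funext fun k => by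
    rw [wB, wB, map_sub, f10 _ (hz k), pull_subs f6]
  have hc' : ∀ a ∈ s₁.c, ∀ b, xt s₁.ι a = cn b → xt ι' a = cn b := fun a ha b hb => by
    rw [f10 a (s₁.c_le ha), hb, pull_cn]
  obtain ⟨s', r', -, -, -, -, g1, g2⟩ := s₁.step hU s.lie le_rfl ι' f5 posZ_one f1 f2 f3
    (.of_le f4 s₁.nhi) f6 ⟨s₁.fld.cnt, s₁.fld.acl, le_rfl⟩ s₁.free rfl f10
    (fun a ha => (s₁.cst a ha).imp (hc' a ha)) f8 f9 (lat_subs f1 (one_mem _) c6)
    (fun x hx => by rw [hW, evv_pull f5 hx]; exact hn _ (f5 x hx))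
    (fun x hx => by
      simp only [← xt_comp]
      refine .of_aff _ b1 k2 ⟨app (fun _ w => (A.θ w i)⁻¹)
        (evv (evv x φ) (wB M s₁.ι s₁.n (A.rel U A') L)), fun j => ?_⟩
      beta_reduce
      rw [xt_comp, f11, hW, evv_pull f5 hx, ev_pull f5 hx, hy.eq _ (f5 x hx)]
      rfl)
    s₁.du (fun l k => ⟨(s₁.std l k).1, hc' _ (s₁.std l k).1 _ (s₁.std l k).2⟩)
    (fun l => f10 _ (s₁.y_mem l) ▸ s₁.coord_aff f5 f6 (f7 l))
    (fun l h => s.rho l (by
      rw [c4, ← mul_assoc, ← map_mul, mul_div_cancel₀ _ e0.ne', map_mul,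
        nm_ofR_of_nonneg h0.le] at h
      simpa [h0.ne'] using ((not_tiny hT h0.le).1 hη).2.mul_tiny hT h
        (mul_nonneg h0.le (nm.nonneg _))))
    (s₁.basis_le hU) (by have := s.count; omega) (η := e) fun l l' => by
      rw [f7]
      by_cases h : l = l' <;> simp [dd_xc, h, abs_of_pos e0, Lc.refl, Lc.zero]
  have r₂ := r₁.comp r' e4.le fun l l' x hx => by
    rw [c5]
    by_cases h : l = l' <;> simp [-map_div₀, dd_xc, h, abs_of_pos e4, Lc.refl, Lc.zero]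
  refine ⟨s', _, _, div_mul_cancel₀ η e0.ne' ▸ r₂, fun l => ?_⟩
  simp only [g1, g2, c3, c4]
  rw [← mul_assoc, ← map_mul ofR, mul_div_cancel₀ _ e0.ne', map_mul, nm_ofR_of_nonneg h0.le]
  exact ⟨trivial, rfl⟩

end Pool.Agent.P.MP_f17f76_ag
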