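import Pool.Agent.P.MP_f17f76_ag.S.Fam

/-!
Existence of chain data between two tight subspaces.
-/

namespace Pool.Agent.P.MP_f17f76_ag

open Set Module E AbVar

namespace Model

variable {g N : ℕ} {A : AbVar g N} {M : Model A} {C Q Q' lo : Sub g} {m n : ℕ} {U : ℕ → Sub g}
  {ψ : Sub g → ℕ}

variable (M C) in
/-- Chains from a subspace to `C` with their cost. -/
inductive Path : Sub g → ℕ → Prop
  | base : Path C 0
  | step {Q Q' : Sub g} {n : ℕ} : A.IsLie Q → Q ≤ Q' → Path Q' n →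
      Path Q (M.H Q' Q - finrank ℂ Q + n)

variable (M C) in
/-- The minimal cost of a chain. -/
noncomputable def pot (Q : Sub g) : ℕ := sInf {n | M.Path C Q n}

theorem pot_le (h : M.Path C Q n) : M.pot C Q ≤ n := Nat.sInf_le h

theorem path_pot (h : A.IsLie Q) (h' : Q ≤ C) : M.Path C Q (M.pot C Q) :=
  Nat.sInf_mem (s := {n | M.Path C Q n}) ⟨_, Path.step h h' .base⟩

theorem pot_step (h : A.IsLie Q) (h' : A.Btw Q Q' C) :
    M.pot C Q + finrank ℂ Q ≤ M.H Q' Q + M.pot C Q' := by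
  have h1 := pot_le (Path.step (M := M) h h'.2.1 (path_pot h'.1 h'.2.2))
  have h2 := M.le_H' h h'.2.1
  omega

theorem Path.btw (hC : A.IsLie C) (h : M.Path C Q n) : A.IsLie Q ∧ Q ≤ C := by
  induction h with
  | base => exact ⟨hC, le_rfl⟩
  | step h1 h2 _ ih => exact ⟨h1, h2.trans ih.2⟩

variable (M C m U ψ) in
/-- The part of a minimal chain above one of its terms, with the potential `ψ`. -/
structure Tail : Prop where
  lie : ∀ j, A.IsLie (U j)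
  mono : ∀ j, U j ≤ U (j + 1)
  last : ∀ j, m ≤ j → U j = C
  fam : ∀ j, ∃ E Nn, M.Fm (U j) (U (j + 1)) E Nn ∧
    ∀ Q, A.Btw (U j) Q (U (j + 1)) → ψ (U j) = ψ Q + A.rk Nn (U j) Q
  ineq : ∀ j Qa Q, A.Btw (U j) Qa (U (j + 1)) → A.Btw (U (j + 1)) Q (U (j + 2)) →
    finrank ℂ Qa + ψ Qa ≤ M.H Q Qa + ψ Q
  att : ∀ j Qa, A.Btw (U j) Qa (U (j + 1)) → ∃ Q, A.Btw (U (j + 1)) Q (U (j + 2)) ∧
    finrank ℂ Qa + ψ Qa = M.H Q Qa + ψ Q
  eqn : ∀ j, finrank ℂ (U j) + ψ (U j) = M.H (U (j + 1)) (U j) + ψ (U (j + 1))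
  low : ∀ Q, A.Btw (U 0) Q (U 1) → M.pot C Q ≤ ψ Q
  eq0 : ψ (U 0) = M.pot C (U 0)

theorem tail_base (hC : M.Tight C) : M.Tail C 0 (fun _ => C) fun _ => 0 where
  lie _ := hC.1
  mono _ := le_rfl
  last _ _ := rfl
  fam _ := ⟨_, _, fm_of_set M.fld.cnt M.ksub (zero_mem _), fun Q hQ => by rw [hQ.eq, rk_self]⟩
  ineq _ _ _ h h' := by rw [h.eq, h'.eq, hC.2]
  att _ _ h := ⟨C, .left hC.1 le_rfl, by rw [h.eq, hC.2]⟩
  eqn _ := by rw [hC.2]
  low _ h := h.eq ▸ pot_le .base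
  eq0 := (Nat.le_zero.1 (pot_le .base)).symm

theorem Tail.monotone (t : M.Tail C m U ψ) : Monotone U := monotone_nat_of_le_succ t.mono

theorem Tail.le (t : M.Tail C m U ψ) (j : ℕ) : U j ≤ C :=
  t.last (max m j) (le_max_left _ _) ▸ t.monotone (le_max_right _ _)

theorem Tail.cons (t : M.Tail C m U ψ) (hl : A.IsLie lo) (hle : lo ≤ U 0)
    (hp : M.pot C lo + finrank ℂ lo = M.H (U 0) lo + M.pot C (U 0)) :
    ∃ ψ', M.Tail C (m + 1) (fun j => Nat.casesOn j lo U) ψ' := by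
  classical
  have : Uncountable ℂ := Complex.ofReal_injective.uncountable
  obtain ⟨E₁, N₁, f1, f2⟩ := t.fam 0
  rw [zero_add] at f1 f2
  have m0 : U 0 ≤ U 1 := t.mono 0
  obtain ⟨σ, s1, s2⟩ := exists_fresh M.fld.cnt f1.fld.cnt (M.finite_qs (U 1) (U 0)).countable
  have s3 : ∀ x ∈ M.k0, σ x = x := fun x hx => s1 x (M.ksub hx)
  have f3 := f1.map (t.lie 0) (t.lie 1) s3
  have f4 : ∀ Q, A.Btw (U 0) Q (U 1) → ψ (U 0) = ψ Q + A.rk (cj σ N₁) (U 0) Q := fun Q hQ => by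
    rw [M.ov.rk_cj s3 (t.lie 0) hQ.1, f2 Q hQ]
  replace s2 : E.Free (M.k0 : Set ℂ) (E₁.map σ.toRingHom) (M.qs (U 1) (U 0)) := s2
  generalize E₁.map σ.toRingHom = E₀, cj σ N₁ = Nn at f3 f4 s2
  obtain ⟨n, n1, -, n2⟩ := (f3.ov (t.lie 0) (t.lie 1)).exists_basis
  have f5 := f4 _ (.right (t.lie 1) m0)
  rw [rk_top f3.le_du] at f5
  have sp := fun Qa (h : A.Btw lo Qa (U 0)) => f3.mu_spec (a := Qa) n1 n2 M.fld.cnt M.ksub
    (t.lie 0) (t.lie 1) m0 h.1 (s2.mono subset_rfl (union_subset (acl_ul _ _)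
      (M.ov.qq_le' M.ksub (t.lie 1) h.1 le_rfl h.2.2)))
  simp only [← H.eq_def] at sp
  obtain ⟨ψ', p1, p2⟩ : ∃ ψ' : Sub g → ℕ, (∀ Q, U 0 ≤ Q → ψ' Q = ψ Q) ∧ ∀ Q, A.Btw lo Q (U 0) →
      ψ' Q + finrank ℂ Q = M.mu (M.k0 ∪ E₀) n (U 0) (U 1) Q + ψ (U 1) := by
    refine ⟨fun Q => if U 0 ≤ Q then ψ Q else M.mu (M.k0 ∪ E₀) n (U 0) (U 1) Q + ψ (U 1) -
      finrank ℂ Q, fun Q h => if_pos h, fun Q h => ?_⟩
    obtain ⟨h1, h2, Q', h3, h4⟩ := sp Q h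
    have h5 := M.le_H' h.1 h.2.2
    dsimp only
    split_ifs with h6
    · obtain rfl := le_antisymm h.2.2 h6
      have h7 := h1 _ (.right (t.lie 1) m0)
      have h8 := t.eqn 0
      have h9 := pot_step (M := M) h.1 (h3.mono le_rfl (t.le 1))
      have h10 := t.low _ h3
      have h11 := f4 _ h3
      have h12 := t.eq0
      rw [rk_top f3.le_du] at h7
      rw [zero_add] at h8
      omega
    · omega
  have p3 : ∀ j, ψ' (U j) = ψ (U j) := fun j => p1 _ (t.monotone j.zero_le)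
  have p4 : ∀ {j Q Q'}, A.Btw (U j) Q Q' → ψ' Q = ψ Q := fun h =>
    p1 _ ((t.monotone (Nat.zero_le _)).trans h.2.1)
  have i1 : ∀ Qa Q, A.Btw lo Qa (U 0) → A.Btw (U 0) Q (U 1) →
      finrank ℂ Qa + ψ' Qa ≤ M.H Q Qa + ψ' Q := fun Qa Q h h' => by
    have h1 := (sp Qa h).1 Q h'
    have h2 := p2 Qa h
    have h3 := f4 Q h'
    rw [p4 h']
    omega
  have i2 : ∀ Qa, A.Btw lo Qa (U 0) → ∃ Q, A.Btw (U 0) Q (U 1) ∧
      finrank ℂ Qa + ψ' Qa = M.H Q Qa + ψ' Q := fun Qa h => by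
    obtain ⟨-, -, Q, h', h1⟩ := sp Qa h
    have h2 := p2 Qa h
    have h3 := f4 Q h'
    exact ⟨Q, h', by rw [p4 h']; omega⟩
  have i3 : ∀ Q, A.Btw lo Q (U 0) → M.pot C Q ≤ ψ' Q := fun Q h => by
    obtain ⟨Q', h1, h2⟩ := i2 Q h
    have h3 := pot_step (M := M) h.1 (⟨h1.1, h.2.2.trans h1.2.1, h1.2.2.trans (t.le 1)⟩ :
      A.Btw Q Q' C)
    have h4 := t.low _ h1
    rw [p4 h1] at h2
    omega
  have i4 := i1 _ _ (.left hl hle) (.left (t.lie 0) m0)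
  have i5 := i3 _ (.left hl hle)
  have i6 := t.eq0
  have i7 := p3 0
  refine ⟨ψ', ?_, ?_, ?_, ?_, ?_, ?_, ?_, i3, show ψ' lo = M.pot C lo by omega⟩
  · rintro (_ | j)
    exacts [hl, t.lie j]
  · rintro (_ | j)
    exacts [hle, t.mono j]
  · rintro (_ | j) h
    · omega
    · exact t.last j (by omega)
  · rintro (_ | j)
    · have k1 : (M.k0 : Set ℂ) ⊆ acl ((M.k0 : Set ℂ) ∪ E₀) := acl_ul _ _
      refine ⟨_, _, fm_of_set (F := M.k0 ∪ E₀ ∪ (M.qs (U 0) lo ∪ M.vals n (U 0) (U 1)))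
        ((M.fld.cnt.union f3.fld.cnt).union ((M.finite_qs _ _).union finite_vals).countable)
        (acl_tl k1 _) (A.pr_mem (A.rel (U 0) lo) M.w), fun Q hQ => ?_⟩
      have h1 := M.ov.rk_con (Q₂ := U 0) (b := A.pr (A.rel (U 0) lo) M.w)
        (acl_tl k1 (M.qs (U 0) lo ∪ M.vals n (U 0) (U 1))) hl hQ
      have h2 := mu_add (n := n) (y' := U 1) k1 (t.lie 0) hl hQ.1 hQ.2.1
      have h3 := p2 Q hQ
      have h4 := p2 _ (.left hl hle)
      rw [A.pr_pr_of_le (A.rel_mono hQ.2.2 _)] at h1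
      simp only [Nat.rec_zero]
      omega
    · obtain ⟨E₂, N₂, h1, h2⟩ := t.fam j
      exact ⟨E₂, N₂, h1, fun Q hQ => by
        rw [p4 hQ]
        exact (p3 j).trans (h2 Q hQ)⟩
  · rintro (_ | j) Qa Q h h'
    · exact i1 Qa Q h h'
    · rw [p4 h, p4 h']
      exact t.ineq j Qa Q h h'
  · rintro (_ | j) Qa h
    · exact i2 Qa h
    · obtain ⟨Q, h1, h2⟩ := t.att j Qa h
      exact ⟨Q, h1, by rw [p4 h, p4 h1, h2]⟩
  · rintro (_ | j)
    · exact show finrank ℂ lo + ψ' lo = M.H (U 0) lo + ψ' (U 0) by omega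
    · dsimp only
      rw [p3, p3]
      exact t.eqn j

theorem Path.tail (hC : M.Tight C) (h : M.Path C Q n) (hn : n = M.pot C Q) :
    ∃ m U ψ, M.Tail C m U ψ ∧ U 0 = Q := by
  induction h with
  | base => exact ⟨_, _, _, tail_base hC, rfl⟩
  | @step Q Q' n h1 h2 h3 ih =>
    have h4 := pot_step (M := M) h1 (⟨(h3.btw hC.1).1, h2, (h3.btw hC.1).2⟩ : A.Btw Q Q' C)
    have h5 := pot_le h3
    have h6 := M.le_H' h1 h2
    obtain ⟨m, U, ψ, t, rfl⟩ := ih (by omega)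
    obtain ⟨ψ', t'⟩ := t.cons h1 h2 (by omega)
    exact ⟨_, _, _, t', rfl⟩

theorem Tail.le_zero (t : M.Tail C m U ψ) {j : ℕ} (h : A.Btw (U j) Q (U (j + 1))) :
    ψ Q ≤ ψ (U 0) := by
  induction j generalizing Q with
  | zero =>
    obtain ⟨_, _, -, h1⟩ := t.fam 0
    exact Nat.le.intro (h1 Q h).symm
  | succ j ih =>
    obtain ⟨_, _, -, h1⟩ := t.fam (j + 1)
    exact (Nat.le.intro (h1 Q h).symm).trans (ih (.right (t.lie _) (t.mono j)))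

theorem Tail.fam' (t : M.Tail C m U ψ) (j : ℕ) :
    ∃ E Nn, M.Fam (fun Q => ψ (U 0) - ψ Q) (U j) (U (j + 1)) E Nn := by
  obtain ⟨E₀, Nn, h1, h2⟩ := t.fam j
  refine ⟨E₀, Nn, fam_iff.2 ⟨h1, fun Q hQ => ?_⟩⟩
  have h3 := h2 Q hQ
  have h4 := t.le_zero (.left (t.lie j) (t.mono j))
  omega

/-- Maximisers can be chosen monotonically. -/
theorem Fam.att {κ : Sub g → ℕ} {y y' a a' Z Z' Nn : Sub g} {E₀ : Subfield ℂ}
    (f : M.Fam κ y y' E₀ Nn) (la : A.IsLie a) (la' : A.IsLie a') (h : a ≤ a')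
    (hZ : A.Btw y Z y') (hZ' : A.Btw y Z' y') (e : M.Eqn κ a Z) (e' : M.Eqn κ a' Z')
    (i : M.Ineq κ a (Z ⊓ Z')) (i' : M.Ineq κ a' (Z ⊔ Z')) : M.Eqn κ a' (Z ⊔ Z') := by
  have h1 := f.supermod hZ hZ'
  have h2 := M.H_submod hZ.1 la hZ'.1 la'
  rw [inf_eq_left.2 h, sup_eq_right.2 h] at h2
  simp only [Eqn, Ineq] at *
  omega

/-- The chain data given by a tail. -/
def Tail.chain (t : M.Tail C m U ψ) : M.Chain C where
  m := m
  U := U
  κ Q := ψ (U 0) - ψ Q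
  lie := t.lie
  mono := t.mono
  last := t.last
  fam j _ _ h h' := (t.fam' (j + 1)).elim fun _ f => f.elim fun _ f => f.sub (t.lie _) h h'
  ineq j Qa Q h h' := by
    have h1 := t.ineq j Qa Q h h'
    have h2 := t.le_zero h
    have h3 := t.le_zero h'
    rw [Ineq]
    omega
  eqn j := by
    have h1 := t.eqn (j + 1)
    have h2 := t.le_zero (.right (t.lie (j + 1)) (t.mono j))
    have h3 := t.le_zero (.right (t.lie (j + 1 + 1)) (t.mono (j + 1)))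
    rw [show j + 1 + 1 = j + 2 from rfl] at h1 h3
    rw [Eqn]
    omega
  att j a a' Z h h' hZ e := by
    have h1 := h'.mono h.2.1 le_rfl
    have h2 := h.mono le_rfl h'.2.2
    obtain ⟨Z', h3, h4⟩ := t.att j a' h1
    obtain ⟨E₀, Nn, f⟩ := t.fam' (j + 1)
    have h5 := t.ineq j a _ h2 (hZ.inf h3)
    have h6 := t.ineq j a' _ h1 (hZ.sup h3)
    have := t.le_zero h1
    have := t.le_zero h2
    have := t.le_zero h3
    have := t.le_zero (hZ.inf h3)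
    have := t.le_zero (hZ.sup h3)
    exact ⟨Z ⊔ Z', ⟨(hZ.sup h3).1, le_sup_left, (hZ.sup h3).2.2⟩, f.att h.1 h'.1 h.2.2 hZ h3 e
      (by rw [Eqn]; omega) (by rw [Ineq]; omega) (by rw [Ineq]; omega)⟩

end Model

theorem s_chain : S_CHAIN := fun M C₀ C h₀ hC hle => by
  obtain ⟨m, U, ψ, t, rfl⟩ := (Model.path_pot h₀.1 hle).tail hC rfl
  obtain ⟨ψ', t'⟩ := t.cons h₀.1 le_rfl (by rw [h₀.2, add_comm])
  exact ⟨t'.chain, rfl, rfl⟩

end Pool.Agent.P.MP_f17f76_ag
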