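import Pool.Agent.P.MP_f17f76_ag.S.St
import Pool.Agent.P.MP_f17f76_ag.S.Tow
import Pool.Agent.P.MP_f17f76_ag.S.Top
import Pool.Agent.P.MP_f17f76_ag.E.Lat
import Pool.Agent.P.MP_f17f76_ag.E.Ch

/-!
The construction of the next state from a map of polydiscs and a larger field.
-/

namespace Pool.Agent.P.MP_f17f76_ag

open Module Set E N MvPolynomial

set_option linter.unusedSectionVars false

noncomputable section

variable {g N : ℕ} {A : AbVar g N} {M : Model A} {C' : Sub g} {T : ℝ*} {Jν J J' J'' : Type}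
  [Fintype Jν] [Fintype J] [Fintype J'] [Fintype J''] [DecidableEq Jν] [DecidableEq J]
  [DecidableEq J'] [DecidableEq J''] {A' Z A'' Z'' A₃ Z₃ U B : Sub g}

theorem xt_comp {K : Subfield ℂ} {R R' : Type} [CommRing R] [CommRing R'] (ι : K →+* R)
    (f : R →+* R') (a : ℂ) : xt (f.comp ι) a = f (xt ι a) := by
  unfold xt
  split_ifs
  exacts [rfl, (map_zero f).symm]

namespace Xt

variable {K : Subfield ℂ} {R : Type} [CommRing R] (ι : K →+* R) {a b : ℂ}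

theorem coe (a : K) : xt ι a = ι a := xt_of_mem ι a.2

theorem zero : xt ι 0 = 0 := (coe ι 0).trans (map_zero ι)

theorem one : xt ι 1 = 1 := (coe ι 1).trans (map_one ι)

theorem add (ha : a ∈ K) (hb : b ∈ K) : xt ι (a + b) = xt ι a + xt ι b := by
  rw [xt_of_mem ι ha, xt_of_mem ι hb, ← map_add, ← coe]
  rfl

theorem sub (ha : a ∈ K) (hb : b ∈ K) : xt ι (a - b) = xt ι a - xt ι b := by
  rw [xt_of_mem ι ha, xt_of_mem ι hb, ← map_sub, ← coe]
  rfl

theorem mul (ha : a ∈ K) (hb : b ∈ K) : xt ι (a * b) = xt ι a * xt ι b := by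
  rw [xt_of_mem ι ha, xt_of_mem ι hb, ← map_mul, ← coe]
  rfl

theorem pow (ha : a ∈ K) (n : ℕ) : xt ι (a ^ n) = xt ι a ^ n := by
  rw [xt_of_mem ι ha, ← map_pow, ← coe]
  rfl

theorem sum {α : Type} {s : Finset α} {f : α → ℂ} (h : ∀ i ∈ s, f i ∈ K) :
    xt ι (∑ i ∈ s, f i) = ∑ i ∈ s, xt ι (f i) := by
  classical
  induction s using Finset.induction_on with
  | empty => simpa using zero ι
  | insert i s hi ih =>
    have h1 := fun j hj => h j (Finset.mem_insert_of_mem hj)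
    rw [Finset.sum_insert hi, Finset.sum_insert hi, add ι (h i (Finset.mem_insert_self _ _))
      (sum_mem h1), ih h1]

theorem ne [Nontrivial R] (ha : a ∈ K) (h : a ≠ 0) : xt ι a ≠ 0 := by
  rw [xt_of_mem ι ha]
  exact (map_ne_zero ι).2 fun e => h (congrArg Subtype.val e)

/-- A linear map with standard entries commutes with the embedding. -/
theorem lin [Algebra ℂ R] {I I' : Type} [Fintype I] [DecidableEq I] [Fintype I']
    (f : (I → ℂ) →ₗ[ℂ] I' → ℂ) (hf : ∀ i j, f (Pi.single i 1) j ∈ K ∧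
      xt ι (f (Pi.single i 1) j) = algebraMap ℂ R (f (Pi.single i 1) j)) {v : I → ℂ}
    (hv : ∀ i, v i ∈ K) (j : I') : xt ι (f v j) = lx f (fun i => xt ι (v i)) j := by
  rw [← lx_self f v, lx_apply, lx_apply]
  exact (sum ι fun i _ => mul_mem (hf i j).1 (hv i)).trans (Finset.sum_congr rfl fun i _ =>
    (mul ι (hf i j).1 (hv i)).trans (by rw [(hf i j).2]))

end Xt

/-- the exponential of a sum -/
theorem AbVar.Exp.add {k K : Subfield ℂ} (h : A.Over k) (hk : k ≤ K) (e : K →+* Cs)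
    (he : ∀ a ∈ k, xt e a = co a) {a b : Fin g → ℂ} (ha : ∀ j, A.crd a j ∈ K)
    (hb : ∀ j, A.crd b j ∈ K) {x y : Fin g → Cs} (hx : A.Exp x fun j => xt e (A.crd a j))
    (hy : A.Exp y fun j => xt e (A.crd b j)) :
    A.Exp (x + y) fun j => xt e (A.crd (a + b) j) := by
  obtain ⟨Q, h1, h2, r, hr, h3⟩ := h.add' a b (A.piv_inv_ne a) (A.piv_inv_ne b)
  obtain ⟨u, rfl⟩ := vec_surj x
  obtain ⟨v, rfl⟩ := vec_surj y
  obtain ⟨s, hs⟩ := hx
  obtain ⟨t, ht⟩ := hy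
  obtain ⟨s, rfl⟩ := qs_surj s
  obtain ⟨t, rfl⟩ := qs_surj t
  choose ρ hρ using fun n => h2 (u n) (v n) (s n) (t n)
  have hm : ∀ i, Sum.elim (A.crd a) (A.crd b) i ∈ K := Sum.forall.2 ⟨ha, hb⟩
  have h4 : ∀ j, eval (Sum.elim (A.crd a) (A.crd b)) (Q j) =
      r * piv (A.θ (a + b)) * A.crd (a + b) j := fun j => (congrFun h3 j).trans (by
    rw [A.crd_eq, Pi.smul_apply, Pi.smul_apply, smul_eq_mul, smul_eq_mul, mul_assoc,
      mul_inv_cancel_left₀ (piv_ne_zero _)])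
  have h5 := h.crd_add_mem hk ha hb
  have h6 : r * piv (A.θ (a + b)) ∈ K := by
    obtain ⟨j, hj⟩ := Function.ne_iff.1 (A.crd_ne_zero (a + b))
    rw [← mul_div_cancel_right₀ (_ * _) hj, ← h4]
    exact div_mem ((h1 j).eval_mem' hk hm) (h5 j)
  have h7 : (fun i => xt e (Sum.elim (A.crd a) (A.crd b) i)) =
      vec fun n => Sum.elim (s n • A.θ (u n)) (t n • A.θ (v n)) := by
    simp only [app_vec, ← map_mul] at hs ht
    exact funext (Sum.forall.2 ⟨hs, ht⟩)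
  refine ⟨(xt e (r * piv (A.θ (a + b))))⁻¹ * qs ρ, fun j => ?_⟩
  rw [mul_assoc, eq_inv_mul_iff_mul_eq₀ (Xt.ne e h6 (mul_ne_zero hr (piv_ne_zero _))),
    ← Xt.mul e h6 (h5 j), ← h4, xt_eval e co hk he (h1 j) hm, ← vec_add, app_vec, ← map_mul, h7,
    eval₂_vec]
  exact qs_eq.2 (.of_forall fun n => congrFun (hρ n) j)

/-- from a chart to the normalised coordinates -/
theorem AbVar.Exp.of_aff {K : Subfield ℂ} (e : K →+* Cs) {b : Fin g → ℂ} {i : Fin N}
    (hi : A.θ b i ≠ 0) (hb : ∀ j, A.crd b j ∈ K) {y : Fin g → Cs}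
    (hy : A.Exp y fun j => xt e (A.aff i b j)) : A.Exp y fun j => xt e (A.crd b j) := by
  obtain ⟨t, ht⟩ := hy
  refine ⟨xt e (A.crd b i) * t, fun j => ?_⟩
  have h1 : A.aff i b j = (A.crd b i)⁻¹ * A.crd b j := congrFun (A.aff_eq_crd i b) j
  rw [mul_assoc, ← ht j, ← Xt.mul e (hb i) (h1 ▸ mul_mem (inv_mem (hb i)) (hb j)), h1,
    mul_inv_cancel_left₀ (AbVar.crd_ne_zero_iff.2 hi)]

theorem AbVar.lat_and {x : Fin g → Cs} :
    A.Lat B x ↔ x ∈ St (A.Λ : Set (Fin g → ℂ)) ∧ x ∈ St (B : Set (Fin g → ℂ)) := st_inter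

theorem AbVar.Lat.mono {x : Fin g → Cs} (h : A.Lat B x) (h' : B ≤ U) : A.Lat U x :=
  AbVar.lat_and.2 ⟨(AbVar.lat_and.1 h).1, st_mono h' (AbVar.lat_and.1 h).2⟩

theorem AbVar.Lat.add {x y : Fin g → Cs} (h : A.Lat B x) (h' : A.Lat B y) : A.Lat B (x + y) :=
  AbVar.lat_and.2 ⟨St.add (AbVar.lat_and.1 h).1 (AbVar.lat_and.1 h').1,
    St.add (AbVar.lat_and.1 h).2 (AbVar.lat_and.1 h').2⟩

theorem AbVar.lat_zero : A.Lat B 0 := AbVar.lat_and.2 ⟨St.zero _, St.zero _⟩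

/-- A vector of polynomials is a finite sum of monomials. -/
theorem exists_monos {σ : Type} (L : Fin g → MvPolynomial σ Cs) : ∃ s : Finset (σ →₀ ℕ),
    ∀ k, L k = ∑ α ∈ s, C ((L k).coeff α) * monomial α 1 := by
  classical
  refine ⟨Finset.univ.biUnion fun k => (L k).support, fun k => ?_⟩
  simp only [C_mul_monomial, mul_one]
  exact (L k).as_sum.trans (Finset.sum_subset
    (Finset.subset_biUnion_of_mem (fun k => (L k).support) (Finset.mem_univ k))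
    fun α _ h => by rw [notMem_support_iff.1 h, map_zero])

theorem st_eval_sub {σ : Type} {L : Fin g → MvPolynomial σ Cs}
    (hL : ∀ α, (fun k => (L k).coeff α) ∈ St (B : Set (Fin g → ℂ))) (v : σ → Cs) :
    (fun k => eval v (L k)) ∈ St (B : Set (Fin g → ℂ)) := by
  obtain ⟨s, hs⟩ := exists_monos L
  rw [show (fun k => eval v (L k)) = ∑ α ∈ s, eval v (monomial α 1) • fun k => (L k).coeff α from
    funext fun k => by
      rw [Finset.sum_apply]
      exact (congrArg _ (hs k)).trans ((map_sum _ _ _).trans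
        (Finset.sum_congr rfl fun α _ => by simp [mul_comm]))]
  exact St.sum fun α _ => St.smul (hL α) _

theorem dot_eq_zero {u : Fin g → ℂ} {x : Fin g → Cs} (hx : x ∈ St (B : Set (Fin g → ℂ)))
    (hu : u ∈ ann B) : dot u x = 0 := by
  obtain ⟨v, rfl⟩ := vec_surj x
  simp only [dot, co_eq, vec, smul_eq_mul, ← map_mul, ← map_sum]
  exact qs_eq_zero.2 ((st_vec.1 hx).mono fun n hn => by
    simpa [Finset.sum_apply, dotProduct] using hu _ hn)

theorem ev_dot {I : Type} [Fintype I] (x : I → Cs) (u : Fin g → ℂ) (w : Fin g → H I) :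
    ev x (dot u w) = dot u (evv x w) := by
  simp only [dot, evv, map_sum, ev_smul, smul_eq_mul]

/-- the reduced logarithm on `B` for the lattice polynomial `L` -/
def wB (M : Model A) {K : Subfield ℂ} (ι : K →+* H (Jν ⊕ J)) (n : ℝ*) (B : Sub g)
    (L : Fin g → MvPolynomial Jν Cs) (k : Fin g) : H (Jν ⊕ J) :=
  xt ι (A.pr B M.z k) - aeval (nuv J n) (L k)

/-- values of `wB` lie in `B` -/
theorem wB_mem {K : Subfield ℂ} {ι : K →+* H (Jν ⊕ J)} (hB : A.IsLie B) (hk : M.k0 ≤ K)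
    (h0 : ∀ a ∈ M.k0, xt ι a = cn (co a)) (hz : ∀ k, A.pr B M.z k ∈ K) (n : ℝ*)
    {L : Fin g → MvPolynomial Jν Cs} (hL : ∀ α, A.Lat B fun k => (L k).coeff α) (x : Jν ⊕ J → Cs) :
    evv x (wB M ι n B L) ∈ St (B : Set (Fin g → ℂ)) := by
  have h1 : evv x (wB M ι n B L) = lx (A.pr B) (evv x fun k => xt ι (A.pr B M.z k)) -
      fun k => eval (evv x (nuv J n)) (L k) := funext fun k => by
    rw [← evv_lx, Pi.sub_apply, evv, evv, ← Xt.lin ι _ (fun i j =>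
      ⟨hk (M.ov.pr B hB i j), h0 _ (M.ov.pr B hB i j)⟩) hz, A.pr_pr_of_le le_rfl, wB, map_sub,
      ev_aeval]
  rw [h1]
  exact St.sub (St.lx (S := univ) _ (.of_forall fun _ => trivial) fun v _ => A.pr_mem B v)
    (st_eval_sub (fun α => (AbVar.lat_and.1 (hL α)).2) _)

/-- substitution `ν = ν₀ + h ν'` -/
def subs (ν₀ : Jν → Cs) (h : Cs) : MvPolynomial Jν Cs →ₐ[Cs] MvPolynomial Jν Cs :=
  aeval fun i => C (ν₀ i) + C h * X i

theorem pull_subs {φ : Jν ⊕ J → H (Jν ⊕ J')} {n n' : ℝ*} {ν₀ : Jν → Cs} {h : Cs}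
    (hν : ∀ i, pull φ (nuv J n i) = cn (ν₀ i) + h • nuv J' n' i) (p : MvPolynomial Jν Cs) :
    pull φ (aeval (nuv J n) p) = aeval (nuv J' n') (subs ν₀ h p) := by
  rw [pull_aeval, subs, aeval_eq_bind₁, aeval_bind₁]
  simp only [hν, map_add, map_mul, aeval_C, aeval_X, algebraMap_eq_cn, Algebra.smul_def]

theorem lat_subs {ν₀ : Jν → Cs} {h : Cs} (h1 : ∀ i, ν₀ i ∈ Zs) (h2 : h ∈ Zs)
    {L : Fin g → MvPolynomial Jν Cs} (hL : ∀ α, A.Lat B fun k => (L k).coeff α) (α : Jν →₀ ℕ) :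
    A.Lat B fun k => (subs ν₀ h (L k)).coeff α := by
  obtain ⟨s, hs⟩ := exists_monos L
  have h3 : ∀ β, (subs ν₀ h (monomial β 1)).coeff α ∈ Zs := fun β => by
    have : subs ν₀ h (monomial β 1) = map Zs.subtype
        (β.prod fun i k => (C ⟨ν₀ i, h1 i⟩ + C ⟨h, h2⟩ * X i) ^ k) := by
      simp [subs, bind₁_monomial, Finsupp.prod]
    rw [this, coeff_map]
    exact Subtype.prop _
  rw [show (fun k => (subs ν₀ h (L k)).coeff α) =
      ∑ β ∈ s, (subs ν₀ h (monomial β 1)).coeff α • fun k => (L k).coeff β from funext fun k => by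
    rw [Finset.sum_apply, congrArg (subs ν₀ h) (hs k), map_sum, coeff_sum]
    exact Finset.sum_congr rfl fun β _ => by
      rw [map_mul, algHom_C, MvPolynomial.algebraMap_eq, coeff_C_mul, mul_comm]
      rfl]
  exact AbVar.lat_and.2 ⟨St.sum fun β _ => St.zsmul (AbVar.lat_and.1 (hL β)).1 (h3 β),
    St.sum fun β _ => St.smul (AbVar.lat_and.1 (hL β)).2 _⟩

theorem pull_smul {I I' : Type} [Fintype I] [Fintype I'] (φ : I → H I') (c : Cs) (f : H I) :
    pull φ (c • f) = c • pull φ f := by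
  simp only [Algebra.smul_def, algebraMap_eq_cn, map_mul, pull_cn]

theorem pull_dot {I I' : Type} [Fintype I] [Fintype I'] (φ : I → H I') (u : Fin g → ℂ)
    (w : Fin g → H I) : pull φ (dot u w) = dot u fun k => pull φ (w k) := by
  simp only [dot, map_sum, pull_smul]

theorem dd_nuv (n : ℝ*) (i : Jν) (l : J) : dd (.inr l) (nuv J n i) = 0 := by
  simp [nuv, dd_xc]

theorem dd_aeval_nuv (n : ℝ*) (p : MvPolynomial Jν Cs) (l : J) :
    dd (.inr l) (aeval (nuv J n) p) = 0 := by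
  induction p using MvPolynomial.induction_on with
  | C a => simp [algebraMap_eq_cn]
  | add p q hp hq => simp [hp, hq]
  | mul_X p i hp => simp [hp, dd_nuv]

theorem dd_inl_eq {φ : Jν ⊕ J → H (Jν ⊕ J')} (hφ : Maps φ) {n n' : ℝ*} (hn : 0 < n) {ν₀ h : Cs}
    {i : Jν} (hν : pull φ (nuv J n i) = cn ν₀ + h • nuv J' n' i) (l : J') :
    dd (.inr l) (φ (.inl i)) = 0 := by
  have := congrArg (dd (.inr l)) hν
  rw [nuv, pull_smul, pull_xc hφ, map_add, dd_cn, Derivation.map_smul, Derivation.map_smul, dd_nuv,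
    smul_zero, add_zero] at this
  exact (smul_eq_zero.1 this).resolve_left ((map_ne_zero ofR).2 hn.ne')

theorem not_tiny_pos {a : ℝ*} (hT : Ll 1 T) (h : ¬ Tiny T a) : 0 < a :=
  not_le.1 fun e => h (tiny_zero.of_le hT e)

theorem not_tiny_mul {a b : ℝ*} (hT : Ll 1 T) (h : ¬ Tiny T a) (h' : ¬ Tiny T b) :
    ¬ Tiny T (a * b) := by
  have h1 := not_tiny_pos hT h
  have h2 := not_tiny_pos hT h'
  rw [not_tiny hT (by positivity)] at *
  exact ⟨by positivity, mul_inv a b ▸ h.2.mul hT h'.2 (by positivity)⟩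

namespace Core

theorem cK (s : Core M C' T Jν J A' Z) : s.c ≤ s.K := s.hK ▸ acl_ul _ _

theorem k0c (s : Core M C' T Jν J A' Z) : M.k0 ≤ s.c := (M.fld_kq C').le.trans s.fld.le

theorem k0K (s : Core M C' T Jν J A' Z) : M.k0 ≤ s.K := s.k0c.trans s.cK

theorem qsK (s : Core M C' T Jν J A' Z) : M.qs Z A' ⊆ s.K := s.hK ▸ acl_ur _ _

theorem aclK (s : Core M C' T Jν J A' Z) : acl (s.K : Set ℂ) = s.K := by rw [s.hK, acl_acl]

theorem cntK (s : Core M C' T Jν J A' Z) : (s.K : Set ℂ).Countable :=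
  s.hK ▸ countable_acl (s.fld.cnt.union (M.finite_qs _ _).countable)

theorem zK (s : Core M C' T Jν J A' Z) (hU : A.IsLie U) (h : U ≤ Z) (k : Fin g) :
    A.pr U M.z k ∈ s.K := by
  rw [← A.pr_pr_of_le h]
  exact M.ov.pr_mem hU s.k0K (fun i => s.qsK (.inl ⟨i, rfl⟩)) k

theorem rowK (s : Core M C' T Jν J A' Z) (l : J) : s.row l ⬝ᵥ M.z ∈ s.K := by
  rw [← A.dot_pr (s.du l)]
  exact sum_mem fun k _ => mul_mem (s.cK (s.std l k).1) (s.zK s.lie le_rfl k)

/-- composition of refinements; the first map has uniformly bounded spatial derivatives -/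
theorem Ref.comp {s : Core M C' T Jν J A' Z} {s' : Core M C' T Jν J' A'' Z''}
    {s'' : Core M C' T Jν J'' A₃ Z₃} {η η' : ℝ*} {φ ψ h h'} (r : s.Ref η s' φ h)
    (r' : s'.Ref η' s'' ψ h') (h0 : 0 ≤ η)
    (hu : ∀ l l' x, Pt x → Lc (nm (ev x (dd (.inr l') (φ (.inr l))))) η) :
    s.Ref (η * η') s'' (fun i => pull ψ (φ i)) (h * h') where
  maps := r.maps.comp r'.maps
  c := r.c.trans r'.c
  K := r.K.trans r'.K
  le := r.le.trans r'.le
  leZ := r.leZ.trans r'.leZ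
  ι a ha := by rw [r'.ι a (r.K ha), r.ι a ha, pull_pull r.maps r'.maps]
  nat := PosZ.mul r.nat r'.nat
  nu i := by
    obtain ⟨a, ha⟩ := r.nu i
    obtain ⟨b, hb⟩ := r'.nu i
    refine ⟨a + h * b, ?_⟩
    rw [← pull_pull r.maps r'.maps, ha, map_add, pull_cn, pull_smul, hb, smul_add, smul_smul,
      map_add, map_mul, Algebra.smul_def h (cn b), add_assoc]
    rfl
  wt u hu := by rw [r'.wt u (A.du_mono r.le hu), r.wt u hu, pull_pull r.maps r'.maps]
  sp l l' := by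
    rw [dd_pull r'.maps, map_sum]
    refine .le_trans (nm.sum_le _ _) (.sum ?_)
    rintro (i | m) -
    · obtain ⟨b, hb⟩ := r'.nu i
      rw [dd_inl_eq r'.maps s'.npos hb, mul_zero, map_zero, map_zero]
      exact .zero _
    · rw [map_mul, map_mul, ev_pull r'.maps .zero]
      exact (hu l m _ (r'.maps 0 .zero)).mul (r'.sp m l') (nm.nonneg _) h0

/-- the constructor of the next state; `L` is written in the NEW integer variables -/
theorem step (s : Core M C' T Jν J A' Z) (hA : A.Btw A' A'' Z'') (hZ : A.IsLie Z'') (hZ' : Z ≤ Z'')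
    {c' K' : Subfield ℂ} (ι' : K' →+* H (Jν ⊕ J')) {φ : Jν ⊕ J → H (Jν ⊕ J')} (hφ : Maps φ)
    {h : Cs} (hh : PosZ h) {ν₀ : Jν → Cs} (hν₀ : ∀ i, ν₀ i ∈ Zs) {n' : ℝ*} (n0 : 0 < n')
    (n1 : Big T n') (n2 : Poly T n')
    (hν : ∀ i, pull φ (nuv J s.n i) = cn (ν₀ i) + h • nuv J' n' i) (hc : Fld s.c c')
    (hf : Free ((M.k0 : Set ℂ) ∪ M.qs C' C') (M.qs ⊤ ⊤) c')
    (hK : K' = acl ((c' : Set ℂ) ∪ M.qs Z'' A''))
    (hι : ∀ a ∈ s.K, xt ι' a = pull φ (xt s.ι a)) (cst : ∀ a ∈ c', ∃ b, xt ι' a = cn b)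
    (stab : StabH ι') (pg : PG T ((ev 0).comp ι')) {L : Fin g → MvPolynomial Jν Cs}
    (hL : ∀ α, A.Lat (A.rel A'' A') fun k => (L k).coeff α) {w₀ : Fin g → ℂ}
    (hW : ∀ x, Pt x → Near (evv x (wB M ι' n' (A.rel A'' A') L)) w₀)
    (hE : ∀ x, Pt x → A.Exp (evv x (wB M ι' n' (A.rel A'' A') L))
      fun j => ev x (xt ι' (A.crd (A.pr (A.rel A'' A') M.w) j)))
    {row : J' → Fin g → ℂ} {ρ : J' → Cs} (du : ∀ l, row l ∈ A.du Z'')
    (std : ∀ l k, row l k ∈ c' ∧ xt ι' (row l k) = cn (co (row l k)))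
    (coord : ∀ l, ∃ π : MvPolynomial Jν Cs,
      xt ι' (row l ⬝ᵥ M.z) = aeval (nuv J' n') π + ρ l • xc (.inr l))
    (rho : ∀ l, ¬ Tiny T (nm (ρ l)))
    (basis : ∀ D ∈ kil (c' : Set ℂ), (∀ l, D (row l ⬝ᵥ M.z) = 0) →
      dv (A.pr A'' M.z) D = A.dl (A.pr A'' M.w) D → D ∈ kil (M.qs Z'' A''))
    (count : Fintype.card J' + finrank ℂ A'' = M.H Z'' A'') {η : ℝ*}
    (sp : ∀ l l', Lc (nm (ev 0 (dd (.inr l') (φ (.inr l))))) η) :
    ∃ s' : Core M C' T Jν J' A'' Z'', s.Ref η s' φ h ∧ s'.c = c' ∧ s'.K = K' ∧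
      (∀ a, xt s'.ι a = xt ι' a) ∧ s'.n = n' ∧ s'.row = row ∧ s'.ρ = ρ := by
  choose π hπ using coord
  have lB := hA.1.rel s.btw.1
  have h1 : c' ≤ K' := hK ▸ acl_ul _ _
  have h2 : M.qs Z'' A'' ⊆ K' := hK ▸ acl_ur _ _
  have h3 : M.k0 ≤ K' := s.k0c.trans (hc.le.trans h1)
  have h4 : s.K ≤ K' := by
    rw [s.hK, hK]
    exact acl_le (union_subset (Subset.trans hc.le (acl_ul _ _)) (M.ov.qq_le
      (Subset.trans (s.k0c.trans hc.le) (acl_ul _ _)) s.lie s.btw.1 hZ' hA.2.1 (acl_ur _ _)))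
  have h5 : ∀ a ∈ M.k0, xt ι' a = cn (co a) := fun a ha => by
    rw [hι a (s.k0K ha), s.id a ha, pull_cn]
  have h6 : ∀ U, A.IsLie U → U ≤ Z'' → ∀ k, A.pr U M.z k ∈ K' := fun U hU h k => by
    rw [← A.pr_pr_of_le h]
    exact M.ov.pr_mem hU h3 (fun i => h2 (.inl ⟨i, rfl⟩)) k
  have h7 : ∀ U, A.IsLie U → U ≤ A'' → ∀ j, A.crd (A.pr U M.w) j ∈ K' := fun U hU h j =>
    hK ▸ M.ov.crd_pr_le hU h (hK ▸ h3) (subset_union_right.trans (hK ▸ h2)) ⟨j, rfl⟩
  have h8 : ∀ v, A.pr A'' v = A.pr A' v + A.pr (A.rel A'' A') v := fun v => by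
    rw [A.pr_rel hA.2.1, add_sub_cancel]
  let d : Dat g Jν J' := ⟨c', K', ι', n', fun k => subs ν₀ h (s.Lam k) + L k, row, π, ρ⟩
  have h9 : d.wt M A'' = (fun k => pull φ (s.w k)) + wB M ι' n' (A.rel A'' A') L :=
    funext fun k => by
      change xt ι' _ - aeval (nuv J' n') (_ + _) = pull φ (_ - aeval (nuv J s.n) _) + (_ - _)
      rw [h8, Pi.add_apply, Xt.add ι' (h6 _ s.btw.1 (hA.le) k)
        (h6 _ lB ((A.rel_le _ _).trans hA.2.2) k), hι _ (s.zK s.btw.1 s.btw.2.2 k), map_sub,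
        pull_subs hν, map_add]
      ring
  have h10 : ∀ x, Pt x → evv x (d.wt M A'') =
      evv (evv x φ) s.w + evv x (wB M ι' n' (A.rel A'' A') L) := fun x hx => by
    rw [h9, ← evv_pull hφ hx]
    exact funext fun k => map_add _ _ _
  have h11 : ∀ x, Pt x → Near (evv x s.w) fun k => stc (ev 0 (s.w k)) := fun x hx =>
    (near_of_lc (x := evv 0 s.w) s.bdd).of_ll fun k => s.var k x hx
  have h12 : ∀ x, Pt x → Near (evv x (d.wt M A'')) _ := fun x hx =>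
    h10 x hx ▸ (h11 _ (hφ x hx)).add (hW x hx)
  refine ⟨{ d with
    tight := s.tight, inf := s.inf, btw := ⟨hA.1, s.btw.2.1.trans hA.2.1, hA.2.2⟩, lie := hZ
    fld := ⟨hc.cnt, hc.acl, s.fld.le.trans hc.le⟩, free := hf, hK := hK, id := h5, cst := cst
    stab := stab, pg := pg, npos := n0, nlo := n1, nhi := n2
    lat := fun α => ((lat_subs hν₀ hh.mem s.lat α).mono hA.2.1).add ((hL α).mono (A.rel_le _ _))
    bdd := (h12 0 .zero).lc, var := fun k x hx => (h12 0 .zero).ll (h12 x hx) k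
    exp := fun x hx => ?_, du := du, std := std, coord := hπ, rho := rho, basis := basis
    count := count }, ⟨hφ, hc.le, h4, hA.2.1, hZ', hι, hh, fun i => ⟨_, hν i⟩, fun u hu => ?_, sp⟩,
    rfl, rfl, fun _ => rfl, rfl, rfl, rfl⟩
  · simp only [← xt_comp, h10 x hx, h8 M.w]
    refine AbVar.Exp.add M.ov h3 _ (fun a ha => by rw [xt_comp, h5 a ha, ev_cn])
      (h7 _ s.btw.1 hA.2.1) (h7 _ lB (A.rel_le _ _)) ?_ (by simpa only [xt_comp] using hE x hx)
    simpa only [xt_comp, d, hι _ (s.qsK (.inr ⟨_, rfl⟩)), ev_pull hφ hx] using s.exp _ (hφ x hx)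
  · refine H.ext fun x hx => ?_
    have := dot_eq_zero (wB_mem lB h3 h5 (h6 _ lB ((A.rel_le _ _).trans hA.2.2)) n' hL x)
      (ann_anti (A.rel_le_perp _ _) hu)
    rw [ev_pull hφ hx, ev_dot, ev_dot, ← add_zero (dot u (evv _ s.w)), ← this]
    exact (congrArg (dot u) (h10 x hx)).trans (by simp [dot, mul_add, Finset.sum_add_distrib])

/-- the coordinate clause of an old row whose variable is moved affinely -/
theorem coord_aff (s : Core M C' T Jν J A' Z) {φ : Jν ⊕ J → H (Jν ⊕ J')} (hφ : Maps φ) {h : Cs}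
    {ν₀ : Jν → Cs} {n' : ℝ*} (hν : ∀ i, pull φ (nuv J s.n i) = cn (ν₀ i) + h • nuv J' n' i)
    {l : J} {l' : J'} {p e : Cs} (hl : φ (.inr l) = cn p + cn e * xc (.inr l')) :
    ∃ π : MvPolynomial Jν Cs, pull φ (xt s.ι (s.row l ⬝ᵥ M.z)) =
      aeval (nuv J' n') π + (e * s.ρ l) • xc (.inr l') := by
  refine ⟨subs ν₀ h (s.π l) + C (s.ρ l * p), ?_⟩
  rw [s.coord, map_add, pull_smul, pull_xc hφ, hl, map_add, aeval_C, ← pull_subs hν]
  simp only [Algebra.smul_def, algebraMap_eq_cn, map_mul]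
  change pull φ (aeval (nuv J s.n) _) + _ = _
  ring

theorem wB_bot {K : Subfield ℂ} (ι : K →+* H (Jν ⊕ J')) (n : ℝ*) (x : Jν ⊕ J' → Cs) :
    evv x (wB M ι n (A.rel A' A') 0) = vec fun _ => 0 :=
  funext fun k => show _ = 0 by simp [evv, wB, A.pr_bot, Xt.zero]

/-- an affine change of the variables -/
theorem move (s : Core M C' T Jν J A' Z) {φ : Jν ⊕ J → H (Jν ⊕ J)} (hφ : Maps φ) {h : Cs}
    (hh : PosZ h) {ν₀ : Jν → Cs} (hν₀ : ∀ i, ν₀ i ∈ Zs) {n' : ℝ*} (n0 : 0 < n') (n1 : Big T n')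
    (n2 : Poly T n') (hν : ∀ i, pull φ (nuv J s.n i) = cn (ν₀ i) + h • nuv J n' i) {p e : J → Cs}
    (hl : ∀ l, φ (.inr l) = cn (p l) + cn (e l) * xc (.inr l)) {η : ℝ*} (he : ∀ l, nm (e l) = η)
    (h0 : ¬ Tiny T η) : ∃ s' : Core M C' T Jν J A' Z, s.Ref η s' φ h ∧ s'.c = s.c ∧ s'.K = s.K ∧
      s'.n = n' ∧ s'.row = s.row ∧ ∀ l, s'.ρ l = e l * s.ρ l := by
  obtain ⟨s', h1, h2, h3, -, h4, h5, h6⟩ := s.step (.left s.btw.1 s.btw.2.2) s.lie le_rfl
    ((pull φ).comp s.ι) hφ hh hν₀ n0 n1 n2 hν ⟨s.fld.cnt, s.fld.acl, le_rfl⟩ s.free s.hK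
    (fun a _ => xt_comp _ _ a) (fun a ha => (s.cst a ha).imp fun b hb => by
      rw [xt_comp, hb, pull_cn]) (s.stab.pull hφ) (s.pg.pull s.inf s.stab hφ) (L := 0)
    (fun _ => AbVar.lat_zero) (w₀ := 0) (fun x _ => wB_bot _ n' x ▸ near_co 0)
    (fun x _ => ⟨co (piv (A.θ 0))⁻¹, fun j => by
      dsimp only
      rw [wB_bot, A.rel_self, A.pr_bot, xt_comp, s.id _ (M.ov.crd_zero j), pull_cn, ev_cn, app_vec,
        ← co_eq, ← map_mul]
      rfl⟩) (ρ := fun l => e l * s.ρ l) s.du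
    (fun l k => ⟨(s.std l k).1, by rw [xt_comp, (s.std l k).2, pull_cn]⟩)
    (fun l => by simpa only [xt_comp] using s.coord_aff hφ hν (hl l))
    (fun l => by
      rw [map_mul, he]
      exact not_tiny_mul s.inf h0 (s.rho l)) s.basis s.count (η := η) fun l l' => by
      rw [hl, map_add, dd_cn, zero_add, ← algebraMap_eq_cn, ← Algebra.smul_def,
        Derivation.map_smul, dd_xc, ev_smul, map_mul, he]
      split_ifs
      · simpa using Lc.refl η
      · simpa using Lc.zero η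
  exact ⟨s', h1, h2, h3, h4, h5, congrFun h6⟩

/-- LAT on `B = U - A'` and shrinking of the spatial variables by `η` -/
theorem prep (s : Core M C' T Jν J A' Z) (hU : A.Btw A' U Z) {η : ℝ*} (h0 : ¬ Tiny T η)
    (h1 : η ≤ 1) : ∃ (s₁ : Core M C' T Jν J A' Z) (φ : _) (h : _)
      (L : Fin g → MvPolynomial Jν Cs) (δ : ℝ*), s.Ref η s₁ φ h ∧ s₁.c = s.c ∧ s₁.K = s.K ∧
      s₁.row = s.row ∧ (∀ l, s₁.ρ l = ofR η * s.ρ l) ∧
      (∀ l, φ (.inr l) = cn (ofR η) * xc (.inr l)) ∧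
      (∀ α, A.Lat (A.rel U A') fun k => (L k).coeff α) ∧
      (∀ k, Lc (nm (ev 0 (wB M s₁.ι s₁.n (A.rel U A') L k))) 1) ∧ 0 ≤ δ ∧ Sm T δ ∧
      ∀ k x, Pt x → (∀ l, x (.inr l) = 0) → nm (ev x (wB M s₁.ι s₁.n (A.rel U A') L k) -
        ev 0 (wB M s₁.ι s₁.n (A.rel U A') L k)) ≤ δ := by
  have hT := s.inf
  have lB := hU.1.rel s.btw.1
  have hz := s.zK lB ((A.rel_le _ _).trans hU.2.2)
  have hη := not_tiny_pos hT h0
  have hn := s.npos
  have hn' : ofR s.n ≠ 0 := (map_ne_zero ofR).2 hn.ne'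
  obtain ⟨m, m1, m2, m3⟩ := exists_posZ (s.nlo.ll hT hn.le).le
  let σ : Jν ⊕ J → H Jν := Sum.elim (fun i => cn (m / ofR s.n) * xc i) 0
  have σ1 : ∀ x, Pt x → evv x σ = Sum.elim (fun i => m / ofR s.n * x i) 0 := fun x hx =>
    funext (Sum.forall.2 ⟨fun i => by simp [σ, evv, ev_xc hx], fun l => map_zero _⟩)
  have σ2 : Maps σ := fun x hx => σ1 x hx ▸ Sum.forall.2 ⟨fun i => by
    rw [Sum.elim_inl, map_mul, map_div₀, nm_ofR_of_nonneg hn.le]
    exact mul_lt_one_of_nonneg_of_lt_one_right (div_le_one_of_le₀ m2 hn.le) (nm.nonneg _) (hx i),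
    fun l => by simp⟩
  have z1 : ∀ x, Pt x → (evv x fun k => pull σ (xt s.ι (A.pr (A.rel U A') M.z k))) ∈
      St (A.rel U A' : Set (Fin g → ℂ)) := fun x hx => by
    have := wB_mem lB s.k0K s.id hz s.n (L := 0) (fun _ => AbVar.lat_zero) (evv x σ)
    unfold wB at this
    simpa only [evv_pull σ2 hx, Pi.zero_apply, map_zero, sub_zero] using this
  obtain ⟨h, m', P, δ, a1, a2, a3, a4, a5, a6, a7, a8⟩ := MP_f17f76_ag.N.lat A lB hT (fun x hx => ⟨z1 x hx,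
    fun k => by
      rw [ev_pull σ2 hx, xt_of_mem _ (hz k)]
      exact s.pg.ev hT s.stab (σ2 x hx) _⟩) m1
    (s.nlo.of_lc hT hn.le (nm.nonneg _) ⟨2, by simpa using m3⟩)
  obtain ⟨m₀, b1, b2⟩ := exists_st_lat A lB (z1 0 .zero)
  have a9 : nm (h * m' / ofR s.n) ≤ 1 := by
    refine le_trans ?_ (a4.ll hT).le
    rw [map_div₀, map_div₀, nm_ofR_of_nonneg hn.le]
    exact div_le_div_of_nonneg_left (nm.nonneg _) m1.pos m2
  let φ : Jν ⊕ J → H (Jν ⊕ J) :=
    aff 0 (Sum.elim (fun _ => h * m' / ofR s.n) fun _ => ofR η) fun i => i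
  have φ1 : Maps φ := maps_aff _ .zero (Sum.forall.2 ⟨fun _ => by simpa using a9,
    fun _ => by simpa [abs_of_pos hη] using h1⟩)
  obtain ⟨s₁, c1, c2, c3, c4, c5, c6⟩ := s.move φ1 a1 (ν₀ := 0) (fun _ => zero_mem _) a2.pos a3
    (s.nhi.of_le (by
      rw [map_div₀, map_mul, nm_ofR_of_nonneg hn.le, div_le_one hn] at a9
      exact (le_mul_of_one_le_left (nm.nonneg _) a1.eq.2).trans a9))
    (fun i => by
      rw [nuv, nuv, pull_smul, pull_xc φ1, ← a2.eq.1, smul_smul]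
      simp only [φ, aff, Algebra.smul_def, algebraMap_eq_cn, ← mul_assoc, ← map_mul, Sum.elim_inl,
        Pi.zero_apply, map_zero, zero_add, mul_div_cancel₀ _ hn'])
    (p := 0) (e := fun _ => ofR η) (fun l => rfl) (fun _ => nm_ofR_of_nonneg hη.le) h0
  have key : ∀ k x, Pt x → (∀ l, x (.inr l) = 0) →
      nm (ev x (wB M s₁.ι s₁.n (A.rel U A') (fun k => P k + C (m₀ k)) k) -
        (ev 0 (pull σ (xt s.ι (A.pr (A.rel U A') M.z k))) - m₀ k)) ≤ δ := fun k x hx h0 => by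
    have hx' : Pt fun i => h * m' / m * x (.inl i) := fun i => by
      rw [map_mul]
      exact mul_lt_one_of_nonneg_of_lt_one_right (a4.ll hT).le (nm.nonneg _) (hx _)
    refine le_of_eq_of_le (congrArg nm ?_) (a8 (fun i => x (.inl i)) (fun i => hx _) k)
    rw [wB, c1.ι _ (hz k), c4, map_sub, ev_aeval, ev_pull φ1 hx, ev_pull σ2 hx', σ1 _ hx', map_add,
      eval_C, evv_aff _ _ _ hx, show evv x (nuv J (nm m')) = fun i => m' * x (.inl i) from
        funext fun i => by rw [evv, nuv, ev_smul, ev_xc hx, ← a2.eq.1]]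
    rw [show (fun i => _ + _ * x i) = Sum.elim (fun i => m / ofR s.n * (h * m' / m * x (.inl i))) 0
      from funext (Sum.forall.2 ⟨fun i => by
        simp only [Sum.elim_inl, Pi.zero_apply, zero_add]
        field_simp [m1.ne], fun l => by simp [h0]⟩)]
    ring
  refine ⟨s₁, φ, h, fun k => P k + C (m₀ k), δ + δ, c1, c2, c3, c5, c6, fun l => by simp [φ, aff],
    fun α => ?_, fun k => lc_of_near
      (.le_trans (key k 0 .zero fun _ => rfl) (a6.ll hT)) (b2 k), add_nonneg a5 a5,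
    a6.add hT a6 a5 a5, fun k x hx h0 => (nm.sub_le _ _ _).trans
      (add_le_add (key k x hx h0) (nm.map_sub _ _ ▸ key k 0 .zero fun _ => rfl))⟩
  simp only [coeff_add, coeff_C]
  refine AbVar.Lat.add (a7 α).1 (y := fun k => if 0 = α then m₀ k else 0) ?_
  split_ifs
  exacts [b1, AbVar.lat_zero]

end Core

end

end Pool.Agent.P.MP_f17f76_ag
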