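import Pool.Agent.P.MP_f17f76_ag.S.End2
import Pool.Agent.P.MP_f17f76_ag.S.EndA
import Pool.Agent.P.MP_f17f76_ag.S.Step
import Pool.Agent.P.MP_f17f76_ag.S.Vf
import Pool.Agent.P.MP_f17f76_ag.E.Box
import Pool.Agent.P.MP_f17f76_ag.E.Hol4

/-!
The end of phase one after the creation of integer variables: either the reduced logarithm is not
frozen on a smaller box, or the tower is special.
-/

namespace Pool.Agent.P.MP_f17f76_ag

open Module Set Matrix E N MvPolynomial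

variable {g N : ℕ} {A : AbVar g N} {M : Model A} {C' X C1 C A0 : Sub g} {T : ℝ*} {Jν J : Type}
  [Fintype Jν] [Fintype J] [DecidableEq Jν] [DecidableEq J]

/-- Vectors that stay independent modulo superpolynomially small numbers have independent
images. -/
theorem N.Tau.li {I α β : Type} [Fintype I] [DecidableEq I] [Fintype α] [Fintype β] {hT : Ll 1 T}
    (τ : Tau I hT) {m : α → β → ℂ} {μ : α → β → Cs} (h : ∀ i k, τ.R (m i k) (cn (μ i k)))
    (h' : ∀ (v : α → Cs) i, Lc (nm (v i)) (∑ k, nm (∑ j, v j * μ j k))) :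
    LinearIndependent ℂ m := by
  let O : Subring ℂ :=
    { carrier := {a | ∃ b, τ.R a (cn b)}
      mul_mem' := fun ⟨b, hb⟩ ⟨c, hc⟩ => ⟨b * c, by simpa using hb.mul hc⟩
      one_mem' := ⟨1, by simpa using τ.r_one⟩
      add_mem' := fun ⟨b, hb⟩ ⟨c, hc⟩ => ⟨b + c, by simpa using hb.add hc⟩
      zero_mem' := ⟨0, by simpa using τ.r_zero⟩
      neg_mem' := fun ⟨b, hb⟩ => ⟨-b, by simpa using hb.neg⟩ }
  refine (linearIndependent_algebraMap_comp_iff (v := fun i k => (⟨m i k, _, h i k⟩ : O))).2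
    (Fintype.linearIndependent_iff.2 fun c hc i => ?_)
  choose b hb using fun i => (c i).2
  refine Subtype.ext ((hb i).zero_iff.2 (frz_cn.2 (.of_lc hT (h' b i) (.sum hT fun k _ => ?_))))
  have := Tau.R.sum (s := .univ) fun j _ => (hb j).mul (h j k)
  simp only [← map_mul, ← map_sum] at this
  exact frz_cn.1 (this.zero_iff.1 (by simpa using congrArg O.subtype (congrFun hc k)))

namespace Core

theorem tau_id {A' Z : Sub g} (s : Core M C' T Jν J A' Z) : ∃ τ : Tau (Jν ⊕ J) s.inf,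
    (∀ a ∈ s.K, τ.R a (xt s.ι a)) ∧
      ∀ i k, τ.R (A.dl (A.pr A' M.w) (τ.D i) k) (dd i (s.w k)) := by
  obtain ⟨τ, h⟩ := exists_tau' s.inf s.cntK (s.stab.mem_PB s.inf s.pg)
  have hτ : ∀ a ∈ s.K, τ.R a (xt s.ι a) := fun a ha => xt_of_mem s.ι ha ▸ ⟨_, h ⟨a, ha⟩⟩
  obtain ⟨ρ, G, a1, a2, a3, a4, a5⟩ := Vf.dl_key M.ov (A.pr A' M.w)
  have ha := s.a_mem s.btw.1 le_rfl
  have a6 := a5 s.w (fun j => xt s.ι (A.crd (A.pr A' M.w) j))
    ((exists_nrm_eq_one (A.ne_zero (A.pr A' M.w))).imp fun j hj =>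
      (congrArg (xt s.ι) hj).trans (Xt.one _)) s.exp
  simp only [← xt_eval s.ι (cn.comp co) s.k0K s.id a1 ha,
    ← xt_eval s.ι (cn.comp co) s.k0K s.id (a2 _ _) ha] at a6
  refine ⟨τ, hτ, fun i k => .cancel a3 (hτ _ (a1.eval_mem' s.k0K ha)) ?_ (dd_mem_PB s.inf
    (fun x hx => poly_of_lc s.inf (lc_of_near (s.var k x hx.pt) (s.bdd k))) _)⟩
  rw [a6, a4 _ fun a ha => (s.id a ha ▸ hτ a (s.k0K ha)).der_cn i]
  exact .sum fun j _ => (hτ _ ((a2 k j).eval_mem' s.k0K ha)).mul ((hτ _ (ha j)).dd i)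

variable {s : Core M C' T Jν J C1 C1} {μ : Jν → Fin g → Cs}

theorem SL.special (h : s.SL C1 A0 μ) (t : M.Tow C' X C1 C) (hA : A.Btw C' A0 C1) (hne : A0 ≠ C1)
    (hn : Fintype.card Jν + finrank ℂ A0 = M.H C1 A0)
    (hr : ∀ (v : Jν → Cs) i, Lc (nm (v i)) (∑ k, nm (∑ j, v j * μ j k)))
    (hf : ∀ i k, Frz T (dd (.inl i) (s.w k))) : M.Special C' C1 := by
  have := s.isEmpty t.t1
  obtain ⟨τ, hτ, hl⟩ := s.tau_id
  have h0 : ∀ a ∈ M.k0, τ.R a (cn (co a)) := fun a ha => s.id a ha ▸ hτ a (s.k0K ha)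
  have h1 : ∀ i, τ.D i ∈ kil (M.k0 : Set ℂ) := fun i a ha => (h0 a ha).der_cn i
  have h2 : ∀ i k, A.dl (A.pr C1 M.w) (τ.D (.inl i)) k = 0 := fun i k =>
    (hl _ k).zero_iff.2 (hf i k)
  have h3 : ∀ i k, τ.R (dv (A.pr C1 M.z) (τ.D (.inl i)) k) (cn (ofR s.n * μ i k)) := fun i k => by
    simpa [h2, h.dd_w] using ((hτ _ (s.z_mem t.t1.1 le_rfl k)).dd (.inl i)).sub (hl (.inl i) k)
  have h4 : ∀ a, (∀ i, τ.D (.inl i) a = 0) → a ∈ acl (csts (range τ.D) : Set ℂ) := fun a ha =>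
    subset_acl _ (mem_csts.2 (forall_mem_range.2 (Sum.rec ha isEmptyElim)))
  have h5 := fun i k => h4 _ fun j => (h3 i k).der_cn (.inl j)
  have n1 := (s.nlo.ll s.inf s.npos.le).le
  refine t.special_of hA hne (F := csts (range τ.D)) (union_subset (fun a ha => h4 a fun i =>
    h1 _ a ha) (union_subset ?_ fun a ha => h4 a fun i => (M.ov.dl_eq_zero_iff (h1 _)).1
      (funext (h2 i)) a ha)) hn h5 (fun D hD => ?_) ?_
  · rintro _ ⟨k, rfl⟩
    refine h4 _ fun i => ?_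
    have h6 := Tau.R.sum (s := .univ) fun j _ => (h3 i j).mul (h0 _ (M.ov.pr _ hA.1 j k))
    have h7 := congrFun ((st_iff_pr A (B := A.perp A0)).1 (AbVar.lat_and.1
      ((h.lat i).mono (A.rel_le_perp _ _))).2) k
    rw [A.perp_perp, lx_apply] at h7
    simp only [← map_mul, ← map_sum, mul_assoc, ← Finset.mul_sum, mul_comm (μ i _)] at h6
    rw [← A.pr_apply, h7, ← M.ov.dv_pr hA.1 (h1 _), A.pr_pr_of_le hA.2.2] at h6
    exact h6.zero_iff.2 (by simpa using frz_zero)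
  · have h6 := fun i => τ.r_f (xc_mem_PB s.inf (.inl i))
    refine (Submodule.mem_span_range_iff_exists_fun ℂ).2 ⟨fun i => D (τ.f (xc (.inl i))),
      funext fun k => ?_⟩
    have h7 := acl_le_cst hD (h4 (A.pr C1 M.z k - ∑ i, dv (A.pr C1 M.z) (τ.D (.inl i)) k *
      τ.f (xc (.inl i))) fun j => by
        simp [-dv_apply, (h6 _).der_xc, (h3 _ _).der_cn, ← dv_apply (A.pr C1 M.z)])
    have h8 := fun i => mem_cst.1 (acl_le_cst hD (h5 i k))
    refine (sub_eq_zero.1 ?_).symm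
    simpa [-dv_apply, mem_cst, h8, ← dv_apply (A.pr C1 M.z), mul_comm] using h7
  · rw [Model.zs, ← finrank_map_dv, ← finrank_span_eq_card (τ.li h3 fun v i => ?_)]
    · exact Submodule.finrank_mono (Submodule.span_le.2 (forall_mem_range.2 fun i =>
        ⟨_, mem_kil_csts ⟨_, rfl⟩, rfl⟩))
    · refine .le_trans ?_ (by simpa only [mul_assoc] using hr (fun j => v j * ofR s.n) i)
      rw [map_mul, nm_ofR_of_nonneg s.npos.le]
      exact le_mul_of_one_le_right (nm.nonneg _) n1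

theorem SL.exists_row (h : s.SL C1 A0 μ) (t : M.Tow C' X C1 C) (hA : C' ≤ A0) (k : Fin g) :
    ∃ u ∈ A.du (A.rel C1 C'), ∀ i, dd (.inl i) (dot u s.w) = dd (.inl i) (s.w k) := by
  have h1 : ∀ v, (fun j => A.pr (A.rel C1 C') (Pi.single j 1) k) ⬝ᵥ v = A.pr (A.rel C1 C') v k :=
    fun v => by rw [A.pr_apply _ v, dotProduct_comm, dotProduct]
  refine ⟨_, A.mem_du.2 fun v => by rw [h1, h1, A.pr_pr_of_le le_rfl], fun i => ?_⟩
  obtain ⟨b, hb⟩ := s.cst _ (s.fld.le (M.qs_kq C' (.inl ⟨k, rfl⟩)))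
  have h2 := congrFun ((st_eq_iff (A.pr (A.rel C1 C')) .id).1 (st_mono (fun _ => A.pr_of_mem)
    (AbVar.lat_and.1 ((h.lat i).mono (A.rel_anti _ hA))).2)) k
  rw [lx_id, lx_apply] at h2
  rw [h.dd_dot fun j => M.ov.pr _ (t.t1.1.rel t.t'.1) j k, h.dd_w, h1,
    A.pr_pr_of_le (A.rel_le _ _), A.pr_rel t.le', Pi.sub_apply,
    Vf.xt_sub _ (s.z_mem t.t1.1 le_rfl k) (s.z_mem t.t'.1 t.le' k), hb, map_sub, dd_cn, sub_zero,
    ← h2]
  rfl

theorem exists_nf (s : Core M C' T Jν J C1 C1) [IsEmpty J] {u : Fin g → ℂ}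
    (hu : u ∈ A.du (A.rel C1 C')) {i : Jν} (hb : dd (.inl i) (dot u s.w) ∈ PB _ s.inf)
    (hf : ¬ Frz T (dd (.inl i) (dot u s.w))) : ∃ s' : Core M C' T Jν J C1 C1, s'.NF C1 := by
  obtain ⟨b, b0, hb'⟩ := exists_root_pos s.npos (m := 4) (by norm_num)
  have b1 : Big T b := .root (hb' ▸ s.nlo)
  have b2 := b1.ll s.inf b0.le
  have b3 : 1 ≤ b ^ 2 := one_le_pow₀ b2.le
  obtain ⟨m, m1, m2, m3⟩ := exists_posZ b3
  have n0 : ofR s.n ≠ 0 := (map_ne_zero _).2 s.npos.ne'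
  have m4 : nm (m / ofR s.n) = nm m / b ^ 4 := by
    rw [map_div₀, nm_ofR_of_nonneg s.npos.le, hb']
  have m5 : Ll b (nm m) := by
    have := b2.mul_left b0.le
    exact (mul_one b ▸ this).trans_lc ⟨2, by simpa [sq] using m3⟩ m1.pos.le
  have m6 : Sm T (nm (m / ofR s.n)) := .of_le s.inf (nm.nonneg _) (by
    rw [m4, div_le_iff₀ (by positivity), inv_mul_eq_div, le_div_iff₀ b0]
    exact (mul_le_mul m2 (le_self_pow₀ b2.le two_ne_zero) b0.le (by positivity)).trans_eq (by ring))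
    ((sm_inv b0).2 b1)
  obtain ⟨p, p1, p2, k, p3⟩ := MP_f17f76_ag.N.exists_box s.inf hb hf (div_ne_zero m1.ne n0) m6
    (.of_le (by
    rw [m4, inv_div, hb']
    exact div_le_self s.npos.le m1.eq.2) s.nhi)
  choose ν h1 h2 using fun j => exists_near_int m1 (b2.trans m5) (p2 j)
  let φ : Jν ⊕ J → H (Jν ⊕ J) := aff (fun j => ν j / ofR s.n) (fun _ => ofR b / ofR s.n) fun j => j
  have h3 : ∀ x, Pt x → ∃ y, Near y p ∧ evv x φ = (m / ofR s.n) • y := fun x hx =>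
    ⟨fun j => ν j / m + ofR b / m * x j, Near.of_ll h2 fun j => by
      rw [add_sub_cancel_left, map_mul, map_div₀, nm_ofR_of_nonneg b0.le]
      exact ((ll_div m1.pos).2 m5).mul_one (.of_le (hx j).le) (nm.nonneg _), by
      have := m1.ne
      rw [evv_aff _ _ _ hx]
      funext j
      simp only [Pi.smul_apply, smul_eq_mul]
      field_simp⟩
  have h4 : Maps φ := fun x hx j => by
    obtain ⟨y, y1, y2⟩ := h3 x hx
    rw [y2, Pi.smul_apply, smul_eq_mul, map_mul]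
    exact (mul_le_of_le_one_left (nm.nonneg _) (m6.ll s.inf).le).trans_lt (y1.pt p1 j)
  have h5 : b ≤ s.n := hb' ▸ le_self_pow₀ b2.le (by norm_num)
  obtain ⟨s', r, -⟩ := s.move h4 posZ_one (fun j => h1 (.inl j)) b0 b1 (.of_le h5 s.nhi) (fun j => by
      simp only [nuv, Algebra.smul_def, algebraMap_eq_cn, map_mul, pull_cn, pull_xc h4, φ, aff,
        mul_add, ← mul_assoc, ← map_mul cn, mul_div_cancel₀ _ n0, one_mul]) (p := 0) (e := 0)
    isEmptyElim (η := 1) isEmptyElim fun h => (h 1).not_gt (by simpa using s.inf.one_lt)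
  obtain ⟨j, hj⟩ := s.nhi
  refine ⟨s', le_rfl, u, hu, isEmptyElim, i, j + k, fun x hx => ?_⟩
  obtain ⟨y, y1, y2⟩ := h3 x hx
  rw [r.wt u (A.du_mono (A.rel_le _ _) hu), dd_pull_aff' h4 (fun _ _ h => h) (.inl i), map_mul,
    ev_cn, ev_pull h4 hx, y2, map_mul, pow_add, mul_mul_mul_comm, map_div₀,
    nm_ofR_of_nonneg b0.le, nm_ofR_of_nonneg s.npos.le]
  refine one_le_mul_of_one_le_of_one_le ?_ (p3 y y1)
  rw [div_mul_eq_mul_div, one_le_div s.npos]
  exact hj.trans (le_mul_of_one_le_left (pow_pos s.inf.pos j).le b2.le)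

end Core

theorem s_end1 : S_END1 := by
  rintro g N A M C' X C1 C T Jν J _ _ _ _ s t ⟨A0, μ, h, h1, h2, h3, h4⟩
  have := s.isEmpty t.t1
  refine or_iff_not_imp_left.2 fun h5 => h.special t h1 h2 h3 h4 fun i k => by_contra fun h6 => ?_
  obtain ⟨u, u1, u2⟩ := h.exists_row t h1.2.1 k
  obtain ⟨τ, -, hl⟩ := s.tau_id
  exact h5 (s.exists_nf u1 (u2 i ▸ (hl _ k).mem) (u2 i ▸ h6))

end Pool.Agent.P.MP_f17f76_ag
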