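import Pool.Agent.P.MP_f17f76_ag.S.Tow
import Pool.Agent.P.MP_f17f76_ag.E.AxZ
import Pool.Agent.P.MP_f17f76_ag.E.NdB
import Pool.Agent.P.MP_f17f76_ag.E.Fam1

/-!
Conormal families on intervals of rational subspaces.
-/

namespace Pool.Agent.P.MP_f17f76_ag

open Set Module E AbVar

variable {g N : ℕ} {A : AbVar g N} {P₁ P₂ Q₁ Q₂ Q Q' U B Nn : Sub g} {E₀ k : Subfield ℂ}
  {F S : Set ℂ} {b b' : Fin g → ℂ} {σ : ℂ ≃+* ℂ} {κ : Sub g → ℕ}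

namespace AbVar

variable (A) in
/-- The rank function of `Nn` on the subspaces above `Q₁`. -/
noncomputable def rk (Nn Q₁ Q : Sub g) : ℕ := finrank ℂ (Nn ⊓ A.du (A.rel Q Q₁) : Sub g)

@[simp] theorem rk_self : A.rk Nn Q₁ Q₁ = 0 := by simp [rk]

theorem rk_top (h : Nn ≤ A.du (A.rel Q₂ Q₁)) : A.rk Nn Q₁ Q₂ = finrank ℂ Nn := by
  rw [rk, inf_eq_left.2 h]

theorem rk_mono (h : Q ≤ Q') : A.rk Nn Q₁ Q ≤ A.rk Nn Q₁ Q' :=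
  Submodule.finrank_mono (inf_le_inf_left _ (A.du_mono (A.rel_mono h _)))

theorem rk_supermod (Nn Q₁ Q Q' : Sub g) :
    A.rk Nn Q₁ Q + A.rk Nn Q₁ Q' ≤ A.rk Nn Q₁ (Q ⊔ Q') + A.rk Nn Q₁ (Q ⊓ Q') := by
  rw [rk, rk, ← Submodule.finrank_sup_add_finrank_inf_eq]
  refine add_le_add (Submodule.finrank_mono (sup_le
    (inf_le_inf_left _ (A.du_mono (A.rel_mono le_sup_left _)))
    (inf_le_inf_left _ (A.du_mono (A.rel_mono le_sup_right _))))) (le_of_eq ?_)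
  rw [rk, ← inf_inf_distrib_left, ← du_inf, rel, rel, rel, ← inf_inf_distrib_right]

theorem Over.rk_cj (h : A.Over k) (hσ : ∀ x ∈ k, σ x = x) (h₁ : A.IsLie Q₁) (hQ : A.IsLie Q) :
    A.rk (cj σ Nn) Q₁ Q = A.rk Nn Q₁ Q := by
  rw [rk, rk, ← finrank_cj σ (Nn ⊓ _), cj_inf, (h.ov_du (hQ.rel h₁)).cj_eq hσ]

theorem Over.rk_con (h : A.Over k) (hk : (k : Set ℂ) ⊆ acl F) (h₁ : A.IsLie Q₁)
    (hQ : A.Btw Q₁ Q Q₂) : A.rk (A.con F b (A.rel Q₂ Q₁)) Q₁ Q + finrank ℂ Q₁ +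
      trd F (range (A.crd (A.pr (A.rel Q Q₁) b))) = finrank ℂ Q := by
  have h1 := h.finrank_con hk (hQ.1.rel h₁) b
  have h2 := A.finrank_rel hQ.2.1
  rw [rk, A.con_inf_du (A.rel_mono hQ.2.2 _)]
  omega

theorem con_congr {F' : Set ℂ} (h : F ⊆ acl F') (h' : F' ⊆ acl F) :
    A.con F b B = A.con F' b B := by
  rw [con, con, le_antisymm (A.tan_anti h') (A.tan_anti h)]

theorem Over.tan_map (h : A.Over k) (hk : (k : Set ℂ) ⊆ acl F) (hσ : ∀ x ∈ k, σ x = x)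
    (hb : A.crd b' = σ ∘ A.crd b) : A.tan (σ '' F) b' = cj σ (A.tan F b) := by
  have hk' : (k : Set ℂ) ⊆ acl (σ '' F) := fun x hx =>
    hσ x hx ▸ map_acl_le σ.toRingHom F ⟨x, hk hx, rfl⟩
  refine (Submodule.eq_of_le_of_finrank_le (fun x hx => ?_) ?_).symm
  · obtain ⟨D, hD, e⟩ := mem_cj.1 hx
    refine ⟨cjD σ D, cjD_kil σ hD, ?_⟩
    rw [h.dl_cjD (kil_le hk hD) hσ hb, e]
    exact funext fun i => σ.apply_symm_apply _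
  · rw [finrank_cj, h.finrank_tan hk, h.finrank_tan hk', hb, range_comp]
    exact (trd_map σ.toRingHom (finite_range _)).le

theorem Over.con_map (h : A.Over k) (hk : (k : Set ℂ) ⊆ acl F) (hσ : ∀ x ∈ k, σ x = x)
    (hB : A.IsLie B) (hb : A.crd b' = σ ∘ A.crd b) :
    A.con (σ '' F) b' B = cj σ (A.con F b B) := by
  rw [con, con, cj_inf, cj_ann, h.tan_map hk hσ hb, (h.ov_du hB).cj_eq hσ]

end AbVar

theorem Fld.map {K : Subfield ℂ} (h : Fld k K) (hσ : ∀ x ∈ k, σ x = x) :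
    Fld k (K.map σ.toRingHom) :=
  ⟨h.cnt.image _, SetLike.coe_injective (by rw [Subfield.coe_map, ← map_acl, h.acl]),
    fun x hx => ⟨x, h.le hx, hσ x hx⟩⟩

namespace Model

variable {M : Model A}

variable (M) in
/-- A conormal family without reference to a rank function. -/
def Fm (Q₁ Q₂ : Sub g) (E₀ : Subfield ℂ) (Nn : Sub g) : Prop :=
  ∃ (kb : Subfield ℂ) (b : Fin g → ℂ), Fld M.k0 kb ∧ b ∈ A.rel Q₂ Q₁ ∧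
    E₀ = acl ((kb : Set ℂ) ∪ range (A.crd b)) ∧ Nn = A.con kb b (A.rel Q₂ Q₁)

theorem fam_iff : M.Fam κ Q₁ Q₂ E₀ Nn ↔
    M.Fm Q₁ Q₂ E₀ Nn ∧ ∀ Q, A.Btw Q₁ Q Q₂ → κ Q = κ Q₁ + A.rk Nn Q₁ Q :=
  ⟨fun ⟨kb, b, h1, h2, h3, h4, h5⟩ => ⟨⟨kb, b, h1, h2, h3, h4⟩, h5⟩,
    fun ⟨⟨kb, b, h1, h2, h3, h4⟩, h5⟩ => ⟨kb, b, h1, h2, h3, h4, h5⟩⟩

theorem fm_of_set (hF : F.Countable) (hk : (M.k0 : Set ℂ) ⊆ acl F) (hb : b ∈ A.rel Q₂ Q₁) :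
    M.Fm Q₁ Q₂ (acl (F ∪ range (A.crd b))) (A.con F b (A.rel Q₂ Q₁)) :=
  ⟨acl F, b, Fld.of_acl hF hk, hb, (acl_acl_union _ _).symm,
    con_congr ((subset_acl _).trans (subset_acl _)) subset_rfl⟩

theorem Fm.le_du (h : M.Fm Q₁ Q₂ E₀ Nn) : Nn ≤ A.du (A.rel Q₂ Q₁) := by
  obtain ⟨kb, b, -, -, -, rfl⟩ := h
  exact A.con_le _ _ _

theorem Fm.fld (h : M.Fm Q₁ Q₂ E₀ Nn) : Fld M.k0 E₀ := by
  obtain ⟨kb, b, h1, -, rfl, -⟩ := h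
  exact Fld.of_acl (h1.cnt.union (countable_range _)) (acl_tl h1.sub _)

theorem Fm.ov (h : M.Fm Q₁ Q₂ E₀ Nn) (h₁ : A.IsLie Q₁) (h₂ : A.IsLie Q₂) : Ov E₀ Nn := by
  obtain ⟨kb, b, h1, -, rfl, rfl⟩ := h
  exact M.ov.ov_con h1.sub (h₂.rel h₁) b

theorem Fm.map (h : M.Fm Q₁ Q₂ E₀ Nn) (h₁ : A.IsLie Q₁) (h₂ : A.IsLie Q₂)
    (hσ : ∀ x ∈ M.k0, σ x = x) : M.Fm Q₁ Q₂ (E₀.map σ.toRingHom) (cj σ Nn) := by
  obtain ⟨kb, b, h1, h2, rfl, rfl⟩ := h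
  obtain ⟨b', h3, h4⟩ := M.ov.exists_map (h₂.rel h₁) h2 σ.toRingHom hσ
  exact ⟨kb.map σ.toRingHom, b', h1.map hσ, h3, SetLike.coe_injective (by
    rw [Subfield.coe_map, map_acl, image_union, h4, range_comp, Subfield.coe_map]),
    (M.ov.con_map h1.sub hσ (h₂.rel h₁) h4).symm⟩

theorem Fm.sub (h : M.Fm Q₁ Q₂ E₀ Nn) (h₁ : A.IsLie Q₁) (hP₁ : A.Btw Q₁ P₁ P₂)
    (hP₂ : A.Btw P₁ P₂ Q₂) : ∃ E' Nn', M.Fm P₁ P₂ E' Nn' ∧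
      ∀ Q, A.Btw P₁ Q P₂ → A.rk Nn Q₁ Q = A.rk Nn Q₁ P₁ + A.rk Nn' P₁ Q := by
  obtain ⟨kb, b, h1, h2, rfl, rfl⟩ := h
  have h3 := acl_tl h1.sub (A.qq 0 b ⊥ (A.rel P₁ Q₁))
  refine ⟨_, _, fm_of_set (h1.cnt.union (A.finite_qq _ _ _ _).countable) h3
    (A.pr_mem (A.rel P₂ P₁) b), fun Q hQ => ?_⟩
  have h4 := M.ov.rk_con (b := b) h1.sub h₁ (hQ.mono hP₁.2.1 hP₂.2.2)
  have h5 := M.ov.rk_con (b := b) h1.sub h₁ (hP₁.mono le_rfl hP₂.2.2)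
  have h6 := M.ov.rk_con (b := A.pr (A.rel P₂ P₁) b) h3 hP₁.1 hQ
  have h7 := M.ov.HH_add (z := 0) (w := b) h1.sub isLie_bot (hP₁.1.rel h₁) le_rfl
    (A.rel_mono hQ.2.1 Q₁)
  rw [M.ov.HH_rel_right h3 isLie_bot (hP₁.1.rel h₁) (hQ.1.rel h₁) (A.rel_mono hQ.2.1 Q₁)
    (acl_ur _ _), M.ov.HH_bot_left h1.sub, M.ov.HH_bot_left h1.sub, A.rel_rel hP₁.2.1] at h7
  rw [A.pr_pr_of_le (A.rel_mono hQ.2.2 _)] at h6
  omega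

theorem Fam.fm (h : M.Fam κ Q₁ Q₂ E₀ Nn) : M.Fm Q₁ Q₂ E₀ Nn := (fam_iff.1 h).1

theorem Fam.rk (h : M.Fam κ Q₁ Q₂ E₀ Nn) (hQ : A.Btw Q₁ Q Q₂) : κ Q = κ Q₁ + A.rk Nn Q₁ Q :=
  (fam_iff.1 h).2 Q hQ

theorem Fam.le_du (h : M.Fam κ Q₁ Q₂ E₀ Nn) : Nn ≤ A.du (A.rel Q₂ Q₁) := h.fm.le_du

theorem Fam.fld (h : M.Fam κ Q₁ Q₂ E₀ Nn) : Fld M.k0 E₀ := h.fm.fld

theorem Fam.ov (h : M.Fam κ Q₁ Q₂ E₀ Nn) (h₁ : A.IsLie Q₁) (h₂ : A.IsLie Q₂) : Ov E₀ Nn :=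
  h.fm.ov h₁ h₂

theorem Fam.finrank (h : M.Fam κ Q₁ Q₂ E₀ Nn) (h₂ : A.IsLie Q₂) (hle : Q₁ ≤ Q₂) :
    κ Q₂ = κ Q₁ + finrank ℂ Nn := by rw [h.rk (.right h₂ hle), rk_top h.le_du]

theorem Fam.mono (h : M.Fam κ Q₁ Q₂ E₀ Nn) (hQ : A.Btw Q₁ Q Q') (hQ' : A.Btw Q Q' Q₂) :
    κ Q ≤ κ Q' := by
  rw [h.rk (hQ.mono le_rfl hQ'.2.2), h.rk (hQ'.mono hQ.2.1 le_rfl)]
  exact Nat.add_le_add_left (rk_mono hQ.2.2) _

theorem Fam.supermod (h : M.Fam κ Q₁ Q₂ E₀ Nn) (hQ : A.Btw Q₁ Q Q₂) (hQ' : A.Btw Q₁ Q' Q₂) :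
    κ Q + κ Q' ≤ κ (Q ⊔ Q') + κ (Q ⊓ Q') := by
  have := rk_supermod (A := A) Nn Q₁ Q Q'
  rw [h.rk hQ, h.rk hQ', h.rk (hQ.sup hQ'), h.rk (hQ.inf hQ')]
  omega

theorem Fam.map (h : M.Fam κ Q₁ Q₂ E₀ Nn) (h₁ : A.IsLie Q₁) (h₂ : A.IsLie Q₂)
    (hσ : ∀ x ∈ M.k0, σ x = x) : M.Fam κ Q₁ Q₂ (E₀.map σ.toRingHom) (cj σ Nn) :=
  fam_iff.2 ⟨h.fm.map h₁ h₂ hσ, fun _ hQ => by rw [M.ov.rk_cj hσ h₁ hQ.1, h.rk hQ]⟩

/-- A conjugate over `k₁` that is free from a countable set over `k₁`. -/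
theorem Fam.fresh' (h : M.Fam κ Q₁ Q₂ E₀ Nn) (h₁ : A.IsLie Q₁) (h₂ : A.IsLie Q₂) {k₁ : Set ℂ}
    (hk : (M.k0 : Set ℂ) ⊆ acl k₁) (hc : k₁.Countable) (hS : S.Countable) :
    ∃ σ : ℂ ≃+* ℂ, (∀ x ∈ acl k₁, σ x = x) ∧ M.Fam κ Q₁ Q₂ (E₀.map σ.toRingHom) (cj σ Nn) ∧
      E.Free k₁ (E₀.map σ.toRingHom) S := by
  have : Uncountable ℂ := Complex.ofReal_injective.uncountable
  obtain ⟨σ, h3, h4⟩ := exists_fresh hc h.fld.cnt hS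
  exact ⟨σ, h3, h.map h₁ h₂ fun x hx => h3 x (hk hx), h4⟩

theorem Fam.fresh (h : M.Fam κ Q₁ Q₂ E₀ Nn) (h₁ : A.IsLie Q₁) (h₂ : A.IsLie Q₂)
    (hS : S.Countable) : ∃ E' Nn', M.Fam κ Q₁ Q₂ E' Nn' ∧ E.Free (M.k0 : Set ℂ) E' S :=
  (h.fresh' h₁ h₂ M.ksub M.fld.cnt hS).elim fun _ h => ⟨_, _, h.2⟩

theorem Fam.sub (h : M.Fam κ Q₁ Q₂ E₀ Nn) (h₁ : A.IsLie Q₁) (hP₁ : A.Btw Q₁ P₁ P₂)
    (hP₂ : A.Btw P₁ P₂ Q₂) : ∃ E' Nn', M.Fam κ P₁ P₂ E' Nn' := by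
  obtain ⟨E', Nn', h1, h2⟩ := h.fm.sub h₁ hP₁ hP₂
  refine ⟨E', Nn', fam_iff.2 ⟨h1, fun Q hQ => ?_⟩⟩
  rw [h.rk (hQ.mono hP₁.2.1 hP₂.2.2), h.rk (hP₁.mono le_rfl hP₂.2.2), h2 Q hQ, add_assoc]

/-! ### the rank formula in terms of `HH` -/

section mu

variable {L : Type} {c : Set ℂ} {n : L → Fin g → ℂ} {a a' y y' : Sub g}

variable (M) in
/-- The values of the rows on the part of `z` in `y' - y`. -/
def vals (n : L → Fin g → ℂ) (y y' : Sub g) : Set ℂ :=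
  range fun l => n l ⬝ᵥ A.pr (A.rel y' y) M.z

variable (M) in
/-- The transcendence degree of `(z_y, a_a)` and the values of the rows. -/
noncomputable def mu (c : Set ℂ) (n : L → Fin g → ℂ) (y y' a : Sub g) : ℕ :=
  trd c (M.qs y a ∪ M.vals n y y')

variable [Finite L]

theorem finite_vals : (M.vals n y y').Finite := finite_range _

theorem mu_add (hk : (M.k0 : Set ℂ) ⊆ acl c) (ly : A.IsLie y) (la : A.IsLie a) (la' : A.IsLie a')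
    (h : a ≤ a') : M.mu c n y y' a' = M.mu c n y y' a +
      trd (c ∪ (M.qs y a ∪ M.vals n y y')) (range (A.crd (A.pr (A.rel a' a) M.w))) := by
  rw [← M.ov.HH_rel_right (F := c ∪ (M.qs y a ∪ M.vals n y y')) (z := M.z) (acl_tl hk _) ly la la' h
    (subset_union_left.trans (acl_ur _ _)), HH, mu, mu,
    ← trd_union ((M.finite_qs _ _).union finite_vals) (A.finite_qq _ _ _ _)]
  refine trd_congr (Subset.trans ?_ (acl_ur _ _)) (union_subset (union_subset ?_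
    (subset_union_right.trans (acl_ur _ _))) (subset_union_left.trans (acl_ur _ _)))
  · exact union_subset subset_union_right (subset_union_right.trans subset_union_left)
  · exact M.ov.qq_le (acl_tl hk _) ly la le_rfl h (subset_union_left.trans (acl_ur _ _))

theorem Fm.mu_spec (h : M.Fm y y' E₀ Nn) (hn : ∀ l i, n l i ∈ E₀)
    (hN : Submodule.span ℂ (range n) = Nn) (hc : c.Countable) (hk : (M.k0 : Set ℂ) ⊆ acl c)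
    (ly : A.IsLie y) (ly' : A.IsLie y') (hy : y ≤ y') (la : A.IsLie a)
    (hf : E.Free (M.k0 : Set ℂ) E₀ (c ∪ M.qs y' a)) :
    (∀ Q, A.Btw y Q y' → M.mu (c ∪ E₀) n y y' a + A.rk Nn y Q ≤
      finrank ℂ Nn + trd c (M.qs Q a)) ∧ trd c (M.qs y a) ≤ M.mu (c ∪ E₀) n y y' a ∧
    ∃ Q, A.Btw y Q y' ∧ M.mu (c ∪ E₀) n y y' a + A.rk Nn y Q = finrank ℂ Nn + trd c (M.qs Q a) := by
  obtain ⟨kb, b, h1, h2, hE, rfl⟩ := h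
  have k1 := acl_tl hk (M.qs y a)
  have k2 := acl_tl hk (M.qs y' a)
  have q1 : M.qs y a ⊆ acl (c ∪ M.qs y' a) := M.ov.qq_le k2 ly la hy le_rfl (acl_ur _ _)
  have q2 : range (A.pr (A.rel y' y) M.z) ⊆ acl (c ∪ M.qs y' a) :=
    M.ov.pr_le (ly'.rel ly) (A.rel_le _ _) k2 ((M.zs_sub y' a).trans (acl_ur _ _))
  have q3 : c ∪ M.qs y a ∪ range (A.pr (A.rel y' y) M.z) ⊆
      acl ((M.k0 : Set ℂ) ∪ (c ∪ M.qs y' a)) :=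
    acl_tr (union_subset (union_subset (acl_ul _ _) q1) q2) _
  have f1 : ∀ T : Set ℂ, (M.k0 : Set ℂ) ⊆ acl T → T ⊆ acl ((M.k0 : Set ℂ) ∪ (c ∪ M.qs y' a)) →
      ∀ T' : Set ℂ, T' ⊆ acl ((M.k0 : Set ℂ) ∪ (c ∪ M.qs y' a)) → E.Free T T' E₀ :=
    fun T h3 h4 T' h5 => by
    have h6 := ((hf.add_base h4).acl_right.symm).mono (T := T') (h5.trans (acl_mono
      (union_subset_union_left _ subset_union_left))) (acl_ur _ _)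
    intro s hs hs'
    rw [← trd_congr_base hs' (union_subset h3 (subset_acl T)) (acl_ur _ T), ← h6 s hs hs']
    exact trd_congr_base hs' (union_subset (acl_tl (acl_ur _ _) _) (acl_ur _ _))
      (union_subset (union_subset (acl_tl h3 _) (acl_ul _ _)) (acl_ur _ _))
  have f2 := f1 _ k1 (subset_union_left.trans q3) _ (subset_union_right.trans q3)
  have f3 : E.Free (kb : Set ℂ) (range (A.crd b))
      (c ∪ M.qs y a ∪ range (A.pr (A.rel y' y) M.z)) := by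
    have h3 : (kb : Set ℂ) ⊆ E₀ := hE ▸ acl_ul _ _
    have h4 := ((hf.acl_right.symm.add_base (T' := kb) (h3.trans (acl_ur _ _))).symm).mono
      (T := range (A.crd b)) (hE ▸ acl_ur _ _) (q3.trans (acl_ur _ _))
    rwa [union_eq_right.2 (show (M.k0 : Set ℂ) ⊆ kb from h1.le)] at h4
  have e1 : M.mu (c ∪ E₀) n y y' a =
      trd c (M.qs y a) + trd (c ∪ M.qs y a ∪ E₀) (M.vals n y y') := by
    rw [mu, trd_union (M.finite_qs _ _) finite_vals, union_right_comm, f1 c hk (acl_tr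
      (acl_ul _ _) _) _ (acl_tr q1 _) _ subset_rfl (M.finite_qs _ _)]
  have e2 : ∀ Q, A.Btw y Q y' → trd c (M.qs Q a) = trd c (M.qs y a) +
      trd (c ∪ M.qs y a) (range (A.pr (A.rel Q y) (A.pr (A.rel y' y) M.z))) := fun Q hQ => by
    rw [A.pr_pr_of_le (A.rel_mono hQ.2.2 _),
      ← M.ov.HH_rel_left (w := M.w) k1 ly hQ.1 la hQ.2.1 (acl_ur _ _)]
    exact M.ov.HH_add hk ly la hQ.2.1 le_rfl
  have hn' : ∀ l i, n l i ∈ acl (c ∪ M.qs y a ∪ E₀) := fun l i => acl_ur _ _ (hn l i)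
  refine ⟨fun Q hQ => ?_, by omega, ?_⟩
  · have h3 := M.ov.rk_le k1 hn' hN f2 (hQ.1.rel ly) (A.rel_mono hQ.2.2 y)
    rw [e1, e2 Q hQ, rk, A.con_inf_du (A.rel_mono hQ.2.2 _), vals]
    omega
  · obtain ⟨U, h3, h4, h5⟩ := M.ov.rk_eq M.ov.isGen (hc.union (M.finite_qs y a).countable) k1 h1.cnt
      h1.sub hn' hN f2 f3 (ly'.rel ly)
    have h6 : A.Btw y (y ⊔ U) y' :=
      ⟨ly.sup h3, le_sup_left, sup_le hy (h4.trans (A.rel_le _ _))⟩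
    refine ⟨_, h6, ?_⟩
    rw [e1, e2 _ h6, rk, A.rel_sup (h4.trans (A.rel_le_perp _ _)), A.con_inf_du h4, vals]
    omega

end mu

end Model

end Pool.Agent.P.MP_f17f76_ag
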