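import Pool.Agent.P.MP_f17f76_ag.S.GfB
import Pool.Agent.P.MP_f17f76_ag.S.Step

/-!
Adjoining standard parameters to a state.
-/

namespace Pool.Agent.P.MP_f17f76_ag

open Module Set Matrix E N

variable {g N : ℕ} {A : AbVar g N} {M : Model A} {C' : Sub g} {T : ℝ*} {Jν J : Type}
  [Fintype Jν] [Fintype J] [DecidableEq Jν] [DecidableEq J] {A' Z A'' : Sub g}

/-- Constants are algebraically closed. -/
theorem cst_acl {K : Subfield ℂ} {V : Type} [Fintype V] (ι : K →+* H V) {S : Set ℂ}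
    (hK : acl (K : Set ℂ) = K) (hS : S ⊆ K) (h : ∀ a ∈ S, ∃ b, xt ι a = cn b) :
    ∀ a ∈ acl S, ∃ b, xt ι a = cn b := fun a ha => by
  classical
  have h1 : acl S ≤ K := (acl_mono hS).trans hK.le
  have h2 : ∀ c ∈ acl S, xt (ι.comp (Subfield.inclusion h1)) c = xt ι c := fun c hc =>
    (xt_of_mem _ hc).trans (xt_of_mem ι (h1 hc)).symm
  refine ⟨_, eq_cn_of_dd fun l => ?_⟩
  rw [← h2 a ha, dd_gen _ (subset_acl S) le_rfl (D := 0) (fun _ _ => zero_mem _) l 0 (fun c hc => by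
    obtain ⟨b, hb⟩ := h c hc
    rw [h2 c (subset_acl S hc), hb, dd_cn, mul_zero]) ha, mul_zero]

/-- Freeness after adjoining parameters. -/
theorem free_more {k F Q c S T₀ : Set ℂ} (h : Free F Q c) (h' : Free k S T₀) (hk : k ⊆ acl F)
    (hF : F ⊆ acl c) (hT : c ∪ Q ⊆ acl (k ∪ T₀)) : Free F Q (acl (c ∪ S)) :=
  (h.trans (fun s hs hf => le_antisymm (trd_anti hf (acl_ul _ _)) (by
    have h1 := ((h'.mono subset_rfl hT).add_base (T' := c) (acl_tr (acl_ul _ _) _)).symm s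
      (hs.trans subset_union_right) hf
    rw [trd_congr_base hf (F' := k ∪ c) (union_subset (acl_tr hF _) (acl_ur _ _))
      (union_subset (acl_tl hk _) (acl_ur _ _)), ← h1]
    exact trd_anti hf (union_subset (acl_tl (union_subset (acl_tr hF _) (acl_ur _ _)) _)
      (acl_ur _ _))))).mono subset_rfl (acl_mono subset_union_right)

/-- Adjoining standard parameters. -/
theorem Core.grow (s : Core M C' T Jν J A' Z) {S : Set ℂ} (hS : S.Countable)
    (hf : Free (M.k0 : Set ℂ) S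
      ((s.c : Set ℂ) ∪ M.qs ⊤ ⊤ ∪ Pst.res ((ev 0).comp s.ι).fieldRange)) :
    ∃ s' : Core M C' T Jν J A' Z, s.Ref 1 s' xc 1 ∧ s'.c = acl ((s.c : Set ℂ) ∪ S) ∧
      s'.K = acl ((s.K : Set ℂ) ∪ S) ∧ (∀ a ∈ s.K, xt s'.ι a = xt s.ι a) ∧
      (∀ a ∈ acl ((M.k0 : Set ℂ) ∪ S), xt s'.ι a = cn (co a)) ∧ s'.n = s.n ∧ s'.row = s.row ∧
      s'.ρ = s.ρ := by
  have k0 : (M.k0 : Set ℂ) ⊆ s.c := s.k0_le
  have k1 : (M.k0 : Set ℂ) ⊆ s.K := k0.trans s.c_le
  obtain ⟨ι, h1, h2, h3, h4, -⟩ := const_sub (F := s.K) (k := M.k0)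
    (s.hK ▸ countable_acl (s.fld.cnt.union (M.finite_qs _ _).countable)) hS
    (M.fld.acl.le.trans k1) s.stab
    (fun c hc => (Xt.coe _ c).symm.trans (s.id c (M.fld.acl.le hc)))
    (hf.mono subset_rfl (acl_tr (acl_tl (s.hK ▸ acl_le (union_subset (acl_ul _ _) (M.ov.qq_le'
      (k0.trans (subset_acl _)) s.lie s.btw.1 le_top le_top))) _) _))
    (hf.mono subset_rfl (acl_tr (acl_ur _ _) _))
  have h5 : ∀ a ∈ s.K, xt ι a = xt s.ι a := fun a ha =>
    (xt_of_mem _ (acl_ul _ _ ha)).trans ((h2 ⟨a, ha⟩).trans (xt_of_mem _ ha).symm)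
  have h6 : ∀ a ∈ acl ((M.k0 : Set ℂ) ∪ S), xt ι a = cn (co a) := fun a ha =>
    (xt_of_mem _ (acl_mono (union_subset_union_left _ k1) ha)).trans (h3 _ ha)
  obtain ⟨s', r, e1, e2, e3, e4, e5, e6⟩ := s.step (.left s.btw.1 s.btw.2.2) s.lie le_rfl
    (c' := acl ((s.c : Set ℂ) ∪ S)) ι (φ := xc) (maps_xc fun i => i) posZ_one (ν₀ := 0) (fun _ => zero_mem _) s.npos
    s.nlo s.nhi (fun i => by simp) (.of_acl (s.fld.cnt.union hS) (acl_ul _ _))
    (free_more s.free hf (acl_ul _ _) ((subset_acl _).trans s.fld.sub)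
      (subset_union_left.trans (acl_ur _ _)))
    (by rw [s.hK, acl_acl_union, acl_acl_union, union_right_comm])
    (fun a ha => (h5 a ha).trans (pull_id _).symm)
    (cst_acl ι (acl_acl _) ((union_subset_union_left _ s.c_le).trans (subset_acl _)) fun a ha =>
      ha.elim (fun h => h5 a (s.c_le h) ▸ s.cst a h) fun h => ⟨_, h6 a (acl_ur _ _ h)⟩)
    h1 (h4 T s.inf s.pg) (L := 0) (fun _ => AbVar.lat_zero) (w₀ := 0)
    (fun x _ => Core.wB_bot _ s.n x ▸ near_co 0) (fun x _ => ⟨co (piv (A.θ 0))⁻¹, fun j => by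
      dsimp only
      rw [Core.wB_bot, A.rel_self, A.pr_bot, h6 _ (acl_ul _ _ (M.ov.crd_zero j)), ev_cn, app_vec,
        ← co_eq, ← map_mul]
      rfl⟩) s.du
    (fun l k => ⟨acl_ul _ _ (s.std l k).1, (h5 _ (s.c_le (s.std l k).1)).trans (s.std l k).2⟩)
    (fun l => ⟨_, (h5 _ (s.y_mem l)).trans (s.coord l)⟩) s.rho
    (fun D hD => s.basis D (kil_anti (acl_ul _ _) hD)) s.count (η := 1) fun l l' => by
      rw [dd_xc]
      split_ifs
      · simpa using Lc.refl 1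
      · simpa using Lc.zero 1
  exact ⟨s', r, e1, e2, fun a ha => (e3 a).trans (h5 a ha), fun a ha => (e3 a).trans (h6 a ha),
    e4, e5, e6⟩

end Pool.Agent.P.MP_f17f76_ag
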