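import Pool.Agent.P.MP_f17f76_ag.S.Step
import Pool.Agent.P.MP_f17f76_ag.S.Vf

/-!
The standard direction matrix of a group of rows and its linear algebra.
-/

namespace Pool.Agent.P.MP_f17f76_ag

open Module Set Matrix E N

variable {g N : ℕ} {A : AbVar g N} {M : Model A} {C' : Sub g} {T : ℝ*} {Jν J : Type}
  [Fintype Jν] [Fintype J] [DecidableEq Jν] [DecidableEq J] {A' Z A'' : Sub g}

theorem Core.dr_dot (s : Core M C' T Jν J A' Z) {u y : Fin g → ℂ} (hu : ∀ k, u k ∈ s.Std)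
    (hy : ∀ k, y k ∈ s.K) (l : J) : s.dr (u ⬝ᵥ y) l = ∑ k, co (u k) * s.dr (y k) l := by
  simp only [Core.dr, s.xt_std_dot hu hy, map_sum, Derivation.map_smul, ev_smul]

theorem Core.dr_z (s : Core M C' T Jν J A' Z) (k : Fin g) (l : J) :
    Ll (nm (s.dr (A.pr A' M.z k) l)) 1 := by
  obtain ⟨b, h1, h2⟩ := exists_le_ll (g := s.w k - cn (ev 0 (s.w k))) (by simpa using s.var k)
  have := h2.cauchy_zero (.inr l)
  rw [map_sub, dd_cn, sub_zero, ← s.dd_z, two_mul] at this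
  exact .le_trans this (h1.add h1)

theorem li_of_pair {I : Finset J} {u v : J → Fin g → ℂ} (h : ∀ l ∈ I, u l ⬝ᵥ v l ≠ 0)
    (h' : ∀ l ∈ I, ∀ m ∈ I, l ≠ m → u l ⬝ᵥ v m = 0) :
    Submodule.span ℂ (u '' I) ⊓ ann (Submodule.span ℂ (v '' I)) = ⊥ ∧
      finrank ℂ (Submodule.span ℂ (u '' I)) = I.card := by
  have h1 : ∀ a : I → ℂ, ∑ l, a l • u l ∈ ann (Submodule.span ℂ (v '' I)) → ∀ l, a l = 0 :=
    fun a ha m => by
      have := mem_ann_span.1 ha _ ⟨_, m.2, rfl⟩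
      rw [sum_dotProduct, Finset.sum_eq_single m (fun l _ e => by
        rw [smul_dotProduct, h' _ l.2 _ m.2 (Subtype.coe_ne_coe.2 e), smul_zero]) (by simp),
        smul_dotProduct] at this
      exact (smul_eq_zero.1 this).resolve_right (h _ m.2)
  refine ⟨eq_bot_iff.2 fun x hx => ?_, ?_⟩
  · obtain ⟨a, rfl⟩ := (Fintype.mem_span_image_iff_exists_fun ℂ).1 hx.1
    simp [h1 a hx.2]
  · rw [image_eq_range, ← Fintype.card_coe]
    exact finrank_span_eq_card (Fintype.linearIndependent_iff.2 fun a ha =>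
      h1 a (ha ▸ zero_mem _))

theorem Core.gf_lam (s : Core M C' T Jν J A' Z) (hA : A.Btw A' A'' Z) {κ : Sub g → ℕ}
    {I : Finset J} {R : ℝ*} (G : s.Grp κ A' A'' I R) (hR : 1 ≤ R) (_hne : A'' ≠ A' → Ll 1 R)
    (hf : ∀ Q, A.Btw A' Q A'' → s.Less (A.rel Q A') R → Q = A') :
    ∃ lam : J → Fin g → ℂ,
      (∀ l, Near (fun j => s.dr (A.pr (A.rel A'' A') M.z j) l / ofR R) (lam l)) ∧
      (∀ l, lam l ∈ A.rel A'' A') ∧ (∀ l ∈ I, A'' ≠ A') ∧
      finrank ℂ (Submodule.span ℂ (lam '' I)) = I.card ∧ I.card + κ A' = κ A'' ∧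
      (∀ Q, A.Btw A' Q A'' →
        κ Q ≤ κ A' + finrank ℂ ((Submodule.span ℂ (lam '' I)).map (A.pr Q))) ∧
      ∀ H, A.IsLie H → Submodule.span ℂ (range lam) ≤ H → A.rel A'' A' ≤ H := by
  have hB := hA.1.rel s.btw.1
  have R0 := one_pos.trans_le hR
  have R1 : ∀ x, nm (x / ofR R) = nm x / R := fun x => by rw [map_div₀, nm_ofR_of_nonneg R0.le]
  have c1 := s.z_mem s.btw.1 s.btw.2.2
  have c2 := s.z_mem hB ((A.rel_le _ _).trans hA.2.2)
  obtain ⟨lam, h1⟩ : ∃ lam : J → Fin g → ℂ, ∀ l,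
      Near (fun j => s.dr (A.pr (A.rel A'' A') M.z j) l / ofR R) (lam l) :=
    ⟨_, fun l => near_of_lc fun k => by
      have := G.rate (fun i => A.pr (A.rel A'' A') (Pi.single i 1) k) (A.mem_du.2 fun v => by
        simp only [dotProduct, mul_comm _ (v _), mul_comm _ (A.pr _ v _), ← A.pr_apply,
          A.pr_pr_of_ge le_rfl]) (fun i => M.ov.pr _ hB i k) l
      rwa [dotProduct_comm, dotProduct, ← A.pr_apply, ← lc_div R0, ← R1] at this⟩
  have h2 : ∀ u : Fin g → ℂ, (∀ k, u k ∈ s.Std) → ∀ l, Ll (nm (s.dr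
      (u ⬝ᵥ A.pr (A.rel A'' A') M.z) l / ofR R - co (u ⬝ᵥ lam l))) 1 := fun u hu l => by
    rw [s.dr_dot hu c2, dotProduct, map_sum, Finset.sum_div, ← Finset.sum_sub_distrib]
    refine .le_trans (nm.sum_le _ _) (.sum zero_le_one fun k _ => ?_)
    rw [map_mul co, mul_div_assoc, ← mul_sub, map_mul]
    exact (lc_co _).mul_inf (h1 l k) (nm.nonneg _)
  have h3 : ∀ l, lam l ∈ A.rel A'' A' := fun l => (M.ov.ov_lie hB).mem_of_forms fun a ha h => by
    have := stc_eq (h2 a (fun k => s.k0_std (ha k)) l)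
    rw [h _ (A.pr_mem _ _), Core.dr, Xt.zero] at this
    simpa using this.symm.trans (by simpa using stc_co 0)
  have h4 : ∀ m ∈ I, ∀ l, Ll (nm ((if l = m then s.ρ l else 0) / ofR R -
      co (s.row m ⬝ᵥ lam l))) 1 := fun m hm l => by
    refine near_trans ?_ (h2 _ (s.std m) l)
    have e : s.dr (s.row m ⬝ᵥ M.z) l = if l = m then s.ρ l else 0 := by
      rw [Core.dr, s.dd_y]
      split_ifs <;> simp
    rw [← e, ← sub_div, R1, ll_div R0, ← A.dot_pr (G.du m hm),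
      s.dr_dot (s.std m) (s.z_mem hA.1 hA.2.2), s.dr_dot (s.std m) c2, ← Finset.sum_sub_distrib]
    refine .trans_le (.le_trans (nm.sum_le _ _) (.sum zero_le_one fun k _ => ?_)) hR
    rw [← mul_sub, map_mul, A.pr_rel hA.2.1, Pi.sub_apply, Core.dr, Core.dr,
      Xt.sub _ (s.z_mem hA.1 hA.2.2 k) (c1 k), map_sub (dd _), map_sub (ev 0), sub_sub_cancel]
    exact (lc_co _).mul_inf (s.dr_z k l) (nm.nonneg _)
  have h5 : ∀ l ∈ I, s.row l ⬝ᵥ lam l ≠ 0 := fun l hl e => by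
    have := h4 l hl l
    rw [if_pos rfl, e, map_zero, sub_zero, R1, G.rho l hl, div_self R0.ne'] at this
    exact one_pos.not_ge this.self
  have h6 : ∀ l ∈ I, ∀ m ∈ I, l ≠ m → s.row l ⬝ᵥ lam m = 0 := fun l hl m _ e => by
    have := stc_eq (h4 l hl m)
    rw [if_neg e.symm] at this
    exact this.symm.trans (by simpa using stc_co 0)
  obtain ⟨h7, h8⟩ := li_of_pair h5 h6
  refine ⟨lam, h1, h3, fun l hl e => h5 l hl ?_, (li_of_pair (fun l hl => dotProduct_comm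
    (s.row l) _ ▸ h5 l hl) fun l hl m hm e => dotProduct_comm (s.row m) _ ▸ h6 m hm l hl e.symm).2,
    h8 ▸ G.card, fun Q hQ => (G.rank Q hQ).trans (Nat.add_le_add_left ?_ _), fun H hH h => ?_⟩
  · have := h3 l
    rw [e, A.rel_self] at this
    simp [(Submodule.mem_bot ℂ).1 this]
  · have a1 := A.finrank_ann_inf_du (Submodule.span ℂ (lam '' I)) Q
    have a2 := Submodule.finrank_sup_add_finrank_inf_eq (Submodule.span ℂ (s.row '' I) ⊓
      ann (A.rel A'' Q)) (ann (Submodule.span ℂ (lam '' I)) ⊓ A.du Q)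
    rw [inf_inf_inf_comm, h7, bot_inf_eq, finrank_bot] at a2
    have a3 := Submodule.finrank_mono (sup_le (c := A.du Q) (a := Submodule.span ℂ (s.row '' I) ⊓
      ann (A.rel A'' Q)) (fun u hu => A.mem_du.2 fun v => by
        have := hu.2 _ (A.pr_mem _ v)
        rwa [A.pr_rel hQ.2.2, dotProduct_sub, A.dot_pr (Submodule.span_le.2
          (image_subset_iff.2 G.du) hu.1), sub_eq_zero, eq_comm] at this)
      (inf_le_right (a := ann (Submodule.span ℂ (lam '' I)))))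
    rw [A.finrank_du] at a3
    omega
  · have a1 := hB.rel (hH.inf hB)
    have a2 := (A.rel_le _ (H ⊓ A.rel A'' A')).trans (A.rel_le_perp A'' A')
    have a3 := hf _ ⟨s.btw.1.sup a1, le_sup_left, sup_le hA.2.1 ((A.rel_le _ _).trans
      (A.rel_le _ _))⟩ fun u hu hk l => by
        rw [A.rel_sup a2] at hu
        have := h2 u (fun k => s.k0_std (hk k)) l
        rwa [hu (lam l) (A.perp_rel _ _ ▸ Submodule.mem_sup_right ⟨h (Submodule.subset_span ⟨l, rfl⟩),
          h3 l⟩), map_zero, sub_zero, R1, ll_div R0, A.dot_pr (A.du_mono (A.rel_le _ _) hu)] at this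
    have a4 := A.rel_sup a2
    rw [a3, A.rel_self, eq_comm, A.rel_eq_bot_iff inf_le_right] at a4
    exact a4.le.trans inf_le_left

end Pool.Agent.P.MP_f17f76_ag
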