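import Pool.Agent.P.MP_f17f76_ag.S.Step
import Pool.Agent.P.MP_f17f76_ag.S.Vf

/-!
Preparation of the main step: the reduced logarithm is almost linear on a slowly infinite box.
-/

namespace Pool.Agent.P.MP_f17f76_ag

open Module Set Matrix E N

variable {g N : ℕ} {A : AbVar g N} {M : Model A} {C' : Sub g} {T : ℝ*} {Jν J : Type}
  [Fintype Jν] [Fintype J] [DecidableEq Jν] [DecidableEq J] {A' Z A'' : Sub g}

theorem exists_radius {R δ : ℝ*} {p : Prop} (hR : 1 ≤ R) (hp : p → Ll 1 R) (h0 : 0 ≤ δ)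
    (hδ : Ll δ 1) : ∃ a, 1 ≤ a ∧ a ≤ R ∧ (p → Ll 1 a) ∧ Ll (a * δ) 1 := by
  by_cases h : p
  swap
  · exact ⟨1, le_rfl, hR, fun h' => (h h').elim, by rwa [one_mul]⟩
  have h1 : 0 < R⁻¹ := inv_pos.2 (hp h).pos
  have h2 : 0 < δ + R⁻¹ := add_pos_of_nonneg_of_pos h0 h1
  obtain ⟨a, h3, h4⟩ := exists_root_pos (inv_pos.2 h2) two_ne_zero
  have h5 : Ll 1 a := .of_pow (by
    rw [h4, one_pow]
    simpa using (hδ.add (by simpa using (hp h).inv one_pos)).inv h2) h3.le two_ne_zero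
  refine ⟨a, h5.le, (le_self_pow₀ h5.le two_ne_zero).trans (h4.trans_le ?_), fun _ => h5,
    .le_trans ?_ (by simpa using h5.inv one_pos)⟩
  · exact (inv_anti₀ h1 (le_add_of_nonneg_left h0)).trans_eq (inv_inv R)
  · rw [← one_div, le_div_iff₀ h3, mul_right_comm, ← pow_two, h4, inv_mul_le_one₀ h2]
    exact le_add_of_nonneg_right h1.le

/-- Spatial derivatives are uniformly close to their values at the origin. -/
theorem Core.dd_unif (s : Core M C' T Jν J A' Z) {R : ℝ*} {z : Fin g → ℂ} (hz : ∀ j, z j ∈ s.K)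
    {lam : J → Fin g → ℂ} (hl : ∀ l, Near (fun j => s.dr (z j) l / ofR R) (lam l)) :
    ∃ δ, 0 ≤ δ ∧ Ll δ 1 ∧ ∀ l j x, Pt x →
      nm (ev x (dd (.inr l) (xt s.ι (z j))) / ofR R - co (lam l j)) ≤ δ := by
  obtain ⟨D, h1, h2⟩ := s.exists_D
  have h3 : ∀ l j, ∃ c, Ll c 1 ∧
      Le (cn (ofR R)⁻¹ * dd (.inr l) (xt s.ι (z j)) - cn (co (lam l j))) c := fun l j =>
    exists_le_ll fun x hx => by
      have h4 := hl l j
      have h5 := (hl l).lc j
      have h6 := (h1 l).2.1 _ (hz j)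
      simp only [Core.dr, h2 _ (hz j), xt_of_mem _ h6, ev_smul] at h4 h5
      rw [mul_div_right_comm] at h4 h5
      rw [map_sub, map_mul, ev_cn, ev_cn, h2 _ (hz j), xt_of_mem _ h6, ev_smul, ← mul_assoc,
        inv_mul_eq_div]
      refine near_trans ?_ h4
      rw [← mul_sub, map_mul]
      rw [map_mul] at h5
      exact ((s.stab.ll Pt.zero hx Pt.zero _ |> near_symm).mul_left (nm.nonneg _)).trans_lc h5
        zero_le_one
  choose c h3 h4 using h3
  refine ⟨∑ l, ∑ j, c l j, Finset.sum_nonneg fun l _ => Finset.sum_nonneg fun j _ => (h4 l j).nonneg,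
    .sum zero_le_one fun l _ => .sum zero_le_one fun j _ => h3 l j, fun l j x hx => ?_⟩
  have h5 := h4 l j x hx
  rw [map_sub, map_mul, ev_cn, ev_cn, inv_mul_eq_div] at h5
  exact h5.trans ((Finset.single_le_sum (fun j _ => (h4 l j).nonneg) (Finset.mem_univ j)).trans
    (Finset.single_le_sum (f := fun l => ∑ j, c l j)
      (fun l _ => Finset.sum_nonneg fun j _ => (h4 l j).nonneg) (Finset.mem_univ l)))

/-- The reduced logarithm on `B` is almost linear on a slowly infinite box. -/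
theorem Core.gf_prep (s : Core M C' T Jν J A' Z) (hA : A.Btw A' A'' Z) {R : ℝ*} (hR : 1 ≤ R)
    (hR' : Poly T R) (hne : A'' ≠ A' → Ll 1 R) {lam : J → Fin g → ℂ}
    (hl : ∀ l, Near (fun j => s.dr (A.pr (A.rel A'' A') M.z j) l / ofR R) (lam l)) :
    ∃ (a : ℝ*) (s₁ : Core M C' T Jν J A' Z) (φ : _) (h : _) (L : Fin g → MvPolynomial Jν Cs)
      (w₀ : Fin g → ℂ), 1 ≤ a ∧ a ≤ R ∧ (A'' ≠ A' → Ll 1 a) ∧ s.Ref (a / R) s₁ φ h ∧ s₁.c = s.c ∧
      s₁.K = s.K ∧ s₁.row = s.row ∧ (∀ l, s₁.ρ l = ofR (a / R) * s.ρ l) ∧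
      (∀ l, φ (.inr l) = cn (ofR (a / R)) * xc (.inr l)) ∧
      (∀ α, A.Lat (A.rel A'' A') fun k => (L k).coeff α) ∧ w₀ ∈ A.rel A'' A' ∧
      (∀ x, Pt x → Near (fun k => ev x (wB M s₁.ι s₁.n (A.rel A'' A') L k) -
        ofR a * ∑ l, x (.inr l) * co (lam l k)) w₀) ∧
      ∀ x, Pt x → ∀ l, Near (fun k =>
        ev x (dd (.inr l) (wB M s₁.ι s₁.n (A.rel A'' A') L k)) / ofR a) (lam l) := by
  have hB := hA.1.rel s.btw.1
  have hBZ := (A.rel_le A'' A').trans hA.2.2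
  obtain ⟨δ, d1, d2, d3⟩ := s.dd_unif (s.zK hB hBZ) hl
  obtain ⟨a, a1, a2, a3, a4⟩ := exists_radius hR hne d1 d2
  have a5 : 0 < a := one_pos.trans_le a1
  have r1 : 0 < R := one_pos.trans_le hR
  obtain ⟨s₁, φ, h, L, δ', p1, p2, p3, p4, p5, p6, p7, p8, p9, p10, p11⟩ :=
    s.prep hA (η := a / R) ((not_tiny s.inf (div_pos a5 r1).le).2 ⟨div_pos a5 r1,
      .of_le (by rw [inv_div]; exact div_le_self r1.le a1) hR'⟩) ((div_le_one r1).2 a2)
  have a6 : ofR a ≠ 0 := (map_ne_zero _).2 a5.ne'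
  have h1 : ∀ x, Pt x → ∀ l k, nm (ev x (dd (.inr l) (wB M s₁.ι s₁.n (A.rel A'' A') L k)) / ofR a -
      co (lam l k)) ≤ δ := fun x hx l k => by
    refine le_of_eq_of_le ?_ (d3 l k _ (p1.maps x hx))
    rw [wB, map_sub (dd _), dd_aeval_nuv, sub_zero, p1.ι _ (s.zK hB hBZ k), p1.dd_inr]
    simp only [p6, ← Algebra.smul_def (A := H (Jν ⊕ J)), ← algebraMap_eq_cn, Derivation.map_smul,
      dd_xc, Sum.inr.injEq, smul_ite, smul_zero, mul_ite, mul_zero, Finset.sum_ite_eq',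
      Finset.mem_univ, if_true, map_mul, ev_smul, map_one, mul_one, ev_pull p1.maps hx, map_div₀]
    congr 2
    field_simp
  refine ⟨a, s₁, φ, h, L, fun k => stc (ev 0 (wB M s₁.ι s₁.n (A.rel A'' A') L k)), a1, a2, a3, p1,
    p2, p3, p4, p5, p6, p7, ?_, fun x hx k => ?_, fun x hx l k => .le_trans (h1 x hx l k) d2⟩
  · exact St.closed (wB_mem hB s₁.k0K s₁.id (s₁.zK hB hBZ) s₁.n p7 0) (near_of_lc p8)
      (Submodule.closed_of_finiteDimensional _)
  let y : Jν ⊕ J → Cs := Sum.elim (fun i => x (.inl i)) 0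
  have hy : Pt y := Sum.rec (fun i => hx _) fun l => Pt.zero (Sum.inr l : Jν ⊕ J)
  have h2 : ∀ x, Pt x → ev x (wB M s₁.ι s₁.n (A.rel A'' A') L k -
      ofR a • ∑ l, co (lam l k) • xc (.inr l)) = ev x (wB M s₁.ι s₁.n (A.rel A'' A') L k) -
        ofR a * ∑ l, x (.inr l) * co (lam l k) := fun x hx => by
    simp only [map_sub, ev_smul, map_sum, ev_xc hx, mul_comm]
  have h3 := mean_value (g := wB M s₁.ι s₁.n (A.rel A'' A') L k -
      ofR a • ∑ l, co (lam l k) • xc (.inr l)) (c := fun _ => a * δ)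
    (Sum.rec (fun i => .inl rfl) fun l => .inr fun x hx => by
      simp only [map_sub, Derivation.map_smul, map_sum, dd_xc, Sum.inr.injEq, smul_ite, smul_zero,
        Finset.sum_ite_eq', Finset.mem_univ, if_true, ev_smul, map_one, mul_one]
      refine le_of_eq_of_le ?_ (mul_le_mul_of_nonneg_left (h1 x hx l k) a5.le)
      rw [← nm_ofR_of_nonneg a5.le, ← map_mul, nm_ofR_of_nonneg a5.le, mul_sub,
        mul_div_cancel₀ _ a6]) hy hx
  rw [h2 x hx, h2 y hy] at h3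
  simp only [y, Sum.elim_inr, Pi.zero_apply, zero_mul, Finset.sum_const_zero, mul_zero,
    sub_zero] at h3
  refine near_trans (.le_trans h3 (.sum zero_le_one fun i _ => a4.mul_one ?_ (nm.nonneg _)))
    (near_trans (.le_trans (p11 k _ hy fun _ => rfl) (p10.ll s.inf)) (near_stc (p8 k)))
  exact .le_trans (nm.sub_le_add _ _) (.add (.of_le (hx i).le) (.of_le (hy i).le))

end Pool.Agent.P.MP_f17f76_ag
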