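import Pool.Agent.P.MP_f17f76_ag.S.GfB
import Pool.Agent.P.MP_f17f76_ag.S.Step

/-!
The basis clause after the main step, by exchange.
-/

namespace Pool.Agent.P.MP_f17f76_ag

open Module Set Matrix E N Vf Filter

variable {g N : ℕ} {A : AbVar g N} {M : Model A} {C' : Sub g} {T : ℝ*} {Jν J : Type}
  [Fintype Jν] [Fintype J] [DecidableEq Jν] [DecidableEq J] {A' Z A'' Z'' : Sub g}

/-- Vectors whose scaled images are near independent vectors are independent. -/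
theorem li_near {ι : Type} [Fintype ι] {K : Subfield ℂ} (e : K →+* Cs) {v p : ι → Fin g → ℂ}
    (hv : ∀ i k, v i k ∈ K) {c : ι → Cs} (h : ∀ i, Near (fun k => c i * xt e (v i k)) (p i))
    (hp : LinearIndependent ℂ p) : LinearIndependent ℂ v := by
  choose u hu using fun i => vec_surj fun k => c i * xt e (v i k)
  have h1 : LinearIndependent Cs fun i => N.vec (u i) :=
    Fintype.linearIndependent_iff.2 fun a ha i => by
      obtain ⟨α, rfl⟩ := vec_surj a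
      have h2 := (tendsto_pi_nhds.2 fun i => near_vec.1 ((hu i).symm ▸ h i)).eventually
        hp.eventually
      have h3 : ∀ᶠ n in UF, ∑ i, α n i • u i n = (0 : ℕ → Fin g → ℂ) n := vec_eq.1 (by
        rw [N.vec_zero, ← ha]
        funext k
        simp only [N.vec, Finset.sum_apply, Pi.smul_apply, smul_eq_mul, ← map_mul, ← map_sum]
        exact congrArg qs (funext fun n => by simp))
      exact qs_eq_zero.2 ((h2.and h3).mono fun n hn =>
        Fintype.linearIndependent_iff.1 hn.1 _ hn.2 i)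
  refine (linearIndependent_algebraMap_comp_iff (S := ℂ)
    (v := fun i k => (⟨v i k, hv i k⟩ : K))).2 (Fintype.linearIndependent_iff.2 fun a ha i => ?_)
  have h2 : ∀ i, c i ≠ 0 := fun i e => h1.ne_zero i (by rw [hu]; funext k; simp [e])
  have := Fintype.linearIndependent_iff.1 h1 (fun i => e (a i) / c i) (funext fun k => by
    simp only [hu, Finset.sum_apply, Pi.smul_apply, smul_eq_mul, ← mul_assoc,
      div_mul_cancel₀ _ (h2 _), xt_of_mem e (hv _ _), ← map_mul, ← map_sum]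
    exact (congrArg e (by simpa using congrFun ha k)).trans (map_zero e)) i
  simpa [h2] using this

/-- The logarithmic derivative along a derivation that is represented by a vector field. -/
theorem dl_dd {V : Type} [Fintype V] [DecidableEq V] {k K : Subfield ℂ} (h : A.Over k) (hk : k ≤ K)
    {ι : K →+* H V} (hid : ∀ a ∈ k, xt ι a = cn (co a)) {D : Der ℂ} (hD : D ∈ kil (k : Set ℂ))
    (h6 : ∀ a ∈ K, D a ∈ K) {l : V} {ρ : Cs} (hρ : ρ ≠ 0)
    (h7 : ∀ a ∈ K, dd l (xt ι a) = xt ι (D a) * cn ρ) {p : Fin g → ℂ} {i : Fin N}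
    (hi : A.θ p i ≠ 0) (hb : ∀ j, A.aff i p j ∈ K) {w : Fin g → H V} {s : H V} (hs : IsUnit s)
    (h3 : ∀ j, xt ι (A.aff i p j) = s * thH A w j) (a : Fin g) :
    xt ι (A.dl p D a) = cn ρ⁻¹ * dd l (w a) := by
  have h8 : ∀ f : H V, ∑ l', (Pi.single l (cn ρ⁻¹) : V → H V) l' * dd l' f = cn ρ⁻¹ * dd l f :=
    fun f => by simp [Pi.single_apply]
  obtain ⟨c, c', h9, ⟨h10, rfl⟩, h11⟩ := dl_H A h hD
    (fun c f => c ∈ K ∧ xt ι c = f) (fun c hc => ⟨hk hc, hid c hc⟩)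
    (fun _ _ _ _ h h' => ⟨add_mem h.1 h'.1, h.2 ▸ h'.2 ▸ xt_add ι h.1 h'.1⟩)
    (fun _ _ _ _ h h' => ⟨mul_mem h.1 h'.1, h.2 ▸ h'.2 ▸ xt_mul ι h.1 h'.1⟩) (inv_ne_zero hi) hs
    (Pi.single l (cn ρ⁻¹)) (fun j => ⟨hb j, h3 j⟩) fun a => ⟨h6 _ (hb a), by
      rw [h8, ← h3, h7 _ (hb a), mul_left_comm, ← map_mul, inv_mul_cancel₀ hρ, map_one, mul_one]
      rfl⟩
  have h13 := (h11 a).2
  rwa [xt_mul ι h10 (by simpa [h9] using mul_mem (inv_mem h10) (h11 a).1), h8,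
    mul_right_inj' (Xt.ne ι h10 h9)] at h13

/-- The basis clause after the main step, by exchange. -/
theorem Core.gf_basis (s : Core M C' T Jν J A' Z) (hA : A.Btw A' A'' Z) (_hZ : A.IsLie Z'')
    (_hZ' : Z ≤ Z'') {L' L : Sub g} {w₀ x₀ : Fin g → ℂ} {σ : ℂ} {b : Blk g} {k r d lo : ℕ}
    {n : Fin k → Fin g → ℂ} {μ : Fin k → ℕ} {m : Fin g → ℕ} {K₄ : Subfield ℂ} {e' : K₄ →+* Cs}
    {t : Fin r → ℂ} {i : Fin N} {D : Fin r → Der ℂ} {τ : Fin r → Fin g → ℂ}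
    (o : GfO M (A.rel A'' A') L' L w₀ T σ b n μ m ((ev 0).comp s.ι) d lo e' t i x₀ D τ)
    (hK : K₄ = acl ((s.K : Set ℂ) ∪ insert σ (M.qs Z'' A''))) (hn : ∀ l j, n l j ∈ s.c)
    (hn' : ∀ l, n l ∈ A.du Z'') {I : Finset J} {lam : J → Fin g → ℂ} {a : ℝ*}
    (ha : ∀ l ∈ I, Ll 1 a)
    (hl : ∀ l ∈ I, Near (fun j => s.dr (A.pr (A.rel A'' A') M.z j) l / ofR a) (lam l))
    (_hρ : ∀ l ∈ I, nm (s.ρ l) = a) (hL : L' = Submodule.span ℂ (lam '' I))
    (hc : I.card + r = finrank ℂ (A.rel A'' A')) (X : Der ℂ) (hX : X ∈ kil (insert σ (s.c : Set ℂ)))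
    (h1 : ∀ l ∉ I, X (s.row l ⬝ᵥ M.z) = 0) (h2 : ∀ l, X (n l ⬝ᵥ M.z) = 0)
    (h3 : dv (A.pr A'' M.z) X = A.dl (A.pr A'' M.w) X) : X ∈ kil (M.qs Z'' A'') := by
  have hB := hA.1.rel s.btw.1
  have k0 := s.k0_le.trans s.c_le
  have k1 : s.K ≤ K₄ := hK ▸ acl_ul _ _
  have k2 : insert σ (M.qs Z'' A'') ⊆ K₄ := hK ▸ acl_ur _ _
  have k3 : acl (K₄ : Set ℂ) = K₄ := by rw [hK, acl_acl]
  have k4 : ∀ j, gfY M σ n μ t j ∈ K₄ := by
    rintro (_ | l | j)
    · exact k2 (.inl rfl)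
    · exact mul_mem (pow_mem (k2 (.inl rfl)) _) (A.dot_pr (hn' l) M.z ▸ dot_mem
        (fun j => k1 (s.c_le (hn l j))) fun j => k2 (.inr (.inl ⟨j, rfl⟩)))
    · exact o.mem j
  have k5 : ∀ j, A.crd (A.pr (A.rel A'' A') M.w) j ∈ K₄ := fun j => k3.le
    (M.ov.crd_pr_le hB (A.rel_le _ _) ((k0.trans k1).trans k3.ge)
      (fun _ h => k3.ge (k2 (.inr (.inr h)))) ⟨j, rfl⟩)
  have k6 : ∀ j, A.aff i (A.pr (A.rel A'' A') M.w) j ∈ K₄ := fun j =>
    A.aff_eq_crd _ _ ▸ mul_mem (inv_mem (k5 i)) (k5 j)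
  have k7 := s.z_mem hB ((A.rel_le _ _).trans hA.2.2)
  have k8 : (s.K : Set ℂ) ∪ range (gfY M σ n μ t) ⊆ K₄ := union_subset k1 (range_subset_iff.2 k4)
  obtain ⟨ι', -, -, a1, a2, a3, w, u, a4, a5⟩ := o.new hB s.inf k1 k0 k4 k6 s.pg s.stab rfl s.id
    (fun j => stab_cn (o.poly s.inf j).1) fun j => ev_cn _ _
  obtain ⟨D₀, b1, b2⟩ := s.exists_D
  obtain ⟨φ, c1, c2, c3⟩ := exists_form ι' one_ne_zero
  choose D' b3 using fun l : J => exists_der_form ι' ((AddMonoidHom.mulLeft (cn (s.ρ l)⁻¹)).comp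
    (dd (Sum.inr l : Jν ⊕ J)).toLinearMap.toAddMonoidHom) (fun a b => by simp; ring) φ c1
  replace b3 : ∀ l, ∀ a ∈ K₄, D' l a = φ (cn (s.ρ l)⁻¹ * dd (.inr l) (xt ι' a)) := b3
  have b4 : ∀ l, ∀ a ∈ s.K, D' l a = D₀ l a := fun l a ha => by
    rw [b3 l a (k1 ha), a1 a ha, b2 a ha, Algebra.smul_def, algebraMap_eq_cn, ← mul_assoc,
      ← map_mul, inv_mul_cancel₀ (s.rho_ne l), map_one, ← a1 _ ((b1 l).2.1 a ha), mul_comm,
      c1 _ (k1 ((b1 l).2.1 a ha)), c3, mul_one]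
  have b5 : ∀ l j, D' l (gfY M σ n μ t j) = 0 := fun l j => by simp [b3 l _ (k4 j), a2]
  have b6 : ∀ l, ∀ a ∈ K₄, D' l a ∈ K₄ := fun l a ha => b3 l a ha ▸ c2 _
  have b7 : ∀ l, D' l ∈ kil (s.c : Set ℂ) := fun l a ha =>
    (b4 l a (s.c_le ha)).trans ((b1 l).1 a ha)
  have b8 := fun l a => dl_dd M.ov (k0.trans k1) (fun a ha => (a1 a (k0 ha)).trans (s.id a ha))
    (kil_anti s.k0_le (b7 l)) (b6 l) (s.rho_ne l) (fun a => dd_gen ι' k8 o.alg (b6 l) (.inr l) _ (by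
      rintro c (hc | ⟨c, rfl⟩)
      · rw [a1 c hc, b2 c hc, b4 l c hc, a1 _ ((b1 l).2.1 c hc), Algebra.smul_def, mul_comm]
        rfl
      · rw [a2, b5, dd_cn, xt_zero, zero_mul])) o.ch' k6
    (isUnit_of_ne fun x hx => (a4 x hx).2.2) a5 a
  have b9 : ∀ j, ∀ a ∈ K₄, D j a ∈ K₄ := fun j a ha => k3.le (der_mem_acl (k8.trans k3.ge) (by
    rintro c (hc | ⟨c, rfl⟩)
    · exact ((o.dual j).1 c hc).symm ▸ zero_mem _
    · rw [(o.dual j).2]
      split_ifs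
      exacts [one_mem _, zero_mem _]) (o.alg ha))
  have d1 := fun l => M.ov.dl_mem_field (kil_anti s.k0_le (b7 l)) (k0.trans k1) k5
    fun j => b6 l _ (k5 j)
  have d2 := li_near e' (v := Sum.elim (fun l : I => dv (A.pr (A.rel A'' A') M.z) (D' l) -
      A.dl (A.pr (A.rel A'' A') M.w) (D' l)) fun j => A.dl (A.pr (A.rel A'' A') M.w) (D j))
    (p := Sum.elim (fun l : I => lam l) τ) (c := Sum.elim (fun l => s.ρ l / ofR a) 1)
    (Sum.rec (fun l j => sub_mem (b6 l _ (k1 (k7 j))) (d1 l j)) fun j =>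
      M.ov.dl_mem_field (kil_anti k0 (o.dual j).1) (k0.trans k1) k5 fun j' => b9 j _ (k5 j'))
    (Sum.rec (fun l => (hl l l.2).of_ll fun j => by
      obtain ⟨c, e1, e2⟩ := exists_le_ll (g := w j - cn (co (x₀ j))) fun x hx => by
        simpa [evv] using (a4 x hx).2.1 j
      have e3 := e2.cauchy_zero (.inr l)
      rw [map_sub, dd_cn, sub_zero, two_mul] at e3
      have e4 := (ha l l.2).pos
      simp only [Sum.elim_inl, Pi.sub_apply, dv_apply]
      rw [xt_sub _ (b6 l _ (k1 (k7 j))) (d1 l j), ← a3, ← a3, b8, b4 l _ (k7 j),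
        a1 _ ((b1 l).2.1 _ (k7 j)), Core.dr, b2 _ (k7 j), ev_smul, map_mul, ev_cn, mul_sub,
        div_mul_eq_mul_div, sub_sub_cancel_left, map_neg_eq_map, div_mul_eq_mul_div,
        mul_inv_cancel_left₀ (s.rho_ne l), map_div₀, nm_ofR_of_nonneg e4.le, ll_div e4]
      exact (Ll.le_trans e3 (e1.add e1)).trans (ha l l.2))
      fun j => by simpa using o.tan j)
    (linearIndependent_iff_card_le_finrank_span.2 (by
      rw [Fintype.card_sum, Fintype.card_coe, Fintype.card_fin, hc]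
      refine Submodule.finrank_mono (o.trans.trans_eq ?_)
      rw [hL, Set.Sum.elim_range, Submodule.span_union, image_eq_range]
      rfl))
  have hX0 := kil_anti (subset_insert _ _) hX
  have f1 : ∀ a, (X - (∑ l : I, X (s.row l ⬝ᵥ M.z) • D' l + ∑ j, X (t j) • D j)) a =
      X a - (∑ l : I, X (s.row l ⬝ᵥ M.z) * D' l a + ∑ j, X (t j) * D j a) := fun a => by
    rw [Derivation.sub_apply, Derivation.add_apply, der_sum_apply, der_sum_apply]
  have f2 := sub_mem hX0 (add_mem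
    (sum_mem fun (l : I) (_ : l ∈ Finset.univ) => Submodule.smul_mem _ (X (s.row l ⬝ᵥ M.z)) (b7 l))
    (sum_mem fun j (_ : j ∈ Finset.univ) =>
      Submodule.smul_mem _ (X (t j)) (kil_anti s.c_le (o.dual j).1)))
  have f3 : ∀ U, A.IsLie U → U ≤ A'' → dv (A.pr U M.z) X = A.dl (A.pr U M.w) X := fun U e1 e2 => by
    have e3 := kil_anti s.k0_le hX0
    rw [← A.pr_pr_of_le e2, M.ov.dv_pr e1 e3, h3, ← M.ov.dl_pr e3 e1, A.pr_pr_of_le e2]
  have f4 := s.basis _ f2 (fun l => by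
    simp only [f1, b4 _ _ (s.y_mem l), (b1 _).2.2.1, (o.dual _).1 _ (s.y_mem l), mul_zero,
      Finset.sum_const_zero, add_zero, mul_ite, mul_one]
    rw [Finset.sum_coe_sort I fun l' => if l' = l then X (s.row l' ⬝ᵥ M.z) else 0]
    by_cases e : l ∈ I <;> simp [e, h1]) (by
    have e1 := s.z_mem s.btw.1 s.btw.2.2
    have e2 := s.a_mem s.btw.1 le_rfl
    simp only [map_sub, map_add, map_sum, map_smul, f3 _ s.btw.1 hA.2.1]
    congr 2 <;> refine Finset.sum_congr rfl fun l _ => congrArg _ ?_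
    · rw [← sub_add_cancel (D' l) (D₀ l), map_add, map_add, (b1 l).2.2.2,
        dv_eq_zero.2 (forall_mem_range.2 fun j => sub_eq_zero.2 (b4 l _ (e1 j))),
        A.dl_eq_zero (D := D' l - D₀ l)
          (forall_mem_range.2 fun j => sub_eq_zero.2 (b4 l _ (e2 j)))]
    · rw [dv_eq_zero.2 (forall_mem_range.2 fun j => (o.dual l).1 _ (e1 j)),
        A.dl_eq_zero (forall_mem_range.2 fun j => (o.dual l).1 _ (e2 j))])
  have f5 := kil_le o.alg ((kil_union _ _).ge ⟨kil_le s.hK.le ((kil_union _ _).ge ⟨f2, f4⟩),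
    forall_mem_range.2 fun j => by
      simp only [f1, b5, (o.dual _).2]
      rcases j with _ | l | j
      · simpa [gfY] using hX σ (.inl rfl)
      · simp [gfY, h2, hX σ (.inl rfl)]
      · simp [gfY]⟩)
  have f6 := Fintype.linearIndependent_iff.1 d2
    (Sum.elim (fun l => X (s.row l ⬝ᵥ M.z)) fun j => -X (t j)) (by
      have e1 := dv_eq_zero.2 (kil_anti (range_subset_iff.2 fun j => k1 (k7 j)) f5)
      have e2 := A.dl_eq_zero (kil_anti (range_subset_iff.2 k5) f5)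
      simp only [map_sub, map_add, map_sum, map_smul, f3 _ hB (A.rel_le _ _),
        dv_eq_zero.2 (forall_mem_range.2 fun j => (o.dual _).1 _ (k7 j)), smul_zero,
        Finset.sum_const_zero, add_zero, sub_eq_zero] at e1 e2
      simp only [Fintype.sum_sum_type, Sum.elim_inl, Sum.elim_inr, smul_sub, neg_smul,
        Finset.sum_sub_distrib, Finset.sum_neg_distrib, ← e1, e2]
      abel)
  intro c hc
  have := f5 c (k2 (.inr hc))
  simpa [f1, show ∀ l : I, X (s.row l ⬝ᵥ M.z) = 0 from fun l => f6 (.inl l),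
    show ∀ j, X (t j) = 0 from fun j => neg_eq_zero.1 (f6 (.inr j))] using this

end Pool.Agent.P.MP_f17f76_ag
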