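import Pool.Agent.P.MP_f17f76_ag.S.GfC
import Pool.Agent.P.MP_f17f76_ag.S.GfE
import Pool.Agent.P.MP_f17f76_ag.S.GfL
import Pool.Agent.P.MP_f17f76_ag.S.GfP
import Pool.Agent.P.MP_f17f76_ag.S.GfX
import Pool.Agent.P.MP_f17f76_ag.S.Fam
import Pool.Agent.P.MP_f17f76_ag.E.Fam1

/-!
The main step.
-/

namespace Pool.Agent.P.MP_f17f76_ag

open Module Set Matrix E N MvPolynomial

variable {g N : ℕ} {A : AbVar g N} {M : Model A} {C' : Sub g} {T : ℝ*} {Jν J : Type}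
  [Fintype Jν] [Fintype J] [DecidableEq Jν] [DecidableEq J] {A' Z A'' Z'' : Sub g}

theorem Core.dr_le (s : Core M C' T Jν J A' Z) (a : ℂ) (l : J) :
    Lc (nm (s.dr a l)) (nm (ev 0 (xt s.ι a))) := by
  by_cases h : a ∈ s.K ∧ a ≠ 0
  · rw [Core.dr, xt_of_mem _ h.1]
    exact ((s.stab _ fun e => h.2 (congrArg Subtype.val e)).dd one_half_lt_one
      (fun _ => by simp) _).lc
  · have : xt s.ι a = 0 := by
      rcases not_and_or.1 h with h | h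
      exacts [dif_neg h, not_not.1 h ▸ Xt.zero _]
    simpa [Core.dr, this] using Lc.zero 0

/-- The last part of the main step, after the standard parameters have been adjoined. -/
theorem Core.gf_fin (s : Core M C' T Jν J A' Z) (hA : A.Btw A' A'' Z) (hZ : A.IsLie Z'')
    (hZ' : Z ≤ Z'') {κ : Sub g → ℕ} {T₀ S : Set ℂ} {w₀ x₀ : Fin g → ℂ} {σ : ℂ} {b : Blk g}
    {k r d lo : ℕ} {n : Fin k → Fin g → ℂ} {μ : Fin k → ℕ} {m : Fin g → ℕ} {K₄ : Subfield ℂ}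
    {e' : K₄ →+* Cs} {t : Fin r → ℂ} {i : Fin N} {D : Fin r → Der ℂ} {τ : Fin r → Fin g → ℂ}
    {I : Finset J} {lam : J → Fin g → ℂ} (gi : GfI M κ Z Z'' T₀ S σ b n μ m)
    (o : GfO M (A.rel A'' A') (Submodule.span ℂ (lam '' I)) (Submodule.span ℂ (range lam)) w₀ T σ b
      n μ m ((ev 0).comp s.ι) d (lo + 1) e' t i x₀ D τ)
    (hK : K₄ = acl ((s.K : Set ℂ) ∪ insert σ (M.qs Z'' A'')))
    (hS : ∀ a ∈ acl ((M.k0 : Set ℂ) ∪ S), a ∈ s.Std)
    (hf : Free ((M.k0 : Set ℂ) ∪ M.qs C' C') (M.qs ⊤ ⊤) (acl (insert σ (s.c : Set ℂ)))) {a : ℝ*}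
    (ha : 1 ≤ a) (ha' : Poly T a) (hne : A'' ≠ A' → Ll 1 a) (hI : ∀ l ∈ I, A'' ≠ A')
    (hρ : ∀ l ∈ I, nm (s.ρ l) = a) (hc : I.card + r = finrank ℂ (A.rel A'' A'))
    (count : Fintype.card ({l // l ∉ I} ⊕ Fin k) + finrank ℂ A'' = M.H Z'' A'')
    {L : Fin g → MvPolynomial Jν Cs} (hL : ∀ α, A.Lat (A.rel A'' A') fun k => (L k).coeff α)
    (h1 : ∀ x, Pt x → Near (fun k => ev x (wB M s.ι s.n (A.rel A'' A') L k) -
      ofR a * ∑ l, x (.inr l) * co (lam l k)) w₀)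
    (h2 : ∀ x, Pt x → ∀ l, Near (fun k =>
      ev x (dd (.inr l) (wB M s.ι s.n (A.rel A'' A') L k)) / ofR a) (lam l))
    {e₀ : ℝ*} (he₀ : Ll e₀ 1) :
    ∃ (e : ℝ*) (s' : Core M C' T Jν ({l // l ∉ I} ⊕ Fin k) A'' Z'') (φ : _) (b : Blk g),
      e₀ ≤ e ∧ Ll e 1 ∧ s.Ref (e / a) s' φ 1 ∧
      (∀ l, s'.row (.inl l) = s.row l ∧ nm (s'.ρ (.inl l)) = e / a * nm (s.ρ l)) ∧
      b.Ok M κ Z Z'' ∧ s'.Has b (range .inr) (d + 1) ∧ ∀ j, T ^ lo ≤ b.r j := by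
  have hT := s.inf
  have lB := hA.1.rel s.btw.1
  have a0 := one_pos.trans_le ha
  have k1 : s.K ≤ K₄ := hK ▸ acl_ul _ _
  have k2 : σ ∈ K₄ := hK ▸ acl_ur _ _ (mem_insert _ _)
  have k3 : M.qs Z'' A'' ⊆ K₄ := hK ▸ (subset_insert _ _).trans (acl_ur _ _)
  have k4 : acl (K₄ : Set ℂ) = K₄ := by rw [hK, acl_acl]
  have k5 := s.k0K.trans k1
  have k6 : ∀ U, A.IsLie U → U ≤ Z'' → ∀ j, A.pr U M.z j ∈ K₄ := fun U hU h j => by
    rw [← A.pr_pr_of_le h]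
    exact M.ov.pr_mem hU k5 (fun i => k3 (.inl ⟨i, rfl⟩)) j
  have k7 : ∀ j, A.crd (A.pr (A.rel A'' A') M.w) j ∈ K₄ := fun j => k4.le (M.ov.crd_pr_le lB
    (A.rel_le _ _) (k5.trans k4.ge) (subset_union_right.trans (k3.trans k4.ge)) ⟨j, rfl⟩)
  have n1 : ∀ l j, n l j ∈ s.Std := fun l j => hS _ (acl_le gi.sub (gi.mem l j))
  have n2 : ∀ l, n l ∈ A.du Z'' := fun l => A.du_mono (A.rel_le _ _)
    (gi.ok.fam.le_du (gi.span.le (Submodule.subset_span ⟨l, rfl⟩)))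
  have n3 : ∀ l, n l ⬝ᵥ M.z ∈ K₄ := fun l => A.dot_pr (n2 l) M.z ▸
    sum_mem fun j _ => mul_mem (k1 (s.cK (n1 l j).1)) (k6 _ hZ le_rfl j)
  have n4 : ∀ i j, b.G⁻¹ i j ∈ s.Std := fun i j =>
    hS _ (gi.sub (.inl (inv_mem_sub gi.ok.mem i j)))
  have zB := s.zK lB ((A.rel_le _ _).trans hA.2.2)
  obtain ⟨e, ey, φ, p, ι', u, c1, c2, c3, c4, c5, c6, c7, c8, c9, c10, c11, c12, c13, c14, c15⟩ :=
    gf_core o lB hT k1 k4 s.k0K (by
      rintro (_ | l | j)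
      exacts [k2, mul_mem (pow_mem k2 _) (n3 l), o.mem j]) (fun j => by
        rw [A.aff_eq_crd]
        exact mul_mem (inv_mem (k7 _)) (k7 j)) s.pg s.stab s.id
      (fun x _ => wB_mem lB s.k0K s.id zB s.n hL x) ha
      (or_iff_not_imp_left.2 fun e => hne (mt (A.rel_eq_bot_iff hA.2.1).2 e)) rfl rfl hc h1 he₀
  obtain ⟨σ0, σ1⟩ := (not_tiny hT (nm.nonneg _)).1 o.big
  have σ2 := nm.pos_iff.1 σ0
  have σ3 : T ^ (lo + 1) ≤ (nm (xt e' σ))⁻¹ := by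
    rw [← one_div, le_div_iff₀' σ0]
    exact o.small
  have σ4 : 1 ≤ (nm (xt e' σ))⁻¹ := (one_le_pow₀ hT.one_lt.le).trans σ3
  have y1 : 1 ≤ ey * T := by simpa using c2.2.2 1
  have hν : ∀ i, pull φ (nuv J s.n i) = cn (0 : Cs) + (1 : Cs) • nuv _ s.n i := fun i => by
    rw [nuv, pull_smul, pull_xc c4, c5, map_zero, zero_add, one_smul, nuv]
  have d1 : ∀ c ∈ s.Std, xt ι' c = cn (co c) := fun c hc => by
    rw [c10 c (s.cK hc.1), hc.2, pull_cn]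
  have d2 : (s.c : Set ℂ) ⊆ acl (insert σ (s.c : Set ℂ)) := (subset_insert _ _).trans (subset_acl _)
  have d3 : wB M ι' s.n (A.rel A'' A') (fun j => L j + C (u j)) =
      fun j => pull φ (wB M s.ι s.n (A.rel A'' A') L j) - cn (u j) := funext fun j => by
    rw [wB, wB, c10 _ (zB j), map_sub, pull_aeval, map_add, aeval_C, algebraMap_eq_cn, sub_sub]
    simp only [hν, map_zero, zero_add, one_smul]
  have d4 : ¬ Tiny T (e / a) := (not_tiny hT (div_pos c1.1 a0).le).2 ⟨div_pos c1.1 a0, by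
    rw [inv_div, div_eq_mul_inv]
    exact ha'.mul hT c1.poly_inv (inv_pos.2 c1.1).le⟩
  have d5 : ∀ j : ℕ, nm (ofR ey * (xt e' σ)⁻¹ ^ j) = ey * (nm (xt e' σ))⁻¹ ^ j := fun j => by
    rw [map_mul, map_pow, map_inv₀, nm_ofR_of_nonneg c2.1.le]
  obtain ⟨s', r1, r2, r3, r4, -, r5, r6⟩ := s.step ⟨hA.1, hA.2.1, hA.2.2.trans hZ'⟩ hZ hZ' ι' c4
    posZ_one (ν₀ := 0) (fun _ => zero_mem _) s.npos s.nlo s.nhi hν
    (Fld.of_acl (s.fld.cnt.insert σ) d2) hf (by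
      rw [hK, s.hK]
      refine acl_congr (union_subset (acl_le (union_subset (d2.trans (acl_ul _ _)) (M.ov.qq_le
        (Subset.trans s.k0c (d2.trans (acl_ul _ _))) s.lie s.btw.1 hZ' hA.2.1 (acl_ur _ _))))
        (insert_subset (acl_ul _ _ (subset_acl _ (mem_insert _ _))) (acl_ur _ _)))
        (union_subset (acl_le (insert_subset (acl_ur _ _ (mem_insert _ _))
          ((acl_ul _ _).trans (acl_ul _ _)))) ((subset_insert _ _).trans (acl_ur _ _))))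
    c10 (cst_acl ι' k4 (insert_subset k2 (s.cK.trans k1)) (forall_mem_insert.2 ⟨⟨_, c11⟩,
      fun c hc => (s.cst c hc).imp fun _ h => by rw [c10 c (s.cK hc), h, pull_cn]⟩)) c8 c9
    (L := fun j => L j + C (u j)) (fun α => by
      simp only [coeff_add, coeff_C]
      refine AbVar.Lat.add (hL α) (y := fun j => if 0 = α then u j else 0) ?_
      split_ifs
      exacts [c14, AbVar.lat_zero]) (w₀ := x₀) (fun x hx => d3 ▸ (c15 x hx).1)
    (fun x hx => by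
      simpa only [xt_comp, d3] using AbVar.Exp.of_aff ((ev x).comp ι') o.ch' k7
        (by simpa only [xt_comp] using (c15 x hx).2))
    (row := Sum.elim (fun l => s.row l) n)
    (ρ := Sum.elim (fun l => ofR (e / a) * s.ρ l) fun l => ofR ey * (xt e' σ)⁻¹ ^ μ l)
    (Sum.forall.2 ⟨fun l => A.du_mono hZ' (s.du l), n2⟩)
    (Sum.forall.2 ⟨fun l j => ⟨d2 (s.std l j).1, d1 _ (s.std l j)⟩,
      fun l j => ⟨d2 (n1 l j).1, d1 _ (n1 l j)⟩⟩)
    (Sum.forall.2 ⟨fun l => by simpa only [← c10 _ (s.rowK _), Sum.elim_inl] using s.coord_aff c4 hν (c6 l),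
      fun l => ⟨C (xt e' (σ ^ μ l * (n l ⬝ᵥ M.z)) * (xt e' σ)⁻¹ ^ μ l), by
        have := c12 l
        rw [Xt.mul ι' (pow_mem k2 _) (n3 l), Xt.pow ι' k2, c11, ← map_pow] at this
        rw [Sum.elim_inr, Sum.elim_inr, aeval_C, algebraMap_eq_cn, Algebra.smul_def,
          algebraMap_eq_cn, map_mul, map_mul, mul_right_comm, ← add_mul, ← this, mul_right_comm,
          ← map_mul, ← mul_pow, mul_inv_cancel₀ σ2, one_pow, map_one, one_mul]⟩⟩)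
    (Sum.forall.2 ⟨fun l => by
      rw [Sum.elim_inl, map_mul, nm_ofR_of_nonneg (div_pos c1.1 a0).le]
      exact not_tiny_mul hT d4 (s.rho l), fun l h => by
      rw [Sum.elim_inr, d5] at h
      exact (h.of_le hT (le_mul_of_one_le_right c2.1.le (one_le_pow₀ σ4))).not_poly hT c2.1
        c2.poly_inv⟩)
    (fun X hX h3 => s.gf_basis hA hZ hZ' o hK (fun l j => (n1 l j).1) n2
      (fun l hl => hne (hI l hl)) (fun l _ => by
        simpa only [wB, map_sub, dd_aeval_nuv, sub_zero, Core.dr] using h2 0 .zero l) hρ rfl hc X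
      (kil_anti (subset_acl _) hX) (fun l hl => h3 (.inl ⟨l, hl⟩)) fun l => h3 (.inr l))
    count c7
  have r7 : range (s'.row ∘ Sum.inr) = range n := by rw [r5]; rfl
  refine ⟨e, s', φ, { b with r := fun j => ey * (nm (xt e' σ))⁻¹ ^ m j }, c3, c1.2.1, r1,
    fun l => ⟨congrFun r5 _, by
      rw [r6, Sum.elim_inl, map_mul, nm_ofR_of_nonneg (div_pos c1.1 a0).le]⟩,
    ⟨gi.ok.eq, gi.ok.fam, gi.ok.fld, gi.ok.free, gi.ok.det, gi.ok.mem⟩,
    ⟨fun i j => ⟨r2 ▸ d2 (n4 i j).1, (r4 _).trans (d1 _ (n4 i j))⟩, ?_,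
      by rw [← range_comp, r7, gi.span], ?_, fun j l => ?_, fun j => ?_⟩, fun j => ?_⟩
  · rintro _ ⟨l, rfl⟩
    rw [r5]
    exact gi.mem l
  · rintro _ ⟨l, rfl⟩ j h
    rw [r5] at h
    rw [r6, Sum.elim_inr, d5]
    exact .of_le (mul_le_mul_of_nonneg_left (pow_le_pow_right₀ σ4 (gi.low l j h)) c2.1.le)
  · have h3 : (b.G⁻¹ *ᵥ A.pr b.B M.z) j ∈ K₄ := K₄.sum_mem (t := Finset.univ) fun i _ =>
      mul_mem (k1 (s.cK (n4 j i).1))
        (k6 b.B (gi.ok.eq ▸ hZ.rel s.lie) (gi.ok.eq ▸ A.rel_le _ _) i)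
    have h4 := o.bd j
    rw [Xt.mul e' (pow_mem k2 _) h3, Xt.pow e' k2, map_mul, map_pow,
      ← le_inv_mul_iff₀ (pow_pos σ0 _), ← inv_pow] at h4
    refine ((s'.dr_le _ l).trans (r4 _ ▸ c13 _)).trans_le (h4.trans ?_)
    calc _ = T ^ d * 1 * (nm (xt e' σ))⁻¹ ^ m j := by ring
      _ ≤ T ^ d * (ey * T) * (nm (xt e' σ))⁻¹ ^ m j :=
        mul_le_mul_of_nonneg_right (mul_le_mul_of_nonneg_left y1 (pow_pos hT.pos _).le)
          (pow_pos (inv_pos.2 σ0) _).le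
      _ = _ := by ring
  · exact (σ1.pow (inv_pos.2 σ0).le _).of_le
      (mul_le_of_le_one_left (pow_pos (inv_pos.2 σ0) _).le c2.2.1.le)
  · calc T ^ lo = 1 * T ^ lo := (one_mul _).symm
      _ ≤ ey * T * T ^ lo := mul_le_mul_of_nonneg_right y1 (pow_pos hT.pos _).le
      _ = ey * T ^ (lo + 1) := by ring
      _ ≤ _ := mul_le_mul_of_nonneg_left (σ3.trans (le_self_pow₀ σ4 (gi.pos j).ne')) c2.1.le

theorem s_gf (gfa : S_GFA) : S_GF := by
  intro g N A M C' X C1 C T Jν J _ _ _ _ A' Z s κ A'' Z'' I R t _ hA hZ fam ineq e1 e2 G hR hR' hne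
    hfr
  have hT := s.inf
  have R0 := one_pos.trans_le hR
  obtain ⟨lam, l1, l2, l3, l4, l5, l6, l7⟩ := s.gf_lam hA G hR (fun h => (hne h).1) hfr
  obtain ⟨a, s₁, φ₁, h₁, L, w₀, a1, a2, a3, r₁, p1, p2, p3, p4, p5, p6, p7, p8, p9⟩ :=
    s.gf_prep hA hR hR' (fun h => (hne h).1) l1
  have a0 := one_pos.trans_le a1
  have c1 : (((ev 0).comp s₁.ι).fieldRange : Set Cs).Countable := by
    have := s₁.cntK.to_subtype
    exact countable_range _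
  obtain ⟨S, σ, b, k, r, n, μ, m, gi, hr, H⟩ := gfa M C' A' A'' Z Z'' κ s₁.c s₁.K
    (Submodule.span ℂ (lam '' I)) (Submodule.span ℂ (range lam)) w₀
    ((s₁.c : Set ℂ) ∪ M.qs ⊤ ⊤ ∪ Pst.res ((ev 0).comp s₁.ι).fieldRange) s.tight
    ⟨s.btw.1, s.btw.2.1, hA.2.1⟩ hA ⟨s.lie, hA.2.2, hZ.2.1⟩ hZ.1 s₁.fld s₁.free s₁.hK fam ineq e1 e2
    (Submodule.span_mono (image_subset_range _ _)) (Submodule.span_le.2 (range_subset_iff.2 l2)) l7
    p7 (by rw [l4, l5]) l6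
    ((s₁.fld.cnt.union (M.finite_qs _ _).countable).union (Plc.countable_res c1))
  obtain ⟨s₃, r₃, q1, q2, q3, q4, q5, q6, q7⟩ :=
    s₁.grow gi.cnt (gi.free.mono (subset_insert _ _) (acl_ur _ _))
  obtain ⟨d, H⟩ := H s₃.K _ T ((ev 0).comp s₃.ι) q2 rfl hT s₃.pg
    fun c hc => by rw [xt_comp, q4 c hc, ev_cn]
  refine ⟨k, d + 1, fun lo e₀ he₀ => ?_⟩
  obtain ⟨e', t, i, x₀, D, τ, o⟩ := H (lo + 1)
  have w1 : wB M s₃.ι s₃.n (A.rel A'' A') L = wB M s₁.ι s₁.n (A.rel A'' A') L := funext fun j => by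
    rw [wB, wB, q5, q3 _ (s₁.zK (hA.1.rel s.btw.1) ((A.rel_le _ _).trans hA.2.2) j)]
  have w2 : ∀ l, nm (s₃.ρ l) = a / R * nm (s.ρ l) := fun l => by
    rw [q7, p4, map_mul, nm_ofR_of_nonneg (div_pos a0 R0).le]
  have w3 : ∀ c ∈ acl ((M.k0 : Set ℂ) ∪ S), c ∈ s₃.Std := fun c hc => ⟨q1.ge
    (acl_le (union_subset (Subset.trans s₁.k0c (acl_ul _ _)) (acl_ur _ _)) hc), q4 c hc⟩
  have w4 := free_more s₁.free gi.free (acl_ul _ _) (union_subset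
    (Subset.trans s₁.k0c (subset_acl _)) ((M.qs_kq C').trans
      (Subset.trans s₁.fld.le (subset_acl _)))) (subset_union_left.trans (acl_ur _ _))
  have w5 : acl (insert σ (s₃.c : Set ℂ)) ≤ acl ((s₁.c : Set ℂ) ∪ insert σ S) :=
    acl_le (insert_subset (acl_ur _ _ (mem_insert _ _))
      (q1.le.trans (acl_mono (union_subset_union_right _ (subset_insert _ _)))))
  have w6 : Fintype.card ({l // l ∉ I} ⊕ Fin k) + finrank ℂ A'' = M.H Z'' A'' := by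
    have h1 := s.count
    have h2 := gi.ok.fam.finrank hZ.1 hZ.2.1
    have h3 := gi.card
    have h4 := Finset.card_le_univ I
    rw [Fintype.card_sum, Fintype.card_fin, Fintype.card_subtype_compl, Fintype.card_coe]
    unfold Model.Eqn at e1 e2
    omega
  obtain ⟨e, s', φ, b', f1, f2, f3, f4, f5⟩ := s₃.gf_fin hA hZ.1 hZ.2.1 gi o rfl w3
    (w4.mono subset_rfl (Subset.trans w5 (acl_ur _ _))) a1 (hR'.of_le a2) a3 l3
    (fun l hl => by rw [w2, G.rho l hl, div_mul_cancel₀ _ R0.ne']) (by omega) w6 p6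
    (by rwa [w1]) (by rwa [w1]) he₀
  have h1 := (r₁.comp r₃ (div_pos a0 R0).le fun l l' x _ => by
    rw [p5, ← algebraMap_eq_cn, ← Algebra.smul_def, Derivation.map_smul, dd_xc, ev_smul, map_mul,
      nm_ofR_of_nonneg (div_pos a0 R0).le]
    split_ifs
    · simpa using Lc.refl _
    · simpa using Lc.zero _).comp f3 (by positivity) fun l l' x _ => by
    rw [p5, map_mul, pull_cn, pull_xc r₃.maps, ← algebraMap_eq_cn, ← Algebra.smul_def,
      Derivation.map_smul, dd_xc, ev_smul, map_mul, nm_ofR_of_nonneg (div_pos a0 R0).le]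
    split_ifs
    · simpa using Lc.refl _
    · simpa using Lc.zero _
  rw [show a / R * 1 * (e / a) = e / R by field_simp] at h1
  exact ⟨e, s', _, _, b', f1, f2, h1, fun l => ⟨by rw [(f4 l).1, q6, p3], by
    rw [(f4 l).2, w2]
    field_simp⟩, f5⟩

end Pool.Agent.P.MP_f17f76_ag
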