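import Pool.Agent.P.MP_f17f76_ag.S.Fam
import Pool.Agent.P.MP_f17f76_ag.E.FamRig
import Pool.Agent.P.MP_f17f76_ag.E.HgcDef

/-!
Nondegeneracy of the objects that occur in the main loop.
-/

namespace Pool.Agent.P.MP_f17f76_ag

open Set Module E AbVar

variable {g N : ℕ} {A : AbVar g N} {k E₀ : Subfield ℂ} {F F' c : Set ℂ} {b : Fin g → ℂ}
  {B G L L' U Q C C' C₀ C1 Nn a a' y y' : Sub g} {ι ι' : Type} {θ : ι → Fin g → ℂ}
  {θ' : ι' → Fin g → ℂ} {κ : Sub g → ℕ}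

namespace AbVar

theorem pair_of_inf (hθ : LinearIndependent ℂ θ)
    (h : ann (A.tan F b) ⊓ Submodule.span ℂ (range θ) = ⊥) : A.Pair F b θ := fun c => by
  obtain ⟨v, hv⟩ := exists_dot hθ c
  have h1 : v ∈ A.tan F b ⊔ ann (Submodule.span ℂ (range θ)) := by
    rw [← ann_ann (A.tan F b), ← ann_inf, h, ann_bot]
    trivial
  obtain ⟨_, ⟨D, hD, rfl⟩, x, hx, rfl⟩ := Submodule.mem_sup.1 h1
  refine ⟨D, hD, funext fun j => ?_⟩
  rw [← hv j, dotProduct_add, dotProduct_comm _ x, hx _ (Submodule.subset_span ⟨j, rfl⟩), add_zero,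
    pv_apply]

theorem Pair.inf_eq_bot (h : A.Pair F b θ) :
    ann (A.tan F b) ⊓ Submodule.span ℂ (range θ) = ⊥ := by
  refine eq_bot_iff.2 fun u hu => dotProduct_eq_zero _ fun v => ?_
  obtain ⟨D, hD, e⟩ := h fun j => θ j ⬝ᵥ v
  rw [← dot_span (congrFun e) hu.2]
  exact hu.1 _ ⟨D, hD, rfl⟩

theorem Pair.finrank_con_le (h : A.Pair F b θ) (hU : U ≤ B)
    (hL : ann L ⊓ A.du B ≤ Submodule.span ℂ (range θ)) :
    finrank ℂ (A.con F b U) ≤ finrank ℂ (L.map (A.pr U)) := by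
  have h1 := finrank_inf_ge (ann (A.tan F b)) (Submodule.span ℂ (range θ)) (A.du U)
  have h2 := A.finrank_ann_inf_du L U
  have h3 : finrank ℂ (ann L ⊓ A.du U : Sub g) ≤
      finrank ℂ (Submodule.span ℂ (range θ) ⊓ A.du U : Sub g) :=
    Submodule.finrank_mono (le_inf ((inf_le_inf_left _ (A.du_mono hU)).trans hL) inf_le_right)
  rw [h.inf_eq_bot, finrank_bot, finrank_du] at h1
  rw [con]
  omega

/-- A conormal space with small rank function pairs with the annihilator of `L`. -/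
theorem Over.pair_of_rk [Finite ι] (h : A.Over k) (hF : F.Countable) (hF' : F'.Countable)
    (hk : (k : Set ℂ) ⊆ acl F) (hf : E.Free F (range (A.crd b)) F') (hB : A.IsLie B)
    (hθ : LinearIndependent ℂ θ) (hm : ∀ j i, θ j i ∈ acl (F ∪ F'))
    (hL : ∀ j, θ j ∈ ann L ⊓ A.du B)
    (hr : ∀ U, A.IsLie U → U ≤ B → finrank ℂ (A.con F b U) ≤ finrank ℂ (L.map (A.pr U))) :
    A.Pair (F ∪ F') b θ := by
  have h0 : Submodule.span ℂ (range θ) ≤ ann L ⊓ A.du B :=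
    Submodule.span_le.2 (range_subset_iff.2 hL)
  obtain ⟨U, h1, h2, h3⟩ := h.lov_finrank h.isGen hF hF' hk hf
    (ov_span (forall_mem_range.2 hm)) hB
  have h4 := hr U h1 h2
  have h5 := A.finrank_ann_inf_du L U
  have h6 : finrank ℂ (Submodule.span ℂ (range θ) ⊓ A.du U : Sub g) ≤
      finrank ℂ (ann L ⊓ A.du U : Sub g) :=
    Submodule.finrank_mono (inf_le_inf_right _ (h0.trans inf_le_left))
  refine pair_of_inf hθ ?_
  rw [A.tan_free hf, ← inf_eq_right.2 (h0.trans inf_le_right), ← inf_assoc]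
  exact Submodule.finrank_eq_zero.1 (by rw [← con]; omega)

/-- A pairing with the annihilator of `L` gives a pairing with the annihilator of an independent
space `L'` whose projections are not smaller. -/
theorem Pair.swap [Finite ι'] (hp : A.Pair F b θ) (h : A.Over k) (hF : F.Countable)
    (hF' : F'.Countable) (hk : (k : Set ℂ) ⊆ acl F) (hf : E.Free F (range (A.crd b)) F')
    (hB : A.IsLie B) (hL : ann L ⊓ A.du B ≤ Submodule.span ℂ (range θ))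
    (hθ : LinearIndependent ℂ θ') (hm : ∀ j i, θ' j i ∈ acl (F ∪ F'))
    (hL' : ∀ j, θ' j ∈ ann L' ⊓ A.du B) (hr : ∀ U, A.IsLie U → U ≤ B →
      finrank ℂ (L.map (A.pr U)) ≤ finrank ℂ (L'.map (A.pr U))) : A.Pair (F ∪ F') b θ' :=
  h.pair_of_rk hF hF' hk hf hB hθ hm hL' fun U h1 h2 =>
    (hp.finrank_con_le h2 hL).trans (hr U h1 h2)

theorem map_pr_of_mem (h : L ≤ B) : L.map (A.pr B) = L :=
  le_antisymm (by
    rintro _ ⟨x, hx, rfl⟩
    rwa [A.pr_of_mem (h hx)]) fun x hx => ⟨x, hx, A.pr_of_mem (h hx)⟩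

theorem map_pr_rel (h : L ≤ A.perp a) (h' : a ≤ Q) : L.map (A.pr (A.rel Q a)) = L.map (A.pr Q) :=
  Submodule.ext fun _ => exists_congr fun x => and_congr_right fun hx => by
    rw [A.pr_eq_pr_rel h' (h hx)]

theorem card_add_finrank [Fintype ι] (hθ : LinearIndependent ℂ θ)
    (hs : Submodule.span ℂ (range θ) = ann L ⊓ A.du B) (h : L ≤ B) :
    Fintype.card ι + finrank ℂ L = finrank ℂ B := by
  rw [← finrank_span_eq_card hθ, hs, ← A.finrank_ann_inf_du L B, map_pr_of_mem h]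

/-- The projections of a conjugate subspace have the same dimensions. -/
theorem Over.finrank_map_cj (h : A.Over k) {σ : ℂ ≃+* ℂ} (hσ : ∀ x ∈ k, σ x = x)
    (hU : A.IsLie U) (L : Sub g) :
    finrank ℂ ((cj σ L).map (A.pr U)) = finrank ℂ (L.map (A.pr U)) := by
  have h1 := A.finrank_ann_inf_du L U
  have h2 := A.finrank_ann_inf_du (cj σ L) U
  rw [← cj_ann, ← (h.ov_du hU).cj_eq hσ, ← cj_inf, finrank_cj] at h2
  omega

end AbVar

namespace Model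

variable {M : Model A}

theorem Fam.rigid (f : M.Fam κ y y' E₀ Nn) (ly : A.IsLie y) (ly' : A.IsLie y') :
    E.Fam M.k0 E₀ ⊤ Nn := by
  obtain ⟨kb, b, h1, -, rfl, rfl, -⟩ := f
  have := M.fld.isAlgClosed
  exact M.ov.rig_con h1.le h1.cnt b (ly'.rel ly)

/-- Nondegeneracy for the step `(a, y) → (a', y')`. -/
theorem Fam.ndg [Fintype ι] (f : M.Fam κ y y' E₀ Nn) (hC : M.Tight C') (ha : A.Btw C' a a')
    (la' : A.IsLie a') (hy : A.Btw C' y y') (ly' : A.IsLie y') (e : M.Eqn κ a y)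
    (e' : M.Eqn κ a' y') (hi : ∀ Qa Q, A.Btw a Qa a' → A.Btw y Q y' → M.Ineq κ Qa Q)
    (hc : c.Countable) (hk : (M.kq C' : Set ℂ) ⊆ acl c)
    (hf : E.Free (M.kq C' : Set ℂ) (M.qs y' a') c)
    (hE : E.Free (M.k0 : Set ℂ) E₀ (c ∪ M.qs y' a')) (hL : L ≤ A.rel a' a)
    (h₁ : κ a + Module.finrank ℂ L ≤ κ a')
    (h₂ : ∀ Q, A.Btw a Q a' → κ Q ≤ κ a + Module.finrank ℂ (L.map (A.pr Q)))
    (hθ : LinearIndependent ℂ θ) (hs : Submodule.span ℂ (range θ) = ann L ⊓ A.du (A.rel a' a))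
    (hm : ∀ j i, θ j i ∈ acl (c ∪ M.qs y a)) :
    A.Ndg Nn (c ∪ M.qs y a) (A.pr (A.rel y' y) M.z) (A.pr (A.rel a' a) M.w) θ := by
  obtain ⟨n, n1, -, n2⟩ := (f.ov hy.1 ly').exists_basis
  have k0 : (M.k0 : Set ℂ) ⊆ acl c := Subset.trans (M.fld_kq C').le hk
  have k1 := acl_tl k0 (E₀ : Set ℂ)
  have q1 : ∀ {Q Qa}, A.IsLie Q → A.IsLie Qa → Q ≤ y' → Qa ≤ a' →
      M.qs Q Qa ⊆ acl (c ∪ M.qs y' a') := fun h1 h2 h3 h4 => M.ov.qq_le' k0 h1 h2 h3 h4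
  have hH : ∀ Q Qa, A.Btw y Q y' → A.Btw a Qa a' →
      M.H Q Qa = Module.finrank ℂ C' + trd c (M.qs Q Qa) := fun Q Qa h1 h2 =>
    M.H_free hC (hy.2.1.trans h1.2.1) (ha.2.1.trans h2.2.1) hk (hf.acl_left.mono
      (M.ov.qq_le' (M.fld_kq C').sub h1.1 h2.1 h1.2.2 h2.2.2) (acl_ur _ _))
  have sp := fun Qa (h : A.Btw a Qa a') => f.fm.mu_spec (a := Qa) n1 n2 hc k0 hy.1 ly' hy.2.2 h.1
    (hE.mono subset_rfl (acl_tr (union_subset (acl_ul _ _) (q1 ly' h.1 le_rfl h.2.2)) _))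
  have ba := Btw.left ha.1 ha.2.2
  have ba' := Btw.right la' ha.2.2
  have by₀ := Btw.left hy.1 hy.2.2
  have by₁ := Btw.right ly' hy.2.2
  have lo : ∀ Qa, A.Btw a Qa a' → Module.finrank ℂ Nn + Module.finrank ℂ Qa + κ y ≤
      M.mu (c ∪ E₀) n y y' Qa + Module.finrank ℂ C' + κ Qa := fun Qa h => by
    obtain ⟨-, -, Q, h1, h2⟩ := sp Qa h
    have h3 := hi Qa Q h h1
    have h4 := f.rk h1
    rw [Ineq, hH Q Qa h1 h] at h3
    omega
  have m1 := (sp a ba).1 y by₀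
  have m2 := lo a ba
  have m3 := hH y a by₀ ba
  have m4 := hH y' a' by₁ ba'
  have m5 := f.finrank ly' hy.2.2
  rw [rk_self] at m1
  rw [Eqn] at e e'
  -- the values of the rows are independent
  have i1 : Ind (c ∪ E₀ ∪ M.qs y a) fun l => n l ⬝ᵥ A.pr (A.rel y' y) M.z := by
    refine trd_range_eq_iff.1 (le_antisymm (trd_range_le _) ?_)
    have h1 := trd_union (F := c ∪ E₀) (M.finite_qs y a) (finite_vals (M := M) (n := n) (y := y)
      (y' := y'))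
    have h2 := trd_anti (M.finite_qs y a) (acl_ul c E₀)
    rw [← mu, vals] at h1
    rw [Fintype.card_fin]
    omega
  -- the pairing over the values of the rows
  have i2 : A.Pair (c ∪ E₀ ∪ (M.qs y a ∪ M.vals n y y') ∪ ∅) (A.pr (A.rel a' a) M.w) θ := by
    refine M.ov.pair_of_rk (L := L) ((hc.union f.fld.cnt).union ((M.finite_qs _ _).union
      finite_vals).countable) countable_empty (acl_tl k1 _) (fun s _ _ => by rw [union_empty])
      (la'.rel ha.1) hθ (fun j i => acl_mono ?_ (hm j i))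
      (fun j => hs.le (Submodule.subset_span ⟨j, rfl⟩)) fun U h1 h2 => ?_
    · exact (union_subset_union subset_union_left subset_union_left).trans subset_union_left
    have h3 : A.Btw a (a ⊔ U) a' :=
      ⟨ha.1.sup h1, le_sup_left, sup_le ha.2.2 (h2.trans (A.rel_le _ _))⟩
    have h4 := A.rel_sup (h2.trans (A.rel_le_perp _ _))
    have h5 := M.ov.finrank_con (acl_tl k1 (M.qs y a ∪ M.vals n y y')) h1 (A.pr (A.rel a' a) M.w)
    have h6 := mu_add (n := n) (y' := y') k1 hy.1 ha.1 h3.1 h3.2.1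
    have h7 := lo _ h3
    have h8 := h₂ _ h3
    have h9 := A.finrank_rel h3.2.1
    rw [← map_pr_rel (hL.trans (A.rel_le_perp _ _)) h3.2.1, h4] at h8
    rw [h4] at h6 h9
    rw [A.pr_pr_of_le h2] at h5
    omega
  refine ndg_of_rows (n := n) n2.ge ?_ fun β γ => ?_
  · have h1 := M.ov.HH_add (z := M.z) (w := M.w) k0 hy.1 ha.1 hy.2.2 ha.2.2
    rw [M.ov.HH_rel (acl_tl k0 _) hy.1 ha.1 ly' la' hy.2.2 ha.2.2 (acl_ur _ _)] at h1
    have h2 := card_add_finrank hθ hs hL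
    have h3 := A.finrank_rel ha.2.2
    simp only [HH, ← qs_eq] at h1
    change trd _ (M.qs _ _) ≤ _
    omega
  · obtain ⟨D₁, h1, h2⟩ := exists_der i1 β
    obtain ⟨D₂, h3, h4⟩ := i2 (γ - A.pv θ _ D₁)
    simp only [kil_union, Submodule.mem_inf] at h1 h3 ⊢
    refine ⟨D₁ + D₂, ⟨add_mem h1.1.1 h3.1.1.1, add_mem h1.2 h3.1.2.1⟩, fun l => ?_, by
      rw [map_add, h4, add_sub_cancel]⟩
    rw [← der_dot_of fun i => (add_mem h1.1.2 h3.1.1.2 : D₁ + D₂ ∈ kil _) _ (n1 l i),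
      Derivation.add_apply, h2 l, h3.1.2.2 _ ⟨l, rfl⟩, add_zero]

/-- The object of the step `(a, y) → (a', y')`. -/
theorem Fam.isOb [Fintype ι] [DecidableEq ι] (f : M.Fam κ y y' E₀ Nn) (hC : M.Tight C')
    (ha : A.Btw C' a a') (la' : A.IsLie a') (hy : A.Btw C' y y') (ly' : A.IsLie y')
    (e : M.Eqn κ a y) (e' : M.Eqn κ a' y')
    (hi : ∀ Qa Q, A.Btw a Qa a' → A.Btw y Q y' → M.Ineq κ Qa Q)
    (hc : c.Countable) (hk : (M.kq C' : Set ℂ) ⊆ acl c)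
    (hf : E.Free (M.kq C' : Set ℂ) (M.qs y' a') c)
    (hE : E.Free (M.k0 : Set ℂ) E₀ (c ∪ M.qs y' a')) (hL : L ≤ A.rel a' a)
    (h₁ : κ a + Module.finrank ℂ L ≤ κ a')
    (h₂ : ∀ Q, A.Btw a Q a' → κ Q ≤ κ a + Module.finrank ℂ (L.map (A.pr Q)))
    (hθ : LinearIndependent ℂ θ) (hs : Submodule.span ℂ (range θ) = ann L ⊓ A.du (A.rel a' a))
    (hm : ∀ j i, θ j i ∈ acl (c ∪ M.qs y a)) :
    Hgc.IsOb A ⟨M.k0, E₀, ⊤, Nn, acl (c ∪ M.qs y a), A.pr (A.rel y' y) M.z,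
      A.pr (A.rel a' a) M.w, θ⟩ := by
  have k0 : (M.k0 : Set ℂ) ⊆ acl c := Subset.trans (M.fld_kq C').le hk
  exact ⟨M.ov, f.rigid hy.1 ly', f.fld.cnt, acl_tl k0 _,
    ⟨countable_acl (hc.union (M.finite_qs _ _).countable), inferInstance⟩, hm,
    (hE.mono subset_rfl (acl_tr (union_subset (acl_le (union_subset (acl_ul _ _)
      (M.ov.qq_le' k0 hy.1 ha.1 hy.2.2 ha.2.2))) (M.ov.qq_le' k0 (ly'.rel hy.1) (la'.rel ha.1)
        (A.rel_le _ _) (A.rel_le _ _))) _)).symm,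
    (f.ndg hC ha la' hy ly' e e' hi hc hk hf hE hL h₁ h₂ hθ hs hm).congr_base subset_rfl
      ((subset_acl _).trans (subset_acl _))⟩

/-- An absorption step keeps the maximiser. -/
theorem Eqn.abs (e : M.Eqn κ a y) (la : A.IsLie a) (ly : A.IsLie y) (hU : A.IsLie U) (h : a ≤ U)
    (hκ : κ U = κ a) (i : M.Ineq κ U y) : M.Eqn κ U y := by
  have := M.H_le_right ly la hU h
  simp only [Eqn, Ineq] at *
  omega

/-- The chain with one step. -/
theorem Tight.exists_chain (hC : M.Tight C) (h₀ : A.IsLie C₀) (hle : C₀ ≤ C) :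
    ∃ ch : M.Chain C, ch.m = 1 ∧ ch.U 0 = C₀ ∧ (∀ j, ch.U (j + 1) = C) ∧ (∀ Q, A.Btw C₀ Q C →
      ch.κ Q + M.H C Q + finrank ℂ C₀ = M.H C C₀ + finrank ℂ Q) ∧
        ∃ E₀ Nn, M.Fam ch.κ C₀ C E₀ Nn := by
  obtain ⟨κ, hκ⟩ : ∃ κ : Sub g → ℕ, ∀ Q, A.Btw C₀ Q C →
      κ Q + M.H C Q + finrank ℂ C₀ = M.H C C₀ + finrank ℂ Q :=
    ⟨fun Q => M.H C C₀ + finrank ℂ Q - (M.H C Q + finrank ℂ C₀), fun Q hQ => by
      have := M.H_le_right hC.1 h₀ hQ.1 hQ.2.1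
      dsimp only
      omega⟩
  have h1 : ∀ Q, A.Btw C₀ Q C → M.Eqn κ Q C := fun Q hQ => by
    have h1 := hκ Q hQ
    have h2 := hκ C (.right hC.1 hle)
    rw [hC.2] at h2
    rw [Eqn]
    omega
  have h2 : ∀ j : ℕ, C₀ ≤ Nat.casesOn j C₀ fun _ => C := by
    rintro (_ | j)
    exacts [le_rfl, hle]
  refine ⟨⟨1, fun j => Nat.casesOn j C₀ fun _ => C, κ, ?_, ?_, ?_, fun j Q₁ Q₂ h h' => ?_,
    fun j Qa Q h h' => ?_, fun j => h1 C (.right hC.1 hle), fun j a a' Z h h' hZ _ =>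
      ⟨C, .right hC.1 hZ.2.2, h1 _ (h'.mono ((h2 j).trans h.2.1) le_rfl)⟩⟩, rfl, rfl,
    fun _ => rfl, hκ, ?_⟩
  · rintro (_ | j)
    exacts [h₀, hC.1]
  · rintro (_ | j)
    exacts [hle, le_rfl]
  · rintro (_ | j) h
    · omega
    · rfl
  · obtain rfl := (h.mono le_rfl h'.2.2).eq
    obtain rfl := h'.eq
    exact ⟨_, _, fam_iff.2 ⟨fm_of_set M.fld.cnt M.ksub (zero_mem _), fun Q hQ => by
      rw [hQ.eq, rk_self, add_zero]⟩⟩
  · rw [h'.eq]
    exact (h1 _ (h.mono (h2 j) le_rfl)).le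
  · have k1 := acl_ul (M.k0 : Set ℂ) (M.qs C C₀)
    refine ⟨_, _, fam_iff.2 ⟨fm_of_set (M.fld.cnt.union (M.finite_qs _ _).countable) k1
      (A.pr_mem (A.rel C C₀) M.w), fun Q hQ => ?_⟩⟩
    have h3 := M.ov.rk_con (b := A.pr (A.rel C C₀) M.w) k1 h₀ hQ
    have h4 := M.H_add hC.1 h₀ le_rfl hQ.2.1
    have h5 := hκ Q hQ
    have h6 := hκ C₀ (.left h₀ hle)
    rw [A.pr_pr_of_le (A.rel_mono hQ.2.2 _),
      ← M.ov.HH_rel_right (z := M.z) k1 hC.1 h₀ hQ.1 hQ.2.1 (acl_ur _ _), HH, ← qs_eq] at h3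
    dsimp only
    omega

end Model

end Pool.Agent.P.MP_f17f76_ag
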