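import Pool.Agent.P.MP_f17f76_ag.S.GfA
import Pool.Agent.P.MP_f17f76_ag.S.Ndg
import Pool.Agent.P.MP_f17f76_ag.E.Gf2

/-!
The algebraic half of the main step.
-/

namespace Pool.Agent.P.MP_f17f76_ag

open Module Set Matrix E N AbVar Hgc

variable {g N : ℕ} {A : AbVar g N}

theorem pst_co (p : ℂ) : Pst.v (co p) ≤ 1 ∧ Pst.r (co p) = p :=
  ⟨pst_le.2 (lc_co p), (pst_r (lc_co p)).trans (stc_co p)⟩

theorem E.Free.app {F S T U X : Set ℂ} (h : Free F S T) (h' : Free F U X)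
    (hX : S ∪ T ⊆ acl (F ∪ X)) : Free F (S ∪ U) T :=
  (h.symm.trans ((h'.acl_right.add_base ((subset_union_left.trans hX).trans (acl_ur _ _))).symm.mono
    (subset_union_right.trans hX) (acl_ur _ _))).symm

/-- The embedding is built from the adapted place. -/
theorem gf_out {M : Model A} {B L' L : Sub g} {w₀ : Fin g → ℂ} {T : ℝ*} {σ : ℂ} {b : Blk g}
    {k r : ℕ} {n : Fin k → Fin g → ℂ} {μ : Fin k → ℕ} {m : Fin g → ℕ} {kt K₃ K₄ F : Subfield ℂ}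
    {e : K₃ →+* Cs} {φ : ℂ →+* Cs} {P : Plc ℂ ℂ} {θ : Fin r → Fin g → ℂ} {c : Fin g → ℂ}
    {i : Fin N} {τ : Fin r → Fin N} {d : Fin r → Der ℂ} {y : Fin k → ℂ} (hT : Ll 1 T)
    (hpg : PG T e) (hφ : ∀ x : K₃, φ x = e x) (hK : (K₃ : Set ℂ).Countable) (hA : A.Over kt)
    (hk : kt ≤ K₃) (hθ : ∀ j l, θ j l ∈ kt) (hid : (Pst.comap φ).IdOn kt)
    (hσ : σ ∉ acl (K₃ : Set ℂ)) (hF : F = Subfield.closure (K₃ ∪ {σ}))
    (hy : y = fun l => σ ^ μ l * (n l ⬝ᵥ M.z)) (h1 : (Pst.comap φ).Agree P K₃)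
    (h2 : ∀ x ∈ K₃, x ≠ 0 → P.v σ < P.v x) (h3 : ∀ j, c j ∈ K₃ ∧ c j ≠ 0)
    (h4 : K₄ = acl (F ∪ range (Sum.elim (A.aff i (A.pr B M.w) ∘ τ) y)))
    (hu : ∀ j, σ ^ m j * (b.G⁻¹ *ᵥ A.pr b.B M.z) j ∈ K₄) (hc : A.Crd F y (A.pr B M.w) i τ d)
    (hd : A.Chd P F y (A.pr B M.w) θ (fun j => c j * (σ ^ m j * (b.G⁻¹ *ᵥ A.pr b.B M.z) j)) i τ d)
    (hB : A.IsLie B) (hw : w₀ ∈ B) (l1 : L' ≤ L) (l2 : L ≤ B) (l3 : ∀ H, A.IsLie H → L ≤ H → B ≤ H)
    (l4 : r + finrank ℂ L' ≤ finrank ℂ B)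
    (l5 : ∀ U, A.IsLie U → U ≤ B → finrank ℂ (ann L' ⊓ A.du U : Sub g) ≤
      finrank ℂ (Submodule.span ℂ (range θ) ⊓ A.du U : Sub g)) :
    ∃ d₀ : ℕ, ∀ lo : ℕ, ∃ (e' : K₄ →+* Cs) (t : Fin r → ℂ) (i : Fin N) (x₀ : Fin g → ℂ)
      (D : Fin r → Der ℂ) (τ : Fin r → Fin g → ℂ),
      GfO M B L' L w₀ T σ b n μ m e d₀ lo e' t i x₀ D τ := by
  have hKF : K₃ ≤ F := fun x hx => hF ▸ Subfield.subset_closure (Or.inl hx)
  have hσF : σ ∈ F := hF ▸ Subfield.subset_closure (Or.inr rfl)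
  have hF4 : F ≤ K₄ := h4 ▸ acl_ul _ _
  have hY : ∀ o, Sum.elim (A.aff i (A.pr B M.w) ∘ τ) y o ∈ K₄ := fun o =>
    h4 ▸ acl_ur _ _ ⟨o, rfl⟩
  have hFc : (F : Set ℂ).Countable := hF ▸ countable_closure (hK.union (countable_singleton σ))
  have hq := fun j => mul_mem (hF4 (hKF (h3 j).1)) (hu j)
  obtain ⟨C, hC, hC', hs⟩ := hd.sign hc hA (hk.trans hKF) hθ hK hF
    (fun e => hσ (e ▸ zero_mem _)) h2 (h4 ▸ hq)
  have hp : ∀ x ∈ K₃, Poly T (nm (φ x⁻¹)) := fun x hx => hφ ⟨_, inv_mem hx⟩ ▸ hpg _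
  obtain ⟨d₀, hd₀⟩ := Poly.unif hT fun j => hp _ (h3 j).1
  have := hC.to_subtype
  obtain ⟨d₁, hd₁⟩ := Poly.unif hT fun x : C => hp _ (hC' x x.2).1
  refine ⟨d₀ + 1, fun lo => ?_⟩
  set l : Cs := ofR (T ^ (lo + d₁ + 1))⁻¹ with hl
  set Fs := Subfield.closure (φ '' K₃ ∪ {l})
  have hFs : (Fs : Set Cs).Countable := countable_closure ((hK.image _).union (countable_singleton _))
  have hlF : l ∈ Fs := Subfield.subset_closure (Or.inr rfl)
  have hφF : φ '' K₃ ⊆ Fs := subset_union_left.trans Subfield.subset_closure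
  obtain ⟨s₀, hs₀⟩ := exists_ind (Plc.countable_res (P := Pst) hFs) Unit
  have hT0 := pow_pos hT.pos (lo + d₁ + 1)
  have hg : Pst.Gauss Fs (co ∘ s₀) := ⟨fun _ => (pst_co _).1, by
    rwa [show Pst.r ∘ co ∘ s₀ = s₀ from funext fun _ => (pst_co _).2]⟩
  obtain ⟨e₄, h6, h7⟩ := exists_equiv_ind mk_Cs.symm φ hK (ind_const.2 hσ)
    (ind_const.2 fun h : l * co (s₀ ()) ∈ _ => hg.ind.notMem () (by
      have := mul_mem (inv_mem (subset_acl _ hlF)) (acl_mono hφF h)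
      rwa [inv_mul_cancel_left₀ ((map_ne_zero _).2 (inv_ne_zero hT0.ne'))] at this))
  have n1 : nm (e₄ σ) * T ^ (lo + d₁ + 1) = ‖s₀ ()‖ := by
    rw [h7 (), map_mul, nm_ofR_of_nonneg (inv_pos.2 hT0).le, nm_co, mul_right_comm,
      inv_mul_cancel₀ hT0.ne', one_mul]
  have n2 : Ll (nm (e₄ σ) * T ^ (lo + d₁)) 1 := fun a => le_of_mul_le_mul_right (by
    rw [mul_assoc, mul_assoc, ← pow_succ, n1, one_mul]
    simpa using (lc_coe ‖s₀ ()‖).trans_ll hT a) hT.pos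
  set Q := Pst.comap (e₄ : ℂ →+* Cs)
  have h8 : (Pst.comap φ).Agree Q K₃ := fun x hx => by
    rw [Plc.comap_le_one, Plc.comap_le_one, Plc.comap_r, Plc.comap_r, RingHom.coe_coe,
      h6 x (subset_acl _ hx)]
    exact ⟨Iff.rfl, rfl⟩
  have hT1 : (Pst.res Fs ∪ range s₀ ∪ gens L' : Set ℂ).Countable :=
    ((Plc.countable_res hFs).union (countable_range _)).union (finite_gens _).countable
  obtain ⟨W, hW⟩ := exists_ind ((Plc.countable_res (P := Q) hFc).union hT1) (Fin r ⊕ Fin k)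
  obtain ⟨Q', h9, h10, h11⟩ := hs Q (h1.symm.trans h8) (fun x hx => by
    have h0 := (map_ne_zero φ).2 (hC' x hx).2
    have h5 := hd₁ ⟨x, hx⟩
    rw [map_inv₀, map_inv₀, inv_le_iff_one_le_mul₀ (nm.pos h0)] at h5
    rw [Plc.comap_lt, RingHom.coe_coe, h6 x (subset_acl _ (hC' x hx).1), pst_lt_iff h0]
    refine Ll.le_trans ?_ (by simpa only [one_mul] using n2.mul_right (nm.nonneg (φ x)))
    rw [mul_assoc]
    exact le_mul_of_one_le_right (nm.nonneg _) (h5.trans (mul_le_mul_of_nonneg_right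
      (hT.pow_le (Nat.le_add_left _ _)) (nm.nonneg _)))) W (hW.anti (acl_ul _ _))
  obtain ⟨s, h12, x, hx, h13, h14, h15, h16, h17⟩ := h11.fin hc hA (hk.trans hKF)
    ((h9.mono (hk.trans hKF)).lifts ((h8.mono hk).lifts hid)) hθ hFc hT1 subset_union_right
    (by rwa [h10, ← h9.res le_rfl]) hB (A.pr_mem _ _) hw l1 l2 l3 (by rwa [Fintype.card_fin]) l5
  have h18 : (Q'.map (s : ℂ →+* ℂ)).Agree Q F := fun x hx => ⟨(h9 x hx).1.symm, by
    rw [Plc.map_r, (h9 x hx).2]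
    exact h12 _ (acl_ul _ _ (Plc.r_mem_res hx))⟩
  obtain ⟨e₅, h19, h20, h21⟩ := ((Plc.map_gauss _).2 h11.gau).real mk_Cs.symm hFc h18
    (Y' := fun o => co (s (W o))) fun o => ⟨(pst_co _).1, by
      rw [(pst_co _).2, Plc.map_r, ← h10]
      rfl⟩
  have h22 : ∀ x ∈ K₄, xt (e₅.comp K₄.subtype) x = e₅ x := fun x hx => xt_of_mem _ hx
  have h23 : ∀ x ∈ K₄, Q'.v x ≤ 1 → Lc (nm (e₅ x)) 1 ∧
      Ll (nm (xt (e₅.comp K₄.subtype) x - co ((Q'.map (s : ℂ →+* ℂ)).r x))) 1 := fun x hx h => by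
    have h5 := h21 x (h4 ▸ hx)
    have h6 := pst_le.1 ((Plc.comap_le_one _).1 (h5.1.1 h))
    rw [h22 x hx, h5.2, Plc.comap_r, pst_r h6]
    exact ⟨h6, near_stc h6⟩
  have h24 : xt (e₅.comp K₄.subtype) σ = e₄ σ := (h22 σ (hF4 hσF)).trans (h19 σ hσF)
  have h25 : ∀ o, xt (e₅.comp K₄.subtype) (gfY M σ n μ (A.aff i (A.pr B M.w) ∘ τ) (some o)) =
      co (s (W o.swap)) := fun o => by
    rw [← h20, ← h22 _ (hY _), hy]
    cases o <;> rfl
  have h26 := h15.chart h13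
  have h27 : ∀ j, A.crd (A.pr B M.w) j ∈ K₄ := h4 ▸ hc.mem
  refine ⟨e₅.comp K₄.subtype, A.aff i (A.pr B M.w) ∘ τ, i, x, d, _, fun a ha => ?_,
    fun j => hY (.inl j), ?_, ⟨Fs, fun o => o.elim l fun _ => 1,
      co ∘ Sum.elim (s ∘ W) s₀ ∘ fun o => o.elim (.inr ()) (.inl ∘ Sum.swap),
      fun c => hφF ⟨c, c.2, hφ c⟩, ?_, ⟨fun _ => (pst_co _).1, ?_⟩, ?_⟩, ?_, fun h => ?_,
    fun o => ⟨_, (map_ne_zero s).2 (hW.ne_zero _), h25 o⟩, fun j => ?_, h13, hc.ne, fun j => ?_,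
    hx, h14, fun j => ⟨kil_anti (Subset.trans hKF subset_union_left) (hc.kil j), ?_⟩,
    fun j a => ?_, h17⟩
  · rw [h22 a (hF4 (hKF ha)), h19 a (hKF ha), RingHom.coe_coe, h6 a (subset_acl _ ha),
      xt_of_mem _ ha, ← hφ]
  · rw [h4, hF]
    refine acl_le (union_subset ((closure_le_acl _).trans (acl_mono (union_subset_union_right _
      (singleton_subset_iff.2 ⟨none, rfl⟩)))) (range_subset_iff.2 fun o => acl_ur _ _
        ⟨some o.swap, ?_⟩))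
    rw [hy]
    cases o <;> rfl
  · rintro (_ | o)
    exacts [hlF, one_mem _]
  · rw [show ∀ v : _ → ℂ, Pst.r ∘ co ∘ v = v from fun v => funext fun _ => (pst_co _).2]
    refine (ind_sum_iff.2 ⟨hs₀, ?_⟩).comp _ ?_
    · rw [← image_fix (φ := s) (F := _ ∪ _) fun x hx => h12 x (acl_ur _ _ (Or.inl hx))]
      exact (ind_map (s : ℂ →+* ℂ)).2 (hW.anti (subset_union_left.trans (acl_ur _ _)))
    · rintro (_ | o) (_ | o') h
      exacts [rfl, (nomatch h), (nomatch h),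
        congrArg some (Sum.swap_leftInverse.injective (Sum.inl.inj h))]
  · rintro (_ | o)
    exacts [h24.trans (h7 ()), (h25 o).trans (one_mul _).symm]
  · rw [h24]
    exact (mul_le_mul_of_nonneg_left (hT.pow_le (Nat.le_add_right _ _)) (nm.nonneg _)).trans n2.le
  · have h5 := h.ll_pow hT (lo + d₁ + 1)
    rw [h24, n1] at h5
    exact hs₀.ne_zero () (norm_le_zero_iff.1 h5.coe_le)
  · have h5 := (h23 _ (hq j) (h11.bd j)).1.trans_ll hT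
    rw [h22 _ (hu j), ← inv_mul_cancel_left₀ (h3 j).2 (σ ^ m j * _), map_mul, map_mul, pow_succ,
      h19 _ (hKF (inv_mem (h3 j).1)), RingHom.coe_coe, h6 _ (subset_acl _ (inv_mem (h3 j).1))]
    exact mul_le_mul (hd₀ j) h5.le (nm.nonneg _) (pow_pos hT.pos _).le
  · exact (h26.2 j).2 ▸ (h23 _ (aff_mem h27 i j) (h11.int j)).2
  · rintro (_ | o | o)
    · exact hc.kil j σ (Or.inl hσF)
    · exact hc.kil j _ (Or.inr ⟨o, congrFun hy o⟩)
    · simpa [gfY] using hc.dual j o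
  · have h5 := (h23 _ (hA.dl_mem_field (kil_anti (Subset.trans (hk.trans hKF) subset_union_left)
      (hc.kil j)) ((hk.trans hKF).trans hF4) h27 (fun o => h4 ▸ hc.pres j _ (hc.mem o)) a)
      (h16 j a)).2
    rwa [Plc.map_r] at h5

theorem s_gfa (hgc : ∀ {g N : ℕ} (A : AbVar g N), S_HGC A)
    (sim : ∀ {g N : ℕ} (A : AbVar g N), A.S_SIM) : S_GFA := by
  intro g N A M C' A' A'' Z Z'' κ c K L' L w₀ T₀ hC hA' hA'' hZ lZ hc hf hK ⟨E₀, N₀, hfam⟩ hi e' e''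
    l1 l2 l3 hw h₁ h₂ hT₀
  set T : Set ℂ := T₀ ∪ (c ∪ M.qs ⊤ ⊤)
  have hT : T.Countable := hT₀.union (hc.cnt.union (M.finite_qs _ _).countable)
  have hB := hA''.1.rel hA'.1
  have k0 : (M.k0 : Set ℂ) ⊆ c := (M.fld_kq C').le.trans hc.le
  obtain ⟨s, hs, f1⟩ := exists_fresh M.fld.cnt (finite_gens L').countable hT
  have hs' : ∀ x ∈ M.k0, s x = x := fun x hx => hs x (subset_acl _ hx)
  set kt := acl (M.k0 ∪ s '' gens L')
  have ckt : (kt : Set ℂ).Countable :=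
    countable_acl (M.fld.cnt.union ((finite_gens _).countable.image _))
  have k1 : M.k0 ≤ kt := acl_ul _ _
  replace f1 : Free (M.k0 : Set ℂ) kt T := f1.acl_left
  have o1 : Ov kt (cj s L') := (ov_gens L' (subset_acl _)).cj fun x hx =>
    acl_mono subset_union_right (map_acl_le s.toRingHom _ ⟨x, hx, rfl⟩)
  have l4 : cj s L' ≤ A.rel A'' A' := (M.ov.ov_lie hB).cj_eq hs' ▸ cj_mono s (l1.trans l2)
  obtain ⟨θ, t1, t2, t3⟩ := (o1.ann.inf ((M.ov.ov_du hB).mono k1)).exists_basis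
  obtain ⟨E₁, Nn, f, f2⟩ := hfam.fresh hZ.1 lZ (hT.union ckt)
  have q1 : ∀ {Q Qa}, A.IsLie Q → A.IsLie Qa → M.qs Q Qa ⊆ acl (c ∪ M.qs ⊤ ⊤) := fun h h' =>
    M.ov.qq_le' (sub_acl k0) h h' le_top le_top
  have ho := f.isOb (c := c ∪ kt) hC hA' hA''.1
    (hZ.mono (hA'.le) le_rfl) lZ e' e'' hi (hc.cnt.union ckt) (acl_tl hc.sub _) (by
      refine ((hf.trans ?_).acl_base.acl_left.mono (M.ov.qq_le' (M.fld_kq C').sub lZ hA''.1 le_top
        le_top) (acl_ur _ _))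
      exact ((f1.mono subset_rfl (subset_union_right.trans (acl_ur _ _))).base
        (k0.trans (acl_ur _ _)) (union_subset (acl_tr (union_subset (sub_acl (k0.trans
          subset_union_left)) (q1 hC.1 hC.1)) _) (subset_union_left.trans (acl_ur _ _)))).symm.mono
        subset_union_right (acl_ur _ _))
    (f2.mono subset_rfl (acl_tr (union_subset (union_subset (sub_acl fun _ h => .inl (.inr (.inl h)))
      (acl_ur _ _)) (acl_tl (acl_tr (q1 lZ hA''.1) _) _)) _)) l4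
    (by rw [finrank_cj, ← h₁, add_comm]) (fun Q hQ => by
      rw [M.ov.finrank_map_cj hs' hQ.1]
      exact h₂ Q hQ) t2 t3 fun j i => acl_ul _ _ (Or.inr (t1 j i))
  obtain ⟨m, hm, hp⟩ := hgc A _ _ _ ho
  obtain ⟨k₁, σ, P, G, b, c1, k2, f3, f4, -, hP⟩ := hp.fresh ho hT
  dsimp only at k2 f3 f4
  obtain ⟨n, pv, had, hn, -⟩ := exists_adapt (k := acl (k₁ ∪ E₁ : Set ℂ)) (Fintype.card_fin _)
    ((f.ov hZ.1 lZ).mono (acl_ur _ _)) ho.fam.gr ⟨hP.gr.det, fun i j => acl_ul _ _ (hP.gr.mem i j),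
      hP.gr.gr⟩ m
  have u1 : (kt : Set ℂ) ⊆ acl (c ∪ kt ∪ M.qs Z A' : Set ℂ) := sub_acl fun _ h => .inl (.inr h)
  have r1 := card_add_finrank t2 t3 l4
  rw [finrank_cj, Fintype.card_fin] at r1
  refine ⟨k₁ ∪ kt ∪ E₁, σ, ⟨A.rel Z'' Z, E₁, k₁, Nn, G, 0⟩, _, _, n, _, m,
    ⟨(c1.cnt.union ckt).union f.fld.cnt, ?_, ⟨rfl, f, ⟨c1.cnt, c1.acl_eq, k2⟩,
      f3.mono subset_rfl (sub_acl fun _ h => .inr (.inl (.inl (.inr h)))), hP.gr.det, hP.gr.mem⟩,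
      acl_tr (sub_acl (union_subset_union_left _ subset_union_left)) _, rfl, hn, had.span,
      fun l j h => not_lt.1 fun e => h (had.low l j e), hm⟩, r1,
    fun K₃ K₄ T e hK₃ hK₄ hT hpg he => ?_⟩
  · refine (((f1.app f2 (sub_acl fun _ h => .inr h.symm)).app f3 (union_subset (union_subset
      (u1.trans (sub_acl fun _ h => .inr (.inl (.inl (.inl h))))) (sub_acl fun _ h =>
        .inr (.inl (.inl (.inr h))))) (sub_acl fun _ h => .inr (.inr h)))).symm.trans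
      (free_single fun h => f4 (acl_le (union_subset (union_subset (sub_acl fun _ h => .inl (.inl
        (.inl (.inl (k2 h))))) (union_subset (union_subset (u1.trans (sub_acl fun _ h => .inl (.inl
          (.inl (.inr h))))) (sub_acl fun _ h => .inl (.inl (.inr h)))) (sub_acl fun _ h => .inl
            (.inl (.inl (.inl h)))))) (acl_ur _ _)) h)).symm).symm.mono ?_
      (subset_union_left.trans (acl_ur _ _))
    rintro x (h | (h | h) | h)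
    exacts [.inr h, .inl (.inr h), .inl (.inl (.inl h)), .inl (.inl (.inr h))]
  have e3 : K₃ = acl (k₁ ∪ acl (c ∪ kt ∪ M.qs Z A' : Set ℂ) ∪ E₁ : Set ℂ) := by
    rw [hK₃, hK, acl_acl_union, union_right_comm _ _ (E₁ : Set ℂ), union_right_comm _ _ (E₁ : Set ℂ),
      acl_union_acl]
    congr 1
    ac_rfl
  have c3 : Cac K₃ := e3 ▸ ⟨countable_acl ((c1.cnt.union ho.cac.cnt).union f.fld.cnt), inferInstance⟩
  have u2 : acl (c ∪ kt ∪ M.qs Z A' : Set ℂ) ≤ K₃ := e3 ▸ sub_acl fun _ h => .inl (.inr h)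
  have u3 : k₁ ≤ K₃ := e3 ▸ sub_acl fun _ h => .inl (.inl h)
  have u4 : kt ≤ K₃ := Subset.trans u1 u2
  obtain ⟨φ, hφ⟩ := exists_equiv_sub mk_Cs.symm K₃ c3.cnt e
  have hid : (Pst.comap (φ : ℂ →+* Cs)).IdOn kt := fun x hx => by
    rw [Plc.comap_le_one, Plc.comap_r, RingHom.coe_coe, hφ ⟨x, u4 hx⟩, ← xt_of_mem,
      he x (acl_ur _ _ (.inl (.inr hx)))]
    exact pst_co x
  obtain ⟨P', c', i, τ, d, h1, h2, h3, h4, h5, h6⟩ := gf_mid (K := K₃) (sim A) ho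
    (by rw [e3]; exact hP) c3 u2 u3 k1 u4 t1 had (fun l j => e3 ▸ acl_mono
      (union_subset_union_left _ subset_union_left) (hn l j)) hid
  have k3 : (M.k0 : Set ℂ) ⊆ K₃ := k1.trans u4
  have u5 : K₃ ≤ K₄ := hK₄ ▸ acl_ul _ _
  have u6 : σ ∈ K₄ := hK₄ ▸ acl_ur _ _ (.inl rfl)
  have u7 : M.qs (A.rel Z'' Z) (A.rel A'' A') ⊆ K₄ := hK₄ ▸ M.ov.qq_le (k3.trans (acl_ul _ _))
    (lZ.rel hZ.1) hB (A.rel_le _ _) (A.rel_le _ _) ((subset_insert _ _).trans (acl_ur _ _))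
  refine gf_out hT hpg hφ c3.cnt (M.ov.mono k1) u4 t1 hid (fun h => f4 (acl_le ?_ h)) rfl
    (funext fun l => by rw [A.dot_pr (f.le_du (had.mem l))]) h1 h2 h3 (Eq.trans ?_ h4.symm)
    (fun j => mul_mem (pow_mem u6 _) (mulVec_mem (fun i j => u5 (u3 (hP.gr.inv.mem i j)))
      (fun j => u7 (.inl ⟨j, rfl⟩)) j)) h5 h6 hB hw l1 l2 l3 r1.le fun U hU hU' => ?_
  · exact e3 ▸ acl_mono (subset_union_left.trans subset_union_left)
  · refine le_antisymm (hK₄ ▸ acl_le (union_subset (acl_tl (acl_ul _ _) _)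
      (insert_subset (acl_ul _ _ (.inr rfl)) ?_))) (hK₄ ▸ acl_le (hK₄ ▸ union_subset
        (union_subset u5 (singleton_subset_iff.2 u6)) u7))
    exact (congrArg₂ M.qs (A.sup_rel hZ.2.2) (A.sup_rel hA'.2.2)).ge.trans <| M.ov.qq_sup
      (acl_tl (k3.trans (acl_ul _ _)) _) hZ.1 hA'.1 (lZ.rel hZ.1) hB
      (acl_tl (((acl_ur _ _).trans u2).trans (acl_ul _ _)) _) (acl_ur _ _)
  · rw [t3, inf_assoc, inf_eq_right.2 (A.du_mono hU'), ← cj_ann, ← finrank_cj s, cj_inf,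
      (M.ov.ov_du hU).cj_eq hs']

end Pool.Agent.P.MP_f17f76_ag
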