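import Pool.Agent.P.MP_f17f76_ag.E.Hgc
import Pool.Agent.P.MP_f17f76_ag.E.Sim
import Pool.Agent.P.MP_f17f76_ag.S.GfAlg

/-!
Positivity of all objects, and the algebraic half of the gain step, without hypotheses.
-/

namespace Pool.Agent.P.MP_f17f76_ag

theorem Hgc.s_hgc {g N : ℕ} (A : AbVar g N) : Hgc.S_HGC A := Hgc.hgc A.sim

theorem gfa : S_GFA := s_gfa Hgc.s_hgc AbVar.sim

end Pool.Agent.P.MP_f17f76_ag
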