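import Pool.Agent.P.MP_f17f76_ag.S.Vf
import Pool.Agent.P.MP_f17f76_ag.S.Fam
import Pool.Agent.P.MP_f17f76_ag.E.Ext

/-! New states at the same pair of subspaces; the dimension clauses of the groups of a flag. -/

namespace Pool.Agent.P.MP_f17f76_ag

open Module Set Matrix E N MvPolynomial

set_option linter.unusedSectionVars false

noncomputable section

variable {g N : ℕ} {A : AbVar g N} {M : Model A} {C' : Sub g} {T : ℝ*} {Jν J J' : Type}
  [Fintype Jν] [Fintype J] [Fintype J'] [DecidableEq Jν] [DecidableEq J] [DecidableEq J']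
  {A' Z : Sub g}

/-- A new state at the same pair, with the same lattice polynomial. -/
theorem Core.step0 (s : Core M C' T Jν J A' Z) {c' K' : Subfield ℂ} (ι' : K' →+* H (Jν ⊕ J'))
    {φ : Jν ⊕ J → H (Jν ⊕ J')} (hφ : Maps φ) {n' : ℝ*} (n0 : 0 < n') (n1 : Big T n')
    (n2 : Poly T n') (hν : ∀ i, pull φ (nuv J s.n i) = nuv J' n' i) (hc : Fld s.c c')
    (hf : Free ((M.k0 : Set ℂ) ∪ M.qs C' C') (M.qs ⊤ ⊤) c')
    (hK : K' = acl ((c' : Set ℂ) ∪ M.qs Z A'))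
    (hι : ∀ a ∈ s.K, xt ι' a = pull φ (xt s.ι a)) (cst : ∀ a ∈ c', ∃ b, xt ι' a = cn b)
    (stab : StabH ι') (pg : PG T ((ev 0).comp ι'))
    {row : J' → Fin g → ℂ} {ρ : J' → Cs} (du : ∀ l, row l ∈ A.du Z)
    (std : ∀ l k, row l k ∈ c' ∧ xt ι' (row l k) = cn (co (row l k)))
    (coord : ∀ l, ∃ π : MvPolynomial Jν Cs,
      xt ι' (row l ⬝ᵥ M.z) = aeval (nuv J' n') π + ρ l • xc (.inr l))
    (rho : ∀ l, ¬ Tiny T (nm (ρ l)))
    (basis : ∀ D ∈ kil (c' : Set ℂ), (∀ l, D (row l ⬝ᵥ M.z) = 0) →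
      dv (A.pr A' M.z) D = A.dl (A.pr A' M.w) D → D ∈ kil (M.qs Z A'))
    (count : Fintype.card J' + finrank ℂ A' = M.H Z A') {η : ℝ*}
    (sp : ∀ l l', Lc (nm (ev 0 (dd (.inr l') (φ (.inr l))))) η) :
    ∃ s' : Core M C' T Jν J' A' Z, s.Ref η s' φ 1 ∧ s'.c = c' ∧ s'.K = K' ∧
      (∀ a, xt s'.ι a = xt ι' a) ∧ s'.n = n' ∧ s'.row = row ∧ s'.ρ = ρ := by
  choose π hπ using coord
  set d : Dat g Jν J' := ⟨c', K', ι', n', s.Lam, row, π, ρ⟩
  have h1 : ∀ k, d.wt M A' k = pull φ (s.w k) := fun k => by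
    rw [Core.w, Dat.wt, Dat.wt, map_sub, pull_aeval, ← hι _ (s.z_mem s.btw.1 s.btw.2.2 k)]
    exact congrArg (fun v => _ - aeval v _) (funext hν).symm
  have h2 : ∀ k x, Pt x → Ll (nm (ev x (d.wt M A' k) - ev 0 (s.w k))) 1 := fun k x hx => by
    rw [h1, ev_pull hφ hx]
    exact s.var k _ (hφ x hx)
  refine ⟨⟨d, s.inf, s.tight, s.btw, s.lie, ⟨hc.cnt, hc.acl, s.fld.le.trans hc.le⟩, hf, hK,
    fun a ha => ?_, cst, stab, pg, n0, n1, n2, s.lat, fun k => lc_of_near (h2 k 0 .zero) (s.bdd k),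
    fun k x hx => near_trans (h2 k x hx) (near_symm (h2 k 0 .zero)), fun x hx => ?_, du, std, hπ,
    rho, basis, count⟩, ⟨hφ, hc.le, ?_, le_rfl, le_rfl, hι,
      ⟨1, fun _ => one_pos, (map_one qs).symm.trans (congrArg qs (funext fun _ => by simp))⟩,
      fun i => ⟨0, ?_⟩, fun u _ => ?_, sp⟩, rfl, rfl, fun _ => rfl, rfl, rfl, rfl⟩
  · rw [show xt d.ι a = _ from hι a (s.c_le (s.k0_le ha)), s.id a ha, pull_cn]
  · have := s.exp _ (hφ x hx)
    rw [← evv_pull hφ hx] at this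
    rw [funext h1]
    convert this using 2 with j
    exact (congrArg (ev x) (hι _ (s.a_mem s.btw.1 le_rfl j))).trans (ev_pull hφ hx _)
  · exact s.hK.le.trans ((acl_mono (union_subset_union_left _ hc.le)).trans hK.ge)
  · rw [map_zero, zero_add, one_smul]
    exact hν i
  · rw [dot, dot, map_sum]
    refine Finset.sum_congr rfl fun k _ => ?_
    rw [Algebra.smul_def, Algebra.smul_def, map_mul, algebraMap_eq_cn, algebraMap_eq_cn, pull_cn]
    exact congrArg _ (h1 k)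

/-- New standard constants. -/
theorem Core.enlarge (s : Core M C' T Jν J A' Z) {S : Set ℂ} (hS : S.Countable)
    (h1 : Free (M.k0 : Set ℂ) S ((s.K : Set ℂ) ∪ M.qs ⊤ ⊤))
    (h2 : Free (M.k0 : Set ℂ) S (Pst.res ((ev 0).comp s.ι).fieldRange)) :
    ∃ s₁ : Core M C' T Jν J A' Z, s.Ref 1 s₁ xc 1 ∧ s₁.row = s.row ∧ s₁.ρ = s.ρ ∧ s₁.n = s.n ∧
      S ⊆ s₁.Std ∧ s.Std ⊆ s₁.Std ∧ ∀ a ∈ s.K, xt s₁.ι a = xt s.ι a := by
  have hk : M.k0 ≤ s.K := s.k0_le.trans s.c_le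
  have hKc : (s.K : Set ℂ).Countable := by
    rw [s.hK]
    exact countable_acl (s.fld.cnt.union (M.finite_qs _ _).countable)
  obtain ⟨ι', h3, h4, h5, h6, -⟩ := const_sub hKc hS (M.fld.acl.le.trans hk) s.stab
    (fun c hc => (xt_of_mem s.ι c.2).symm.trans (s.id c (M.fld.acl.le hc)))
    (h1.mono subset_rfl (subset_union_left.trans (acl_ur _ _))) h2
  have h7 : ∀ a ∈ s.K, xt ι' a = xt s.ι a := fun a ha => by
    rw [xt_of_mem ι' (acl_ul _ _ ha), xt_of_mem s.ι ha]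
    exact h4 ⟨a, ha⟩
  have h8 : ∀ a ∈ S, xt ι' a = cn (co a) := fun a ha => by
    rw [xt_of_mem ι' (acl_ur _ _ ha)]
    exact h5 _ (acl_ur _ _ ha)
  have h9 : acl ((s.c : Set ℂ) ∪ S) ≤ acl ((s.K : Set ℂ) ∪ S) :=
    acl_mono (union_subset_union_left _ s.c_le)
  have h10 : (M.k0 : Set ℂ) ∪ M.qs C' C' ⊆ (acl (s.c : Set ℂ) : Set ℂ) :=
    fun a ha => subset_acl _ (s.fld.le (subset_acl _ ha))
  have h11 : Free ((M.k0 : Set ℂ) ∪ M.qs C' C') (M.qs ⊤ ⊤) (acl ((s.c : Set ℂ) ∪ S)) := by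
    have h11 := (h1.add_base (T' := s.c) (acl_tr (subset_union_left.trans' s.c_le |>.trans
      (subset_acl _)) _)).symm
    refine (s.free.trans (T := S) fun t ht hf => ?_).mono subset_rfl (acl_le (acl_ur _ _))
    have h12 := h11.mono (T := M.qs ⊤ ⊤) subset_union_right (acl_ur _ _) t ht hf
    rw [trd_congr_base hf (F' := (M.k0 : Set ℂ) ∪ s.c ∪ S) (union_subset (union_subset
      (acl_tl (acl_tr h10 _) _) (acl_tl (acl_ur _ _) _)) (acl_ur _ _)) ((union_subset_union_left _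
        (union_subset_union_left _ subset_union_left)).trans (subset_acl _)), h12]
    exact trd_congr_base hf ((union_subset_union_left _ subset_union_left).trans (subset_acl _))
      (union_subset (acl_tr h10 _) (acl_ur _ _))
  have h12 : acl ((s.K : Set ℂ) ∪ S) = acl ((acl ((s.c : Set ℂ) ∪ S) : Set ℂ) ∪ M.qs Z A') := by
    rw [s.hK, acl_acl_union, acl_acl_union, union_right_comm]
  have h13 : ∀ a ∈ acl ((s.c : Set ℂ) ∪ S), ∃ b, xt ι' a = cn b := fun a ha => by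
    refine ⟨_, (xt_of_mem ι' (h9 ha)).trans (ext_unique (ι' := (cn.comp (ev 0)).comp ι')
      (S := Subtype.val ⁻¹' ((s.c : Set ℂ) ∪ S)) (fun b hb => ?_) ?_ (ev_cn _ _).symm)⟩
    · obtain ⟨v, hv⟩ : ∃ v, ι' b = cn v := by
        rw [← xt_of_mem ι' b.2]
        exact hb.elim (fun h => h7 _ (s.c_le h) ▸ s.cst _ h) fun h => ⟨_, h8 _ h⟩
      simp [hv]
    · refine (mem_acl_map (Subfield.subtype _)).1 (acl_mono (fun y hy => ?_) ha)
      exact ⟨⟨y, h9 (subset_acl _ hy)⟩, hy, rfl⟩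
  obtain ⟨s₁, r, e1, -, e2, e3, e4, e5⟩ := s.step0 (c' := acl ((s.c : Set ℂ) ∪ S)) ι'
    (φ := xc) (maps_xc fun i => i) s.npos s.nlo s.nhi (fun _ => pull_id _)
    (.of_acl (s.fld.cnt.union hS) (acl_ul _ _)) h11 h12
    (fun a ha => (h7 a ha).trans (pull_id _).symm) h13 h3 (h6 T s.inf s.pg) s.du
    (fun l k => ⟨acl_ul _ _ (s.std l k).1, (h7 _ (s.c_le (s.std l k).1)).trans (s.std l k).2⟩)
    (fun l => ⟨_, (h7 _ (s.y_mem l)).trans (s.coord l)⟩) s.rho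
    (fun D hD => s.basis D (kil_anti (acl_ul _ _) hD)) s.count (η := 1) fun l l' => by
      rw [dd_xc]
      split_ifs <;> simp [Lc.refl, Lc.zero]
  exact ⟨s₁, r, e4, e5, e3, fun a ha => ⟨e1 ▸ acl_ur _ _ ha, (e2 a).trans (h8 a ha)⟩,
    fun a ha => ⟨r.c ha.1, (e2 a).trans ((h7 a (s.c_le ha.1)).trans ha.2)⟩,
    fun a ha => (e2 a).trans (h7 a ha)⟩

/-- The dimension clauses of the groups of a flag. -/
theorem Model.Fam.grp {κ : Sub g → ℕ} {Z₁ Nn U U' : Sub g} {E₀ : Subfield ℂ}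
    (h : M.Fam κ A' Z₁ E₀ Nn) (hA : A.IsLie A') (hle : A' ≤ Z₁) (hU : A.IsLie U) (hU' : A.IsLie U')
    (h1 : U ≤ U') (h2 : U' ≤ A.rel Z₁ A') {n : J → Fin g → ℂ} {I I' : Set J}
    (hn : LinearIndependent ℂ n) (hd : Disjoint I I')
    (h3 : Submodule.span ℂ (n '' I) = Nn ⊓ A.du U)
    (h4 : Submodule.span ℂ (n '' (I ∪ I')) = Nn ⊓ A.du U') :
    Module.finrank ℂ (Submodule.span ℂ (n '' I')) + κ (A' ⊔ U) = κ (A' ⊔ U') ∧
      ∀ Q, A.Btw (A' ⊔ U) Q (A' ⊔ U') → κ Q ≤ κ (A' ⊔ U) +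
        Module.finrank ℂ (Submodule.span ℂ (n '' I') ⊓ ann (A.rel (A' ⊔ U') Q) : Sub g) := by
  have p2 := h2.trans (A.rel_le_perp _ _)
  have l2 : A' ⊔ U' ≤ Z₁ := sup_le hle (h2.trans (A.rel_le _ _))
  have e1 := h.rk ⟨hA.sup hU, le_sup_left, (sup_le_sup_left h1 _).trans l2⟩
  have e2 := h.rk ⟨hA.sup hU', le_sup_left, l2⟩
  rw [AbVar.rk, A.rel_sup (h1.trans p2), ← h3] at e1
  rw [image_union, Submodule.span_union] at h4
  rw [AbVar.rk, A.rel_sup p2, ← h4] at e2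
  refine ⟨?_, fun Q hQ => ?_⟩
  · have := Submodule.finrank_sup_add_finrank_inf_eq (Submodule.span ℂ (n '' I))
      (Submodule.span ℂ (n '' I'))
    rw [(hn.disjoint_span_image hd).eq_bot, finrank_bot] at this
    omega
  · have e3 := h.rk (hQ.mono le_sup_left l2)
    have l3 : Submodule.span ℂ (n '' I) ≤ Nn ⊓ A.du (A.rel Q A') := h3.le.trans (inf_le_inf_left _
      (A.du_mono ((A.rel_sup (h1.trans p2)).ge.trans (A.rel_mono hQ.2.1 _))))
    have l4 : Nn ⊓ A.du (A.rel Q A') ≤ Submodule.span ℂ (n '' I) ⊔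
        Submodule.span ℂ (n '' I') ⊓ ann (A.rel (A' ⊔ U') Q) := by
      refine le_trans ?_ (sup_le_sup_left (inf_le_inf_left _ ((inf_le_right (a := Nn)).trans
        (ann_anti ((A.rel_le_perp _ _).trans (A.perp_anti (A.rel_le Q A')))))) _)
      exact (le_inf ((inf_le_inf_left _ (A.du_mono ((A.rel_mono hQ.2.2 _).trans
        (A.rel_sup p2).le))).trans h4.ge) le_rfl).trans (sup_inf_assoc_of_le _ l3).le
    have := (Submodule.finrank_mono l4).trans (Submodule.finrank_add_le_finrank_add_finrank _ _)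
    rw [AbVar.rk] at e3
    omega

end

end Pool.Agent.P.MP_f17f76_ag
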