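import Pool.Agent.P.MP_f17f76_ag.S.Chg
import Pool.Agent.P.MP_f17f76_ag.S.Enl
import Pool.Agent.P.MP_f17f76_ag.S.Fam
import Pool.Agent.P.MP_f17f76_ag.E.Ext

/-!
Change of the rows of a state.
-/

namespace Pool.Agent.P.MP_f17f76_ag

open Module Set Matrix E N Vf

variable {g N : ℕ} {A : AbVar g N} {M : Model A} {C' : Sub g} {T : ℝ*} {Jν J : Type}
  [Fintype Jν] [Fintype J] [DecidableEq Jν] [DecidableEq J] {A' Z : Sub g}

namespace Core

theorem dr_std_dot (s : Core M C' T Jν J A' Z) {u v : Fin g → ℂ} (hu : ∀ i, u i ∈ s.Std)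
    (hv : ∀ i, v i ∈ s.K) (l : J) : s.dr (u ⬝ᵥ v) l = dot u fun i => s.dr (v i) l := by
  simp only [dr, dot, s.xt_std_dot hu hv, map_sum, Derivation.map_smul, ev_smul, smul_eq_mul]

theorem change (s₀ s : Core M C' T Jν J A' Z) (h₁ : s₀.c ≤ s.c) (h₂ : s.n = s₀.n)
    (h₃ : ∀ a ∈ s₀.K, xt s.ι a = xt s₀.ι a) (I : Set J) [DecidablePred (· ∈ I)]
    {n m : I → Fin g → ℂ} {w : I → Cs} {ζ : Fin g → ℂ} {r : Fin g → ℝ*} {X Y ε η : ℝ*}
    (hζ : ∀ j, ζ j ∈ s.K) (hm : ∀ k j, m k j ∈ s.Std)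
    (hn : ∀ k, n k ∈ A.du Z ∧ ∀ j, n k j ∈ s.Std) (hy : ∀ k, n k ⬝ᵥ M.z = m k ⬝ᵥ ζ)
    (hw : ∀ k, ¬ Tiny T (ε * nm (w k))) (hr : ∀ j, 0 < r j) (hX : 1 ≤ X) (hY : 1 ≤ Y)
    (hX' : Poly T X) (hY' : Poly T Y) (hε : 0 ≤ ε) (hη : η ≤ ε) (hη' : ¬ Tiny T η)
    (hε' : Ll (ε * ((Y * X) ^ 4 * T)) 1) (bd : ∀ j l, Lc (nm (s.dr (ζ j) l)) (X * r j))
    (key : ∀ (c : I → Cs) (y : Fin g → Cs), (∀ j, Lc (Y * nm (y j)) (r j)) →
      (∀ k, Lc (nm (∑ l : I, s.dr (n k ⬝ᵥ M.z) l * c l + dot (m k) y)) (nm (w k))) →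
      ∀ l, Lc (nm (c l)) Y) :
    ∃ (s' : Core M C' T Jν J A' Z) (φ : _), s₀.Ref 1 s' φ 1 ∧ evv 0 φ = 0 ∧
      (∀ l ∉ I, φ (.inr l) = cn (ofR η) * xc (.inr l) ∧ s'.row l = s.row l ∧
        s'.ρ l = ofR η * s.ρ l) ∧ (∀ k : I, s'.row k = n k ∧ s'.ρ k = ofR ε * w k) ∧
      ∀ a, xt s'.ι a = pull φ (xt s.ι a) := by
  have hT := s.inf
  have hY0 := one_pos.trans_le hY
  have hη0 : 0 ≤ η := not_lt.1 fun h => hη' (.of_le hT h.le tiny_zero)
  obtain ⟨D, hD, hd⟩ := s.exists_D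
  have hyK : ∀ k, n k ⬝ᵥ M.z ∈ s.K := fun k => s.dot_z_mem (hn k).1 fun j => s.c_le ((hn k).2 j).1
  let Q : Matrix I I s.K := .of fun k l => ⟨D l (n k ⬝ᵥ M.z), (hD l).2.1 _ (hyK k)⟩
  let e := (ev 0).comp s.ι
  have hQ : ∀ k l : I, dd (.inr l.1) (xt s.ι (n k ⬝ᵥ M.z)) = s.ρ l • s.ι (Q k l) := fun k l => by
    rw [hd _ (hyK k), xt_of_mem _ ((hD l).2.1 _ (hyK k))]
    rfl
  have hQ' : ∀ k l : I, s.dr (n k ⬝ᵥ M.z) l = s.ρ l * e (Q k l) := fun k l => by
    rw [dr, hQ, ev_smul]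
    rfl
  have hdet : IsUnit Q.det := Ne.isUnit fun h => by
    obtain ⟨v, h0, hv⟩ := exists_mulVec_eq_zero_iff.2 h
    obtain ⟨l, hl⟩ := Function.ne_iff.1 h0
    have h1 : e (v l) ≠ 0 := (map_ne_zero e).2 hl
    have := key (fun l' => ofR (T * Y) * s.ρ l / e (v l) * (e (v l') / s.ρ l')) 0
      (fun j => by simpa using Lc.zero _) (fun k => by
        have : ∑ l' : I, s.dr (n k ⬝ᵥ M.z) l' * (ofR (T * Y) * s.ρ l / e (v l) *
            (e (v l') / s.ρ l')) = ofR (T * Y) * s.ρ l / e (v l) * e ((Q *ᵥ v) k) := by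
          rw [show (Q *ᵥ v) k = ∑ l, Q k l * v l from rfl, map_sum, Finset.mul_sum]
          exact Finset.sum_congr rfl fun l' _ => by
            rw [hQ', map_mul e]
            field_simp [s.rho_ne l']
        rw [this]
        simpa [hv, dot] using Lc.zero _) l
    rw [show _ * (e (v l) / _) = ofR (T * Y) by field_simp [s.rho_ne l],
      nm_ofR_of_nonneg (mul_pos hT.pos hY0).le] at this
    exact (hT.mul_right hY0.le).not_lc (mul_pos hT.pos hY0) (by rwa [one_mul])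
  have h1 := mul_nonsing_inv _ hdet
  have hsol : ∀ (v : I → s.K) (t : Cs) (k : I), ∑ l : I, s.dr (n k ⬝ᵥ M.z) l *
      (t * ((s.ρ l)⁻¹ * e ((Q⁻¹ *ᵥ v) l))) = t * e (v k) := fun v t k => by
    rw [← congrFun (one_mulVec v) k, ← h1, ← mulVec_mulVec,
      show (Q *ᵥ _) k = ∑ l, Q k l * _ from rfl, map_sum, Finset.mul_sum]
    exact Finset.sum_congr rfl fun l _ => by
      rw [hQ', map_mul e]
      field_simp [s.rho_ne l]
  have hXY : Y ≤ (Y * X) ^ 2 := (le_mul_of_one_le_right hY0.le hX).trans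
    (le_self_pow₀ (one_le_mul_of_one_le_of_one_le hY hX) two_ne_zero)
  have hε'' : Ll (ε * (((Y * X) ^ 2) ^ 2 * T)) 1 := by rwa [← pow_mul]
  obtain ⟨φ, n', π, a1, a2, a3, a4, a5, a6, a7, a8⟩ := chg hT I (fun k => xt s.ι (n k ⬝ᵥ M.z))
    (fun l k => (s.ρ l)⁻¹ • s.ι (Q⁻¹ l k)) w s.npos s.nlo (hY.trans hXY)
    (.pow (.mul hT hY' hX' (zero_le_one.trans hX)) (by positivity) 2) hε hε'' hη0
    (.le_trans (mul_le_mul_of_nonneg_right hη (by have := hT.pos; positivity)) hε'')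
    (fun l l' => by
      simp only [hQ, smul_mul_smul_comm, ← map_mul, ← Finset.smul_sum, ← map_sum]
      rw [← mul_apply, nonsing_inv_mul _ hdet, one_apply]
      split_ifs with h
      · rw [h, inv_mul_cancel₀ (s.rho_ne _), map_one, one_smul]
      · simp)
    (fun x y hx hy' l l' => by
      let m' : Fin g → I → s.K := fun j k => ⟨m k j, s.c_le (hm k j).1⟩
      have hm' : ∀ j k, s.ι (m' j k) = cn (co (m k j)) := fun j k =>
        (xt_of_mem _ (m' j k).2).symm.trans (hm k j).2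
      have b1 : ∀ j, Lc (r j / Y * ((nm (s.ρ l))⁻¹ * nm (e ((Q⁻¹ *ᵥ m' j) l)))) Y := fun j => by
        have := key (fun l => -ofR (r j / Y) * ((s.ρ l)⁻¹ * e ((Q⁻¹ *ᵥ m' j) l)))
          (Pi.single j (ofR (r j / Y))) (fun j' => by
            rcases eq_or_ne j' j with rfl | h
            · rw [Pi.single_eq_same, nm_ofR_of_nonneg (div_pos (hr _) hY0).le,
                mul_div_cancel₀ _ hY0.ne']
              exact .refl _
            · simpa [h] using Lc.zero _) (fun k => by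
            rw [hsol]
            simpa [dot, Pi.single_apply, e, hm', mul_comm] using Lc.zero _) l
        rwa [map_mul, map_mul, map_inv₀, nm.map_neg,
          nm_ofR_of_nonneg (div_pos (hr _) hY0).le] at this
      have b2 : ∑ k : I, ev x ((s.ρ l)⁻¹ • s.ι (Q⁻¹ l k)) *
          ev y (dd (.inr l') (xt s.ι (n k ⬝ᵥ M.z))) = ∑ j, (s.ρ l)⁻¹ *
            ev x (s.ι ((Q⁻¹ *ᵥ m' j) l)) * ev y (dd (.inr l') (xt s.ι (ζ j))) := by
        simp only [hy, s.xt_std_dot (hm _) hζ]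
        simp only [map_sum, Derivation.map_smul, ev_smul, mulVec, dotProduct, map_mul, hm', ev_cn,
          Finset.mul_sum, Finset.sum_mul]
        rw [Finset.sum_comm]
        exact Finset.sum_congr rfl fun j _ => Finset.sum_congr rfl fun k _ => by ring
      rw [b2]
      refine .le_trans (nm.sum_le _ _) (.sum fun j _ => ?_)
      rw [map_mul, map_mul, map_inv₀]
      refine ((((s.stab.lc hx Pt.zero _).mul_left (inv_nonneg.2 (nm.nonneg _))).mul
        ((s.dd_le (hζ j) hy' l').trans (bd j l')) (nm.nonneg _) (by positivity)).trans ?_).trans_le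
        (b := Y * (Y * X)) (by nlinarith [mul_pos hY0 hY0])
      convert (b1 j).mul_right (c := Y * X) (by positivity) using 1
      simp only [e, RingHom.comp_apply]
      field_simp)
    (fun x hx l k => by
      have := key (fun l => w k * ((s.ρ l)⁻¹ * e ((Q⁻¹ *ᵥ Pi.single k 1) l))) 0
        (fun j => by simpa using Lc.zero _) (fun k' => by
          rw [hsol]
          rcases eq_or_ne k' k with rfl | h
          · simpa [dot] using Lc.refl _
          · simpa [dot, h] using Lc.zero _) l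
      rw [mulVec_single_one, map_mul, map_mul] at this
      rw [ev_smul, map_mul, map_mul, mul_comm]
      exact ((((s.stab.lc hx Pt.zero _).mul_left (nm.nonneg _)).mul_left (nm.nonneg _)).trans
        this).trans_le hXY)
    (fun l k x hx => by
      rw [ev_smul, map_mul, map_inv₀]
      exact .mul hT ((not_tiny hT (nm.nonneg _)).1 (s.rho l)).2 (s.pg.ev hT s.stab hx _)
        (nm.nonneg _))
    (fun k x hx => by
      rw [xt_of_mem _ (hyK k)]
      exact s.pg.ev hT s.stab hx _)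
  have hx : ∀ a, xt ((pull φ).comp s.ι) a = pull φ (xt s.ι a) := fun a => by
    unfold xt
    split_ifs <;> simp
  obtain ⟨s', c1, -, -, c2, -, c3, c4⟩ := s₀.step0 (c' := s.c) ((pull φ).comp s.ι) a1 a3 a5
    (.of_le a4 s.nhi) (h₂ ▸ a6) ⟨s.fld.cnt, s.fld.acl, h₁⟩ s.free s.hK
    (fun a ha => by rw [hx, h₃ a ha])
    (fun a ha => (s.cst a ha).imp fun b hb => by rw [hx, hb, pull_cn]) (s.stab.pull a1)
    (s.pg.pull hT s.stab a1) (row := fun l => if h : l ∈ I then n ⟨l, h⟩ else s.row l)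
    (ρ := fun l => if h : l ∈ I then ofR ε * w ⟨l, h⟩ else ofR η * s.ρ l)
    (fun l => by
      split_ifs
      exacts [(hn _).1, s.du l])
    (fun l k => by
      rw [hx]
      split_ifs
      · exact ⟨((hn _).2 k).1, by rw [((hn _).2 k).2, pull_cn]⟩
      · exact ⟨(s.std l k).1, by rw [(s.std l k).2, pull_cn]⟩)
    (fun l => by
      rw [hx]
      split_ifs with h
      · exact ⟨_, a8 ⟨l, h⟩⟩
      · refine ⟨s.π l, ?_⟩
        rw [s.coord, map_add, pull_aeval, Algebra.smul_def, map_mul, algebraMap_eq_cn, pull_cn,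
          pull_xc a1, a7 l h, Algebra.smul_def, algebraMap_eq_cn, map_mul, mul_left_comm, mul_assoc]
        exact congrArg (MvPolynomial.aeval · _ + _) (funext a6))
    (fun l => by
      split_ifs
      · rw [map_mul, nm_ofR_of_nonneg hε]
        exact hw _
      · rw [map_mul, nm_ofR_of_nonneg hη0, not_tiny hT (by positivity), mul_inv]
        have b1 := (not_tiny hT hη0).1 hη'
        have b2 := (not_tiny hT (nm.nonneg _)).1 (s.rho l)
        exact ⟨mul_pos b1.1 b2.1, .mul hT b1.2 b2.2 (inv_pos.2 b2.1).le⟩)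
    (fun D' b1 b2 b3 => by
      have b4 : ∀ l ∉ I, D' (s.row l ⬝ᵥ M.z) = 0 := fun l h => by simpa [h] using b2 l
      have b5 : D' - ∑ l, D' (s.row l ⬝ᵥ M.z) • D l ∈ kil (s.c : Set ℂ) :=
        sub_mem b1 (sum_mem fun l _ => Submodule.smul_mem _ _ (hD l).1)
      have b6 : ∀ a, (D' - ∑ l, D' (s.row l ⬝ᵥ M.z) • D l) a =
          D' a - ∑ l, D' (s.row l ⬝ᵥ M.z) * D l a := fun a => by
        rw [← dv_apply (fun _ : Unit => a) _ ()]
        simp only [map_sub, map_sum, map_smul]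
        simp
      have b7 := s.basis _ b5 (fun l => by simp [b6, (hD _).2.2.1])
        (by simp only [map_sub, map_sum, map_smul, b3, (hD _).2.2.2])
      have b8 : (Q.map s.K.subtype) *ᵥ (fun l => D' (s.row l ⬝ᵥ M.z)) = 0 := funext fun k => by
        have := acl_le_cst ((kil_union _ _).ge ⟨b5, b7⟩) (s.hK.le (hyK k))
        rw [mem_cst, b6, show D' _ = 0 by simpa using b2 k, zero_sub, neg_eq_zero,
          ← Fintype.sum_subtype_add_sum_subtype (· ∈ I), Finset.sum_eq_zero (s := Finset.univ)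
            (f := fun l : {l // l ∉ I} => _) fun l _ => by rw [b4 l l.2, zero_mul], add_zero] at this
        exact (Finset.sum_congr rfl fun l _ => mul_comm _ _).trans this
      have b9 := eq_zero_of_mulVec_eq_zero (((RingHom.map_det _ Q).symm.trans_ne
        ((map_ne_zero _).2 hdet.ne_zero))) b8
      refine s.basis _ b1 (fun l => ?_) b3
      by_cases h : l ∈ I
      exacts [congrFun b9 ⟨l, h⟩, b4 l h])
    s.count (η := 1) fun l l' =>
      ⟨2, Le.cauchy_zero (fun x hx => (a1 x hx (.inr l)).le) _⟩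
  exact ⟨s', φ, c1, a2, fun l h => ⟨a7 l h, by simp [c3, h], by simp [c4, h]⟩,
    fun k => ⟨by simp [c3], by simp [c4]⟩, fun a => (c2 a).trans (hx a)⟩

end Core

end Pool.Agent.P.MP_f17f76_ag
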