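import Pool.Agent.P.MP_f17f76_ag.S.NxB
import Pool.Agent.P.MP_f17f76_ag.S.NxC

/-!
The step NEXT.
-/

namespace Pool.Agent.P.MP_f17f76_ag

open Module Set Matrix E N Vf

theorem s_next : S_NEXT := fun g => ⟨fun d => (d * (g * 2) + d) * 5 + 2, by
  intro N A M C' T Jν J _ _ _ _ A' Z s κ Z₁ b I d hZ hne hb hs hr
  classical
  have hT := s.inf
  have hT0 := hT.pos
  have hA := s.btw.1
  have hB := hZ.1.rel hA
  have hBZ : A.rel Z₁ A' ≤ Z := (A.rel_le _ _).trans hZ.2.2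
  have hz := s.z_mem hB hBZ
  have hr0 : ∀ j, 0 < b.r j := fun j => (hr j).pos
  have hsp : Submodule.span ℂ (range fun l : I => s.row l) = b.Nn := by
    rw [← hs.span, image_eq_range]
  have hli := s.li.comp (Subtype.val : I → J) Subtype.val_injective
  have hcard : Fintype.card I ≤ g := by simpa using hli.fintype_card_le_finrank
  let Jm : Matrix (Fin g) I Cs := .of fun i l => s.dr (A.pr (A.rel Z₁ A') M.z i) l
  have hG : ∀ j l, s.dr ((b.G⁻¹ *ᵥ A.pr (A.rel Z₁ A') M.z) j) l =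
      (b.G⁻¹.map co *ᵥ fun i => s.dr (A.pr (A.rel Z₁ A') M.z i) l) j := fun j l =>
    s.dr_std_dot (hs.std j) hz l
  have hbd := fun j l => hG j l ▸ hb.eq ▸ hs.bd j l
  have hζ : ∀ j, (b.G⁻¹ *ᵥ A.pr (A.rel Z₁ A') M.z) j ∈ s.K := fun j =>
    s.K.sum_mem (t := Finset.univ) fun i _ => mul_mem (s.c_le (hs.std j i).1) (hz i)
  obtain ⟨Y, hY⟩ : ∃ Y, Y = (T ^ d) ^ (Fintype.card I * 2) := ⟨_, rfl⟩
  obtain ⟨E', N', q, U, w, n', lab, a1, a2, a3, a4, a5, a6, a7, a8, a9, a10, a11, a12⟩ :=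
    hb.next hA hZ.1 hZ.2.1 hne (n := .of fun l : I => s.row l) hli (fun l => hs.mem l l.2) hsp
      (J := Jm) (ρ := fun l => s.ρ l) (fun l => s.rho_ne l) (ext fun k l => by
        have := s.dr_std_dot (s.std k) hz l
        rw [A.dot_pr (hb.fam.le_du (hsp ▸ Submodule.subset_span ⟨k, rfl⟩)), Core.dr, s.dd_y] at this
        refine this.symm.trans ?_
        rw [diagonal_apply]
        by_cases h : k = l
        · simp [h]
        · simp [h, Subtype.val_injective.ne (Ne.symm h)])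
      hr (fun l => hs.ent l l.2) (pow_pos hT0 d) hY (fun j l => hbd j l)
      (S := (s.K : Set ℂ) ∪ M.qs ⊤ ⊤ ∪ Pst.res ((ev 0).comp s.ι).fieldRange) (by
        have h : (s.K : Set ℂ).Countable := s.hK ▸ countable_acl (s.fld.cnt.union
          (M.finite_qs _ _).countable)
        have : Countable s.K := h.to_subtype
        exact (h.union (M.finite_qs _ _).countable).union (Plc.countable_res (countable_range _)))
  rw [hb.eq] at a4 a5
  obtain ⟨s₁, b1, b2, b3, b4, b5, b6, b7⟩ := s.enlarge a1.fld.cnt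
    (a2.symm.mono le_rfl fun a ha => subset_acl _ (.inr (.inl ha)))
    (a2.symm.mono le_rfl fun a ha => subset_acl _ (.inr (.inr ha)))
  have hdr : ∀ a ∈ s.K, ∀ l, s₁.dr a l = s.dr a l := fun a ha l => by rw [Core.dr, b7 a ha, Core.dr]
  have hg : GrM s₁.StdF ⊤ b.G⁻¹ := ⟨by simpa using hb.det, fun i j => b6 (hs.std i j),
    fun _ _ _ => trivial⟩
  have hg' : ∀ i j, b.G i j ∈ s₁.StdF := nonsing_inv_nonsing_inv _ hb.det.isUnit ▸ hg.inv.mem
  have hn : ∀ k j, n' k j ∈ s₁.StdF := fun k j => b5 ((a10 k).2 j)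
  have hn' : ∀ k, n' k ∈ A.du (U (lab k + 1)) := fun k =>
    ((a11 _ (a10 k).1).le (Submodule.subset_span ⟨k, (lab k).lt_succ_self, rfl⟩)).2
  have hu : ∀ i, ∀ u ∈ A.du (U i), (∀ j, u j ∈ s₁.Std) → ∀ l, s₁.dr (u ⬝ᵥ M.z) l =
      dot u fun i => s.dr (A.pr (A.rel Z₁ A') M.z i) l := fun i u h h' l => by
    rw [← A.dot_pr (A.du_mono (a5 i).2 h), s₁.dr_std_dot h' fun i => b1.K (hz i)]
    simp only [hdr _ (hz _)]
  have hX : 1 ≤ T ^ d := one_le_pow₀ hT.one_lt.le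
  have hY1 : 1 ≤ Y := hY ▸ one_le_pow₀ hX
  have hY0 := one_pos.trans_le hY1
  obtain ⟨W, hW⟩ : ∃ W, W = Y * T ^ d := ⟨_, rfl⟩
  have hYW : Y ≤ W := hW ▸ le_mul_of_one_le_right hY0.le hX
  have hW1 := hY1.trans hYW
  have hW0 := one_pos.trans_le hW1
  obtain ⟨ε, hε⟩ : ∃ ε, ε = (W ^ 4 * T ^ 2)⁻¹ := ⟨_, rfl⟩
  have hε0 : 0 < ε := by rw [hε]; positivity
  have hε1 : ε ≤ 1 := hε ▸ inv_le_one_of_one_le₀
    (one_le_mul_of_one_le_of_one_le (one_le_pow₀ hW1) (one_le_pow₀ hT.one_lt.le))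
  have hf : 1 ≤ ε / W * T ^ ((d * (g * 2) + d) * 5 + 2) := by
    rw [hε, div_eq_mul_inv, ← mul_inv, ← div_eq_inv_mul, one_le_div (by positivity),
      show W ^ 4 * T ^ 2 * W = W ^ 5 * T ^ 2 by ring, hW, hY, ← pow_mul, ← pow_add, ← pow_mul,
      ← pow_add]
    exact hT.pow_le (by gcongr)
  have hf' : Y ≤ T ^ ((d * (g * 2) + d) * 5 + 2) * ε := by
    rw [div_mul_eq_mul_div, one_le_div hW0, mul_comm] at hf
    exact hYW.trans hf
  have c0 : ∀ i, ∃ j, Lc (b.r j) (T ^ ((d * (g * 2) + d) * 5 + 2) * (ε * nm (w i))) := fun i =>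
    (a8 i).2.1.imp fun j h => h.trans_le (by
      rw [← mul_assoc]
      exact mul_le_mul_of_nonneg_right hf' (nm.nonneg _))
  obtain ⟨s', φ, c1, c2, c3, c4, c5⟩ := s.change s₁ b1.c b4 b7 I (n := n')
    (m := fun k => n' k ᵥ* b.G) (w := fun k => w (lab k)) (ζ := b.G⁻¹ *ᵥ A.pr (A.rel Z₁ A') M.z)
    (r := b.r) (X := T ^ d) (Y := Y) (ε := ε) (η := ε / W)
    (fun j => b1.K (hζ j))
    (fun k => vecMul_mem (hn k) hg') (fun k => ⟨A.du_mono ((a5 _).2.trans hBZ) (hn' k), hn k⟩)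
    (fun k => by rw [← dot_frame hb.det, A.dot_pr (A.du_mono (a5 _).2 (hn' k))])
    (fun k h => by
      obtain ⟨j, hj⟩ := c0 (lab k)
      exact (h.ll_pow hT _).not_lc one_pos (((hr j).lc.trans hj).trans_le (mul_comm _ _).le))
    hr0 hX hY1 (poly_pow _) (hY ▸ .pow (poly_pow _) (by positivity) _) hε0.le
    (div_le_self hε0.le hW1) (fun h => (h.ll_pow hT _).not_lc one_pos (.of_le hf))
    (by
      rw [← hW, hε, show (W ^ 4 * T ^ 2)⁻¹ * (W ^ 4 * T) = T⁻¹ by field_simp]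
      simpa using hT.inv one_pos)
    (fun j l => by
      rw [hdr _ (hζ j), hG]
      exact hbd j l)
    fun c y h1 h2 => (a12 c (b.G.map co *ᵥ y) (fun j => by
      rw [mulVec_mulVec, ← Matrix.map_mul, nonsing_inv_mul _ hb.det.isUnit,
        Matrix.map_one _ (map_zero _) (map_one _), one_mulVec]
      exact h1 j) fun k => by
      convert h2 k using 2
      simp only [hu _ _ (hn' k) (hn k)]
      simp only [dot, mulVec, vecMul, dotProduct, Pi.add_apply, smul_eq_mul,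
        mul_add, Finset.sum_add_distrib, Finset.mul_sum, Finset.sum_mul, map_sum, map_mul, map_apply,
        Jm, of_apply, mul_assoc]
      congr 1 <;> exact Finset.sum_comm).1
  have hρ : ∀ k : I, nm (s'.ρ k) = ε * nm (w (lab k)) := fun k => by
    rw [(c4 k).2, map_mul, nm_ofR_of_nonneg hε0.le]
  refine ⟨s', φ, 1, ε / W, q, fun i => A' ⊔ U i, fun i => ε * nm (w i),
    fun l => if h : l ∈ I then lab ⟨l, h⟩ else 0, c1, (div_le_self hε0.le hW1).trans hε1, hf,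
    fun l h => ⟨by rw [(c3 l h).2.1, b2], by
      rw [(c3 l h).2.2, b3, map_mul, nm_ofR_of_nonneg (by positivity)]⟩, by simp [a3],
    by simp only [a4, A.sup_rel hZ.2.1], fun l h => by simpa [h] using (a10 ⟨l, h⟩).1,
    fun i i' h h' => (a7 i i' h h').mul_left hε0.le, fun i hi => ⟨hA.sup (a5 i).1,
      sup_le_sup_left (a6 i hi) _, ?_, c0 i, (a8 i).2.2.imp fun j h => ?_⟩⟩
  swap
  · refine (Lc.le_trans (mul_le_of_le_one_left (nm.nonneg _) hε1) h).trans_le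
      (mul_le_mul_of_nonneg_right (hf'.trans (mul_le_of_le_one_right (by positivity) hε1))
        (hr0 j).le)
  have him : s'.row '' {l ∈ I | (if h : l ∈ I then lab ⟨l, h⟩ else 0) = i} =
      n' '' {k | lab k = i} := by
    ext x
    exact ⟨by rintro ⟨l, ⟨h, h'⟩, rfl⟩; exact ⟨⟨l, h⟩, by simpa [h] using h', (c4 ⟨l, h⟩).1.symm⟩,
      by rintro ⟨k, h, rfl⟩; exact ⟨k, ⟨k.2, by simpa using h⟩, (c4 k).1⟩⟩
  obtain ⟨d1, d2⟩ := a1.grp hA hZ.2.1 (a5 i).1 (a5 (i + 1)).1 (a6 i hi) (a5 _).2 a9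
    (I := {k | lab k < i}) (I' := {k | lab k = i}) (disjoint_left.2 fun k h h' => h.ne h')
    (a11 i hi.le) (by
      rw [← a11 _ hi]
      exact congrArg (Submodule.span ℂ <| n' '' ·) (Set.ext fun k => Nat.lt_succ_iff_lt_or_eq.symm))
  refine ⟨fun l ⟨h, h'⟩ => ?_, fun l ⟨h, h'⟩ => ?_, him ▸ d1, him ▸ d2, fun u h h' l' => ?_⟩
  · replace h' := (dif_pos h).symm.trans h'
    exact (c4 ⟨l, h⟩).1 ▸ A.du_mono le_sup_right (h' ▸ hn' ⟨l, h⟩)
  · replace h' := (dif_pos h).symm.trans h'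
    exact h' ▸ hρ ⟨l, h⟩
  let c : J → Cs := fun l => (ofR ε)⁻¹ * ev 0 (dd (.inr l') (φ (.inr l)))
  let y : Fin g → Cs := ∑ l : {l // l ∉ I}, c l • fun i => s.dr (A.pr (A.rel Z₁ A') M.z i) l
  have hε' : ofR ε ≠ 0 := (map_ne_zero _).2 hε0.ne'
  have e1 : ∀ i, ∀ u ∈ A.du (U i), (∀ j, u j ∈ s₁.Std) → s'.dr (u ⬝ᵥ M.z) l' =
      ofR ε * dot u (Jm *ᵥ (fun l => c l) + y) := fun i u h h' => by
    rw [Core.dr, c5, c1.dd_inr, map_sum, ← Fintype.sum_subtype_add_sum_subtype (· ∈ I)]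
    simp only [map_mul, ev_pull c1.maps Pt.zero, c2]
    have := hu i u h h'
    simp only [Core.dr] at this
    simp only [this]
    simp only [dot, mulVec, dotProduct, Pi.add_apply, smul_eq_mul, mul_add, y, c,
      Finset.sum_add_distrib, Finset.mul_sum, Finset.sum_mul, Jm, of_apply, Finset.sum_apply,
      Pi.smul_apply, Core.dr]
    congr 1 <;> rw [Finset.sum_comm] <;>
      exact Finset.sum_congr rfl fun _ _ => Finset.sum_congr rfl fun _ _ => by field_simp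
  have h₀ : u ∈ A.du (U (i + 1)) := A.du_mono ((A.rel_anti _ le_sup_left).trans_eq
    (A.rel_sup ((a5 _).2.trans (A.rel_le_perp _ _)))) h
  rw [e1 _ u h₀ fun j => s₁.k0_std (h' j), map_mul, nm_ofR_of_nonneg hε0.le]
  refine ((a12 _ y (fun j => ?_) fun k => ?_).2 i hi u h₀ h').mul_left hε0.le
  · rw [mulVec_sum, Finset.sum_apply]
    refine .le_trans (mul_le_mul_of_nonneg_left (nm.sum_le _ _) hY0.le) ?_
    rw [Finset.mul_sum]
    refine .sum fun l _ => ?_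
    have : nm (c l) ≤ W⁻¹ := by
      simp only [c, (c3 l l.2).1, Derivation.leibniz, dd_cn, dd_xc, smul_zero, add_zero]
      split_ifs
      · simp [abs_of_pos hW0, div_eq_mul_inv, hε0.ne']
      · simp [hW0.le]
    rw [mulVec_smul, Pi.smul_apply, smul_eq_mul, map_mul]
    refine (((Lc.of_le this).mul (hbd j l) (nm.nonneg _) (by positivity)).mul_left hY0.le).trans_le
      (le_of_eq ?_)
    rw [hW]
    field_simp
  · have := e1 _ _ (hn' k) (hn k)
    rw [← (c4 k).1, Core.dr, s'.dd_y, (c4 k).1] at this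
    split_ifs at this with h
    · rw [ev_cn, h, (c4 k).2, mul_right_inj' hε'] at this
      exact this ▸ .refl _
    · rw [map_zero, eq_comm, mul_eq_zero, or_iff_right hε'] at this
      simpa [this] using Lc.zero _⟩

end Pool.Agent.P.MP_f17f76_ag
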