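import Pool.Agent.P.MP_f17f76_ag.S.Vf
import Pool.Agent.P.MP_f17f76_ag.E.Lat
import Pool.Agent.P.MP_f17f76_ag.E.Hol3

/-!
Creation of the integer variables.
-/

namespace Pool.Agent.P.MP_f17f76_ag

open Module Set Matrix E N

namespace Nu

theorem xt_cmp {K : Subfield ℂ} {R R' : Type} [CommRing R] [CommRing R'] (ι : K →+* R)
    (f : R →+* R') (a : ℂ) : xt (f.comp ι) a = f (xt ι a) := by
  unfold xt
  split_ifs <;> simp

/-- The remainder of second order. -/
theorem second {I : Type} [Fintype I] [DecidableEq I] {f : H I} {a b : ℝ*} (ha : 0 ≤ a)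
    (h : ∀ i x, Pt x → Lc (nm (ev x (dd i f))) a) {y : I → Cs} (hb : 0 ≤ b) (hb' : b ≤ 1 / 12)
    (hy : ∀ i, nm (y i) ≤ b) :
    Lc (nm (ev y f - ev 0 f - ∑ i, ev 0 (dd i f) * y i)) (a * b ^ 2) := by
  choose k hk using fun i => exists_le_lc ha (h i)
  have h1 : Le (f - cn (ev 0 f)) (∑ i, k i * a) := fun x hx => by
    rw [map_sub, ev_cn]
    refine (mean_value (fun i => Or.inr (hk i)) Pt.zero hx).trans (Finset.sum_le_sum fun i _ => ?_)
    exact mul_le_of_le_one_right (hk i).nonneg (by simpa using (hx i).le)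
  have h2 := taylor h1 hb hb' hy 2
  rw [Finset.sum_range_succ, Finset.sum_range_one, ← (Equiv.funUnique (Fin 1) I).symm.sum_comp]
    at h2
  simp [dw] at h2
  refine ⟨216 * ∑ i, k i, h2.trans_eq ?_⟩
  rw [← Finset.sum_mul]
  push_cast
  ring

/-- A matrix close to a large scalar matrix is bounded below. -/
theorem rank {J : Type} [Fintype J] [DecidableEq J] {t : Cs} (ht : 1 ≤ nm t) {e : J → J → Cs}
    (he : ∀ m l, Ll (nm (e m l - if l = m then t else 0)) 1) (v : J → Cs) (i : J) :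
    ∃ m, Lc (nm (v i)) (nm (∑ l, v l * e m l)) := by
  obtain ⟨m, -, hm⟩ := Finset.exists_max_image Finset.univ (fun l => nm (v l)) ⟨i, by simp⟩
  have h1 : Ll (nm (∑ l, v l * e m l - v m * t)) (nm (v m * t)) := by
    have : ∑ l, v l * e m l - v m * t = ∑ l, v l * (e m l - if l = m then t else 0) := by
      simp [mul_sub]
    rw [this]
    refine .le_trans (nm.sum_le _ _) (.sum (nm.nonneg _) fun l _ => ?_)
    rw [map_mul, map_mul]
    exact ((Lc.of_le (hm l (by simp))).mul_ll (he m l) (nm.nonneg _) (nm.nonneg _)).trans_le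
      (mul_le_mul_of_nonneg_left ht (nm.nonneg _))
  refine ⟨m, .le_trans ((hm i (by simp)).trans ?_) (lc_of_rel h1).2⟩
  rw [map_mul]
  exact le_mul_of_one_le_right (nm.nonneg _) ht

variable {g N : ℕ} {A : AbVar g N} {M : Model A} {C' : Sub g} {T : ℝ*} {J : Type} [Fintype J]
  [DecidableEq J] {A0 C1 : Sub g} (s : Core M C' T Empty J A0 C1) {t : Cs} {n η : ℝ*}

/-- The substitution that creates the integer variables. -/
noncomputable def ph (t : Cs) (n η : ℝ*) : Empty ⊕ J → H (J ⊕ J) :=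
  Sum.elim Empty.elim fun l => (t / s.ρ l) • nuv J n l + ofR η • xc (.inr l)

omit [DecidableEq J] in
theorem ev_ph {x : J ⊕ J → Cs} (hx : Pt x) (l : J) : evv x (ph s t n η) (.inr l) =
    t / s.ρ l * (ofR n * x (.inl l)) + ofR η * x (.inr l) := by
  simp [evv, ph, nuv, ev_xc hx]

omit [DecidableEq J] in
theorem ph_zero : evv 0 (ph s t n η) = 0 := funext fun i => by
  obtain i | l := i
  exacts [i.elim, by simp [ev_ph s Pt.zero]]

omit [DecidableEq J] in
theorem aeval_nu (p : MvPolynomial Empty Cs) : MvPolynomial.aeval s.nu p = cn (p.coeff 0) := by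
  rw [MvPolynomial.eq_C_of_isEmpty p]
  simp [algebraMap_eq_cn]

/-- The data of the new state. -/
noncomputable def dat (t : Cs) (n η : ℝ*) : Dat g J J where
  c := s.c
  K := s.K
  ι := (pull (ph s t n η)).comp s.ι
  n := n
  Lam k := MvPolynomial.C ((s.Lam k).coeff 0)
  row := s.row
  π l := MvPolynomial.C ((s.π l).coeff 0) + MvPolynomial.C t * MvPolynomial.X l
  ρ l := ofR η * s.ρ l

omit [DecidableEq J] in
theorem xt_dat (a : ℂ) : xt (dat s t n η).ι a = pull (ph s t n η) (xt s.ι a) := xt_cmp _ _ a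

omit [DecidableEq J] in
theorem wt_dat (k : Fin g) : (dat s t n η).wt M A0 k = pull (ph s t n η) (s.toDat.wt M A0 k) := by
  rw [Dat.wt, Dat.wt, xt_dat, aeval_nu, map_sub, pull_cn]
  simp [dat, algebraMap_eq_cn]

omit [DecidableEq J] in
theorem std_dat : s.Std ⊆ (dat s t n η).Std := fun a ha => ⟨ha.1, by rw [xt_dat, ha.2, pull_cn]⟩

/-- The new state. -/
noncomputable def nxt (hφ : Maps (ph s t n η)) (h0 : 0 < n) (h1 : Big T n) (h2 : Poly T n)
    (hη : ¬ Tiny T η) (η0 : 0 ≤ η) : Core M C' T J J A0 C1 where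
  toDat := dat s t n η
  inf := s.inf
  tight := s.tight
  btw := s.btw
  lie := s.lie
  fld := s.fld
  free := s.free
  hK := s.hK
  id a ha := by rw [xt_dat, s.id a ha, pull_cn]
  cst a ha := (s.cst a ha).imp fun b hb => by rw [xt_dat, hb, pull_cn]
  stab := s.stab.pull hφ
  pg := s.pg.pull s.inf s.stab hφ
  npos := h0
  nlo := h1
  nhi := h2
  lat α := by
    by_cases h : 0 = α
    · simpa [dat, MvPolynomial.coeff_C, h] using s.lat 0
    · simp only [dat, MvPolynomial.coeff_C, h, if_false]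
      exact st_inter.2 ⟨St.zero A.Λ, St.zero A0⟩
  bdd k := by
    rw [wt_dat, ev_pull hφ Pt.zero, ph_zero]
    exact s.bdd k
  var k x hx := by
    rw [wt_dat, ev_pull hφ Pt.zero, ph_zero, ev_pull hφ hx]
    exact s.var k _ (hφ x hx)
  exp x hx := by
    simp only [xt_dat, ev_pull hφ hx]
    rw [funext (wt_dat s), evv_pull hφ hx]
    exact s.exp _ (hφ x hx)
  du := s.du
  std l k := std_dat s (s.std l k)
  coord l := by
    refine (xt_dat s (s.row l ⬝ᵥ M.z)).trans ?_
    rw [s.coord, aeval_nu, map_add, pull_cn, Algebra.smul_def, map_mul, algebraMap_eq_cn, pull_cn,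
      pull_xc hφ, ← algebraMap_eq_cn, ← Algebra.smul_def]
    simp only [ph, Sum.elim_inr, smul_add, smul_smul,
      mul_div_cancel₀ _ (s.rho_ne l)]
    simp [dat, Dat.nu, mul_comm, add_assoc, Algebra.smul_def, algebraMap_eq_cn]
  rho l := by
    obtain ⟨a, b⟩ := (not_tiny s.inf η0).1 hη
    refine (not_tiny s.inf (nm.nonneg _)).2 ?_
    simp only [dat, map_mul, nm_ofR_of_nonneg η0, mul_inv]
    exact ⟨mul_pos a (nm.pos (s.rho_ne l)), b.mul s.inf ((not_tiny s.inf (nm.nonneg _)).1 (s.rho l)).2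
      (inv_nonneg.2 (nm.nonneg _))⟩
  basis := s.basis
  count := s.count

theorem dr_nxt (hφ : Maps (ph s t n η)) (h0 h1 h2 hη η0) (a : ℂ) (l : J) :
    (nxt s hφ h0 h1 h2 hη η0).dr a l = ofR η * s.dr a l := by
  refine (congrArg (fun f => ev 0 (dd (.inr l) f)) (xt_dat s a)).trans ?_
  simp only [dd_pull hφ, map_sum, map_mul, ev_pull hφ Pt.zero, ph_zero]
  simp [ph, nuv, dd_xc, Core.dr, apply_ite (ev 0), mul_comm]

theorem dp_pr (U : Sub g) (v : Fin g → ℂ) (k : Fin g) :
    (fun i => A.pr U (Pi.single i 1) k) ⬝ᵥ v = A.pr U v k := by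
  rw [A.pr_apply, dotProduct_comm]
  rfl

omit [DecidableEq J] in
theorem st_pr {U : Sub g} (hU : A.IsLie U) (h : U ≤ C1) :
    ∀ x, Pt x → (evv x fun k => xt s.ι (A.pr U M.z k)) ∈ St (U : Set (Fin g → ℂ)) := by
  refine (st_iff_pr_H A).2 (funext fun j => ?_)
  have h1 := s.xt_std_dot (fun i => s.k0_std (M.ov.pr _ hU.perp i j)) (s.z_mem hU h)
  rw [dp_pr, A.pr_eq_zero_iff.2 ((A.perp_perp U).ge (A.pr_mem U _))] at h1
  simp only [Algebra.smul_def, algebraMap_eq_cn] at h1
  rw [lx_apply]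
  exact h1.symm.trans (Vf.xt_zero _)

omit [DecidableEq J] in
theorem xt_split (k : Fin g) : xt s.ι (A.pr C1 M.z k) =
    s.w k + cn ((s.Lam k).coeff 0) + xt s.ι (A.pr (A.rel C1 A0) M.z k) := by
  rw [Core.w, Dat.wt, aeval_nu, sub_add_cancel, ← Vf.xt_add _ (s.z_mem s.btw.1 s.btw.2.2 k)
    (s.z_mem (s.lie.rel s.btw.1) (A.rel_le _ _) k), A.pr_rel s.btw.2.2]
  simp

theorem dd_w (l : J) (k : Fin g) : Ll (nm (ev 0 (dd (.inr l) (s.w k)))) 1 := by
  obtain ⟨c, h1, h2⟩ := exists_le_ll (g := s.w k - cn (ev 0 (s.w k))) fun x hx => by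
    simpa using s.var k x hx
  refine .le_trans (by simpa using h2.cauchy_zero (.inr l)) (?_ : Ll (2 * c) 1)
  rw [two_mul]
  exact h1.add h1

theorem row_dr (m l : J) : ∑ k, co (s.row m k) * (ev 0 (dd (.inr l) (s.w k)) +
    s.dr (A.pr (A.rel C1 A0) M.z k) l) = if l = m then s.ρ l else 0 := by
  have h1 := congrArg (fun f => ev 0 (dd (.inr l) f)) (s.xt_std_dot (s.std m) (s.z_mem s.lie le_rfl))
  simp only [A.dot_pr (s.du m), s.dd_y, xt_split, map_sum, Derivation.map_smul, ev_smul, map_add,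
    dd_cn, add_zero, apply_ite (ev 0), ev_cn, map_zero] at h1
  exact h1.symm

end Nu

open Nu in
theorem s_nu : S_NU := by
  intro g N A M C' T J _ _ A0 C1 s R η hne R0 R1 R2 hr hρ hη hη'
  have hT := s.inf
  have hB := s.lie.rel s.btw.1
  have η0 : 0 ≤ η := not_lt.1 fun h => hη (.of_le hT h.le tiny_zero)
  have hd : ∀ k l, Lc (nm (s.dr (A.pr (A.rel C1 A0) M.z k) l)) R := fun k l => dp_pr _ M.z k ▸
    hr _ (A.mem_du.2 fun v => by rw [dp_pr, dp_pr, A.pr_pr_of_le le_rfl])
      (fun i => M.ov.pr _ hB i k) l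
  obtain ⟨C, hC⟩ := heil_unif A hB J fun _ => 0
  obtain ⟨n, n0, rfl⟩ := exists_root_pos R0 (m := (2 * C + 1) * 4) (by omega)
  have n1 := R1.root
  have n2 := n1.ll hT n0.le
  have n3 := n2.one_lt.le
  obtain ⟨t, μ, ht, ht', hμ⟩ := hC (n ^ 2) (by nlinarith [n2.two_le])
    (fun l => (s.ρ l)⁻¹ • fun k => s.dr (A.pr (A.rel C1 A0) M.z k) l) fun l =>
      St.smul (st_dw A (st_pr s hB (A.rel_le _ _)) [.inr l] 0 Pt.zero) _
  have n4 : Poly T n := .of_le (le_self_pow₀ n3 (by omega)) R2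
  rw [pow_mul] at R0 R1 hd hρ hη'
  have tn : nm t * n ≤ n ^ (2 * C + 1) := by
    rw [pow_succ, pow_mul]
    exact mul_le_mul_of_nonneg_right ht' n0.le
  have r0 := pow_pos n0 (2 * C + 1)
  generalize n ^ (2 * C + 1) = r at *
  have r1 := R1.root
  have r2 : (5 : ℝ*) ≤ r := by exact_mod_cast (r1.ll hT r0.le).nat_le 5
  have hle : ∀ a, ¬ Big T a → a ≤ r := fun a h => not_lt.1 fun h' => h (r1.of_le r0.le h'.le)
  have a1 : ∀ l, nm (t / s.ρ l) * n ≤ (r ^ 2)⁻¹ := fun l => by
    have h1 := hle _ (hρ l)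
    have h2 := nm.pos (s.rho_ne l)
    rw [div_le_iff₀ h2] at h1
    rw [map_div₀, div_mul_eq_mul_div, div_le_iff₀ h2, ← div_eq_inv_mul, le_div_iff₀ (by positivity)]
    refine (mul_le_mul_of_nonneg_right tn (by positivity)).trans (le_of_mul_le_mul_left ?_ r0)
    exact (by ring : _ = r ^ 4).trans_le h1
  have a2 : η ≤ (r ^ 2)⁻¹ := by
    rw [← one_div, le_div_iff₀ (by positivity)]
    exact le_of_mul_le_mul_left (((by ring : _ = η * r ^ 4).trans_le (hle _ hη')).trans
      (by nlinarith)) (pow_pos r0 2)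
  have b1 : 2 * (r ^ 2)⁻¹ ≤ 1 / 12 := by
    rw [← div_eq_mul_inv, div_le_div_iff₀ (by positivity) (by norm_num)]
    nlinarith
  have hy : ∀ x, Pt x → ∀ i, nm (evv x (ph s t n η) i) ≤ 2 * (r ^ 2)⁻¹ := fun x hx i => by
    obtain i | l := i
    · exact i.elim
    rw [ev_ph s hx, two_mul, ← mul_assoc]
    refine (nm.add_le _ _).trans (add_le_add ?_ ?_) <;>
      simp only [map_mul, nm_ofR_of_nonneg η0, nm_ofR_of_nonneg n0.le]
    · exact (mul_le_of_le_one_right (by positivity) (hx _).le).trans (a1 l)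
    · exact (mul_le_of_le_one_right η0 (hx _).le).trans a2
  have hφ : Maps (ph s t n η) := fun x hx => pt_of_le (hy x hx) (b1.trans_lt (by norm_num))
  have e1 : ∀ l k, Lc (nm (t / s.ρ l * s.dr (A.pr (A.rel C1 A0) M.z k) l - μ l k) * n ^ 2) 1 :=
    fun l k => .le_trans (by simpa [div_eq_mul_inv, mul_assoc] using (hμ l).2 k) (lc_nat C)
  refine ⟨nxt s hφ n0 n1 n4 hη η0, ⟨std_dat s, fun a _ b _ h l => ?_⟩,
    ⟨A0, μ, ⟨le_rfl, fun l => (hμ l).1, fun k x hx h => ?_⟩, s.btw, hne, s.count, fun v i => ?_⟩,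
    fun l => ⟨rfl, by simp [nxt, dat, abs_of_nonneg η0]⟩⟩
  · rw [dr_nxt, map_mul, nm_ofR_of_nonneg η0]
    exact (h l).mul_left η0
  · have h1 := second (f := xt s.ι (A.pr (A.rel C1 A0) M.z k)) R0.le (fun i y hy => by
      obtain i | l := i
      exacts [i.elim, (s.dd_le (s.z_mem hB (A.rel_le _ _) k) hy l).trans (hd k l)])
      (by positivity) b1 (hy x hx)
    rw [show r ^ 4 * (2 * (r ^ 2)⁻¹) ^ 2 = (4 : ℕ) by push_cast; field_simp; norm_num] at h1
    have h2 : ∀ i, ev x (nuv J n i) = ofR n * x (.inl i) ∧ ev 0 (nuv J n i) = 0 := fun i => by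
      simp [nuv, ev_xc hx, ev_xc Pt.zero]
    have h3 : Lc (nm (ev (evv x (ph s t n η)) (s.w k) - ev 0 (s.w k) + _ + ∑ l,
        ((t / s.ρ l * s.dr (A.pr (A.rel C1 A0) M.z k) l - μ l k) * ofR n * x (.inl l) +
          ofR η * s.dr (A.pr (A.rel C1 A0) M.z k) l * x (.inr l)))) (max 1 (η * r ^ 4)) :=
      .le_trans ((nm.add_le _ _).trans (add_le_add (nm.add_le _ _) (nm.sum_le _ _)))
        (.add (((s.var k _ (hφ x hx)).lc.add (h1.trans (lc_nat 4))).trans_le (le_max_left _ _))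
          (.sum fun l _ => .le_trans (nm.add_le _ _) (.add ?_ ?_)))
    · have h4 := h.of_lc hT (nm.nonneg _) (zero_le_one.trans (le_max_left _ _))
        (.le_trans (le_of_eq (congrArg nm ?_)) h3)
      · rcases max_choice 1 (η * r ^ 4) with h5 | h5 <;> rw [h5] at h4
        exacts [(h4.ll hT zero_le_one).one_lt.false, hη' h4]
      · have h5 : ∀ y, Pt y → ev y (xt (nxt s hφ n0 n1 n4 hη η0).ι (A.pr C1 M.z k)) = _ :=
          fun y hy => (congrArg _ (xt_dat s _)).trans (ev_pull hφ hy _)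
        simp only [map_sub, map_sum, ev_smul, h5 x hx, h5 0 Pt.zero, ph_zero, xt_split, map_add,
          ev_cn, Fintype.sum_sum_type, Finset.univ_eq_empty, Finset.sum_empty, ev_ph s hx]
        simp only [nxt, dat, Dat.nu, h2, Core.dr, mul_zero, Finset.sum_const_zero]
        rw [← sub_eq_zero]
        simp only [sub_mul, mul_add, Finset.sum_add_distrib, Finset.sum_sub_distrib, mul_assoc,
          mul_left_comm _ (t / _), mul_left_comm _ (ofR η)]
        ring
    · rw [map_mul, map_mul, nm_ofR_of_nonneg n0.le]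
      refine .trans_le (.le_trans ((mul_le_of_le_one_right (by positivity) (hx _).le).trans
        (mul_le_mul_of_nonneg_left (le_self_pow₀ n3 two_ne_zero) (nm.nonneg _))) (e1 l k))
        (le_max_left _ _)
    · rw [map_mul, map_mul, nm_ofR_of_nonneg η0]
      exact .trans_le (.le_trans (mul_le_of_le_one_right (by positivity) (hx _).le)
        ((hd k l).mul_left η0)) (le_max_right _ _)
  · obtain ⟨m, hm⟩ := rank ht.eq.2 (e := fun m l => ∑ k, co (s.row m k) * μ l k) (fun m l => by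
      have h1 : (if l = m then t else 0) = t / s.ρ l * if l = m then s.ρ l else 0 := by
        simp [div_mul_cancel₀ _ (s.rho_ne l)]
      rw [h1, ← row_dr, Finset.mul_sum, ← Finset.sum_sub_distrib]
      refine .le_trans (nm.sum_le _ _) (.sum zero_le_one fun k _ => ?_)
      rw [← nm.map_neg, show ∀ a b c d e : Cs, -(a * b - c * (a * (d + e))) =
        a * (c * d + (c * e - b)) from fun _ _ _ _ _ => by ring, map_mul]
      refine (lc_co _).mul_inf (.le_trans (nm.add_le _ _) (.add ?_ ?_)) (nm.nonneg _)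
      · rw [map_mul]
        refine (Lc.of_le (((le_mul_of_one_le_right (nm.nonneg _) n3).trans (a1 l)).trans
          (inv_le_one_of_one_le₀ (by nlinarith)))).mul_inf (dd_w s l k) (nm.nonneg _)
      · refine Ll.trans_lc ?_ (e1 l k) zero_le_one
        simpa using (n2.trans_le (le_self_pow₀ n3 two_ne_zero)).mul_left (nm.nonneg _)) v i
    refine hm.trans (.le_trans (le_of_eq (congrArg nm (?_ : _ = ∑ k, co (s.row m k) *
      ∑ j, v j * μ j k))) (.le_trans (nm.sum_le _ _) (.sum fun k _ => ?_)))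
    · simp only [Finset.mul_sum, mul_left_comm]
      exact Finset.sum_comm
    · rw [map_mul]
      simpa using ((lc_co (s.row m k)).mul_right (nm.nonneg _)).trans_le
        ((one_mul _).trans_le (Finset.single_le_sum (f := fun k => nm (∑ j, v j * μ j k))
          (fun _ _ => nm.nonneg _) (Finset.mem_univ k)))

end Pool.Agent.P.MP_f17f76_ag
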