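import Pool.Agent.P.MP_f17f76_ag.S.SpecA

/-!
The fields of the special start.
-/

namespace Pool.Agent.P.MP_f17f76_ag

open Set Module E AbVar Matrix

variable {g N n : ℕ} {A : AbVar g N} {M : Model A} {E₀ : Subfield ℂ} {L C C' X C1 Nn : Sub g}
  {κ : Sub g → ℕ} {c₀ : Fin g → ℂ} {row f : Fin n → Fin g → ℂ} {S : Set ℂ}

theorem Model.Tow.spec_fld (t : M.Tow C' X C1 C) (hc : ∀ k, c₀ k ∈ M.kq C')
    (hz : A.pr (A.rel C1 C') M.z - c₀ ∈ L) (hn : n + finrank ℂ C' = M.H C1 C')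
    (fam : M.Fam κ C' C1 E₀ Nn) (fr : E.Free (M.k0 : Set ℂ) E₀ S) (hS : M.qs ⊤ ⊤ ⊆ S)
    (r1 : ∀ l k, row l k ∈ E₀) (r2 : Submodule.span ℂ (range row) = Nn) (f1 : ∀ l k, f l k ∈ E₀)
    (ex : ∀ v ∈ L, v = ∑ l, (row l ⬝ᵥ v) • f l) {c : Subfield ℂ}
    (e : c = acl ((M.kq C' : Set ℂ) ∪ E₀)) :
    Fld (M.kq C') c ∧ E.Free ((M.k0 : Set ℂ) ∪ M.qs C' C') (M.qs ⊤ ⊤) c ∧
      E.Free (M.k0 : Set ℂ) E₀ (M.kq C') ∧
      (∀ l, row l ∈ A.du (A.rel C1 C')) ∧ (∀ l, row l ∈ A.du C1) ∧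
      (∃ d : Fin g → ℂ, (∀ k, d k ∈ c) ∧ A.pr C1 M.z = d + ∑ l, (row l ⬝ᵥ M.z) • f l) ∧
      Ind (c : Set ℂ) (fun l => row l ⬝ᵥ M.z) ∧
      acl ((c : Set ℂ) ∪ M.qs C1 C') = acl ((c : Set ℂ) ∪ range fun l => row l ⬝ᵥ M.z) ∧
      (∀ D ∈ kil (c : Set ℂ), (∀ l, D (row l ⬝ᵥ M.z) = 0) → D ∈ kil (M.qs C1 C')) ∧
      finrank ℂ (Submodule.span ℂ (row '' univ)) + κ C' = κ C1 ∧ ∀ Q, A.Btw C' Q C1 →
        κ Q ≤ κ C' + finrank ℂ (Submodule.span ℂ (row '' univ) ⊓ ann (A.rel C1 Q) : Sub g) := by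
  have k1 : M.kq C' ≤ c := e ▸ acl_ul _ _
  have k2 : E₀ ≤ c := e ▸ acl_ur _ _
  have k0 : M.k0 ≤ c := (M.fld_kq C').le.trans k1
  have q1 : ∀ {Q₁ Q₂}, A.IsLie Q₁ → A.IsLie Q₂ → M.qs Q₁ Q₂ ⊆ acl ((M.k0 : Set ℂ) ∪ M.qs ⊤ ⊤) :=
    fun l₁ l₂ => M.ov.qq_le' M.ksub l₁ l₂ le_top le_top
  have f2 : E.Free (M.k0 : Set ℂ) E₀ (M.qs ⊤ ⊤) := fr.mono subset_rfl (hS.trans (acl_ur _ _))
  have f3 : E.Free ((M.k0 : Set ℂ) ∪ M.qs C' C') (M.qs ⊤ ⊤) c :=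
    (f2.add_base (q1 t.t'.1 t.t'.1)).symm.mono subset_rfl (e ▸ (acl_acl_union _ _).le)
  have d1 : ∀ l, row l ∈ A.du (A.rel C1 C') := fun l =>
    fam.le_du (r2.le (Submodule.subset_span ⟨l, rfl⟩))
  have d2 : ∀ l, row l ∈ A.du C1 := fun l => A.du_mono (A.rel_le _ _) (d1 l)
  have z1 : A.pr C1 M.z = (A.pr C' M.z + c₀ - ∑ l, (row l ⬝ᵥ c₀) • f l) +
      ∑ l, (row l ⬝ᵥ M.z) • f l := by
    have := ex _ hz
    simp only [dotProduct_sub, A.dot_pr (d1 _), sub_smul, Finset.sum_sub_distrib] at this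
    rw [A.pr_rel t.le'] at this
    linear_combination this
  have z2 : ∀ k, (A.pr C' M.z + c₀ - ∑ l, (row l ⬝ᵥ c₀) • f l) k ∈ c := fun k => by
    simp only [Pi.sub_apply, Pi.add_apply, Finset.sum_apply]
    exact sub_mem (add_mem (k1 (M.qs_kq C' (.inl ⟨k, rfl⟩))) (k1 (hc k))) (sum_mem fun l _ =>
      mul_mem (dot_mem (fun i => k2 (r1 l i)) fun i => k1 (hc i)) (k2 (f1 l k)))
  have a1 : M.qs C1 C' ⊆ acl ((c : Set ℂ) ∪ range fun l => row l ⬝ᵥ M.z) :=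
    union_subset (range_subset_iff.2 fun k => by
      rw [z1, Pi.add_apply, Finset.sum_apply]
      exact add_mem (acl_ul _ _ (z2 k)) (sum_mem fun l _ =>
        mul_mem (acl_ur _ _ ⟨l, rfl⟩) (acl_ul _ _ (k2 (f1 l k)))))
      (((M.as_sub C' C').trans (M.qs_kq C')).trans (Subset.trans k1 (acl_ul _ _)))
  have a2 : (range fun l => row l ⬝ᵥ M.z) ⊆ acl ((c : Set ℂ) ∪ M.qs C1 C') :=
    range_subset_iff.2 fun l => by
      rw [← A.dot_pr (d2 l)]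
      exact dot_mem (fun i => acl_ul _ _ (k2 (r1 l i))) fun i => acl_ur _ _ (.inl ⟨i, rfl⟩)
  have h1 := M.H_free (c := c) t.t' t.le' le_rfl (Subset.trans k1 (subset_acl _))
    (f3.acl_left.acl_base.mono ((q1 t.t1.1 t.t'.1).trans (acl_le (union_subset
      (acl_tl (acl_ul _ _) _) (acl_ur _ _)))) (acl_ur _ _))
  rw [trd_congr a1 a2] at h1
  refine ⟨e ▸ Fld.of_acl ((M.fld_kq C').cnt.union fam.fld.cnt) (acl_ul _ _), f3,
    f2.mono subset_rfl (acl_le (union_subset (acl_ul _ _) (q1 t.t'.1 t.t'.1))), d1, d2, ⟨_, z2, z1⟩,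
    trd_range_eq_iff.1 (by rw [Fintype.card_fin]; omega),
    acl_congr (union_subset (acl_ul _ _) a1) (union_subset (acl_ul _ _) a2),
    fun D hD h => kil_le a1 (by rw [kil_union]; exact ⟨hD, forall_mem_range.2 h⟩), ?_, ?_⟩ <;>
    rw [image_univ, r2]
  · rw [fam.finrank t.t1.1 t.le', add_comm]
  · exact fun Q => fam.rank

/-- A projection onto a subspace over its field of definition. -/
theorem E.Ov.exists_prj {K ι : Type} [Field K] [Fintype ι] {k : Subfield K}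
    {L : Submodule K (ι → K)} (h : Ov k L) : ∃ P : Matrix ι ι K,
      (∀ i j, P i j ∈ k) ∧ (∀ v, P *ᵥ v ∈ L) ∧ ∀ v ∈ L, P *ᵥ v = v := by
  classical
  obtain ⟨L', hL⟩ := L.exists_isCompl
  obtain ⟨φ, h1, h2, h3⟩ := exists_proj k
  refine ⟨of fun i j => φ (L.projection L' hL (Pi.single j 1) i), fun i j => h3 _, fun v => ?_,
    fun v hv => h.le_of (R' := LinearMap.eqLocus (mulVecLin _) LinearMap.id)
      (fun x hx hk => funext fun i => ?_) hv⟩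
  · rw [mulVec_eq_sum]
    exact sum_mem fun j _ => op_smul_eq_smul (v j) (_ : ι → K) ▸
      L.smul_mem _ (h.stable φ h1 (Submodule.projection_apply_mem _ _))
  · have h4 := congrFun (Submodule.projection_apply_of_mem_left hL hx) i
    conv_lhs at h4 => rw [pi_eq_sum_univ' x]
    have h5 := h1 1 _ (hk i)
    rw [one_mul, h2, one_mul] at h5
    conv_lhs at h5 => rw [← h4]
    simp only [map_sum, map_smul, Finset.sum_apply, Pi.smul_apply, smul_eq_mul, mul_comm (x _),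
      h1 _ _ (hk _)] at h5
    exact h5

theorem Model.Tow.spec_proj (t : M.Tow C' X C1 C) (h1 : L ≤ A.rel C1 C') (h3 : Ov M.k0 L)
    (hc : ∀ k, c₀ k ∈ M.kq C') (hz : A.pr (A.rel C1 C') M.z - c₀ ∈ L) :
    ∃ P U : Matrix (Fin g) (Fin g) ℂ, (∀ i j, P i j ∈ M.k0) ∧ (∀ i j, U i j ∈ M.k0) ∧
      (∀ v, P *ᵥ v ∈ L) ∧ (∀ v, A.pr (A.rel C1 C') v = P *ᵥ v + U *ᵥ v) ∧
      (∀ v ∈ L, U *ᵥ v = 0) ∧ (∀ k, U k ∈ A.du (A.rel C1 C')) ∧ ∀ k, U k ⬝ᵥ M.z ∈ M.kq C' := by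
  obtain ⟨P, p1, p2, p3⟩ := h3.exists_prj
  let R := LinearMap.toMatrix' (A.pr (A.rel C1 C'))
  have r1 : ∀ i j, R i j ∈ M.k0 := fun i j => M.ov.pr _ (t.t1.1.rel t.t'.1) j i
  have r2 : ∀ v, R *ᵥ v = A.pr (A.rel C1 C') v := fun v => LinearMap.toMatrix'_mulVec _ _
  have r3 : ∀ i j, (P * R) i j ∈ M.k0 := fun i j =>
    mul_apply (M := P) ▸ sum_mem fun l _ => mul_mem (p1 i l) (r1 l j)
  have r4 : ∀ v, (R - P * R) *ᵥ v = A.pr (A.rel C1 C') v - P *ᵥ A.pr (A.rel C1 C') v := fun v => by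
    rw [sub_mulVec, ← mulVec_mulVec, r2]
  have r5 : ∀ v ∈ L, (R - P * R) *ᵥ v = 0 := fun v hv => by
    rw [r4, A.pr_of_mem (h1 hv), p3 v hv, sub_self]
  have r6 : ∀ k, (R - P * R) k ∈ A.du (A.rel C1 C') := fun k => A.mem_du.2 fun v =>
    congrFun ((r4 _).trans ((by rw [A.pr_pr_of_le le_rfl]) : _ = _) |>.trans (r4 v).symm) k
  refine ⟨P * R, R - P * R, r3, fun i j => sub_mem (r1 i j) (r3 i j), fun v => ?_, fun v => ?_, r5,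
    r6, fun k => ?_⟩
  · rw [← mulVec_mulVec]
    exact p2 _
  · rw [← add_mulVec, add_sub_cancel, r2]
  · rw [← A.dot_pr (r6 k), ← sub_add_cancel (A.pr _ M.z) c₀, dotProduct_add,
      show _ ⬝ᵥ _ = (0 : ℂ) from congrFun (r5 _ hz) k, zero_add]
    exact dot_mem (fun i => (M.fld_kq C').le (sub_mem (r1 k i) (r3 k i))) hc

end Pool.Agent.P.MP_f17f76_ag
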