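import Pool.Agent.P.MP_f17f76_ag.S.Start
import Pool.Agent.P.MP_f17f76_ag.S.SpecB
import Pool.Agent.P.MP_f17f76_ag.S.Vf
import Pool.Agent.P.MP_f17f76_ag.E.Dir
import Pool.Agent.P.MP_f17f76_ag.E.Ext

/-!
The special start.
-/

namespace Pool.Agent.P.MP_f17f76_ag

open Module Set Matrix E N MvPolynomial Filter

noncomputable section

variable {g N : ℕ} {A : AbVar g N} {M : Model A} {B L C' X C1 C : Sub g} {T T₀ : ℝ*}

namespace Spec

theorem dot_vec (u : Fin g → ℂ) (m : ℕ → Fin g → ℂ) :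
    dot u (vec m) = qs fun n => u ⬝ᵥ m n := by
  rw [show (fun n => u ⬝ᵥ m n) = ∑ k, (fun _ => u k) * fun n => m n k from funext fun n => by
    simp [dotProduct], map_sum]
  exact Finset.sum_congr rfl fun k _ => (map_mul qs _ _).symm

theorem lc_dot (u : Fin g → ℂ) {x : Fin g → Cs} {a : ℝ*} (h : ∀ k, Lc (nm (x k)) a) :
    Lc (nm (dot u x)) a :=
  .le_trans (nm.sum_le _ _) (.sum fun k _ => by
    rw [smul_eq_mul, map_mul, ← one_mul a]
    exact (lc_co _).mul (h k) (nm.nonneg _) zero_le_one)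

/-- An internal lattice vector close to a subspace that is not rational. -/
theorem exists_mu (hB : A.IsLie B) (hL : L ≤ B) (h : ¬ A.IsLie L) {p : Fin g → Fin g → ℂ}
    (h1 : ∀ k, p k ∈ ann L) (h2 : ∀ v ∈ B, (∀ k, p k ⬝ᵥ v = 0) → v ∈ L) (hT : Ll 1 T₀) :
    ∃ (T : ℝ*) (μ : Fin g → Cs), T₀ ≤ T ∧ A.Lat B μ ∧ (∀ k, Poly T (nm (μ k))) ∧
      (∀ k, nm (dot (p k) μ) * T ≤ 1) ∧ ∃ k, nm (dot (p k) μ) * T = 1 := by
  obtain ⟨c, K₀, hc⟩ := hB.exists_near hL h
  obtain ⟨κ, hκ⟩ := sr_surj (T₀ ^ 2)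
  have h3 : ∀ n, ∃ μ l, κ n ≥ K₀ → (μ ∈ A.Λ ∧ μ ∈ B) ∧ μ ∉ L ∧ l ∈ L ∧ ‖μ‖ ≤ κ n ^ c ∧
      ‖l - μ‖ * κ n ≤ c := fun n => by
    by_cases h : κ n ≥ K₀
    · obtain ⟨μ, l, h'⟩ := hc _ h
      exact ⟨μ, l, fun _ => h'⟩
    · exact ⟨0, 0, fun h' => (h h').elim⟩
  choose m l hm using h3
  have h4 : T₀ ≤ T₀ ^ 2 := le_self_pow₀ hT.one_lt.le two_ne_zero
  have h5 : ∀ᶠ n in UF, K₀ ≤ κ n := sr_le.1 (by
    rw [← sr_const, hκ]
    exact ((lc_coe K₀).trans_ll hT).le.trans h4)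
  have h6 := h5.mono hm
  have h7 : ∀ k, Ll (nm (dot (p k) (vec m)) * T₀) 1 := fun k => by
    have e : dot (p k) (vec m) = - dot (p k) (vec (l - m)) := by
      rw [dot_vec, dot_vec, ← map_neg]
      exact qs_eq.2 (h6.mono fun n hn => by
        simp [dotProduct_sub, mem_ann.1 (h1 k) _ hn.2.2.1])
    have e' : ∀ i, Lc (nm (vec (l - m) i)) (T₀ ^ 2)⁻¹ := fun i => ⟨c, by
      rw [← div_eq_mul_inv, le_div_iff₀ (pow_pos hT.pos 2), ← hκ, ← coe_nat, sr_const]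
      refine (congrArg (· ≤ _) (map_mul sr (fun n => ‖(l - m) n i‖) κ)).mp
        (sr_le.2 ((h6.and (sr_le.1 (hκ ▸ (pow_pos hT.pos 2).le : sr 0 ≤ sr κ))).mono
          fun n hn => le_trans ?_ hn.1.2.2.2.2))
      exact mul_le_mul_of_nonneg_right (norm_le_pi_norm (l n - m n) i) hn.2⟩
    rw [e, nm.map_neg]
    refine ((lc_dot _ e').mul_right hT.pos.le).trans_ll ?_
    rw [pow_two, mul_inv, mul_assoc, inv_mul_cancel₀ hT.pos.ne', mul_one]
    simpa using hT.inv one_pos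
  have h8 : ∃ k, dot (p k) (vec m) ≠ 0 := by
    by_contra! h8
    simp only [dot_vec, qs_eq_zero] at h8
    obtain ⟨n, h9, h10⟩ := (h6.and (eventually_all.2 h8)).exists
    exact h9.2.1 (h2 _ h9.1.2 h10)
  obtain ⟨k₁, h8⟩ := h8
  have : Nonempty (Fin g) := ⟨k₁⟩
  obtain ⟨k₀, h9⟩ := Finite.exists_max fun k => nm (dot (p k) (vec m))
  have h10 := (nm.pos h8).trans_le (h9 k₁)
  have h11 : T₀ ≤ (nm (dot (p k₀) (vec m)))⁻¹ := by
    rw [← one_div, le_div_iff₀' h10]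
    exact (h7 k₀).le
  refine ⟨_, vec m, h11, hold_vec.2 (h6.mono fun n hn => hn.1), fun k => ⟨2 * c, ?_⟩,
    fun k => by rw [← div_eq_mul_inv, div_le_one h10]; exact h9 k, k₀, mul_inv_cancel₀ h10.ne'⟩
  refine le_trans ?_ (pow_le_pow_left₀ hT.pos.le h11 _)
  rw [pow_mul, ← hκ, ← map_pow]
  exact sr_le.2 (h6.mono fun n hn => (norm_le_pi_norm (m n) k).trans hn.2.2.2.1)

/-- A slowly infinite number. -/
theorem exists_rate (hT : Ll 1 T) : ∃ R, Ll 1 R ∧ Poly T R ∧ ¬ Big T R := by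
  obtain ⟨e, he, -⟩ := exists_slow hT countable_empty (by simp)
  exact ⟨e⁻¹, by simpa using he.2.1.inv he.1, he.poly_inv,
    fun h => he.not_sm ((big_inv he.1).1 h)⟩

/-- New variables with prescribed variation around a large generic centre. -/
theorem exists_new {I σ : Type} [Fintype I] [Finite σ] (hT : Ll 1 T) {c K : Subfield ℂ}
    (hc : (c : Set ℂ).Countable) (hK : c ≤ K) {y : σ → ℂ} (hy : Ind (c : Set ℂ) y)
    (h1 : ∀ l, y l ∈ K) (h2 : K ≤ acl (c ∪ range y)) (e : c →+* Cs) (he : PG T e) (d : σ → H I)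
    (h3 : ∀ l, ev 0 (d l) = 0) (h4 : ∀ l x, Pt x → Poly T (nm (ev x (d l)))) :
    ∃ (ι : K →+* H I) (b : σ → Cs), StabH ι ∧ PG T ((ev 0).comp ι) ∧
      (∀ a ∈ c, xt ι a = cn (xt e a)) ∧ ∀ l, xt ι (y l) = cn (b l) + d l := by
  have : Uncountable ℂ := Complex.ofReal_injective.uncountable
  have : Countable c := hc
  choose k hk using fun l => exists_le_poly hT.one_lt.le (h4 l)
  let r : σ → Cs := fun l => ofR (T ^ (k l + 1))
  have h5 : (range e ∪ range r).Countable := (countable_range _).union (countable_range _)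
  obtain ⟨v, hv⟩ := exists_ind (Pst.countable_res (countable_closure h5)) σ
  have h6 : ∀ c, Pst.r (co c) = c := fun c => (pst_r (lc_co c)).trans (stc_co c)
  have h7 := orth_of_gauss (e := e) (F := .closure (range e ∪ range r)) (l := r)
    (v := fun l => co (v l)) (fun a => Subfield.subset_closure (.inl ⟨a, rfl⟩))
    (fun l => Subfield.subset_closure (.inr ⟨l, rfl⟩)) ⟨fun l => pst_le.2 (lc_co _), by
      rwa [show Pst.r ∘ (fun l => co (v l)) = v from funext fun l => h6 _]⟩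
  have h8 : ∀ l, nm (r l * co (v l)) = T ^ (k l + 1) * ‖v l‖ := fun l => by
    rw [map_mul, nm_ofR_of_nonneg (pow_pos hT.pos _).le, nm_co]
  have h9 : ∀ l, 0 < ‖v l‖ := fun l => norm_pos_iff.2 (hv.ne_zero l)
  have h10 : ∀ l, Lc (T ^ (k l + 1)) (nm (r l * co (v l))) := fun l => by
    simpa only [h8, mul_one] using (lc_one_coe (h9 l)).mul_left (pow_pos hT.pos (k l + 1)).le
  have h11 : ∀ l, r l * co (v l) ≠ 0 := fun l e => by
    obtain ⟨j, hj⟩ := h10 l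
    rw [e, map_zero, mul_zero] at hj
    exact (pow_pos hT.pos _).not_ge hj
  obtain ⟨e', h12, h13⟩ := exists_centre hc hy h11 h7
  have h14 : (ev (0 : I → Cs)).comp (cn.comp e) = e := RingHom.ext fun a => ev_cn _ _
  have h15 : evv 0 (fun l => cn (r l * co (v l)) + d l) = fun l => r l * co (v l) :=
    funext fun l => by simp only [evv, map_add, ev_cn, h3, add_zero]
  obtain ⟨ι, h16, h17, h18, h19, h20⟩ := new_sub hK h1 h2 (stabH_cn (I := I) e)
    (u := fun l => cn (r l * co (v l)) + d l) (fun l => stab_of_rel (h11 l) fun x hx => by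
      rw [map_add, ev_cn, add_sub_cancel_left]
      refine Ll.trans_lc (Ll.le_trans (hk l x hx) ?_) (h10 l) (nm.nonneg _)
      simpa only [mul_one, ← pow_succ] using hT.mul_left (pow_pos hT.pos (k l)).le)
    (by rwa [h14, h15]) ((e' : ℂ →+* Cs).comp K.subtype) (fun a => (h12 a).trans (ev_cn _ _).symm)
    fun l => (h13 l).trans (congrFun h15 l).symm
  refine ⟨ι, _, h16, fun a => ?_, fun a ha => ?_, fun l => (xt_of_mem _ (h1 l)).trans (h18 l)⟩
  · rw [RingHom.comp_apply, h19]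
    refine h20 T hT (by rwa [h14]) (fun l => ?_) a
    rw [show ev 0 (cn (r l * co (v l)) + d l) = _ from congrFun h15 l]
    refine ⟨?_, .inv_of_lc hT (h10 l) (pow_pos hT.pos _) (nm.nonneg _) (poly_of_lc hT
      (.of_le (inv_le_one_of_one_le₀ (one_le_pow₀ hT.one_lt.le))))⟩
    rw [h8]
    exact (poly_pow _).mul hT (poly_of_lc hT (lc_coe _)) (Hyperreal.coe_nonneg.2 (norm_nonneg _))
  · rw [xt_of_mem _ (hK ha), xt_of_mem _ ha]
    exact h17 ⟨a, ha⟩

/-- Standard parameters for an embedding in the ultrapower. -/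
theorem exists_const {k F E₀ c : Subfield ℂ} (hF : Fld k F) (hk : Fld k k)
    (hE : (E₀ : Set ℂ).Countable) {e : F →+* Cs} (he : ∀ a ∈ k, xt e a = co a)
    (h1 : Free (k : Set ℂ) E₀ F) (h2 : Free (k : Set ℂ) E₀ (Pst.res e.fieldRange))
    (hc : c = acl ((F : Set ℂ) ∪ E₀)) :
    ∃ e₁ : c →+* Cs, (∀ a ∈ F, xt e₁ a = xt e a) ∧ ∀ a ∈ E₀, xt e₁ a = co a := by
  subst hc
  have h3 : (ev (0 : Empty → Cs)).comp (cn.comp e) = e := RingHom.ext fun a => ev_cn _ _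
  obtain ⟨ι, -, b1, b2, -⟩ := const_sub hF.cnt hE (hk.acl.le.trans hF.le) (stabH_cn (I := Empty) e)
    (fun a ha => congrArg cn ((xt_of_mem e a.2).symm.trans (he _ (hk.acl.le ha)))) h1 (by rwa [h3])
  refine ⟨(ev 0).comp ι, fun a ha => ?_, fun a ha => ?_⟩
  · rw [xt_of_mem _ (acl_ul _ _ ha), xt_of_mem _ ha]
    exact (congrArg (ev 0) (b1 ⟨a, ha⟩)).trans (ev_cn _ _)
  · rw [xt_of_mem _ (acl_ur _ _ ha)]
    exact (congrArg (ev 0) (b2 ⟨a, acl_ur _ _ ha⟩ (acl_ur _ _ ha))).trans (ev_cn _ _)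

end Spec

open Spec Vf in
theorem s_spec : S_SPEC := fun {g N A} M C' X C1 C t ⟨e, he⟩ hs => by
  obtain ⟨L, c₀, l1, l2, l3, l4, l5, l6, l7⟩ := t.spec_alg hs
  have hX := t.t1.1.rel t.t'.1
  have k1 := M.fld_kq C'
  have : Countable (M.kq C') := k1.cnt
  obtain ⟨E₀, Nn, row, f, f1, f2, f3, f4, f5, f6, f7, f8⟩ := l7 (M.qs ⊤ ⊤ ∪ Pst.res e.fieldRange)
    ((M.finite_qs _ _).countable.union (Pst.countable_res (countable_range _)))
  obtain ⟨c, hc⟩ : ∃ c, c = acl ((M.kq C' : Set ℂ) ∪ E₀) := ⟨_, rfl⟩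
  obtain ⟨a1, a2, a3, a4, a5, ⟨d, a6, a7⟩, a8, a9, a10, a11, a12⟩ :=
    t.spec_fld l4 l5 l6 f1 f2 subset_union_left f3 f4 f5 f8 hc
  obtain ⟨e₁, b3, b4⟩ := exists_const k1 M.fld f1.fld.cnt he.id a3
    (f2.mono subset_rfl (subset_union_right.trans (acl_ur _ _))) hc
  have hE : E₀ ≤ c := hc ▸ acl_ur _ _
  have : Countable c := a1.cnt
  obtain ⟨T₀, hT₀, b5⟩ := exists_pg e₁
  let p : Fin g → Fin g → ℂ := fun k i =>
    A.pr (A.rel C1 C') (Pi.single i 1) k - ∑ l, f l k * row l i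
  have p1 : ∀ k v, p k ⬝ᵥ v = (A.pr (A.rel C1 C') v - ∑ l, (row l ⬝ᵥ v) • f l) k := fun k v => by
    simp only [p, dotProduct, sub_mul, Finset.sum_sub_distrib, Pi.sub_apply, A.pr_apply _ v,
      Finset.sum_apply, Pi.smul_apply, smul_eq_mul, Finset.sum_mul]
    rw [Finset.sum_comm]
    congr 1 <;> simp only [mul_comm, mul_left_comm]
  have p2 : ∀ k, p k ∈ ann L := fun k => mem_ann.2 fun v hv => by
    rw [p1, A.pr_of_mem (l1 hv), ← f8 v hv, sub_self, Pi.zero_apply]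
  have p3 : ∀ k, p k ∈ A.du (A.rel C1 C') := fun k => A.mem_du.2 fun v => by
    simp only [p1, A.pr_pr_of_le le_rfl, A.dot_pr (a4 _)]
  clear_value p
  have p4 : ∀ v ∈ A.rel C1 C', (∀ k, p k ⬝ᵥ v = 0) → v ∈ L := fun v hv h => by
    have h1 : A.pr (A.rel C1 C') v - ∑ l, (row l ⬝ᵥ v) • f l = 0 :=
      funext fun k => (p1 k v).symm.trans (h k)
    rw [← A.pr_of_mem hv, sub_eq_zero.1 h1]
    exact sum_mem fun l _ => L.smul_mem _ (f6 l)
  obtain ⟨T, μ, m1, m2, m3, m4, k₀, m5⟩ := exists_mu hX l1 l3 p2 p4 hT₀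
  have hT : Ll 1 T := hT₀.trans_le m1
  obtain ⟨R, r1, r2, r3⟩ := exists_rate hT
  have r4 : nm (ofR R) = R := nm_ofR_of_nonneg r1.nonneg
  have r5 : nm (ofR T) = T := nm_ofR_of_nonneg hT.nonneg
  let ν : H (Unit ⊕ Fin (finrank ℂ L)) := nuv _ T ()
  have n1 : ∀ x, Pt x → ev x ν = ofR T * x (.inl ()) := fun x hx => by
    simp only [ν, nuv, ev_smul, ev_xc hx]
  have hK : c ≤ acl ((c : Set ℂ) ∪ M.qs C1 C') := acl_ul _ _
  have hy : ∀ l, row l ⬝ᵥ M.z ∈ acl ((c : Set ℂ) ∪ M.qs C1 C') := fun l =>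
    a9.ge (acl_ur _ _ ⟨l, rfl⟩)
  obtain ⟨ι, b, i1, i2, i3, i4⟩ := exists_new hT a1.cnt hK a8 hy a9.le e₁ (b5 T m1)
    (fun l => dot (row l) μ • ν + ofR R • xc (.inr l))
    (fun l => by simp [n1 0 Pt.zero, ev_xc Pt.zero]) fun l x hx => by
      rw [map_add, ev_smul, ev_smul, n1 x hx, ev_xc hx, ← mem_Opoly hT]
      have h1 : ∀ i, x i ∈ Opoly hT := fun i => (mem_Opoly hT).2 (poly_of_lc hT (.of_le (hx i).le))
      exact add_mem (mul_mem (sum_mem fun k _ => mul_mem ((mem_Opoly hT).2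
        (poly_of_lc hT (lc_co _))) ((mem_Opoly hT).2 (m3 k)))
        (mul_mem ((mem_Opoly hT).2 (r5.symm ▸ poly_self)) (h1 _)))
        (mul_mem ((mem_Opoly hT).2 (r4.symm ▸ r2)) (h1 _))
  obtain ⟨s, s1, s2, s3, s4⟩ := he.core t.t' hT t.t1.1 t.le' a1 a2 rfl ι
    (fun a ha => by rw [i3 a (a1.le ha), b3 a ha]) (fun a ha => ⟨_, i3 a ha⟩) i1 i2 hT.pos big_self
    poly_self (π := fun l => .C (b l) + .C (dot (row l) μ) * .X ()) (ρ := fun _ => ofR R) a5
    (fun l k => ⟨hE (f3 l k), by rw [i3 _ (hE (f3 l k)), b4 _ (f3 l k)]⟩)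
    (fun l => by
      simp only [i4, map_add, map_mul, aeval_C, aeval_X, add_assoc, Algebra.smul_def,
        algebraMap_eq_cn, ν])
    (fun _ h => (h.ll hT).not_lc one_pos (r4.symm ▸ r1.lc)) a10 (by simpa using l6)
  have i5 : ∀ a ∈ c, ∀ u : Fin (finrank ℂ L) → ℂ, (∀ l, u l ∈ E₀) → ∃ a',
      xt s.ι (a + ∑ l, (row l ⬝ᵥ M.z) * u l) = cn a' + (∑ l, co (u l) * dot (row l) μ) • ν +
        ofR R • ∑ l, co (u l) • xc (.inr l) := fun a ha u hu => by
    refine ⟨xt e₁ a + ∑ l, b l * co (u l), ?_⟩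
    rw [s1, xt_add _ (hK ha) (sum_mem fun l _ => mul_mem (hy l) (hK (hE (hu l)))),
      xt_sum _ fun l => mul_mem (hy l) (hK (hE (hu l))), i3 a ha]
    simp only [xt_mul _ (hy _) (hK (hE (hu _))), i4, i3 _ (hE (hu _)), b4 _ (hu _), map_add,
      map_sum, map_mul, Algebra.smul_def, algebraMap_eq_cn, add_assoc, Finset.sum_mul,
      Finset.mul_sum, ← Finset.sum_add_distrib]
    exact congrArg _ (Finset.sum_congr rfl fun l _ => by ring)
  refine ⟨T, _, s, R, r1, r2, ⟨fun _ => μ, ⟨le_rfl, fun _ => m2, fun k x hx h => r3 ?_⟩, ?_⟩,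
    ⟨fun l _ => s3 ▸ a5 l, fun l _ => s4 ▸ r4, s3 ▸ a11, s3 ▸ a12, fun u hu hu' l => ?_⟩⟩
  · obtain ⟨a', h1⟩ := i5 _ (a6 k) (fun l => f l k) fun l => f5 l k
    have h2 : μ k - ∑ l, co (f l k) * dot (row l) μ = dot (p k) μ := by
      obtain ⟨m, rfl⟩ := vec_surj μ
      simp only [dot_vec, co_eq, ← map_mul, ← map_sum, MP_f17f76_ag.N.vec, ← map_sub]
      exact qs_eq.2 ((hold_vec.1 m2).mono fun n hn => by
        simp [p1, A.pr_of_mem hn.2, mul_comm])
    have h3 : ∀ x, Pt x → ev x (xt s.ι (A.pr C1 M.z k) - ∑ i : Unit, μ k • s.nu i) =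
        a' - dot (p k) μ * ofR T * x (.inl ()) + ofR R * ∑ l, co (f l k) * x (.inr l) :=
      fun x hx => by
        rw [a7, Pi.add_apply, Finset.sum_apply, ← h2]
        simp only [Pi.smul_apply, smul_eq_mul, h1, map_sub, map_add, ev_cn, ev_smul, map_sum,
          ev_xc hx, Dat.nu, s2, Finset.univ_unique, Finset.sum_singleton, n1 x hx]
        rw [show ev x (nuv _ T default) = _ from n1 x hx]
        ring
    rw [h3 x hx, h3 0 Pt.zero] at h
    simp only [Pi.zero_apply, mul_zero, Finset.sum_const_zero, sub_zero, add_zero] at h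
    rw [show ∀ a b c : Cs, a - b + c - a = c - b from fun a b c => by ring] at h
    refine h.of_lc hT (nm.nonneg _) r1.nonneg (.le_trans (nm.sub_le_add _ _) (.add ?_ ?_))
    · rw [map_mul, r4]
      have h4 : Lc (nm (∑ l, co (f l k) * x (.inr l))) 1 :=
        .le_trans (nm.sum_le _ _) (.sum fun l _ => by
          rw [map_mul]
          exact (lc_co _).mul_one (.of_le (hx _).le) (nm.nonneg _))
      simpa only [mul_one] using h4.mul_left r1.nonneg
    · rw [map_mul, map_mul, r5]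
      exact .of_le ((mul_le_one₀ (m4 k) (nm.nonneg _) (hx _).le).trans r1.le)
  · by_contra! h
    have h1 : ∀ u ∈ Submodule.span ℂ {u | u ∈ ann L ⊓ A.du (A.rel C1 C') ∧ ∀ i, u i ∈ M.k0},
        Tiny T (nm (dot u μ)) := fun u hu => by
      induction hu using Submodule.span_induction with
      | mem u hu =>
        refine h u hu.1.2 hu.2 ?_ ()
        rw [← A.dot_pr hu.1.2, ← sub_add_cancel (A.pr _ M.z) c₀, dotProduct_add,
          mem_ann.1 hu.1.1 _ l5, zero_add]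
        exact dot_mem (fun i => k1.le (hu.2 i)) l4
      | zero => simpa [dot] using tiny_zero
      | add u v _ _ hu hv =>
        refine .of_le hT ?_ (hu.add hT hv)
        simpa only [dot, Pi.add_apply, map_add, add_smul, Finset.sum_add_distrib] using
          nm.add_le _ _
      | smul a u _ hu =>
        refine .of_le hT (le_of_eq ?_) ((poly_of_lc hT (lc_co a)).mul_tiny hT hu (nm.nonneg _))
        simp only [dot, Pi.smul_apply, smul_eq_mul, map_mul co, mul_assoc, ← Finset.mul_sum,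
          map_mul nm]
    have h2 := (h1 _ ((l2.ann.inf (M.ov.ov_du hX)).span_eq.ge ⟨p2 k₀, p3 k₀⟩)).ll_pow hT 1
    rw [pow_one, m5] at h2
    exact h2.self.not_gt one_pos
  · have h1 : ∀ i, u i ∈ E₀ := fun i => f1.fld.le (hu' i)
    obtain ⟨a', h2⟩ := i5 _ (dot_mem (fun i => hE (h1 i)) a6) (fun l => u ⬝ᵥ f l)
      fun l => dot_mem h1 (f5 l)
    have h3 : u ⬝ᵥ M.z = u ⬝ᵥ d + ∑ l, row l ⬝ᵥ M.z * u ⬝ᵥ f l := by
      rw [← A.dot_pr (A.du_mono (A.rel_le _ _) hu), a7, dotProduct_add, dotProduct_sum]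
      simp only [dotProduct_smul, smul_eq_mul]
    rw [Core.dr, h3, h2]
    simp only [map_add, dd_cn, Derivation.map_smul, map_sum, dd_xc, ν, nuv, reduceCtorEq,
      if_false, smul_zero, zero_add, ev_smul, Sum.inr.injEq, smul_ite,
      Finset.sum_ite_eq', Finset.mem_univ, if_true, map_one, mul_one, map_mul, r4]
    simpa only [mul_one] using (lc_co (u ⬝ᵥ f l)).mul_left r1.nonneg


end

end Pool.Agent.P.MP_f17f76_ag
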