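import Pool.Agent.P.MP_f17f76_ag.S.St
import Pool.Agent.P.MP_f17f76_ag.S.Tow
import Pool.Agent.P.MP_f17f76_ag.E.Log

/-!
The first and the last state of the main loop.
-/

namespace Pool.Agent.P.MP_f17f76_ag

open Module Set Matrix E N MvPolynomial

noncomputable section

variable {g N : ℕ} {A : AbVar g N} {M : Model A} {C' Z U : Sub g} {T : ℝ*}

/-- The exponential is invariant under internal lattice vectors. -/
theorem AbVar.Exp.per {x m : Fin g → Cs} {y : Fin N → Cs} (h : A.Exp x y) (hm : m ∈ St A.Λ) :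
    A.Exp (x + m) y := by
  obtain ⟨t, ht⟩ := h
  obtain ⟨u, rfl⟩ := vec_surj x
  obtain ⟨v, rfl⟩ := vec_surj m
  have h1 : ∀ n, ∃ s : ℂ, v n ∈ A.Λ → A.θ (u n) = s • A.θ (u n + v n) := fun n => by
    by_cases h : v n ∈ A.Λ
    · exact ((A.per (u n + v n) (u n)).2 (by simpa using h)).imp fun s hs _ => hs
    · exact ⟨0, fun h' => (h h').elim⟩
  choose s hs using h1
  refine ⟨t * qs s, fun j => ?_⟩
  rw [ht, ← vec_add, app_vec, app_vec, mul_assoc, ← map_mul]
  congr 1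
  exact qs_eq.2 ((st_vec.1 hm).mono fun n hn => by
    simpa using congrFun (hs n hn) j)

theorem AbVar.lat_iff {x : Fin g → Cs} : A.Lat U x ↔ x ∈ St (A.Λ ∩ U : Set _) := Iff.rfl

theorem AbVar.Lat.st {x : Fin g → Cs} (h : A.Lat U x) : x ∈ St A.Λ :=
  (st_inter.1 (AbVar.lat_iff.1 h)).1

/-- An embedding over `k` sends points of a rational subspace to internal points. -/
theorem AbVar.Over.xt_st {k K : Subfield ℂ} (h : A.Over k) (hU : A.IsLie U) (hk : k ≤ K)
    (e : K →+* Cs) (he : ∀ a ∈ k, xt e a = co a) {z : Fin g → ℂ} (hz : z ∈ U)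
    (hK : ∀ i, z i ∈ K) : (fun i => xt e (z i)) ∈ St (U : Set (Fin g → ℂ)) := by
  have h1 : (U : Set (Fin g → ℂ)) = {v | A.pr U v = LinearMap.id (R := ℂ) v} :=
    Set.ext fun v => A.pr_eq_self_iff.symm
  rw [h1, st_eq_iff, lx_id]
  funext j
  have h2 : ∀ i, A.pr U (Pi.single i 1) j ∈ K := fun i => hk (h.pr U hU i j)
  have h3 : (⟨z j, hK j⟩ : K) = ∑ i, ⟨_, h2 i⟩ * ⟨z i, hK i⟩ := Subtype.ext (by
    rw [AddSubmonoidClass.coe_finsetSum]
    exact (congrFun (A.pr_of_mem hz) j).symm.trans ((A.pr_apply U z j).trans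
      (Finset.sum_congr rfl fun i _ => mul_comm _ _)))
  rw [lx_apply, xt_of_mem e (hK j), h3, map_sum]
  refine Finset.sum_congr rfl fun i _ => ?_
  rw [map_mul, ← xt_of_mem, ← xt_of_mem, he _ (h.pr U hU i j)]

/-- A scale dominating countably many numbers. -/
theorem exists_pg {K : Type} [Field K] [Countable K] (e : K →+* Cs) :
    ∃ T₀, Ll 1 T₀ ∧ ∀ T, T₀ ≤ T → PG T e := by
  obtain ⟨c, hc⟩ := exists_gt (A := range (fun a => nm (e a)) ∪ range fun k : ℕ => (k : ℝ*))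
    ((countable_range _).union (countable_range _))
  exact ⟨c, fun k => by simpa using (hc _ (.inr ⟨k, rfl⟩)).le,
    fun T hT a => ⟨1, by simpa using (hc _ (.inl ⟨a, rfl⟩)).le.trans hT⟩⟩

/-- The constructor of states at `(C', Z)`. -/
theorem Model.Sol.core {Jν J : Type} [Fintype Jν] [Fintype J] {e : M.kq C' →+* Cs}
    (he : M.Sol C' e) (hC : M.Tight C') (hT : Ll 1 T) (hZ : A.IsLie Z) (hle : C' ≤ Z)
    {c K : Subfield ℂ} (hc : Fld (M.kq C') c)
    (hf : Free ((M.k0 : Set ℂ) ∪ M.qs C' C') (M.qs ⊤ ⊤) c)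
    (hK : K = acl ((c : Set ℂ) ∪ M.qs Z C')) (ι : K →+* MP_f17f76_ag.N.H (Jν ⊕ J))
    (h0 : ∀ a ∈ M.kq C', xt ι a = cn (xt e a)) (cst : ∀ a ∈ c, ∃ b, xt ι a = cn b)
    (stab : StabH ι) (pg : PG T ((ev 0).comp ι)) {n : ℝ*} (n0 : 0 < n) (n1 : Big T n)
    (n2 : Poly T n) {row : J → Fin g → ℂ} {π : J → MvPolynomial Jν Cs} {ρ : J → Cs}
    (du : ∀ l, row l ∈ A.du Z) (std : ∀ l k, row l k ∈ c ∧ xt ι (row l k) = cn (co (row l k)))
    (coord : ∀ l, xt ι (row l ⬝ᵥ M.z) = aeval (nuv J n) (π l) + ρ l • xc (.inr l))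
    (rho : ∀ l, ¬ Tiny T (nm (ρ l)))
    (basis : ∀ D ∈ kil (c : Set ℂ), (∀ l, D (row l ⬝ᵥ M.z) = 0) → D ∈ kil (M.qs Z C'))
    (count : Fintype.card J + finrank ℂ C' = M.H Z C') :
    ∃ s : Core M C' T Jν J C' Z, (∀ a, xt s.ι a = xt ι a) ∧ s.n = n ∧ s.row = row ∧ s.ρ = ρ := by
  have hz : ∀ k, A.pr C' M.z k ∈ M.kq C' := fun k => M.qs_kq _ (.inl ⟨k, rfl⟩)
  obtain ⟨m, hm, hb⟩ := exists_st_lat A hC.1
    (M.ov.xt_st hC.1 (M.fld_kq C').le e he.id (A.pr_mem C' M.z) hz)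
  have hw : ∀ k, Dat.wt ⟨c, K, ι, n, fun k => C (m k), row, π, ρ⟩ M C' k =
      cn (xt e (A.pr C' M.z k) - m k) := fun k => by
    simp only [Dat.wt, aeval_C, algebraMap_eq_cn, h0 _ (hz k), map_sub]
  refine ⟨{ c := c, K := K, ι := ι, n := n, Lam := fun k => C (m k), row := row, π := π, ρ := ρ
            inf := hT, tight := hC, btw := ⟨hC.1, le_rfl, hle⟩, lie := hZ, fld := hc, free := hf
            hK := hK, id := fun a ha => by rw [h0 a ((M.fld_kq C').le ha), he.id a ha]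
            cst := cst, stab := stab, pg := pg, npos := n0, nlo := n1, nhi := n2
            lat := fun α => ?_, bdd := fun k => ?_, var := fun k x _ => ?_, exp := fun x _ => ?_
            du := du, std := std, coord := coord, rho := rho
            basis := fun D hD h _ => basis D hD h, count := count }, fun _ => rfl, rfl, rfl, rfl⟩
  · classical
    by_cases h : 0 = α
    · simp only [coeff_C, if_pos h]
      exact hm
    · simp only [coeff_C, if_neg h]
      exact st_inter.2 ⟨St.zero A.Λ, St.zero C'⟩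
  · rw [hw, ev_cn]
    exact hb k
  · rw [hw, ev_cn, ev_cn, sub_self, map_zero]
    exact Ll.zero zero_le_one
  · have h1 := he.exp.per (St.neg (st_inter.1 hm).1)
    have h2 : ∀ j, A.crd (A.pr C' M.w) j ∈ M.kq C' := fun j => M.qs_kq _ (.inr ⟨j, rfl⟩)
    simp only [h0 _ (h2 _), ev_cn]
    refine (congrArg (A.Exp · _) (funext fun k => ?_)).mp h1
    simp only [evv, hw, ev_cn, Pi.add_apply, Pi.neg_apply, sub_eq_add_neg]

theorem stabH_cn {K I : Type} [Field K] [Fintype I] (e : K →+* Cs) :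
    StabH ((cn : Cs →+* H I).comp e) := fun _ ha => stab_cn ((map_ne_zero e).2 ha)

theorem xt_cn {K : Subfield ℂ} {I : Type} [Fintype I] (e : K →+* Cs) (a : ℂ) :
    xt ((cn : Cs →+* H I).comp e) a = cn (xt e a) := by
  unfold xt
  split_ifs <;> simp

theorem free_acl (F S : Set ℂ) : Free F S (acl F) := fun _ _ hs =>
  trd_congr_base hs (union_subset (subset_acl _) subset_rfl) (acl_ul _ _)

theorem s_start : S_START := fun {g N A} M C' hC ⟨e, he⟩ => by
  have : Countable (M.kq C') := (M.fld_kq C').cnt.to_subtype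
  obtain ⟨T, hT, hp⟩ := exists_pg e
  have h1 : M.kq C' = acl ((M.kq C' : Set ℂ) ∪ M.qs C' C') :=
    le_antisymm (acl_ul _ _) (acl_le (union_subset subset_rfl (M.qs_kq C')))
  have h2 : PG T ((ev (0 : Empty ⊕ Empty → Cs)).comp (cn.comp e)) := fun a => by
    rw [RingHom.comp_apply, RingHom.comp_apply, ev_cn]
    exact hp T le_rfl a
  have h3 : Fintype.card Empty + finrank ℂ C' = M.H C' C' := by simpa using hC.2.symm
  obtain ⟨s, -⟩ := he.core (Jν := Empty) (J := Empty) hC hT hC.1 le_rfl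
    ⟨(M.fld_kq C').cnt, (M.fld_kq C').acl, le_rfl⟩ (free_acl _ _) h1
    (cn.comp e) (fun a _ => xt_cn e a) (fun a _ => ⟨_, xt_cn e a⟩) (stabH_cn e)
    h2 hT.pos big_self poly_self
    (row := Empty.elim) (π := Empty.elim) (ρ := Empty.elim) (·.elim) (·.elim) (·.elim) (·.elim)
    (fun D hD _ => kil_anti (M.qs_kq C') hD) h3
  exact ⟨T, ⟨s⟩⟩

theorem s_fin : S_FIN := fun {g N A M C' T Jν J _ _ C} s => by
  have hk : M.kq C ≤ s.K := s.hK ▸ acl_le (union_subset
    (((M.fld_kq C').le.trans s.fld.le : M.k0 ≤ s.c).trans' le_rfl |> fun h =>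
      Subset.trans h (acl_ul _ _)) (acl_ur _ _))
  have h1 : ∀ a ∈ M.kq C, xt (((ev 0).comp s.ι).comp (Subfield.inclusion hk)) a =
      ev 0 (xt s.ι a) := fun a ha => by
    rw [xt_of_mem _ ha, xt_of_mem _ (hk ha)]
    rfl
  refine ⟨((ev 0).comp s.ι).comp (Subfield.inclusion hk), fun a ha => ?_, ?_⟩
  · rw [h1 a ((M.fld_kq C).le ha), s.id a ha, ev_cn]
  · have h2 := (s.exp 0 Pt.zero).per (s.lat 0).st
    have h3 : ∀ k, A.pr C M.z k ∈ M.kq C := fun k => M.qs_kq _ (.inl ⟨k, rfl⟩)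
    have h4 : ∀ j, A.crd (A.pr C M.w) j ∈ M.kq C := fun j => M.qs_kq _ (.inr ⟨j, rfl⟩)
    simp only [h1 _ (h3 _), h1 _ (h4 _)]
    refine (congrArg (A.Exp · _) (funext fun k => ?_)).mp h2
    have h5 : evv 0 s.nu = 0 := funext fun i => by
      simp [evv, Dat.nu, nuv, Algebra.smul_def, algebraMap_eq_cn, ev_xc Pt.zero]
    simp only [evv, Dat.wt, map_sub, Pi.add_apply, ev_aeval]
    rw [h5, eval_zero, constantCoeff_eq, sub_add_cancel]

end

end Pool.Agent.P.MP_f17f76_ag
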