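import Pool.Agent.P.MP_f17f76_ag.S.Init
import Pool.Agent.P.MP_f17f76_ag.S.Chain
import Pool.Agent.P.MP_f17f76_ag.S.Vf
import Pool.Agent.P.MP_f17f76_ag.S.Start
import Pool.Agent.P.MP_f17f76_ag.S.Abs
import Pool.Agent.P.MP_f17f76_ag.S.Gf
import Pool.Agent.P.MP_f17f76_ag.S.Hgc
import Pool.Agent.P.MP_f17f76_ag.S.Next
import Pool.Agent.P.MP_f17f76_ag.S.Nu
import Pool.Agent.P.MP_f17f76_ag.S.Spec
import Pool.Agent.P.MP_f17f76_ag.S.End1
import Pool.Agent.P.MP_f17f76_ag.S.End2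

/-!
All steps of the main loop are proved; the full theorem.
-/

namespace Pool.Agent.P.MP_f17f76_ag

theorem steps : Steps :=
  ⟨s_chain, s_der, s_pass, s_start, s_fin, s_abs, s_split, s_gf gfa, s_next, s_nu, s_spec, s_end1,
    s_end2⟩

theorem AbVar.eac {g N : ℕ} (A : AbVar g N) (I : Set (MvPolynomial (Fin g ⊕ Fin N) ℂ))
    (hirr : A.Irred (A.zeroSet I)) (hfree : A.Free (A.zeroSet I))
    (hrot : A.Rotund (A.zeroSet I)) : ∃ z : Fin g → ℂ, (z, z) ∈ A.zeroSet I :=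
  eac_of steps inits A I hirr hfree hrot

end Pool.Agent.P.MP_f17f76_ag
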