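import Pool.Agent.P.MP_f17f76_ag.S.St
import Pool.Agent.P.MP_f17f76_ag.S.Tow

/-!
Bookkeeping of the main loop: the current block and the queue, and their transport.
-/

namespace Pool.Agent.P.MP_f17f76_ag

open Module Set Matrix E N

noncomputable section

namespace Gl

section size

variable {T a b : ℝ*}

theorem nsm_mul (hT : Ll 1 T) (ha : 0 < a) (hb : 0 < b) (h : ¬ Sm T a) (h' : ¬ Sm T b) :
    ¬ Sm T (a * b) := fun e => by
  rcases le_total a b with k | k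
  · exact h (Sm.root (n := 2) (e.of_le hT (sq_nonneg _) (by rw [sq]; gcongr)))
  · exact h' (Sm.root (n := 2) (e.of_le hT (sq_nonneg _) (by rw [sq]; gcongr)))

theorem nbig_mul (ha : 0 ≤ a) (hb : 0 ≤ b) (h : ¬ Big T a) (h' : ¬ Big T b) :
    ¬ Big T (a * b) := fun e => by
  rcases le_total a b with k | k
  · exact h' (Big.root (n := 2) (e.of_le (mul_nonneg ha hb) (by rw [sq]; gcongr)))
  · exact h (Big.root (n := 2) (e.of_le (mul_nonneg ha hb) (by rw [sq]; gcongr)))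

theorem big_mul (ha : 0 < a) (hb : 0 ≤ b) (h : ¬ Sm T a) (h' : Big T b) : Big T (a * b) := by
  by_contra e
  refine nbig_mul (inv_pos.2 ha).le (mul_nonneg ha.le hb) (by rwa [big_inv ha]) e ?_
  rwa [inv_mul_cancel_left₀ ha.ne']

theorem nsm_of_one_le (hT : Ll 1 T) (h : 1 ≤ a) : ¬ Sm T a := fun e =>
  ((e.ll hT).lt one_pos).not_ge h

theorem pos_of_lc (h : Lc a b) (ha : 0 < a) : 0 < b := by
  obtain ⟨k, h⟩ := h
  by_contra e
  exact (ha.trans_le h).not_ge (mul_nonpos_of_nonneg_of_nonpos k.cast_nonneg (not_lt.1 e))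

theorem ntiny_div (hT : Ll 1 T) (h : Slow T a) (hb : 0 < b) (h' : Poly T b) :
    ¬ Tiny T (a / b) :=
  (not_tiny hT (div_pos h.1 hb).le).2 ⟨div_pos h.1 hb, by
    rw [inv_div, div_eq_mul_inv]
    exact h'.mul hT h.poly_inv (inv_pos.2 h.1).le⟩

/-- A slow factor that keeps finitely many larger rates infinite. -/
theorem exists_fac (hT : Ll 1 T) (ha : 0 < a) {S : Set ℕ} {R : ℕ → ℝ*} (h : ∀ i ∈ S, Ll a (R i)) :
    ∃ e, Slow T e ∧ ∀ e', e ≤ e' → ∀ i ∈ S, Ll 1 (e' / a * R i) := by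
  obtain ⟨e, h1, h2⟩ := exists_slow hT ((to_countable S).image fun i => a / R i) (by
    rintro _ ⟨i, hi, rfl⟩
    exact (ll_div (ha.trans_le (h i hi).le)).2 (h i hi))
  refine ⟨e, h1, fun e' he i hi => ?_⟩
  have h3 := ha.trans_le (h i hi).le
  have h4 := ((h2 _ ⟨i, hi, rfl⟩).trans_le he).mul_right (div_pos h3 ha).le
  rwa [div_mul_div_cancel₀ h3.ne', div_self ha.ne', ← mul_div_assoc, ← div_mul_eq_mul_div] at h4

end size

theorem xt_add {K : Subfield ℂ} {R : Type} [CommRing R] (ι : K →+* R) {a b : ℂ} (ha : a ∈ K)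
    (hb : b ∈ K) : xt ι (a + b) = xt ι a + xt ι b := by
  rw [xt_of_mem ι ha, xt_of_mem ι hb, xt_of_mem ι (add_mem ha hb), ← map_add]
  rfl

theorem xt_zero {K : Subfield ℂ} {R : Type} [CommRing R] (ι : K →+* R) : xt ι 0 = 0 :=
  (xt_of_mem ι (zero_mem K)).trans ι.map_zero

variable {g N : ℕ} {A : AbVar g N} {M : Model A} {C' : Sub g} {T : ℝ*} {Jν Jν' J J' : Type}
  [Fintype Jν] [Fintype Jν'] [Fintype J] [Fintype J'] [DecidableEq Jν] [DecidableEq Jν']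
  [DecidableEq J] [DecidableEq J'] {A' Z A'' Z'' U V₁ V₂ V₃ Q : Sub g}
  {s : Core M C' T Jν J A' Z} {s' : Core M C' T Jν' J' A'' Z''} {a η η' R : ℝ*} {κ : Sub g → ℕ}
  {I : Set J} {I' : Set J'} {b : Blk g} {d e : ℕ}

omit [DecidableEq Jν] [DecidableEq J] in
theorem c_le (s : Core M C' T Jν J A' Z) : s.c ≤ s.K := fun _ h => s.hK ▸ acl_ul _ _ h

omit [DecidableEq Jν] [DecidableEq J] in
theorem k0_le (s : Core M C' T Jν J A' Z) : M.k0 ≤ s.K :=
  ((M.fld_kq C').le.trans s.fld.le).trans (c_le s)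

omit [DecidableEq Jν] [DecidableEq J] in
theorem pr_mem (s : Core M C' T Jν J A' Z) (hU : A.IsLie U) (h : U ≤ Z) (k : Fin g) :
    A.pr U M.z k ∈ s.K := by
  rw [← A.pr_pr_of_le h]
  exact M.ov.pr_mem hU (k0_le s) (fun i => s.hK ▸ acl_ur _ _ (.inl ⟨i, rfl⟩)) k

omit [DecidableEq Jν] [DecidableEq J] in
theorem dot_mem (s : Core M C' T Jν J A' Z) {u : Fin g → ℂ} (hu : u ∈ A.du U) (h : U ≤ Z)
    (hk : ∀ k, u k ∈ M.k0) : u ⬝ᵥ M.z ∈ s.K := by
  rw [← A.dot_pr (A.du_mono h hu)]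
  exact sum_mem fun k _ => mul_mem (k0_le s (hk k)) (pr_mem s s.lie le_rfl k)

theorem dd_nu (s : Dat g Jν J) (p : MvPolynomial Jν Cs) (l : J) :
    dd (.inr l) (MvPolynomial.aeval s.nu p) = 0 := by
  induction p using MvPolynomial.induction_on with
  | C a => simp [algebraMap_eq_cn]
  | add p q hp hq => rw [map_add, map_add, hp, hq, add_zero]
  | mul_X p i hp => simp [hp, Dat.nu, nuv, dd_xc]

theorem row_ne (s : Core M C' T Jν J A' Z) (l : J) : s.row l ≠ 0 := fun e => by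
  have h := congrArg (fun f => ev 0 (dd (.inr l) f)) (s.coord l)
  simp only [e, zero_dotProduct, xt_zero, map_zero, map_add, dd_nu, zero_add, Derivation.map_smul,
    dd_xc, if_true, ev_smul, map_one, mul_one] at h
  exact s.rho l (by rw [← h, map_zero]; exact tiny_zero)

theorem empty_of_span (h : Submodule.span ℂ (s.row '' I) = ⊥) (l : J) : l ∉ I := fun hl =>
  row_ne s l (Submodule.span_eq_bot.1 h _ ⟨l, hl, rfl⟩)

theorem grp_empty (h : s.Grp κ U U I R) (l : J) : l ∉ I :=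
  empty_of_span (s := s) (Submodule.finrank_eq_zero.1 (by have := h.card; omega)) l

theorem tr_refl (s : Core M C' T Jν J A' Z) : s.Tr 1 s :=
  ⟨subset_rfl, fun _ _ _ _ h => by simpa only [one_mul] using h⟩

theorem rate_bot (s : Core M C' T Jν J A' Z) (U : Sub g) (a : ℝ*) : s.Rate (A.rel U U) a := by
  intro u hu _ l
  rw [A.rel_self, A.du_bot, Submodule.mem_bot] at hu
  simpa [hu, Core.dr, xt_zero] using Lc.zero a

theorem rate_mono (h : s.Rate U a) (h' : Q ≤ U) {c : ℝ*} (hc : Lc a c) : s.Rate Q c :=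
  fun u hu hk l => (h u (A.du_mono h' hu) hk l).trans hc

theorem rate_trans (h₁ : A.IsLie V₁) (h₂ : A.Btw V₁ V₂ V₃) (h₃ : V₃ ≤ Z)
    (h : s.Rate (A.rel V₂ V₁) a) (h' : s.Rate (A.rel V₃ V₂) a) : s.Rate (A.rel V₃ V₁) a := by
  intro u hu hk l
  let u₁ : Fin g → ℂ := fun j => u ⬝ᵥ A.pr (A.rel V₂ V₁) (Pi.single j 1)
  have e1 : ∀ v, u₁ ⬝ᵥ v = u ⬝ᵥ A.pr (A.rel V₂ V₁) v := fun v => by
    conv_rhs => rw [pi_eq_sum_univ' v, map_sum, dotProduct_sum]
    simp [u₁, dotProduct, mul_comm, Finset.mul_sum, mul_left_comm]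
  have k1 : ∀ j, u₁ j ∈ M.k0 := fun j =>
    sum_mem fun k _ => mul_mem (hk k) (M.ov.pr _ (h₂.1.rel h₁) j k)
  have m1 : u₁ ∈ A.du (A.rel V₂ V₁) := A.mem_du.2 fun v => by rw [e1, e1, A.pr_pr_of_le le_rfl]
  have m2 : u - u₁ ∈ A.du (A.rel V₃ V₂) := A.mem_du.2 fun v => by
    rw [sub_dotProduct, sub_dotProduct, e1, e1, A.pr_eq_zero_iff.2
      (A.perp_anti (A.rel_le V₂ V₁) (A.pr_mem (A.rel V₃ V₂) v).2), ← A.dot_pr hu v,
      A.pr_rel h₂.2.2, A.pr_rel h₂.le, A.pr_rel h₂.2.1]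
    simp
  have k2 : ∀ j, (u - u₁) j ∈ M.k0 := fun j => sub_mem (hk j) (k1 j)
  have e2 : u ⬝ᵥ M.z = u₁ ⬝ᵥ M.z + (u - u₁) ⬝ᵥ M.z := by simp
  rw [e2, Core.dr, xt_add _ (dot_mem s m1 (((A.rel_le _ _).trans h₂.2.2).trans h₃) k1)
    (dot_mem s m2 ((A.rel_le _ _).trans h₃) k2), map_add, map_add]
  exact Lc.le_trans (nm.add_le _ _) ((h _ m1 k1 l).add (h' _ m2 k2 l))

theorem exists_rate (h : s.Less U R) (hR : Ll 1 R) : ∃ r, 1 ≤ r ∧ Ll r R ∧ s.Rate U r := by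
  have : Countable M.k0 := M.fld.cnt.to_subtype
  obtain ⟨c, -, h2, h3⟩ := exists_ll_ge (b := R) (((countable_range fun p : (Fin g → M.k0) × J =>
    nm (s.dr ((fun k => (p.1 k : ℂ)) ⬝ᵥ M.z) p.2)).mono
      (inter_subset_left (t := {x | Ll x R}))).insert 1) hR.pos
    (by rintro _ (rfl | h); exacts [hR, h.2])
  exact ⟨c, (h3 1 (.inl rfl)).le, h2, fun u hu hk l =>
    (h3 _ (.inr ⟨⟨(fun k => ⟨u k, hk k⟩, l), rfl⟩, h u hu hk l⟩)).lc⟩

/-- The rows `I'` of `s'` are the rows `I` of `s`, with rates multiplied by `η`. -/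
def Cor (η : ℝ*) (s : Core M C' T Jν J A' Z) (s' : Core M C' T Jν' J' A'' Z'') (I : Set J)
    (I' : Set J') : Prop :=
  (∀ l' ∈ I', ∃ l ∈ I, s'.row l' = s.row l ∧ nm (s'.ρ l') = η * nm (s.ρ l)) ∧
    ∀ l ∈ I, ∃ l' ∈ I', s'.row l' = s.row l

omit [DecidableEq Jν] [DecidableEq J] [DecidableEq Jν'] [DecidableEq J'] in
theorem Cor.img (h : Cor η s s' I I') : s'.row '' I' = s.row '' I :=
  Subset.antisymm (by
    rintro _ ⟨l', h1, rfl⟩
    obtain ⟨l, h2, h3, -⟩ := h.1 l' h1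
    exact ⟨l, h2, h3.symm⟩) (by
    rintro _ ⟨l, h1, rfl⟩
    exact h.2 l h1)

omit [DecidableEq Jν] [DecidableEq J] [DecidableEq Jν'] in
theorem cor_same {s' : Core M C' T Jν' J A'' Z''}
    (h : ∀ l ∈ I, s'.row l = s.row l ∧ nm (s'.ρ l) = η * nm (s.ρ l)) : Cor η s s' I I :=
  ⟨fun l hl => ⟨l, hl, h l hl⟩, fun l hl => ⟨l, hl, (h l hl).1⟩⟩

theorem rate_tr (h : s.Rate U a) (t : s.Tr η s') (hU : U ≤ Z) (ha : 0 ≤ a) :
    s'.Rate U (η * a) := fun u hu hk => t.der _ (dot_mem s hu hU hk) a ha (h u hu hk)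

theorem grp_tr (h : s.Grp κ V₁ V₂ I R) (t : s.Tr η s') (c : Cor η s s' I I') (hV : V₂ ≤ Z)
    (hR : 0 ≤ R) : s'.Grp κ V₁ V₂ I' (η * R) where
  du l' h1 := let ⟨l, h2, h3, _⟩ := c.1 l' h1; h3 ▸ h.du l h2
  rho l' h1 := let ⟨l, h2, _, h3⟩ := c.1 l' h1; h.rho l h2 ▸ h3
  card := c.img ▸ h.card
  rank := c.img ▸ h.rank
  rate := rate_tr h.rate t ((A.rel_le _ _).trans hV) hR

theorem grp_shift (h : s.Grp κ V₁ V₂ I R) (hQ : V₁ ≤ Q) (e : κ Q = κ V₁) : s.Grp κ Q V₂ I R where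
  du := h.du
  rho := h.rho
  card := e ▸ h.card
  rank W hW := e ▸ h.rank W (hW.mono hQ le_rfl)
  rate := rate_mono h.rate (A.rel_anti _ hQ) (.refl _)

/-- The block with weights multiplied by `η`. -/
def scale (η : ℝ*) (b : Blk g) : Blk g := { b with r := fun j => η * b.r j }

theorem ok_scale (h : b.Ok M κ V₁ V₂) (η : ℝ*) : (scale η b).Ok M κ V₁ V₂ :=
  ⟨h.eq, h.fam, h.fld, h.free, h.det, h.mem⟩

theorem has_tr (h : s.Has b I d) (t : s.Tr η' s') (c : Cor η s s' I I') (hB : A.IsLie b.B)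
    (hZ : b.B ≤ Z) (hr : ∀ j, 0 ≤ b.r j) (h0 : 0 ≤ η) (h1 : η ≤ 1) (h2 : η' ≤ η * T ^ e) :
    s'.Has (scale η b) I' (d + e) := by
  refine ⟨fun i j => t.std (h.std i j), fun l' h3 => ?_, ?_, fun l' h3 j h4 => ?_, fun j l => ?_,
    fun j => (h.poly j).of_le (mul_le_of_le_one_left (hr j) h1)⟩
  · obtain ⟨l, h4, h5, -⟩ := c.1 l' h3
    rw [h5]
    exact h.mem l h4
  · rw [c.img]
    exact h.span
  · obtain ⟨l, h5, h6, h7⟩ := c.1 l' h3
    rw [h6] at h4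
    rw [h7]
    exact (h.ent l h5 j h4).mul_left h0
  · have h3 := mul_nonneg (pow_pos s.inf.pos d).le (hr j)
    have h4 : (b.G⁻¹ *ᵥ A.pr b.B M.z) j ∈ s.K := by
      rw [mulVec, dotProduct]
      exact sum_mem fun k _ => mul_mem (c_le s (h.std j k).1) (pr_mem s hB hZ k)
    refine (t.der _ h4 _ h3 (h.bd j) l).trans_le ((mul_le_mul_of_nonneg_right h2 h3).trans_eq ?_)
    simp only [scale]
    ring

theorem has_mono (h : s.Has b I d) (hr : ∀ j, 0 ≤ b.r j) (he : d ≤ e) : s.Has b I e :=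
  ⟨h.std, h.mem, h.span, h.ent, fun j l => (h.bd j l).trans_le
    (mul_le_mul_of_nonneg_right (s.inf.pow_le he) (hr j)), h.poly⟩

theorem has_empty (h : s.Has b I d) (o : b.Ok M κ U U) (l : J) : l ∉ I := by
  obtain ⟨kb, x, -, -, -, h1, -⟩ := o.fam
  refine empty_of_span (s := s) (eq_bot_iff.2 ?_) l
  rw [h.span, h1, ← A.du_bot, ← A.rel_self U]
  exact A.con_le _ _ _

/-- The current block: groups `i ∈ [p, q)` on `[V i, V (i+1)]` with rates `R i`. -/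
structure Cur (κ : Sub g → ℕ) (s : Core M C' T Jν J A' Z) (p q : ℕ) (V : ℕ → Sub g)
    (R : ℕ → ℝ*) (ϱ : ℝ*) (lab : J → ℕ ⊕ ℕ) : Prop where
  pq : p ≤ q
  mono : Monotone V
  lie : ∀ i, A.IsLie (V i)
  ne : ∀ i, p < i → i < q → V i ≠ V q
  grp : ∀ i, p ≤ i → i < q → s.Grp κ (V i) (V (i + 1)) {l | lab l = .inl i} (R i)
  inf : ∀ i, p ≤ i → i < q → Ll 1 (R i)
  sep : ∀ i i', p ≤ i → i < i' → i' < q → Ll (R i) (R i')
  top : ∀ i, p ≤ i → i + 1 = q → R i = ϱ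
  poly : Poly T ϱ
  pos : 0 < ϱ
  low : ¬ Sm T ϱ

/-- The queue: blocks `t ∈ [t0, t1)` on `[W t, W (t+1)]` with reserved exponents `D t`. -/
structure Que (κ : Sub g → ℕ) (f : ℕ → ℕ) (s : Core M C' T Jν J A' Z) (t0 t1 : ℕ)
    (W : ℕ → Sub g) (B : ℕ → Blk g) (D : ℕ → ℕ) (ϱ : ℝ*) (lab : J → ℕ ⊕ ℕ) : Prop where
  tt : t0 ≤ t1
  mono : Monotone W
  lie : ∀ t, A.IsLie (W t)
  pos : 0 < ϱ
  ok : ∀ t, t0 ≤ t → t < t1 → (B t).Ok M κ (W t) (W (t + 1))
  has : ∀ t, t0 ≤ t → t < t1 → ∃ d, d + ∑ u ∈ Finset.Ico t0 t, f (D u) ≤ D t ∧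
    s.Has (B t) {l | lab l = .inr t} d
  saf : ∀ t, t0 ≤ t → t < t1 → ∀ j, Lc (T ^ (f (D t) + 1) * ϱ) ((B t).r j)
  gap : ∀ u t, t0 ≤ u → u < t → t < t1 → ∀ i j,
    Lc (T ^ (2 * f (D u) + f (D t) + 1) * (B u).r i) ((B t).r j)

variable {p p' q t0 t0' t1 : ℕ} {V W : ℕ → Sub g} {Rt : ℕ → ℝ*} {ϱ ϱ' : ℝ*} {lab : J → ℕ ⊕ ℕ}
  {lab' : J' → ℕ ⊕ ℕ} {f D : ℕ → ℕ} {B : ℕ → Blk g}

theorem Cur.le (h : Cur κ s p q V Rt ϱ lab) {i i' : ℕ} (h1 : p ≤ i) (h2 : i ≤ i') (h3 : i' < q) :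
    Rt i ≤ Rt i' := h2.eq_or_lt.elim (fun e => e ▸ le_rfl) fun e => (h.sep i i' h1 e h3).le

theorem Cur.le_top (h : Cur κ s p q V Rt ϱ lab) {i : ℕ} (h1 : p ≤ i) (h2 : i < q) : Rt i ≤ ϱ :=
  (h.le (i' := q - 1) h1 (by omega) (by omega)).trans_eq (h.top _ (by omega) (by omega))

theorem Cur.tr (h : Cur κ s p q V Rt ϱ lab) (t : s.Tr η s') (h1 : p ≤ p') (h2 : p' ≤ q)
    (c : ∀ i, p' ≤ i → i < q → Cor η s s' {l | lab l = .inl i} {l | lab' l = .inl i})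
    (hZ : V q ≤ Z) (h3 : 0 < η) (h4 : η ≤ 1) (h5 : ∀ i, p' ≤ i → i < q → Ll 1 (η * Rt i))
    (h6 : ¬ Sm T (η * ϱ)) : Cur κ s' p' q V (fun i => η * Rt i) (η * ϱ) lab' where
  pq := h2
  mono := h.mono
  lie := h.lie
  ne i a b := h.ne i (h1.trans_lt a) b
  grp i a b := grp_tr (h.grp i (h1.trans a) b) t (c i a b) ((h.mono b).trans hZ)
    (h.inf i (h1.trans a) b).pos.le
  inf := h5
  sep i i' a b c := (h.sep i i' (h1.trans a) b c).mul_left h3.le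
  top i a b := congrArg _ (h.top i (h1.trans a) b)
  poly := h.poly.of_le (mul_le_of_le_one_left h.pos.le h4)
  pos := mul_pos h3 h.pos
  low := h6

theorem Cur.shift (h : Cur κ s p q V Rt ϱ lab) (h1 : p < q) (hQ : A.Btw (V p) Q (V (p + 1)))
    (e : κ Q = κ (V p)) : Cur κ s p q (fun i => if i ≤ p then Q else V i) Rt ϱ lab where
  pq := h.pq
  mono i i' a := by
    dsimp only
    split_ifs with b c
    exacts [le_rfl, hQ.2.2.trans (h.mono (by omega)), by omega, h.mono a]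
  lie i := by
    split_ifs
    exacts [hQ.1, h.lie i]
  ne i a b := by
    rw [if_neg a.not_ge, if_neg h1.not_ge]
    exact h.ne i a b
  grp i a b := by
    rw [if_neg (by omega : ¬ i + 1 ≤ p)]
    split_ifs with c
    · obtain rfl : i = p := le_antisymm c a
      exact grp_shift (h.grp i a b) hQ.2.1 e
    · exact h.grp i a b
  inf := h.inf
  sep := h.sep
  top := h.top
  poly := h.poly
  pos := h.pos
  low := h.low

theorem Cur.rate (h : Cur κ s p q V Rt ϱ lab) (hZ : V q ≤ Z) {i : ℕ} (h1 : p ≤ i) (h2 : i ≤ q) :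
    s.Rate (A.rel (V i) (V p)) ϱ := by
  induction i, h1 using Nat.le_induction with
  | base => exact rate_bot s _ _
  | succ i a b =>
    exact rate_trans (h.lie p) ⟨h.lie i, h.mono a, h.mono i.le_succ⟩ ((h.mono h2).trans hZ)
      (b (by omega)) (rate_mono (h.grp i a h2).rate le_rfl (.of_le (h.le_top a h2)))

theorem Que.rpos (h : Que κ f s t0 t1 W B D ϱ lab) {t : ℕ} (h1 : t0 ≤ t) (h2 : t < t1)
    (j : Fin g) : 0 < (B t).r j :=
  pos_of_lc (h.saf t h1 h2 j) (mul_pos (pow_pos s.inf.pos _) h.pos)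

theorem Que.tr (h : Que κ f s t0 t1 W B D ϱ lab) (t : s.Tr η' s') (h1 : t0 ≤ t0') (h2 : t0' ≤ t1)
    (c : ∀ t, t0' ≤ t → t < t1 → Cor η s s' {l | lab l = .inr t} {l | lab' l = .inr t})
    (hZ : W t1 ≤ Z) (h3 : 0 ≤ η) (h4 : η ≤ 1) (h5 : η' ≤ η * T ^ e)
    (h6 : e ≤ ∑ u ∈ Finset.Ico t0 t0', f (D u)) (h7 : 0 < ϱ')
    (h8 : ∀ t, t0' ≤ t → t < t1 → ∀ j, Lc (T ^ (f (D t) + 1) * ϱ') (η * (B t).r j)) :
    Que κ f s' t0' t1 W (fun t => scale η (B t)) D ϱ' lab' where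
  tt := h2
  mono := h.mono
  lie := h.lie
  pos := h7
  ok t a b := ok_scale (h.ok t (h1.trans a) b) η
  has u a b := by
    obtain ⟨d, k1, k2⟩ := h.has u (h1.trans a) b
    have k3 := (h.ok u (h1.trans a) b).eq
    refine ⟨d + e, ?_, has_tr k2 t (c u a b) (k3 ▸ (h.lie _).rel (h.lie _))
      (k3 ▸ ((A.rel_le _ _).trans (h.mono b)).trans hZ) (fun j => (h.rpos (h1.trans a) b j).le)
      h3 h4 h5⟩
    rw [← Finset.sum_Ico_consecutive _ h1 a] at k1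
    omega
  saf := h8
  gap u t a b c i j := by
    simpa only [scale, mul_left_comm η] using (h.gap u t (h1.trans a) b c i j).mul_left h3

theorem Que.scale (h : Que κ f s t0 t1 W B D ϱ lab) (t : s.Tr η s')
    (c : ∀ t, t0 ≤ t → t < t1 → Cor η s s' {l | lab l = .inr t} {l | lab' l = .inr t})
    (hZ : W t1 ≤ Z) (h3 : 0 < η) (h4 : η ≤ 1) :
    Que κ f s' t0 t1 W (fun t => scale η (B t)) D (η * ϱ) lab' :=
  h.tr (e := 0) t le_rfl h.tt c hZ h3.le h4 (by simp) (Nat.zero_le _) (mul_pos h3 h.pos)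
    fun t a b j => by simpa only [mul_left_comm η] using (h.saf t a b j).mul_left h3.le

theorem Que.exists_bd (h : Que κ f s t0 t1 W B D ϱ lab) (hp : Poly T ϱ) : ∃ m : ℕ, ϱ ≤ T ^ m ∧
    ∀ u, t0 ≤ u → u < t1 → ∀ i, T ^ (2 * f (D u)) * (B u).r i ≤ T ^ m := by
  obtain ⟨m, hm⟩ := Poly.unif s.inf (f := fun x : Option (Set.Ico t0 t1 × Fin g) =>
    x.elim ϱ fun x => T ^ (2 * f (D x.1)) * (B x.1).r x.2) (by
      rintro (_ | ⟨⟨u, a, b⟩, i⟩)
      exacts [hp, (poly_pow _).mul s.inf ((h.has u a b).choose_spec.2.poly i) (h.rpos a b i).le])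
  exact ⟨m, hm none, fun u a b i => hm (some (⟨u, a, b⟩, i))⟩

theorem Que.app (h : Que κ f s t0 t1 W B D ϱ lab) (o : b.Ok M κ (W t1) U) (hU : A.IsLie U)
    (h1 : W t1 ≤ U) (h2 : s.Has b {l | lab l = .inr t1} d) {m : ℕ} (h3 : ϱ ≤ T ^ m)
    (h4 : ∀ u, t0 ≤ u → u < t1 → ∀ i, T ^ (2 * f (D u)) * (B u).r i ≤ T ^ m)
    (h5 : ∀ j, T ^ (f (d + ∑ u ∈ Finset.Ico t0 t1, f (D u)) + 1 + m) ≤ b.r j) :
    Que κ f s t0 (t1 + 1) (fun t => if t ≤ t1 then W t else U) (fun t => if t < t1 then B t else b)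
      (fun t => if t < t1 then D t else d + ∑ u ∈ Finset.Ico t0 t1, f (D u)) ϱ lab where
  tt := h.tt.trans t1.le_succ
  mono i i' a := by
    dsimp only
    split_ifs with b c
    exacts [h.mono a, (h.mono b).trans h1, by omega, le_rfl]
  lie i := by
    split_ifs
    exacts [h.lie i, hU]
  pos := h.pos
  ok t a b := by
    rcases (Nat.le_of_lt_succ b).eq_or_lt with rfl | c
    · simpa using o
    · simpa [c, c.le, Nat.succ_le_of_lt c] using h.ok t a c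
  has t a b := by
    have e : ∑ u ∈ Finset.Ico t0 t, f (if u < t1 then D u else d + ∑ u ∈ Finset.Ico t0 t1, f (D u))
        = ∑ u ∈ Finset.Ico t0 t, f (D u) := Finset.sum_congr rfl fun u hu => by
      rw [if_pos (by have := (Finset.mem_Ico.1 hu).2; omega)]
    rw [e]
    rcases (Nat.le_of_lt_succ b).eq_or_lt with rfl | c
    · exact ⟨d, by simp, by simpa using h2⟩
    · simpa [c] using h.has t a c
  saf t a b j := by
    rcases (Nat.le_of_lt_succ b).eq_or_lt with rfl | c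
    · simp only [lt_self_iff_false, if_false]
      refine .of_le (le_trans ?_ (h5 j))
      rw [pow_add _ _ m]
      exact mul_le_mul_of_nonneg_left h3 (pow_pos s.inf.pos _).le
    · simpa only [c, if_true] using h.saf t a c j
  gap u t a b c i j := by
    have k : u < t1 := by omega
    rcases (Nat.le_of_lt_succ c).eq_or_lt with rfl | c
    · simp only [lt_self_iff_false, if_false, k, if_true]
      refine .of_le (le_trans ?_ (h5 j))
      rw [pow_add _ _ m, add_assoc, add_comm, pow_add, mul_assoc]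
      exact mul_le_mul_of_nonneg_left (h4 u a k i) (pow_pos s.inf.pos _).le
    · simpa only [c, k, if_true] using h.gap u t a b c i j

end Gl

end

end Pool.Agent.P.MP_f17f76_ag
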