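import Pool.Agent.P.MP_f17f76_ag.S.St
import Pool.Agent.P.MP_f17f76_ag.E.Pift
import Pool.Agent.P.MP_f17f76_ag.E.Hol3
import Pool.Agent.P.MP_f17f76_ag.E.Hol4

/-!
Change of the spatial coordinates.
-/

namespace Pool.Agent.P.MP_f17f76_ag

open Set N MvPolynomial

noncomputable section

variable {T : ℝ*} {Jν J : Type} [Fintype Jν] [Fintype J] [DecidableEq Jν] [DecidableEq J]

theorem N.exists_taylor (hT : Ll 1 T) {g : H Jν} (h : ∀ x, Pt x → Poly T (nm (ev x g))) {b : ℝ*}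
    (h0 : 0 ≤ b) (hb : Sm T b) (m : ℕ) : ∃ P : MvPolynomial Jν Cs, eval 0 P = ev 0 g ∧
      ∀ x, (∀ i, nm (x i) ≤ b) → Ll (nm (ev x g - eval x P) * T ^ m) 1 := by
  obtain ⟨k, hk⟩ := exists_le_poly hT.one_lt.le h
  obtain ⟨d, hd⟩ := (hb.mul_lc hT (lc_nat 6) h0 (by positivity)).pow_le hT (by positivity)
    (k + m + 1)
  refine ⟨∑ j ∈ Finset.range (d + 1), ∑ σ : Fin j → Jν,
    C (ev 0 (dw (List.ofFn σ) g) / j.factorial) * ∏ l, X (σ l), ?_, fun x hx => ?_⟩
  · simp [Finset.sum_range_succ', Fin.prod_univ_succ, dw]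
  have h1 := taylor hk h0 (by simpa using (hb.ll hT).le_coe (δ := 1 / 12) (by norm_num)) hx (d + 1)
  have h2 := hd _ d.le_succ
  have hT0 := hT.pos
  simp only [map_sum, map_mul, eval_C, map_prod, eval_X]
  refine .le_trans (mul_le_mul_of_nonneg_right h1 (by positivity)) (Lc.trans_ll (b := T⁻¹) ⟨6, ?_⟩
    (by simpa using hT.inv one_pos))
  rw [← div_eq_mul_inv, le_div_iff₀ hT0]
  calc _ = 6 * ((b * (6 : ℕ)) ^ (d + 1) * T ^ (k + m + 1)) := by push_cast; ring
    _ ≤ _ := by simpa using h2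

theorem chg (hT : Ll 1 T) {Y n ε η : ℝ*} (I : Set J) [DecidablePred (· ∈ I)]
    (f : I → H (Jν ⊕ J)) (a : I → I → H (Jν ⊕ J)) (w : I → Cs) (n0 : 0 < n) (n1 : Big T n)
    (hY : 1 ≤ Y) (hY' : Poly T Y) (hε : 0 ≤ ε) (hε' : Ll (ε * (Y ^ 2 * T)) 1) (hη : 0 ≤ η)
    (hη' : Ll (η * (Y ^ 2 * T)) 1)
    (h1 : ∀ s m : I, ∑ k, a s k * dd (.inr m.1) (f k) = if s = m then 1 else 0)
    (h2 : ∀ x y, Pt x → Pt y → ∀ s l,
      Lc (nm (∑ k, ev x (a s k) * ev y (dd (.inr l) (f k)))) Y)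
    (h3 : ∀ x, Pt x → ∀ s k, Lc (nm (ev x (a s k) * w k)) Y)
    (ha : ∀ s k x, Pt x → Poly T (nm (ev x (a s k))))
    (hf : ∀ k x, Pt x → Poly T (nm (ev x (f k)))) :
    ∃ (φ : Jν ⊕ J → H (Jν ⊕ J)) (n' : ℝ*) (π : I → MvPolynomial Jν Cs), Maps φ ∧ evv 0 φ = 0 ∧
      0 < n' ∧ n' ≤ n ∧ Big T n' ∧ (∀ i, pull φ (nuv J n i) = nuv J n' i) ∧
      (∀ l ∉ I, φ (.inr l) = cn (ofR η) * xc (.inr l)) ∧
      ∀ k, pull φ (f k) = aeval (nuv J n') (π k) + (ofR ε * w k) • xc (.inr k.1) := by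
  have hT0 := hT.pos
  have hY0 := one_pos.trans_le hY
  have hYT : Ll 1 (Y * T) := hT.trans_le (le_mul_of_one_le_left hT0.le hY)
  obtain ⟨n', p0, rfl⟩ := exists_root_pos n0 two_ne_zero
  have p1 : Big T n' := n1.root
  have p2 : Sm T n'⁻¹ := (sm_inv p0).2 p1
  have hδ : Ll (Y * T)⁻¹ 1 := by simpa using hYT.inv one_pos
  have hη1 : Ll η 1 := .le_trans (le_mul_of_one_le_right hη
    (one_le_mul_of_one_le_of_one_le (one_le_pow₀ hY) hT.one_lt.le)) hη'
  let e : ℝ* → Jν ⊕ J → Cs := fun d => Sum.elim (fun _ => ofR n'⁻¹)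
    fun l => if l ∈ I then ofR d else ofR η
  let τ : Jν ⊕ J → I ⊕ (Jν ⊕ J) := Sum.elim (fun i => .inr (.inl i))
    fun l => if h : l ∈ I then .inl ⟨l, h⟩ else .inr (.inr l)
  have he : ∀ d, 0 ≤ d → Ll d 1 → ∀ i, Ll (nm (e d i)) 1 := fun d h h' i => by
    rcases i with i | l
    · simpa [e, abs_of_pos p0] using p2.ll hT
    · simp only [e, Sum.elim_inr]
      split_ifs
      · rwa [nm_ofR_of_nonneg h]
      · rwa [nm_ofR_of_nonneg hη]
  have hm : ∀ {W : Type} [Fintype W] (σ : Jν ⊕ J → W) d, 0 ≤ d → Ll d 1 → Maps (aff 0 (e d) σ) :=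
    fun σ d h h' => maps_aff σ Pt.zero fun i => by simpa using (he d h h' i).le
  have hδ0 : 0 < (Y * T)⁻¹ := by positivity
  have m0 := hm τ 0 le_rfl (.zero zero_le_one)
  have m1 := hm τ _ hδ0.le hδ
  have m2 := hm id 0 le_rfl (.zero zero_le_one)
  have hd : ∀ d, Maps (aff 0 (e d) τ) → ∀ (s : I) g, dd (.inl s) (pull (aff 0 (e d) τ) g) =
      cn (ofR d) * pull (aff 0 (e d) τ) (dd (.inr s) g) := fun d h s g => by
    rw [dd_pull_aff h, Finset.sum_eq_single (.inr s.1) (fun i _ hi => if_neg fun h' => ?_) (by simp)]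
    · simp [τ, e]
    · rcases i with i | l
      · simp [τ] at h'
      · by_cases hl : l ∈ I <;> simp [τ, hl] at h'
        exact hi (congrArg _ (congrArg Subtype.val h'))
  -- uniform bounds and Taylor polynomials
  obtain ⟨k₁, hk₁⟩ : ∃ k : ℕ, ∀ s j, Le (a s j) (T ^ k) := by
    choose κ hκ using fun p : I × I => exists_le_poly hT.one_lt.le (ha p.1 p.2)
    obtain ⟨k, hk⟩ := Poly.unif hT fun p => poly_pow (T := T) (κ p)
    exact ⟨k, fun s j => (hκ (s, j)).mono (hk _)⟩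
  obtain ⟨k₂, hk₂⟩ := hY'
  have m3 : Maps (Sum.elim xc 0 : Jν ⊕ J → H Jν) :=
    maps_elim (maps_xc id) fun x _ i => by simp [evv]
  have e3 : ∀ x, Pt x → ∀ g, ev x (pull (Sum.elim xc 0 : Jν ⊕ J → H Jν) g) =
      ev (Sum.elim x 0) g := fun x hx g => by
    rw [ev_pull m3 hx, evv_sum_elim, evv_xc hx]
    congr 3
  choose P hP0 hP using fun k => exists_taylor hT (g := pull (Sum.elim xc 0) (f k))
    (fun x hx => by rw [e3 x hx]; exact hf k _ (pt_elim hx Pt.zero)) (inv_pos.2 p0).le p2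
    (k₂ + 1 + k₁)
  let π : I → MvPolynomial Jν Cs := fun k => bind₁ (fun i => C (ofR (n' ^ 2))⁻¹ * X i) (P k)
  let y : (Jν ⊕ J → Cs) → Jν ⊕ J → Cs := fun x i => e 0 i * x i
  have hn : ofR n' ≠ 0 := (map_ne_zero _).2 p0.ne'
  have hπ : ∀ x, Pt x → ∀ k, ev x (aeval (nuv J n') (π k)) = eval (fun i => y x (.inl i)) (P k) :=
    fun x hx k => by
      rw [aeval_bind₁, ev_aeval]
      congr 2
      ext i
      simp [y, e, evv, nuv, ev_xc hx, algebraMap_eq_cn]
      field_simp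
  have hy : ∀ x, Pt x → evv x (aff 0 (e 0) id) = y x := fun x hx => by
    rw [evv_aff _ _ _ hx]; ext i; simp [y]
  have hy0 : ∀ p x, Pt p → Pt x → evv (Sum.elim p x) (aff 0 (e 0) τ) = y x := fun p x hp hx => by
    rw [evv_aff _ _ _ (pt_elim hp hx)]
    ext (i | l)
    · simp [y, τ]
    · by_cases hl : l ∈ I <;> simp [y, τ, e, hl]
  have hy1 : ∀ x, Pt x → evv (Sum.elim 0 x) (aff 0 (e (Y * T)⁻¹) τ) = y x := fun x hx => by
    rw [evv_aff _ _ _ (pt_elim Pt.zero hx)]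
    ext (i | l)
    · simp [y, τ, e]
    · by_cases hl : l ∈ I <;> simp [y, τ, e, hl]
  have hyp : ∀ x, Pt x → Pt (y x) := fun x hx => by rw [← hy x hx]; exact m2 x hx
  let q : I → H (Jν ⊕ J) := fun k => aeval (nuv J n') (π k) + (ofR ε * w k) • xc (.inr k.1)
  let Φ : I → H (I ⊕ (Jν ⊕ J)) := fun s => ofR (Y * T) •
    ∑ k, pull (aff 0 (e 0) τ) (a s k) * pull (aff 0 (e (Y * T)⁻¹) τ) (f k)
  let t : I → H (Jν ⊕ J) := fun s => ofR (Y * T) • ∑ k, pull (aff 0 (e 0) id) (a s k) * q k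
  let δ : ℝ := (2 * (Fintype.card I + 1) : ℝ)⁻¹
  have hδ' : Fintype.card I * (δ : ℝ*) ≤ 1 / 2 := by
    have : Fintype.card I * δ ≤ 1 / 2 := by
      rw [← div_eq_mul_inv, div_le_div_iff₀ (by positivity) two_pos]; linarith
    simpa [coe_nat] using Hyperreal.coe_le_coe.2 this
  have hc : ofR (Y * T) * ofR (Y * T)⁻¹ = 1 := by
    rw [← map_mul, mul_inv_cancel₀ hYT.pos.ne', map_one]
  have hs : ∀ i, ∀ x : Cs, nm x < 1 → nm (e 0 i * x) ≤ 1 / 2 := fun i x hx => by
    rw [map_mul]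
    refine (mul_le_of_le_one_right (nm.nonneg _) hx.le).trans ?_
    simpa using (he 0 le_rfl (.zero zero_le_one) i).le_coe (δ := 1 / 2) one_half_pos
  have H1 : ∀ s s', Le (dd (.inl s') (Φ s) - if s = s' then 1 else 0) δ := fun s s' x hx => by
    obtain ⟨c, hc'⟩ := exists_le_lc (g := ∑ k, cn (ev (evv x (aff 0 (e 0) τ)) (a s k)) *
      dd (.inr s'.1) (f k)) hY0.le fun z hz => by simpa using h2 _ z (m0 x hx) hz s s'
    have := hc'.schwarz (x := evv x (aff 0 (e 0) τ)) (y := evv x (aff 0 (e (Y * T)⁻¹) τ))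
      (ρ := 1 / 2) (r := (Y * T)⁻¹) (fun i => by simpa [evv_aff _ _ _ hx] using hs i _ (hx _))
      (fun i => ?_) one_half_pos.le hδ0.le (by
        have := hδ.le_coe (δ := 1 / 4) (by norm_num)
        push_cast at this
        linarith)
    · have e1 := congrArg (ev (evv x (aff 0 (e 0) τ))) (h1 s s')
      have e2 : dd (.inl s') (Φ s) = ∑ k, pull (aff 0 (e 0) τ) (a s k) *
          pull (aff 0 (e (Y * T)⁻¹) τ) (dd (.inr s'.1) (f k)) := by
        simp only [Φ, Derivation.map_smul, map_sum, Derivation.leibniz, hd _ m0, hd _ m1,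
          map_zero, zero_mul, mul_zero, add_zero, smul_eq_mul, Finset.smul_sum]
        refine Finset.sum_congr rfl fun k _ => ?_
        rw [Algebra.smul_def, algebraMap_eq_cn, mul_left_comm, ← mul_assoc (cn _), ← map_mul, hc]
        simp
      simp only [map_sum, map_mul, ev_cn, apply_ite (ev _), map_one, map_zero] at this e1
      simp only [e2, map_sub, map_sum, map_mul, ev_pull m0 hx, ev_pull m1 hx, apply_ite (ev x),
        map_one, map_zero, ← e1]
      refine this.trans (Ll.le_coe (Lc.trans_ll (b := T⁻¹) ⟨4 * c, le_of_eq ?_⟩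
        (by simpa using hT.inv one_pos)) (by positivity))
      push_cast
      field_simp
      ring
    · simp only [evv_aff _ _ _ hx, Pi.zero_apply, zero_add, ← sub_mul, map_mul]
      refine (mul_le_of_le_one_right (nm.nonneg _) (hx _).le).trans ?_
      rcases i with i | l
      · simp [e, -mul_inv_rev, hYT.pos.le]
      · by_cases hl : l ∈ I <;> simp [e, hl, -mul_inv_rev, hYT.pos.le, abs_of_pos hY0,
          abs_of_pos hT0]
  have H2 : ∀ x, Pt x → ∀ s, nm (ev x (t s) - ev (Sum.elim 0 (evv x xc)) (Φ s)) ≤ 1 / 4 :=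
    fun x hx s => by
    have hx' := pt_elim (S := I) Pt.zero hx
    have hx1 : Pt fun i => y x (.inl i) := fun i => hyp x hx _
    have z1 : ∀ k, Ll (Y * T * nm (ev (y x) (a s k) * (eval (fun i => y x (.inl i)) (P k) -
        ev (Sum.elim (fun i => y x (.inl i)) 0) (f k)))) 1 := fun k => by
      refine .le_trans ?_ (hP k (fun i => y x (.inl i)) fun i => ?_)
      · rw [e3 _ hx1, map_mul, nm.map_sub, pow_add, pow_succ, mul_comm (nm (_ - _)), ← mul_assoc]
        gcongr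
        exact hk₁ _ _ _ (hyp x hx)
      · simpa [y, e, abs_of_pos p0] using mul_le_of_le_one_right (inv_pos.2 p0).le (hx _).le
    choose c hc' using fun l : J => exists_le_lc (g := dd (.inr l) (∑ k, cn (ev (y x) (a s k)) *
      f k)) hY0.le fun z hz => by simpa using h2 _ z (hyp x hx) hz s l
    have z2 := mean_value (x := y x) (y := Sum.elim (fun i => y x (.inl i)) 0)
      (g := ∑ k, cn (ev (y x) (a s k)) * f k) (c := Sum.elim 0 fun l => c l * Y)
      (fun i => i.casesOn (fun _ => .inl rfl) fun l => .inr (hc' l)) (hyp x hx)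
      (pt_elim hx1 Pt.zero)
    have z3 : Ll (Y * T * nm (∑ k, ev (y x) (a s k) * (ev (Sum.elim (fun i => y x (.inl i)) 0)
        (f k) - ev (y x) (f k)))) 1 := by
      simp only [map_sum, map_mul, ev_cn, ← Finset.sum_sub_distrib, ← mul_sub] at z2
      refine .le_trans (mul_le_mul_of_nonneg_left z2 hYT.pos.le) ?_
      rw [Finset.mul_sum]
      refine .sum zero_le_one fun i _ => ?_
      rcases i with i | l
      · simpa using Ll.zero zero_le_one
      · refine Lc.trans_ll ⟨c l, ?_⟩ hη'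
        have : nm (y x (.inr l)) ≤ η := by
          by_cases hl : l ∈ I
          · simpa [y, e, hl]
          · simpa [y, e, hl, abs_of_nonneg hη] using mul_le_of_le_one_right hη (hx _).le
        simp only [Sum.elim_inr, Pi.zero_apply, zero_sub, nm.map_neg]
        calc _ ≤ Y * T * (c l * Y * η) := by gcongr
          _ = _ := by ring
    have z4 : ∀ k, Ll (Y * T * nm (ev (y x) (a s k) * (ofR ε * w k * x (.inr k)))) 1 := fun k => by
      obtain ⟨c, hc⟩ := h3 _ (hyp x hx) s k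
      refine Lc.trans_ll ⟨c, ?_⟩ hε'
      rw [show ∀ a b c d : Cs, a * (b * c * d) = b * (a * c) * d from fun _ _ _ _ => by ring,
        map_mul, map_mul, nm_ofR_of_nonneg hε]
      calc _ ≤ Y * T * (ε * (c * Y) * 1) := by gcongr; exact (hx _).le
        _ = _ := by ring
    have := ((Ll.sum (s := .univ) zero_le_one fun k _ => z1 k).add z3).add
      (Ll.sum (s := .univ) zero_le_one fun k _ => z4 k)
    refine le_trans ?_ (this.le_coe (δ := 1 / 4) (by norm_num) |>.trans_eq (by simp))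
    simp only [t, Φ, q, evv_xc hx, ev_smul, map_sum, map_mul (ev _), map_add, ev_pull m0 hx',
      ev_pull m1 hx', ev_pull m2 hx, hy x hx, hy0 0 x Pt.zero hx, hy1 x hx, hπ x hx, ev_xc hx,
      ← mul_sub, ← Finset.mul_sum, ← mul_add]
    rw [map_mul, nm_ofR_of_nonneg hYT.pos.le]
    gcongr
    refine le_trans (le_of_eq (congrArg _ ?_)) ((nm.add_le _ _).trans (add_le_add
      ((nm.add_le _ _).trans (add_le_add (nm.sum_le _ _) le_rfl)) (nm.sum_le _ _)))
    simp only [← Finset.sum_add_distrib, ← Finset.sum_sub_distrib]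
    exact Finset.sum_congr rfl fun k _ => by ring
  obtain ⟨ψ, -, m4, hψ⟩ := pift Φ (u := xc) (maps_xc id) t hδ' (by norm_num) H1 H2
  have m5 : Maps ψ := fun x hx i => m4 x hx (.inl i)
  have e4 : ∀ x, Pt x → evv x (Sum.elim ψ xc) = Sum.elim (evv x ψ) x := fun x hx => by
    rw [evv_sum_elim, evv_xc hx]
  have ψ0 : evv 0 ψ = 0 := funext fun s => by
    have : Nonempty I := ⟨s⟩
    obtain ⟨s₀, hs₀⟩ := Finite.exists_max fun s => nm (evv 0 ψ s)
    have z1 := pift_lip hδ' (H1 s₀) (m5 0 Pt.zero) Pt.zero Pt.zero (r := nm (evv 0 ψ s₀))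
      (by simpa using hs₀)
    have z2 := congrArg (ev 0) (hψ s₀)
    have z3 : ev (Sum.elim 0 0) (Φ s₀) = ev 0 (t s₀) := by
      have hx' := pt_elim (S := I) (U := Jν ⊕ J) Pt.zero Pt.zero
      have y0 : y 0 = 0 := funext fun i => mul_zero _
      simp only [t, Φ, q, ev_smul, map_sum, map_mul (ev _), map_add, ev_pull m0 hx',
        ev_pull m1 hx', ev_pull m2 Pt.zero, hy 0 Pt.zero, hy0 0 0 Pt.zero Pt.zero, hy1 0 Pt.zero,
        hπ 0 Pt.zero, ev_xc Pt.zero, y0, Pi.zero_apply, mul_zero, add_zero]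
      congr 2
      ext k
      have := hP0 k
      rw [e3 0 Pt.zero, Sum.elim_zero_zero] at this
      rw [← this]
      rfl
    rw [ev_pull m4 Pt.zero, e4 0 Pt.zero] at z2
    rw [z2, z3] at z1
    have z4 : nm (evv 0 ψ s₀) ≤ 0 := by
      simp only [Pi.zero_apply, zero_sub, sub_neg_eq_add, sub_add_cancel] at z1
      linarith
    exact nm.eq_zero.1 (((hs₀ s).trans z4).antisymm (nm.nonneg _))
  refine ⟨fun i => pull (Sum.elim ψ xc) (aff 0 (e (Y * T)⁻¹) τ i), n', π, m1.comp m4, ?_, p0, ?_,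
    p1, fun i => ?_, fun l hl => ?_, fun k => ?_⟩
  · rw [evv_pull m4 Pt.zero, e4 0 Pt.zero, ψ0, Sum.elim_zero_zero, evv_aff_zero]
  · have := (p1.ll hT p0.le).one_lt
    nlinarith
  · simp only [nuv, Algebra.smul_def, algebraMap_eq_cn, map_mul, pull_cn, pull_xc (m1.comp m4)]
    simp only [aff, e, τ, Sum.elim_inl, Sum.elim_inr, Pi.zero_apply, map_zero, zero_add, map_mul,
      pull_cn, pull_xc m4]
    rw [← mul_assoc, ← map_mul, ← map_mul, pow_two, mul_inv_cancel_right₀ p0.ne']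
  · simp [aff, e, τ, hl, pull_xc m4]
  · let A : Matrix I I (H (Jν ⊕ J)) := fun s k => pull (aff 0 (e 0) id) (a s k)
    let B : Matrix I I (H (Jν ⊕ J)) := fun k m => pull (aff 0 (e 0) id) (dd (.inr m.1) (f k))
    have hAB : B * A = 1 := mul_eq_one_comm.1 (Matrix.ext fun s m => by
      simpa [A, B, Matrix.mul_apply, Matrix.one_apply, apply_ite (pull _)] using
        congrArg (pull (aff 0 (e 0) id)) (h1 s m))
    have e5 : ∀ g, pull (Sum.elim ψ xc) (pull (aff 0 (e 0) τ) g) = pull (aff 0 (e 0) id) g :=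
      fun g => H.ext fun x hx => by
        rw [ev_pull m4 hx, e4 x hx, ev_pull m0 (pt_elim (m5 x hx) hx), hy0 _ _ (m5 x hx) hx,
          ev_pull m2 hx, hy x hx]
    have z1 : A.mulVec (fun k => pull (Sum.elim ψ xc) (pull (aff 0 (e (Y * T)⁻¹) τ) (f k))) =
        A.mulVec q := funext fun s => by
      have := hψ s
      simp only [Φ, t, Algebra.smul_def, algebraMap_eq_cn, map_mul (pull _), pull_cn, map_sum,
        e5] at this
      exact mul_left_cancel₀ ((map_ne_zero_iff _ cn_inj).2 ((map_ne_zero _).2 hYT.pos.ne')) this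
    have z2 := congrFun (congrArg B.mulVec z1) k
    rwa [Matrix.mulVec_mulVec, Matrix.mulVec_mulVec, hAB, Matrix.one_mulVec, Matrix.one_mulVec,
      pull_pull m1 m4] at z2

end

end Pool.Agent.P.MP_f17f76_ag
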