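import Pool.Agent.P.MP_f17f76_ag.S.St
import Pool.Agent.P.MP_f17f76_ag.S.Tow
import Pool.Agent.P.MP_f17f76_ag.E.Lat

/-!
The lattice polynomial of a drifting state is affine; the end of phase one after the special start.
-/

namespace Pool.Agent.P.MP_f17f76_ag

open Module Set Matrix E N MvPolynomial

variable {g N : ℕ} {A : AbVar g N} {M : Model A} {C' C1 A0 Z : Sub g} {T : ℝ*} {Jν J : Type}
  [Fintype Jν] [Fintype J]

theorem st_eval {P : Fin g → MvPolynomial Jν Cs} (h : ∀ α, (fun k => (P k).coeff α) ∈ St A.Λ)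
    {ν : Jν → Cs} (hν : ∀ i, ν i ∈ Zs) : (fun k => eval ν (P k)) ∈ St A.Λ := by
  classical
  have : (fun k => eval ν (P k)) = ∑ α ∈ Finset.univ.biUnion fun k => (P k).support,
      (∏ i, ν i ^ α i) • fun k => (P k).coeff α := funext fun k => by
    rw [eval_eq', Finset.sum_apply]
    exact Finset.sum_subset_zero_on_sdiff (Finset.subset_biUnion_of_mem (fun k => (P k).support)
      (Finset.mem_univ k))
      (fun α hα => by simp [notMem_support_iff.1 (Finset.mem_sdiff.1 hα).2]) fun α _ => mul_comm _ _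
  exact this ▸ St.sum fun α _ => St.zsmul (h α) (prod_mem fun i _ => pow_mem (hν i) _)

theorem xt_row {K : Subfield ℂ} (ι : K →+* H J) {u y : Fin g → ℂ}
    (hu : ∀ k, u k ∈ K ∧ xt ι (u k) = cn (co (u k))) (hy : ∀ k, y k ∈ K) :
    xt ι (u ⬝ᵥ y) = dot u fun k => xt ι (y k) := by
  rw [dotProduct, xt_of_mem ι (sum_mem fun k _ => mul_mem (hu k).1 (hy k)), dot]
  simp only [Algebra.smul_def, algebraMap_eq_cn, ← (hu _).2, xt_of_mem ι (hu _).1,
    xt_of_mem ι (hy _), ← map_mul, ← map_sum]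
  exact congrArg ι (Subtype.ext (by simp))

theorem ev_nuv (n : ℝ*) {x : Jν ⊕ J → Cs} (hx : Pt x) (i : Jν) :
    ev x (nuv J n i) = ofR n * x (.inl i) := by rw [nuv, ev_smul, ev_xc hx]

namespace Core

variable {s : Core M C' T Jν J C1 Z} {μ : Jν → Fin g → Cs}

theorem SL.affine (h : s.SL C1 A0 μ) : ∃ c : Fin g → Cs, ∀ k,
    s.w k = xt s.ι (A.pr C1 M.z k) - ∑ i, μ i k • s.nu i - cn (c k) := by
  obtain ⟨r, r0, hr⟩ := exists_root_pos s.npos two_ne_zero
  have r1 : Big T r := .root (hr ▸ s.nlo)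
  have r2 := r1.ll s.inf r0.le
  have n0 : ofR s.n ≠ 0 := (map_ne_zero _).2 s.npos.ne'
  let f k := aeval s.nu (s.Lam k) - ∑ i, μ i k • s.nu i
  have h1 : ∀ k y, Pt y → ev y (f k) = eval (fun i => ofR s.n * y (.inl i)) (s.Lam k) -
      ∑ i, μ i k * (ofR s.n * y (.inl i)) := fun k y hy => by
    simp only [f, map_sub, map_sum, ev_smul, ev_aeval, Dat.nu, ev_nuv _ hy]
    exact congrArg (fun ν => eval ν (s.Lam k) - _) (funext (ev_nuv _ hy))
  have h2 : ∀ y, Pt y → (∀ i, ofR s.n * y (.inl i) ∈ Zs) → (fun k => ev y (f k)) ∈ St A.Λ :=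
    fun y hy hz => by
      convert St.sub (st_eval (fun α => (s.lat α).mono fun _ h => h.1) hz)
        (St.sum (s := .univ) fun i _ => St.zsmul ((h.lat i).mono fun _ h => h.1) (hz i)) using 1
      funext k
      simp [h1 k y hy, mul_comm]
  have h3 : ∀ k, Le (f k - cn (ev 0 (f k))) (r + r) := fun k x hx => by
    have e : f k = xt s.ι (A.pr C1 M.z k) - ∑ i, μ i k • s.nu i - s.w k := by
      simp only [f, Dat.wt]
      ring
    rw [map_sub, ev_cn, e, map_sub (ev x), map_sub (ev 0), sub_sub_sub_comm]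
    exact (nm.sub_le_add _ _).trans (add_le_add (not_lt.1 fun e => h.var k x hx
      (r1.of_le r0.le e.le)) ((s.var k x hx).le.trans r2.le))
  refine ⟨fun k => eval 0 (s.Lam k), fun k => ?_⟩
  have h4 : s.Lam k = C (eval 0 (s.Lam k)) + ∑ i, C (μ i k) * X i := by
    refine funext_set (fun _ => range (Int.cast : ℤ → Cs))
      (fun _ => infinite_range_of_injective Int.cast_injective) fun x hx => ?_
    choose m hm using fun i => hx i trivial
    obtain ⟨c, hc⟩ := Lc.sum (s := .univ) (f := fun i => nm (x i)) fun i _ =>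
      hm i ▸ map_intCast co (m i) ▸ lc_co _
    have a1 : ∀ j, nm (Sum.elim (fun i => x i / ofR s.n) (0 : J → Cs) j) ≤ c / s.n := by
      rintro (i | l)
      · rw [Sum.elim_inl, map_div₀, nm_ofR_of_nonneg s.npos.le]
        exact div_le_div_of_nonneg_right ((Finset.single_le_sum (fun _ _ => nm.nonneg _)
          (Finset.mem_univ i)).trans (hc.trans_eq (mul_one _))) s.npos.le
      · simpa using div_nonneg c.cast_nonneg s.npos.le
    have a2 : Ll (2 * (r + r) * (c / s.n)) 1 := by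
      rw [← hr, show 2 * (r + r) * (c / r ^ 2) = (4 * c : ℕ) / r by push_cast; field_simp; ring,
        ll_div r0]
      exact (lc_nat _).trans_ll r2
    have a3 : c / s.n < 1 := ((ll_div s.npos).2 ((lc_nat c).trans_ll
      (s.nlo.ll s.inf s.npos.le))).lt one_pos
    have a4 := pt_of_le a1 a3
    have a5 := congrFun (st_lat_zero A (St.sub (h2 _ a4 fun i => by
      simpa [mul_div_cancel₀ _ n0, ← hm] using intCast_mem Zs (m i)) (h2 0 .zero (by simp)))
      fun k => .le_trans (by simpa using ((h3 k).schwarz_zero a1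
        (div_nonneg c.cast_nonneg s.npos.le) a3)) a2) k
    simpa [h1 k _ a4, h1 k 0 .zero, mul_div_cancel₀ _ n0, sub_eq_iff_eq_add, add_comm] using a5
  simp only [Dat.wt]
  conv_lhs => rw [h4]
  simp [algebraMap_eq_cn, Algebra.smul_def]
  ring

variable [DecidableEq Jν] [DecidableEq J]

theorem SL.dd_w (h : s.SL C1 A0 μ) (i : Jν) (k : Fin g) : dd (.inl i) (s.w k) =
    dd (.inl i) (xt s.ι (A.pr C1 M.z k)) - cn (ofR s.n * μ i k) := by
  obtain ⟨c, hc⟩ := h.affine
  simp [hc, Dat.nu, nuv, dd_xc, Algebra.smul_def, algebraMap_eq_cn, mul_comm]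

omit [DecidableEq Jν] [DecidableEq J] in
theorem xt_dot_z {A' U : Sub g} (s : Core M C' T Jν J A' Z) (hU : A.IsLie U) (h : U ≤ Z)
    {u : Fin g → ℂ} (hu : ∀ k, u k ∈ M.k0) :
    xt s.ι (u ⬝ᵥ A.pr U M.z) = dot u fun k => xt s.ι (A.pr U M.z k) :=
  have h1 : (M.k0 : Set ℂ) ⊆ acl ((s.c : Set ℂ) ∪ M.qs Z A') := fun _ ha =>
    subset_acl _ (.inl (s.fld.le ((M.fld_kq C').le ha)))
  xt_row s.ι (fun k => ⟨s.hK ▸ h1 (hu k), s.id _ (hu k)⟩) fun k => s.hK ▸ M.ov.pr_le hU h h1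
    (fun _ ha => subset_acl _ (.inr (.inl ha))) ⟨k, rfl⟩

theorem SL.dd_dot (h : s.SL C1 A0 μ) {u : Fin g → ℂ} (hu : ∀ k, u k ∈ M.k0) (i : Jν) :
    dd (.inl i) (dot u s.w) = dd (.inl i) (xt s.ι (u ⬝ᵥ A.pr C1 M.z)) -
      cn (ofR s.n * dot u (μ i)) := by
  rw [s.xt_dot_z s.btw.1 h.le hu]
  simp only [dot, map_sum, Derivation.map_smul, h.dd_w, smul_sub, Finset.sum_sub_distrib,
    Finset.mul_sum, smul_eq_mul, mul_left_comm (ofR s.n), map_mul cn (co _)]
  rfl

omit [DecidableEq Jν] [DecidableEq J] in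
theorem isEmpty (s : Core M C' T Jν J C1 C1) (h : M.Tight C1) : IsEmpty J :=
  Fintype.card_eq_zero_iff.1 (by have := s.count; have := h.2; omega)

end Core

theorem s_end2 : S_END2 := by
  rintro g N A M C' X C1 C T Jν J _ _ _ _ s t ⟨μ, h, u, h1, h2, h3, i, h4⟩
  have := s.isEmpty t.t1
  obtain ⟨b, hb⟩ := s.cst _ (s.fld.le h3)
  obtain ⟨k, hk⟩ := not_forall.1 h4
  refine ⟨le_rfl, u, h1, isEmptyElim, i, k, fun x _ => (not_le.1 hk).le.trans
    (mul_le_mul_of_nonneg_right ?_ (pow_pos s.inf.pos k).le)⟩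
  rw [h.dd_dot h2, A.dot_pr (A.du_mono (A.rel_le _ _) h1), hb, dd_cn, zero_sub, map_neg, ev_cn,
    nm.map_neg, map_mul, nm_ofR_of_nonneg s.npos.le]
  exact le_mul_of_one_le_left (nm.nonneg _) (s.nlo.ll s.inf s.npos.le).le

end Pool.Agent.P.MP_f17f76_ag
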