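import Pool.Agent.P.MP_f17f76_ag.S.St
import Pool.Agent.P.MP_f17f76_ag.E.Hs4
import Pool.Agent.P.MP_f17f76_ag.E.Nd

/-!
Statement of the algebraic half of the main step.
-/

namespace Pool.Agent.P.MP_f17f76_ag

open Module Set Matrix E N

noncomputable section

variable {g N : ℕ} {A : AbVar g N}

/-- The first output: standard parameters `S`, a small parameter `σ`, a block, its rows `n` with
weights `μ`, the weights `m`, and the number `r` of free coordinates. -/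
structure GfI (M : Model A) (κ : Sub g → ℕ) (Z Z'' : Sub g) (T₀ S : Set ℂ) (σ : ℂ) (b : Blk g)
    {k : ℕ} (n : Fin k → Fin g → ℂ) (μ : Fin k → ℕ) (m : Fin g → ℕ) : Prop where
  cnt : S.Countable
  free : Free (M.k0 : Set ℂ) (insert σ S) T₀
  ok : b.Ok M κ Z Z''
  sub : (b.k1 : Set ℂ) ∪ b.E ⊆ acl ((M.k0 : Set ℂ) ∪ S)
  card : k = finrank ℂ b.Nn
  mem : ∀ l i, n l i ∈ acl ((b.k1 : Set ℂ) ∪ b.E)
  span : Submodule.span ℂ (range n) = b.Nn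
  low : ∀ l j, (n l ᵥ* b.G) j ≠ 0 → m j ≤ μ l
  pos : ∀ j, 0 < m j

/-- The new transcendence basis `(σ, yhat, t)`. -/
def gfY (M : Model A) (σ : ℂ) {k r : ℕ} (n : Fin k → Fin g → ℂ) (μ : Fin k → ℕ) (t : Fin r → ℂ) :
    Option (Fin k ⊕ Fin r) → ℂ :=
  fun o => o.elim σ (Sum.elim (fun l => σ ^ μ l * (n l ⬝ᵥ M.z)) t)

/-- The second output: an embedding `e'` of `K₄` extending `e`, under which `σ` is small, the other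
members of the basis are standard, and the point `b = P_B w` reduces to `x₀`. -/
structure GfO (M : Model A) (B L' L : Sub g) (w₀ : Fin g → ℂ) (T : ℝ*) (σ : ℂ) (b : Blk g)
    {k r : ℕ} (n : Fin k → Fin g → ℂ) (μ : Fin k → ℕ) (m : Fin g → ℕ) {K₃ K₄ : Subfield ℂ}
    (e : K₃ →+* Cs) (d lo : ℕ) (e' : K₄ →+* Cs) (t : Fin r → ℂ) (i : Fin N) (x₀ : Fin g → ℂ)
    (D : Fin r → Der ℂ) (τ : Fin r → Fin g → ℂ) : Prop where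
  ext : ∀ a ∈ K₃, xt e' a = xt e a
  mem : ∀ j, t j ∈ K₄
  alg : K₄ ≤ acl ((K₃ : Set ℂ) ∪ range (gfY M σ n μ t))
  gauss : ∃ (F : Subfield Cs) (l v : Option (Fin k ⊕ Fin r) → Cs), (∀ c, e c ∈ F) ∧
    (∀ o, l o ∈ F) ∧ Pst.Gauss F v ∧ ∀ o, xt e' (gfY M σ n μ t o) = l o * v o
  small : nm (xt e' σ) * T ^ lo ≤ 1
  big : ¬ Tiny T (nm (xt e' σ))
  std : ∀ o, ∃ p : ℂ, p ≠ 0 ∧ xt e' (gfY M σ n μ t (some o)) = co p
  bd : ∀ j, nm (xt e' (σ ^ m j * (b.G⁻¹ *ᵥ A.pr b.B M.z) j)) ≤ T ^ d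
  ch : A.θ x₀ i ≠ 0
  ch' : A.θ (A.pr B M.w) i ≠ 0
  red : Near (fun j => xt e' (A.aff i (A.pr B M.w) j)) (A.aff i x₀)
  x0 : x₀ ∈ B
  clo : x₀ - w₀ ∈ closure {x | ∃ l ∈ L, ∃ u ∈ A.Λ, u ∈ B ∧ x = l + u}
  dual : ∀ j, D j ∈ kil (K₃ : Set ℂ) ∧
    ∀ o, D j (gfY M σ n μ t o) = if o = some (.inr j) then 1 else 0
  tan : ∀ j, Near (fun a => xt e' (A.dl (A.pr B M.w) (D j) a)) (τ j)
  trans : B ≤ L' ⊔ Submodule.span ℂ (range τ)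

/-- The algebraic half of the main step. -/
def S_GFA : Prop := ∀ {g N : ℕ} {A : AbVar g N} (M : Model A) (C' A' A'' Z Z'' : Sub g)
  (κ : Sub g → ℕ) (c K : Subfield ℂ) (L' L : Sub g) (w₀ : Fin g → ℂ) (T₀ : Set ℂ),
    M.Tight C' → A.Btw C' A' A'' → A.Btw A' A'' Z → A.Btw A'' Z Z'' → A.IsLie Z'' →
    Fld (M.kq C') c → Free ((M.k0 : Set ℂ) ∪ M.qs C' C') (M.qs ⊤ ⊤) c →
    K = acl ((c : Set ℂ) ∪ M.qs Z A') → (∃ E Nn, M.Fam κ Z Z'' E Nn) →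
    (∀ Qa Q, A.Btw A' Qa A'' → A.Btw Z Q Z'' → M.Ineq κ Qa Q) → M.Eqn κ A' Z → M.Eqn κ A'' Z'' →
    L' ≤ L → L ≤ A.rel A'' A' → (∀ H, A.IsLie H → L ≤ H → A.rel A'' A' ≤ H) →
    w₀ ∈ A.rel A'' A' → finrank ℂ L' + κ A' = κ A'' →
    (∀ Q, A.Btw A' Q A'' → κ Q ≤ κ A' + finrank ℂ (L'.map (A.pr Q))) → T₀.Countable →
    ∃ (S : Set ℂ) (σ : ℂ) (b : Blk g) (k r : ℕ) (n : Fin k → Fin g → ℂ) (μ : Fin k → ℕ)
      (m : Fin g → ℕ), GfI M κ Z Z'' T₀ S σ b n μ m ∧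
      r + finrank ℂ L' = finrank ℂ (A.rel A'' A') ∧
      ∀ (K₃ K₄ : Subfield ℂ) (T : ℝ*) (e : K₃ →+* Cs), K₃ = acl ((K : Set ℂ) ∪ S) →
        K₄ = acl ((K₃ : Set ℂ) ∪ insert σ (M.qs Z'' A'')) → Ll 1 T → PG T e →
        (∀ a ∈ acl ((M.k0 : Set ℂ) ∪ S), xt e a = co a) →
        ∃ d : ℕ, ∀ lo : ℕ, ∃ (e' : K₄ →+* Cs) (t : Fin r → ℂ) (i : Fin N) (x₀ : Fin g → ℂ)
          (D : Fin r → Der ℂ) (τ : Fin r → Fin g → ℂ),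
          GfO M (A.rel A'' A') L' L w₀ T σ b n μ m e d lo e' t i x₀ D τ

end

end Pool.Agent.P.MP_f17f76_ag
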