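import Pool.Agent.P.MP_f17f76_ag.S.GfA
import Pool.Agent.P.MP_f17f76_ag.S.Vf
import Pool.Agent.P.MP_f17f76_ag.E.Ext
import Pool.Agent.P.MP_f17f76_ag.E.Hol4

/-!
New variables and the logarithm of the new point in the main step.
-/

namespace Pool.Agent.P.MP_f17f76_ag

open Module Set Matrix E N Vf Filter

noncomputable section

variable {g N : ℕ} {A : AbVar g N} {V : Type} [Fintype V] {B : Sub g} {K : Subfield ℂ}

theorem xt_map {R R' : Type} [CommRing R] [CommRing R'] (ι : K →+* R) (f : R →+* R') (a : ℂ) :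
    xt (f.comp ι) a = f (xt ι a) := by
  unfold xt
  split_ifs
  exacts [rfl, (map_zero f).symm]

theorem st_cone {k : Subfield ℂ} (h : A.Over k) (hk : k ≤ K) (hB : A.IsLie B) (e : K →+* Cs)
    (he : ∀ a ∈ k, xt e a = co a) {b : Fin g → ℂ} (hb : b ∈ B) {s : ℂ}
    (hy : ∀ j, (s • A.θ b) j ∈ K) :
    (fun j => xt e ((s • A.θ b) j)) ∈ St {y | ∃ u ∈ B, ∃ t : ℂ, y = t • A.θ u} := by
  obtain ⟨J, h1, h2⟩ := h.lie B hB
  refine ((eventually_all_finset J).2 fun p hp => qs_eq_zero.1 ?_).mono fun n hn =>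
    (A.zero_lieI hB).1 fun p hp => Ideal.span_le (I := RingHom.ker (MvPolynomial.eval _)).2 hn
      (h2.ge hp)
  rw [← eval₂_vec, vec_rep, ← xt_eval e co hk he (h1 p hp) hy,
    A.mem_lieI.1 (h2.le (Ideal.subset_span hp)) b hb, xt_zero]

theorem log_unique {x y : Fin g → Cs} {p : Fin g → ℂ} (hx : Near x p) (hy : Near y p) {s t : Cs}
    (hs : s ≠ 0) (h : ∀ j, s * app (fun _ z => A.θ z j) x = t * app (fun _ z => A.θ z j) y) :
    x = y := by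
  refine sub_eq_zero.1 (st_lat_zero A ?_ (hy.ll hx))
  obtain ⟨u, rfl⟩ := vec_surj x
  obtain ⟨v, rfl⟩ := vec_surj y
  obtain ⟨s, rfl⟩ := qs_surj s
  obtain ⟨t, rfl⟩ := qs_surj t
  simp only [app_vec, ← map_mul, qs_eq, ← eventually_all] at h
  rw [← vec_sub, st_vec]
  filter_upwards [h, qs_ne_zero.1 hs] with n h1 h2
  exact (A.per _ _).1 ⟨(s n)⁻¹ * t n, funext fun j => by
    rw [Pi.smul_apply, smul_eq_mul, mul_assoc, eq_inv_mul_iff_mul_eq₀ h2]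
    exact h1 j⟩

/-- A vector field that agrees with a derivation on generators agrees with it everywhere. -/
theorem dd_gen [DecidableEq V] (ι : K →+* H V) {S : Set ℂ} (hS : S ⊆ K) (hK : K ≤ acl S) {D : Der ℂ}
    (hD : ∀ a ∈ K, D a ∈ K) (l : V) (ρ : H V) (h : ∀ a ∈ S, dd l (xt ι a) = xt ι (D a) * ρ) {a : ℂ}
    (ha : a ∈ K) : dd l (xt ι a) = xt ι (D a) * ρ := by
  by_contra e
  obtain ⟨φ, h1, -, h2⟩ := exists_form ι (sub_ne_zero.2 e)
  obtain ⟨D', h3⟩ := exists_der_form ι (dd l : H V →+ H V) (fun a b => (dd l).leibniz a b) φ h1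
  have h4 : ∀ a ∈ K, (D' - φ ρ • D) a = φ (dd l (xt ι a) - xt ι (D a) * ρ) := fun a ha => by
    rw [map_sub, h1 _ (hD a ha), mul_comm]
    exact congrArg (· - _) (h3 a ha)
  exact zero_ne_one ((acl_le_cst (fun c hc => by rw [h4 c (hS hc), h c hc, sub_self, map_zero])
    (hK ha)).symm.trans ((h4 a ha).trans h2))

theorem N.StabH.near {ι : K →+* H V} (h : StabH ι) {x : V → Cs} (hx : Pt x) {c p : ℂ}
    (h' : Ll (nm (ev 0 (xt ι c) - co p)) 1) : Ll (nm (ev x (xt ι c) - co p)) 1 := by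
  refine near_trans ?_ h'
  unfold xt at h' ⊢
  split_ifs at h' ⊢
  exacts [(h.ll hx .zero .zero _).trans_lc (lc_of_near h' (lc_co p)) zero_le_one,
    by simpa using Ll.zero zero_le_one]

variable {M : Model A} {L' L : Sub g} {w₀ x₀ : Fin g → ℂ} {T : ℝ*} {σ : ℂ} {b : Blk g} {k r : ℕ}
  {n : Fin k → Fin g → ℂ} {μ : Fin k → ℕ} {m : Fin g → ℕ} {K₃ K₄ : Subfield ℂ} {e : K₃ →+* Cs}
  {d lo : ℕ} {e' : K₄ →+* Cs} {t : Fin r → ℂ} {i : Fin N} {D : Fin r → Der ℂ}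
  {τ : Fin r → Fin g → ℂ}

theorem GfO.poly (o : GfO M B L' L w₀ T σ b n μ m e d lo e' t i x₀ D τ) (hT : Ll 1 T) (j) :
    xt e' (gfY M σ n μ t j) ≠ 0 ∧ Poly T (nm (xt e' (gfY M σ n μ t j))) ∧
      Poly T (nm (xt e' (gfY M σ n μ t j)))⁻¹ := by
  rcases j with _ | j
  · have := (not_tiny hT (nm.nonneg _)).1 o.big
    exact ⟨nm.pos_iff.1 this.1, .of_le ((le_mul_of_one_le_right (nm.nonneg _)
      (one_le_pow₀ hT.one_lt.le)).trans o.small) poly_one, this.2⟩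
  · obtain ⟨p, h1, h2⟩ := o.std j
    rw [h2]
    exact ⟨(map_ne_zero co).2 h1, poly_of_lc hT (lc_co p), by simpa using poly_of_lc hT (lc_co p⁻¹)⟩

/-- The extension to new variables, and the logarithm of the new point. -/
theorem GfO.new (o : GfO M B L' L w₀ T σ b n μ m e d lo e' t i x₀ D τ) (hB : A.IsLie B)
    (hT : Ll 1 T) (h34 : K₃ ≤ K₄) (hk : M.k0 ≤ K₃) (hY : ∀ j, gfY M σ n μ t j ∈ K₄)
    (hb : ∀ j, A.aff i (A.pr B M.w) j ∈ K₄) (pg : PG T e) {ι : K₃ →+* H V} (hι : StabH ι)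
    (h0 : (ev 0).comp ι = e) (hid : ∀ a ∈ M.k0, xt ι a = cn (co a))
    {u : Option (Fin k ⊕ Fin r) → H V} (hu : ∀ j, Stab (u j))
    (hu0 : ∀ j, ev 0 (u j) = xt e' (gfY M σ n μ t j)) :
    ∃ ι' : K₄ →+* H V, StabH ι' ∧ PG T ((ev 0).comp ι') ∧ (∀ c ∈ K₃, xt ι' c = xt ι c) ∧
      (∀ j, xt ι' (gfY M σ n μ t j) = u j) ∧ (∀ c, ev 0 (xt ι' c) = xt e' c) ∧
      ∃ (w : Fin g → H V) (s : H V), (∀ x, Pt x → evv x w ∈ St B ∧ Near (evv x w) x₀ ∧ ev x s ≠ 0) ∧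
        ∀ j, xt ι' (A.aff i (A.pr B M.w) j) = s * thH A w j := by
  obtain ⟨F, l, v, h1, h2, h3, h4⟩ := o.gauss
  subst h0
  obtain ⟨ι', h5, h6, h7, h8, h9⟩ := new_sub h34 hY o.alg hι hu
    ((funext fun j => ((hu0 j).trans (h4 j)).symm : _ = evv 0 u) ▸ orth_of_gauss h1 h2 h3) e'
    (fun c => (xt_of_mem e' _).symm.trans ((o.ext c c.2).trans (xt_of_mem _ c.2)))
    fun j => (xt_of_mem e' _).symm.trans (hu0 j).symm
  have h10 : ∀ c, ev 0 (xt ι' c) = xt e' c := fun c => by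
    rw [← xt_map, show (ev 0).comp ι' = e' from RingHom.ext h8]
  have h11 : ∀ c ∈ K₃, xt ι' c = xt ι c := fun c hc => by
    rw [xt_of_mem _ (h34 hc), xt_of_mem _ hc]
    exact h6 ⟨c, hc⟩
  have h12 := inv_ne_zero o.ch
  obtain ⟨w, s, h13, h14⟩ := exists_log A hB (y := fun j => xt ι' (A.aff i (A.pr B M.w) j)) o.x0 h12
    (fun x _ => by
      have := st_cone M.ov (hk.trans h34) hB ((ev x).comp ι')
        (fun a ha => by rw [xt_map, h11 a (hk ha), hid a ha, ev_cn]) (A.pr_mem B M.w) hb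
      simp only [xt_map] at this
      exact this)
    fun x hx j => h5.near hx ((h10 _).symm ▸ o.red j)
  exact ⟨ι', h5, fun c => (h8 c).symm ▸ h9 T hT pg (fun j => hu0 j ▸ (o.poly hT j).2) c, h11,
    fun j => (xt_of_mem _ (hY j)).trans (h7 j), h10, w, s, fun x hx => ⟨(h13 x hx).1, (h13 x hx).2.1,
      fun e => (lc_one_of_near (h13 x hx).2.2 h12).elim fun k hk => by
        simpa [e] using one_pos.trans_le hk⟩, h14⟩

/-- The derivative of the logarithm in the direction of a free coordinate. -/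
theorem GfO.dd_log [DecidableEq V] (o : GfO M B L' L w₀ T σ b n μ m e d lo e' t i x₀ D τ)
    (h34 : K₃ ≤ K₄) (h4 : acl (K₄ : Set ℂ) = K₄) (hk : M.k0 ≤ K₃) (hY : ∀ j, gfY M σ n μ t j ∈ K₄)
    (hb : ∀ j, A.aff i (A.pr B M.w) j ∈ K₄) {ι : K₄ →+* H V} (hι : StabH ι)
    (h0 : ∀ c, ev 0 (xt ι c) = xt e' c) (hid : ∀ a ∈ M.k0, xt ι a = cn (co a)) {l : V} {j : Fin r}
    {ρ : Cs} (hρ : ρ ≠ 0) (h1 : ∀ c ∈ K₃, dd l (xt ι c) = 0)
    (h2 : ∀ j', dd l (xt ι (gfY M σ n μ t j')) = if j' = some (.inr j) then cn ρ else 0)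
    {w : Fin g → H V} {s : H V} (hs : IsUnit s)
    (h3 : ∀ j, xt ι (A.aff i (A.pr B M.w) j) = s * thH A w j) {x : V → Cs} (hx : Pt x) :
    Near (fun a => ρ⁻¹ * ev x (dd l (w a))) (τ j) := by
  have h5 : (K₃ : Set ℂ) ∪ range (gfY M σ n μ t) ⊆ K₄ := union_subset h34 (range_subset_iff.2 hY)
  have h6 : ∀ a ∈ K₄, D j a ∈ K₄ := fun a ha => h4.le (der_mem_acl (h5.trans h4.ge) (by
    rintro c (hc | ⟨c, rfl⟩)
    · exact ((o.dual j).1 c hc).symm ▸ zero_mem _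
    · rw [(o.dual j).2]
      split_ifs
      exacts [one_mem _, zero_mem _]) (o.alg ha))
  have h7 := fun a => dd_gen ι h5 o.alg h6 l (cn ρ) (a := a) (by
    rintro c (hc | ⟨c, rfl⟩)
    · rw [h1 c hc, (o.dual j).1 c hc, xt_zero, zero_mul]
    · rw [h2, (o.dual j).2]
      split_ifs <;> simp [xt_zero, xt_one])
  have h8 : ∀ f : H V, ∑ l', (Pi.single l (cn ρ⁻¹) : V → H V) l' * dd l' f = cn ρ⁻¹ * dd l f :=
    fun f => by simp [Pi.single_apply]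
  obtain ⟨c, c', h9, ⟨h10, rfl⟩, h11⟩ := dl_H A M.ov (kil_anti hk (o.dual j).1)
    (fun c f => c ∈ K₄ ∧ xt ι c = f) (fun c hc => ⟨h34 (hk hc), hid c hc⟩)
    (fun _ _ _ _ h h' => ⟨add_mem h.1 h'.1, h.2 ▸ h'.2 ▸ xt_add ι h.1 h'.1⟩)
    (fun _ _ _ _ h h' => ⟨mul_mem h.1 h'.1, h.2 ▸ h'.2 ▸ xt_mul ι h.1 h'.1⟩) (inv_ne_zero o.ch') hs
    (Pi.single l (cn ρ⁻¹)) (fun j => ⟨hb j, h3 j⟩) fun a => ⟨h6 _ (hb a), by
      rw [h8, ← h3, h7 _ (hb a), mul_left_comm, ← map_mul, inv_mul_cancel₀ hρ, map_one, mul_one]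
      rfl⟩
  intro a
  have h12 : A.dl (A.pr B M.w) (D j) a ∈ K₄ := by
    simpa [h9] using mul_mem (inv_mem h10) (h11 a).1
  have h13 := (h11 a).2
  rw [xt_mul ι h10 h12, h8, mul_right_inj' (by
    rw [xt_of_mem ι h10]
    exact (map_ne_zero ι).2 fun e => h9 (congrArg Subtype.val e))] at h13
  simpa [h13] using hι.near hx (c := A.dl (A.pr B M.w) (D j) a) ((h0 _).symm ▸ o.tan j a)

end

end Pool.Agent.P.MP_f17f76_ag
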