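import Pool.Agent.P.MP_f17f76_ag.S.GfB
import Pool.Agent.P.MP_f17f76_ag.E.Pift

/-!
The analytic core of the main step: the implicit function theorem on the new variables.
-/

namespace Pool.Agent.P.MP_f17f76_ag

open Module Set Matrix E N Vf Filter

noncomputable section

variable {g N : ℕ} {A : AbVar g N} {B : Sub g}

/-- Solving `F = 0` for a function with values in `B` whose Jacobian is close to a basis. -/
theorem solve {S U : Type} [Fintype S] [Fintype U] [DecidableEq S] [DecidableEq U]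
    {F : Fin g → H (S ⊕ U)} (hF : ∀ x, Pt x → evv x F ∈ St B) {β : S → Fin g → ℂ}
    (hβ : B ≤ Submodule.span ℂ (range β)) (hc : Fintype.card S = finrank ℂ B)
    (h1 : ∀ x, Pt x → ∀ s, Near (fun k => ev x (dd (.inl s) (F k))) (β s))
    (h2 : ∀ x, Pt x → ∀ k, Ll (nm (ev (Sum.elim 0 x) (F k))) 1) :
    ∃ ψ : S → H U, Maps (Sum.elim ψ xc) ∧ (∀ k, pull (Sum.elim ψ xc) (F k) = 0) ∧
      ∀ l η, (∀ x, Pt x → ∀ k, Lc (nm (ev x (dd (.inr l) (F k)))) η) →
        ∀ s, Lc (nm (ev 0 (dd l (ψ s)))) η := by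
  rw [← Fintype.range_linearCombination] at hβ
  set P := Fintype.linearCombination ℂ β
  obtain ⟨Q, hQ⟩ := P.exists_leftInverse_of_injective (Submodule.finrank_eq_zero.1 (by
    have := P.finrank_range_add_finrank_ker
    have := Submodule.finrank_mono hβ
    rw [finrank_fintype_fun_eq_card] at *
    omega))
  have h0 : ∀ x (G : Fin g → H (S ⊕ U)) s, ev x (lx Q G s) = lx Q (fun k => ev x (G k)) s :=
    fun x G => congrFun (evv_lx Q G x)
  have h3 : ∀ x, Pt x → ∀ s s', Ll (nm (ev x (dd (.inl s') (lx Q F s)) -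
      if s = s' then 1 else 0)) 1 := fun x hx s s' => by
    have := (h1 x hx s').lx Q s
    rw [show β s' = P (Pi.single s' 1) by simp [P], ← LinearMap.comp_apply, hQ] at this
    rw [dd_lx, h0]
    simpa [Pi.single_apply, apply_ite co] using this
  obtain ⟨ψ, -, h4, h5, -⟩ := pift_mat (lx Q F) (u := xc) (maps_xc id) 0 1 rfl
    (by simpa [one_apply] using h3) fun x hx s => by
      simpa [one_apply, evv_xc hx, h0] using ll_lx Q zero_le_one (h2 x hx) s
  refine ⟨ψ, h4, fun k => H.ext fun x hx => ?_, fun l η h => lc_of_near_one (h3 _ (h4 0 .zero))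
    fun s => ?_⟩
  · have h6 := st_eq_iff (LinearMap.id) (P ∘ₗ Q) |>.1 (st_mono (fun z hz => by
      obtain ⟨c, rfl⟩ := hβ hz
      exact congrArg P (LinearMap.congr_fun hQ c).symm) (hF _ (h4 x hx)))
    rw [lx_id, lx_comp, ← evv_lx, ← evv_pull h4 hx (lx Q F), funext h5] at h6
    rw [ev_pull h4 hx, map_zero]
    exact (congrFun h6 k).trans (congrFun (map_zero (lx P)) k)
  · have h6 := congrArg (ev 0) ((dd_pull h4 l _).symm.trans (congrArg (dd l) (h5 s)))
    have h7 := lc_lx Q (h _ (h4 0 .zero)) s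
    simp only [Fintype.sum_sum_type, Sum.elim_inl, Sum.elim_inr, dd_xc, mul_ite, mul_one,
      mul_zero, Finset.sum_ite_eq', Finset.mem_univ, if_true, map_add, map_sum, map_mul,
      ev_pull h4 .zero, Pi.zero_apply, map_zero] at h6
    rwa [eq_neg_of_add_eq_zero_left h6, nm.map_neg, dd_lx, h0]

theorem xt_unique {V : Type} [Fintype V] {K : Subfield ℂ} {ι ι' : K →+* H V} {S : Set ℂ}
    (hS : S ⊆ K) (hK : K ≤ acl S) (h : ∀ b ∈ S, xt ι b = xt ι' b)
    (h0 : ∀ c, ev 0 (xt ι c) = ev 0 (xt ι' c)) (c : ℂ) : xt ι c = xt ι' c := by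
  have := h0 c
  unfold xt at this ⊢
  split_ifs at this ⊢ with hc
  exacts [ext_unique (S := K.subtype ⁻¹' S) (fun b hb => (xt_of_mem ι b.2).symm.trans
    ((h b hb).trans (xt_of_mem ι' b.2))) ((mem_acl_map K.subtype).1 (by
      rw [image_preimage_eq_of_subset (by simpa using hS)]; exact hK hc)) this, rfl]

variable {M : Model A} {L' L : Sub g} {w₀ x₀ : Fin g → ℂ} {T : ℝ*} {σ : ℂ} {b : Blk g} {k r : ℕ}
  {n : Fin k → Fin g → ℂ} {μ : Fin k → ℕ} {m : Fin g → ℕ} {K₃ K₄ : Subfield ℂ}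
  {d lo : ℕ} {e' : K₄ →+* Cs} {t : Fin r → ℂ} {i : Fin N} {D : Fin r → Der ℂ}
  {τ : Fin r → Fin g → ℂ}

/-- New variables of radius `δ`; the variation of the logarithm on the central slice does not
depend on `δ`. -/
theorem GfO.mid {V : Type} [Fintype V] [DecidableEq V] {ι : K₃ →+* H V}
    (o : GfO M B L' L w₀ T σ b n μ m ((ev 0).comp ι) d lo e' t i x₀ D τ) (hB : A.IsLie B)
    (hT : Ll 1 T) (h34 : K₃ ≤ K₄) (h4 : acl (K₄ : Set ℂ) = K₄) (hk : M.k0 ≤ K₃)
    (hY : ∀ j, gfY M σ n μ t j ∈ K₄) (hb : ∀ j, A.aff i (A.pr B M.w) j ∈ K₄)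
    (pg : PG T ((ev 0).comp ι)) (hι : StabH ι) (hid : ∀ a ∈ M.k0, xt ι a = cn (co a)) :
    ∃ ε, Ll ε 1 ∧ ∀ δ : ℝ*, 0 < δ → Ll δ 1 →
      ∃ (ι' : K₄ →+* H (V ⊕ (Fin k ⊕ Fin r))) (w : Fin g → H _) (s : H _), StabH ι' ∧
        PG T ((ev 0).comp ι') ∧ (∀ c ∈ K₃, xt ι' c = pull (fun v => xc (.inl v)) (xt ι c)) ∧
        (∀ j, xt ι' (gfY M σ n μ t j) = cn (xt e' (gfY M σ n μ t j)) +
          j.elim 0 fun j => cn (ofR δ) * xc (.inr j)) ∧ (∀ c, ev 0 (xt ι' c) = xt e' c) ∧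
        (∀ x, Pt x → evv x w ∈ St B ∧ Near (evv x w) x₀ ∧
          ∀ j, Near (fun a => (ofR δ)⁻¹ * ev x (dd (.inr (.inr j)) (w a))) (τ j)) ∧
        (∀ x, Pt x → ∀ a, nm (ev (Sum.elim x 0) (w a) - co (x₀ a)) ≤ ε) ∧
        ∀ j, xt ι' (A.aff i (A.pr B M.w) j) = s * thH A w j := by
  obtain ⟨ι₀, -, -, a1, a2, a3, w', s', a4, a5⟩ := o.new hB hT h34 hk hY hb pg hι rfl hid
    (fun j => stab_cn (o.poly hT j).1) fun j => ev_cn _ _
  choose c c1 c2 using fun a => exists_le_ll (g := w' a - cn (co (x₀ a))) (b := 1) fun x hx => by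
    simpa [evv] using (a4 x hx).2.1 a
  refine ⟨∑ a, c a, .sum zero_le_one fun a _ => c1 a, fun δ h0 h1 => ?_⟩
  have m1 := maps_xc (Sum.inl : V → V ⊕ (Fin k ⊕ Fin r))
  have m2 : Maps (Sum.elim xc 0 : V ⊕ (Fin k ⊕ Fin r) → H V) :=
    maps_elim (maps_xc id) fun x _ s => by simp [evv]
  have e1 := xt_map ι (pull fun v => xc (Sum.inl v : V ⊕ (Fin k ⊕ Fin r)))
  have e2 : ∀ x, Pt x → evv x (Sum.elim xc 0 : V ⊕ (Fin k ⊕ Fin r) → H V) = Sum.elim x 0 :=
    fun x hx => by rw [evv_sum_elim, evv_xc hx]; congr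
  obtain ⟨ι', b1, b2, b3, b4, b5, w, s, b6, b7⟩ := o.new hB hT h34 hk hY hb pg (hι.pull m1)
    (RingHom.ext fun c => (ev_pull m1 .zero _).trans
      (congrArg (ev · _) (funext fun _ => ev_xc .zero _)))
    (fun a ha => by rw [e1, hid a ha, pull_cn])
    (u := fun j => cn (xt e' (gfY M σ n μ t j)) + j.elim 0 fun j => cn (ofR δ) * xc (.inr j))
    (by
      rintro (_ | j)
      · simpa using stab_cn (o.poly hT none).1
      · obtain ⟨p, h2, h3⟩ := o.std j
        refine stab_of_near h2 fun x hx => ?_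
        simpa [h3, ev_xc hx, abs_of_pos h0] using h1.mul_one (.of_le (hx _).le) (nm.nonneg _))
    (by rintro (_ | j) <;> simp [ev_xc .zero])
  simp only [e1] at b3
  have b8 : ∀ a ∈ M.k0, xt ι' a = cn (co a) := fun a ha => by rw [b3 a (hk ha), hid a ha, pull_cn]
  refine ⟨ι', w, s, b1, b2, b3, b4, b5, fun x hx => ⟨(b6 x hx).1, (b6 x hx).2.1, fun j =>
    o.dd_log h34 h4 hk hY hb b1 b5 b8 ((map_ne_zero ofR).2 h0.ne')
      (fun c hc => by rw [b3 c hc, dd_pull_xc' fun _ => Sum.inl_ne_inr]) ?_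
      (isUnit_of_ne fun x hx => (b6 x hx).2.2) b7 hx⟩, fun x hx a => ?_, b7⟩
  · rintro (_ | j') <;> simp [b4, dd_xc]
  · have e3 := xt_unique (ι := (pull (Sum.elim xc 0)).comp ι') (ι' := ι₀)
      (union_subset h34 (range_subset_iff.2 hY)) o.alg (by
        rintro c (hc | ⟨c, rfl⟩)
        · rw [xt_map, b3 c hc, a1 c hc]
          exact H.ext fun x hx => by
            rw [ev_pull m2 hx, e2 x hx, ev_pull m1 (pt_elim hx .zero)]
            exact congrArg (ev · _) (funext fun _ => ev_xc (pt_elim hx .zero) _)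
        · rw [xt_map, b4, a2]
          rcases c with _ | c <;> simp [pull_xc m2])
      fun c => by rw [xt_map, ev_pull m2 .zero, e2 0 .zero, Sum.elim_zero_zero, a3, b5]
    have e4 : evv (Sum.elim x 0) w = evv x w' := by
      have hx' : Pt (Sum.elim x 0 : V ⊕ (Fin k ⊕ Fin r) → Cs) := pt_elim hx .zero
      refine log_unique (A := A) (b6 _ hx').2.1 (a4 x hx).2.1 (b6 _ hx').2.2 (t := ev x s') fun j => ?_
      have := congrArg (ev x) (e3 (A.aff i (A.pr B M.w) j))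
      rwa [xt_map, ev_pull m2 hx, e2 x hx, a5, b7, map_mul, map_mul, thH, thH, ev_cmp' (diff_th A j) _ hx,
        ev_cmp' (diff_th A j) _ hx'] at this
    refine le_trans ?_ (Finset.single_le_sum (fun a _ => (c2 a).nonneg) (Finset.mem_univ a))
    simpa [← show ev _ _ = ev x (w' a) from congrFun e4 a] using c2 a x hx

/-- The analytic core of the main step. -/
theorem gf_core {Jν J : Type} [Fintype Jν] [Fintype J] [DecidableEq Jν] [DecidableEq J]
    {ι : K₃ →+* H (Jν ⊕ J)} (o : GfO M B L' L w₀ T σ b n μ m ((ev 0).comp ι) d lo e' t i x₀ D τ)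
    (hB : A.IsLie B) (hT : Ll 1 T) (h34 : K₃ ≤ K₄) (h4 : acl (K₄ : Set ℂ) = K₄) (hk : M.k0 ≤ K₃)
    (hY : ∀ j, gfY M σ n μ t j ∈ K₄) (hb : ∀ j, A.aff i (A.pr B M.w) j ∈ K₄)
    (pg : PG T ((ev 0).comp ι)) (hι : StabH ι) (hid : ∀ a ∈ M.k0, xt ι a = cn (co a))
    {W : Fin g → H (Jν ⊕ J)} (hW : ∀ x, Pt x → evv x W ∈ St B) {a : ℝ*} (ha : 1 ≤ a)
    (ha' : B = ⊥ ∨ Ll 1 a) {I : Finset J} {lam : J → Fin g → ℂ}
    (hL' : L' = Submodule.span ℂ (lam '' I)) (hL : L = Submodule.span ℂ (range lam))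
    (hc : I.card + r = finrank ℂ B)
    (h1 : ∀ x, Pt x → Near (fun j => ev x (W j) - ofR a * ∑ l, x (.inr l) * co (lam l j)) w₀)
    {e₀ : ℝ*} (he₀ : Ll e₀ 1) :
    ∃ (e ey : ℝ*) (φ : Jν ⊕ J → H (Jν ⊕ ({l // l ∉ I} ⊕ Fin k))) (p : J → Cs)
      (ι' : K₄ →+* H (Jν ⊕ ({l // l ∉ I} ⊕ Fin k))) (u : Fin g → Cs),
      Slow T e ∧ Slow T ey ∧ e₀ ≤ e ∧ Maps φ ∧ (∀ i, φ (.inl i) = xc (.inl i)) ∧
      (∀ l : {l // l ∉ I}, φ (.inr l) = cn (p l) + cn (ofR (e / a)) * xc (.inr (.inl l))) ∧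
      (∀ l l', Lc (nm (ev 0 (dd (.inr l') (φ (.inr l))))) (e / a)) ∧ StabH ι' ∧
      PG T ((ev 0).comp ι') ∧ (∀ c ∈ K₃, xt ι' c = pull φ (xt ι c)) ∧ xt ι' σ = cn (xt e' σ) ∧
      (∀ l, xt ι' (σ ^ μ l * (n l ⬝ᵥ M.z)) =
        cn (xt e' (σ ^ μ l * (n l ⬝ᵥ M.z))) + cn (ofR ey) * xc (.inr (.inr l))) ∧
      (∀ c, Lc (nm (ev 0 (xt ι' c))) (nm (xt e' c))) ∧ A.Lat B u ∧ ∀ x, Pt x →
        Near (evv x fun j => pull φ (W j) - cn (u j)) x₀ ∧
        A.Exp (evv x fun j => pull φ (W j) - cn (u j))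
          fun j => ev x (xt ι' (A.aff i (A.pr B M.w) j)) := by
  obtain ⟨p, p1, u, p2, p3⟩ : ∃ p : J → Cs, (∀ l, nm (p l) ≤ 1 / 2) ∧ ∃ u ∈ St (A.Λ ∩ B : Set _),
      Near (fun j => ofR a * ∑ l, p l * co (lam l j) + u j) (x₀ - w₀) := by
    rcases ha' with h | h
    · have := St.closed (hW 0 .zero) (fun j => by simpa [evv] using h1 0 .zero j) B.closed_of_finiteDimensional
      refine ⟨0, by simp, 0, st_inter.2 ⟨.zero _, .zero _⟩, ?_⟩
      rw [(Submodule.eq_bot_iff _).1 h _ (sub_mem o.x0 this)]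
      simpa using near_co (0 : Fin g → ℂ)
    · exact exists_reach h (by simpa only [hL, mem_inter_iff, and_assoc, SetLike.mem_coe] using o.clo)
  obtain ⟨ε, hε, o'⟩ := o.mid hB hT h34 h4 hk hY hb pg hι hid
  obtain ⟨e, he, he'⟩ := exists_slow hT (countable_singleton e₀) (by simpa)
  choose c c1 c2 using fun j => exists_le_ll (b := 1) (g := W j - cn (ofR a) *
    ∑ l, xc (.inr l) * cn (co (lam l j)) - cn (co (w₀ j))) fun x hx => by
      simpa [ev_xc hx] using h1 x hx j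
  obtain ⟨δ, hδ, hδ'⟩ := exists_slow hT (countable_range _) (forall_mem_range.2 fun j =>
    ((c1 j).max hε).max ((p3 j).max he.2.1))
  simp only [forall_mem_range] at hδ'
  obtain ⟨ι', w, s, b1, b2, b3, b4, b5, b6, b7, b8⟩ := o' δ hδ.1 hδ.2.1
  let ρ : (I ⊕ Fin r) ⊕ (Jν ⊕ ({l // l ∉ I} ⊕ Fin k)) ≃ (Jν ⊕ J) ⊕ (Fin k ⊕ Fin r) :=
    ⟨Sum.elim (Sum.elim (fun l => .inl (.inr l)) fun j => .inr (.inr j)) (Sum.elim
      (fun i => .inl (.inl i)) (Sum.elim (fun l => .inl (.inr l)) fun y => .inr (.inl y))),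
    Sum.elim (Sum.elim (fun i => .inr (.inl i)) fun l => if h : l ∈ I then .inl (.inl ⟨l, h⟩) else
      .inr (.inr (.inl ⟨l, h⟩))) (Sum.elim (fun y => .inr (.inr (.inr y))) fun j => .inl (.inr j)),
    by rintro ((⟨l, h⟩ | j) | i | ⟨l, h⟩ | y) <;> simp [*], by
      rintro ((i | l) | y | j) <;> simp only [Sum.elim_inl, Sum.elim_inr]
      split_ifs <;> rfl⟩
  let R : (I ⊕ Fin r) ⊕ (Jν ⊕ ({l // l ∉ I} ⊕ Fin k)) → ℝ* := Sum.elim
    (Sum.elim (fun _ => δ / a) fun _ => 1) (Sum.elim (fun _ => 1) (Sum.elim (fun _ => e / a) fun _ => e))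
  let χ := aff (Sum.elim (Sum.elim 0 p) 0) (fun v => ofR (R (ρ.symm v))) ρ.symm
  have a0 := one_pos.trans_le ha
  have q : ∀ {x : ℝ*}, Slow T x → 0 < x / a ∧ x / a ≤ 1 / 4 ∧ x ≤ 1 / 4 := fun h => by
    have := h.2.1 4
    push_cast at this
    exact ⟨div_pos h.1 a0, (div_le_self h.1.le ha).trans (by linarith), by linarith⟩
  have hR : ∀ s, nm (ofR (R s)) = R s := fun s => nm_ofR_of_nonneg (by
    rcases s with ((l | j) | i | l | y)
    exacts [(q hδ).1.le, zero_le_one, zero_le_one, (q he).1.le, he.1.le])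
  have m1 : Maps χ := maps_aff _ (by
    rintro ((i | l) | y) <;> simp [(p1 _).trans_lt one_half_lt_one]) (ρ.surjective.forall.2 fun s => by
      rw [ρ.symm_apply_apply, hR]
      rcases s with ((l | j) | i | l | y)
      exacts [by change nm (p l) + δ / a ≤ 1; linarith [p1 l, q hδ], by simp [ρ, R], by simp [ρ, R],
        by change nm (p l) + e / a ≤ 1; linarith [p1 l, q he], by simp [ρ, R, he.2.1.le]])
  have m2 := maps_xc (Sum.inl : Jν ⊕ J → (Jν ⊕ J) ⊕ (Fin k ⊕ Fin r))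
  have eχ : ∀ s, χ (ρ s) = cn (Sum.elim (Sum.elim 0 p) 0 (ρ s)) + cn (ofR (R s)) * xc s :=
    fun s => by simp only [χ, aff, ρ.symm_apply_apply]
  have dχ : ∀ s f, dd s (pull χ f) = cn (ofR (R s)) * pull χ (dd (ρ s) f) := fun s f => by
    simpa only [ρ.symm_apply_apply] using dd_pull_aff' m1 ρ.symm.injective (ρ s) f
  obtain ⟨E, hE⟩ : ∃ E : Fin g → H _, ∀ j, E j = pull (fun v => xc (.inl v)) (W j - cn (ofR a) *
    ∑ l, xc (.inr l) * cn (co (lam l j)) - cn (co (w₀ j))) - (w j - cn (co (x₀ j))) := ⟨_, fun _ => rfl⟩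
  have hE' : ∀ j, pull (fun v => xc (.inl v)) (W j) + cn (u j) - w j = E j + cn (ofR a) *
      ∑ l, xc (.inl (.inr l)) * cn (co (lam l j)) + cn (u j - co ((x₀ - w₀) j)) := fun j => by
    simp only [hE, map_sub, map_mul, map_sum, pull_cn, pull_xc m2, Pi.sub_apply]
    ring
  choose c' c3 c4 using fun j => exists_le_ll (g := w j - cn (co (x₀ j))) (b := 1) fun x hx => by
    simpa [evv] using (b6 x hx).2.1 j
  have c5 : ∀ j, Le (E j) (c j + c' j) := fun j => hE j ▸ ((c2 j).pull m2).sub (c4 j)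
  have c6 : ∀ x, Pt x → ∀ s j, nm (Sum.elim (Sum.elim 0 p) 0 (ρ s) : Cs) ≤ 1 / 2 → R s ≤ 1 / 4 →
      Ll (nm (ev (evv x χ) (dd (ρ s) (E j)))) 1 := fun x hx s j h h' =>
    ((c5 j).lc_dd (m1 x hx) (by
      rw [evv, eχ, map_add, map_mul, ev_cn, ev_cn, ev_xc hx]
      refine (nm.add_le _ _).trans ?_
      rw [map_mul, hR]
      linarith [mul_le_of_le_one_right (hR s ▸ nm.nonneg _) (hx s).le])).trans_ll ((c1 j).add (c3 j))
  have n0 : ofR δ ≠ 0 := (map_ne_zero ofR).2 hδ.1.ne'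
  have n1 : ofR a ≠ 0 := (map_ne_zero ofR).2 a0.ne'
  have n2 : nm (ofR a)⁻¹ ≤ 1 := by
    rw [map_inv₀, nm_ofR_of_nonneg a0.le]
    exact inv_le_one_of_one_le₀ ha
  have d0 : ∀ x, Pt x → ∀ s f, ev x (dd s (cn (ofR δ)⁻¹ * pull χ f)) =
      (ofR δ)⁻¹ * ofR (R s) * ev (evv x χ) (dd (ρ s) f) := fun x hx s f => by
    simp [dχ, ev_pull m1 hx, mul_assoc]
  obtain ⟨ψ, s1, s2, s3⟩ := solve (B := B) (F := fun j => cn (ofR δ)⁻¹ *
    pull χ (pull (fun v => xc (.inl v)) (W j) + cn (u j) - w j)) (β := Sum.elim (fun l : I => lam l) (-τ))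
    (fun x hx => by
      have := St.smul (St.sub (St.add (hW _ (m2 _ (m1 x hx))) (st_inter.1 p2).2)
        (b6 _ (m1 x hx)).1) (ofR δ)⁻¹
      convert this using 1
      funext j
      simp [evv, ev_pull m1 hx, ev_pull m2 (m1 x hx)])
    (o.trans.trans (sup_le (hL' ▸ Submodule.span_mono (by
      rintro _ ⟨l, h, rfl⟩
      exact ⟨.inl ⟨l, h⟩, rfl⟩)) (Submodule.span_le.2 (range_subset_iff.2 fun j =>
        neg_mem_iff.1 (Submodule.subset_span ⟨.inr j, rfl⟩)))))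
    (by simpa using hc)
    (fun x hx s j => by
      simp only [d0 x hx]
      rcases s with l | l
      · have := (Lc.of_le n2).mul_inf (c6 x hx (.inl (.inl l)) j (p1 l) (q hδ).2.1) (nm.nonneg _)
        rw [← map_mul] at this
        convert this using 2
        simp [hE', ρ, R, dd_xc, -map_inv₀]
        field_simp
        ring
      · convert (b6 _ (m1 x hx)).2.2 l |>.neg j using 3 <;>
        simp [ρ, R, dd_pull_xc' (σ := Sum.inl) fun _ => Sum.inl_ne_inr])
    fun x hx j => by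
      have hx' : Pt (Sum.elim 0 x : (I ⊕ Fin r) ⊕ _ → Cs) := pt_elim .zero hx
      have hy := m1 _ hx'
      have k0 := fun s => congrArg (ev (Sum.elim 0 x)) (eχ s)
      simp only [map_add, map_mul, ev_cn, ev_xc hx'] at k0
      rw [map_mul, ev_cn, ev_pull m1 hx', map_mul, map_inv₀, nm_ofR_of_nonneg hδ.1.le,
        inv_mul_eq_div, ll_div hδ.1, hE']
      set y := evv (Sum.elim 0 x) χ
      have hz : Pt fun v => y (.inl v) := fun v => hy _
      have k1 := (c5 j).schwarz_dir (pt_elim hz .zero) (d := Sum.elim 0 (Sum.elim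
        (fun l => x (.inr (.inr l))) 0)) (τ := ofR e)
        (by rintro (v | l | l) <;> simp [(hy _).le, (hx _).le])
        (by rw [nm_ofR_of_nonneg he.1.le]; linarith [q he])
      rw [show (_ + _ : _ → Cs) = y from funext (by
        rintro (v | l | l)
        exacts [by simp, (k0 (.inr (.inr (.inr l)))).symm, Eq.trans (by simp [ρ]) (k0 (.inl (.inr l))).symm]),
        nm_ofR_of_nonneg he.1.le] at k1
      have k2 : nm (ev (Sum.elim (fun v => y (.inl v)) 0) (E j)) ≤ c j + ε := by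
        rw [hE, map_sub, ev_pull m2 (pt_elim hz .zero), map_sub _ (w j), ev_cn, sub_eq_add_neg]
        exact (nm.add_le _ _).trans (add_le_add (c2 j _ (m2 _ (pt_elim hz .zero)))
          ((nm.map_neg _).trans_le (b7 _ hz j)))
      have k3 : ∀ l, nm (ofR a * (y (.inl (.inr l)) - p l)) ≤ e := fun l => by
        by_cases h : l ∈ I
        · simp [show y (.inl (.inr l)) = _ from k0 (.inl (.inl ⟨l, h⟩)), ρ, he.1.le]
        · simpa [show y (.inl (.inr l)) = _ from k0 (.inr (.inr (.inl ⟨l, h⟩))), ρ, R, ← mul_assoc,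
            mul_div_cancel₀, abs_of_pos, a0, a0.ne', he.1] using (hx _).le
      have k4 := fun x (h : x ≤ _) => Ll.le_trans h (hδ' j)
      have k5 := k4 e (by simp)
      rw [show ev y _ = (ev y (E j) - ev (Sum.elim (fun v => y (.inl v)) 0) (E j)) +
        ev (Sum.elim (fun v => y (.inl v)) 0) (E j) + ∑ l, ofR a * (y (.inl (.inr l)) - p l) *
        co (lam l j) + (ofR a * ∑ l, p l * co (lam l j) + u j - co ((x₀ - w₀) j)) by
          simp only [map_add, map_mul, map_sum, ev_cn, ev_xc hy, mul_sub, sub_mul,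
            Finset.sum_sub_distrib, Finset.mul_sum, mul_assoc]
          ring]
      refine .le_trans (nm.add_le _ _) (.add (.le_trans (nm.add_le _ _) (.add (.le_trans
        (nm.add_le _ _) (.add (.le_trans k1 ?_) (.le_trans k2 ((k4 _ (by simp)).add
          (k4 _ (by simp)))))) (.le_trans (nm.sum_le _ _) (.sum hδ.1.le fun l _ => ?_))))
        (k4 _ (by simp)))
      · simpa [two_mul] using (((c1 j).add (c3 j)).add ((c1 j).add (c3 j))).lc.mul_ll k5
          (by linarith [(c5 j).nonneg]) zero_le_one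
      · simpa using (Ll.le_trans (k3 l) k5).mul_lc (lc_co (lam l j)) (nm.nonneg _) zero_le_one
  have m3 := m1.comp s1
  have e1 : ∀ v, pull (Sum.elim ψ xc) (χ (ρ v)) = cn (Sum.elim (Sum.elim 0 p) 0 (ρ v)) +
      cn (ofR (R v)) * Sum.elim ψ xc v := fun v => by
    rw [eχ, map_add, map_mul, pull_cn, pull_cn, pull_xc s1]
  have e2 : ∀ f, pull (fun v => pull (Sum.elim ψ xc) (χ v)) (pull (fun v => xc (.inl v)) f) =
      pull (fun v => pull (Sum.elim ψ xc) (χ (.inl v))) f := fun f => by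
    simp only [pull_pull m2 m3, pull_xc m3]
  have e3 : (fun j => pull (fun v => pull (Sum.elim ψ xc) (χ (.inl v))) (W j) - cn ((-u) j)) =
      fun j => pull (fun v => pull (Sum.elim ψ xc) (χ v)) (w j) := funext fun j => by
    have := s2 j
    rw [map_mul, pull_cn, pull_pull m1 s1, mul_eq_zero, map_sub, map_add, e2, pull_cn] at this
    simpa [sub_eq_zero, n0] using this
  refine ⟨e, δ * e, fun v => pull (Sum.elim ψ xc) (χ (.inl v)), p, (pull _).comp ι', -u, he,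
    hδ.mul hT he, (he' _ rfl).le, fun x hx v => m3 x hx _,
    fun i => (e1 (.inr (.inl i))).trans (by simp [ρ, R]), fun l => e1 (.inr (.inr (.inl l))),
    fun l l' => ?_, b1.pull m3, b2.pull hT b1 m3, fun c hc => by rw [xt_map, b3 c hc, e2],
    (xt_map _ _ _).trans ((congrArg _ (b4 none)).trans (by simp [gfY])),
    fun l => (xt_map _ _ _).trans ((congrArg _ (b4 (some (.inl l)))).trans ?_), fun c => ?_,
    st_inter.2 ⟨.neg (st_inter.1 p2).1, .neg (st_inter.1 p2).2⟩, fun x hx => ?_⟩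
  · have n3 : nm (ofR (e / δ)) = e / δ := nm_ofR_of_nonneg (div_pos he.1 hδ.1).le
    have s4 := s3 (.inr l') (e / δ) fun x hx j => by
      simp only [d0 x hx, hE']
      rcases l' with l' | l'
      · have := (Lc.of_le n2).mul_inf (c6 x hx (.inr (.inr (.inl l'))) j (p1 l') (q he).2.1)
          (nm.nonneg _)
        rw [← map_mul] at this
        have := (Lc.le_trans (nm.add_le _ _) (this.lc.add (lc_co (lam l' j)))).mul_left
          (nm.nonneg (ofR (e / δ)))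
        rw [← map_mul, n3, mul_one] at this
        convert this using 2
        simp [ρ, R, dd_xc, -map_inv₀]
        field_simp
      · have := (c6 x hx (.inr (.inr (.inr l'))) j (by simp [ρ]) (q he).2.2).lc.mul_left
          (nm.nonneg (ofR (e / δ)))
        rw [← map_mul, n3, mul_one] at this
        convert this using 2
        simp [ρ, R, dd_xc, div_eq_inv_mul]
    beta_reduce
    by_cases h : l ∈ I
    · have := (s4 (.inl ⟨l, h⟩)).mul_left (q hδ).1.le
      rw [show pull _ (χ (.inl (.inr l))) = _ from e1 (.inl (.inl ⟨l, h⟩))]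
      convert this using 1
      · simp [R, abs_of_pos, hδ.1, a0]
      · field_simp [hδ.1.ne']
    · rw [show pull _ (χ (.inl (.inr l))) = _ from e1 (.inr (.inr (.inl ⟨l, h⟩)))]
      refine .of_le ?_
      simp only [R, Sum.elim_inr, Sum.elim_inl]
      by_cases h' : Sum.inl ⟨l, h⟩ = l' <;> simp [dd_xc, h', abs_of_pos, he.1, a0, (q he).1.le]
  · simp [pull_xc m3, show pull _ (χ (.inr (.inl l))) = _ from e1 (.inr (.inr (.inr l))), ρ, R,
      mul_assoc, gfY]
  · rw [xt_map, ev_pull m3 .zero, ← b5]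
    unfold xt
    split_ifs
    exacts [b1.lc (m3 0 .zero) .zero _, by simpa using Lc.refl 0]
  · rw [e3, evv_pull m3 hx]
    exact ⟨(b6 _ (m3 x hx)).2.1, _, fun j => by
      simp only [xt_map, ev_pull m3 hx, b8, map_mul, thH, ev_cmp' (diff_th A j) _ (m3 x hx)]
      rfl⟩

end

end Pool.Agent.P.MP_f17f76_ag
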