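import Pool.Agent.P.MP_f17f76_ag.S.Loop
import Pool.Agent.P.MP_f17f76_ag.S.Top

/-!
The main loop and the induction along towers of tight subspaces.
-/

namespace Pool.Agent.P.MP_f17f76_ag

open Module Set Matrix E N

noncomputable section

/-- The three ways of starting the loop. -/
structure Inits : Prop where
  init : ∀ {g N : ℕ} {A : AbVar g N} {M : Model A} {C' C0 C1 C : Sub g} {T : ℝ*} {Jν J : Type}
    [Fintype Jν] [DecidableEq Jν] [Fintype J] [DecidableEq J] (s : Core M C' T Jν J C0 C0),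
    M.Tight C0 → ∀ ch : M.Chain C, ch.U 0 = C0 → ch.U 1 = C0 → ∀ f : ℕ → ℕ,
      ∃ σ : Gl.Sta M C' T Jν ch f, Gl.Ps C1 s σ.s ∧ σ.A' = C0 ∧ σ.V σ.q = C0
  spec : ∀ {g N : ℕ} {A : AbVar g N} {M : Model A} {C' X C1 C : Sub g} {T R : ℝ*} {n : ℕ},
    M.Tow C' X C1 C → ∀ s : Core M C' T Unit (Fin n) C' C1, Ll 1 R → Poly T R →
      s.Grp (fun Q => g + finrank ℂ Q - M.H C1 Q) C' C1 univ R → ∀ f : ℕ → ℕ,
        ∃ (ch : M.Chain C1) (σ : Gl.Sta M C' T Unit ch f), Gl.Ps C1 s σ.s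
  nu : S_NU → ∀ {g N : ℕ} {A : AbVar g N} {M : Model A} {C' C1 : Sub g} {T : ℝ*}
    {ch : M.Chain C1} {f : ℕ → ℕ} (σ : Gl.Sta M C' T Empty ch f), σ.A' ≠ C1 → σ.V σ.q = C1 →
      Big T σ.ϱ → ¬ Big T (σ.ϱ / σ.R σ.p) → ∃ σ' : Gl.Sta M C' T σ.J ch f, σ'.s.P1 C1

namespace Gl

variable {g N : ℕ} {A : AbVar g N} {M : Model A} {C' X C1 C Cc : Sub g} {T : ℝ*}
  {Jν J J' J'' : Type} [Fintype Jν] [DecidableEq Jν] [Fintype J] [DecidableEq J] [Fintype J']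
  [DecidableEq J'] [Fintype J''] [DecidableEq J''] {A' Z A'' Z'' A₃ Z₃ : Sub g} {f : ℕ → ℕ}

theorem Sta.Z_le {ch : M.Chain C} (σ : Sta M C' T Jν ch f) : σ.Z ≤ C :=
  σ.hi.trans (chain_le ch _)

theorem Sta.A_le {ch : M.Chain C} (σ : Sta M C' T Jν ch f) : σ.A' ≤ C :=
  σ.s.btw.2.2.trans σ.Z_le

theorem Sta.V_le {ch : M.Chain C} (σ : Sta M C' T Jν ch f) : σ.V σ.q ≤ C :=
  ((σ.Vq.trans_le (σ.que.mono σ.que.tt)).trans_eq σ.Wt).trans σ.Z_le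

theorem Ps.trans {s : Core M C' T Jν J A' Z} {s' : Core M C' T Jν J' A'' Z''}
    {s'' : Core M C' T Jν J'' A₃ Z₃} (h : Ps C1 s s') (h' : Ps C1 s' s'') : Ps C1 s s'' :=
  ⟨h'.1 ∘ h.1, h'.2.1 ∘ h.2.1, h'.2.2 ∘ h.2.2⟩

theorem exists_cast (s : Core M C' T Jν J A' Z) (h : A' = A'') (h' : Z = Z'') :
    ∃ s' : Core M C' T Jν J A'' Z'', Ps C1 s s' := by
  subst h h'
  exact ⟨s, id, id, id⟩

variable (g f) in
/-- The statement `S_STEP` for given `g` and `f`. -/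
def Stp : Prop := ∀ {N : ℕ} {A : AbVar g N} {M : Model A}
  {C' X C1 C Cc : Sub g} {T : ℝ*} {Jν : Type} [Fintype Jν] [DecidableEq Jν] {ch : M.Chain Cc}
  (σ : Gl.Sta M C' T Jν ch f), M.Tow C' X C1 C → Cc ≤ C → σ.s.PH C1 → σ.A' ≠ Cc →
    ∃ σ', Gl.Nxt C1 σ σ'

/-- The loop runs to the end of the chain. -/
theorem run (hs : Stp g f) (t : M.Tow C' X C1 C) (hle : Cc ≤ C) {ch : M.Chain Cc}
    (σ : Sta M C' T Jν ch f) (h : Cc = C1 ∨ σ.s.NF C1) :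
    ∃ (J : Type) (_ : Fintype J) (_ : DecidableEq J) (s : Core M C' T Jν J Cc Cc),
      Ps C1 σ.s s := by
  induction hμ : σ.μ using WellFoundedLT.induction generalizing σ with
  | ind μ ih =>
    by_cases e : σ.A' = Cc
    · exact ⟨σ.J, _, _, exists_cast σ.s e (σ.Z_le.antisymm (e.symm.trans_le σ.s.btw.2.2))⟩
    · obtain ⟨σ', n⟩ := hs σ t hle
        (h.imp_left fun e' k => e (σ.A_le.antisymm (e'.trans_le k))) e
      obtain ⟨J, _, _, s, k⟩ := ih _ (hμ ▸ n.lt) σ' (h.imp_right n.ps.2.2) rfl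
      exact ⟨J, _, _, s, n.ps.trans k⟩

/-- The loop before the creation of the integer variables. -/
theorem run0 (hs : Stp g f) (t : M.Tow C' X C1 C) {ch : M.Chain C1} (σ : Sta M C' T Jν ch f)
    (h : σ.A' ≠ C1) (h' : σ.V σ.q = C1 → Big T σ.ϱ) :
    ∃ σ : Sta M C' T Jν ch f, σ.A' ≠ C1 ∧ σ.V σ.q = C1 ∧ Big T σ.ϱ ∧
      ¬ Big T (σ.ϱ / σ.R σ.p) := by
  induction hμ : σ.μ using WellFoundedLT.induction generalizing σ with
  | ind μ ih =>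
    by_cases e : σ.V σ.q = C1 ∧ ¬ Big T (σ.ϱ / σ.R σ.p)
    · exact ⟨σ, h, e.1, h' e.1, e.2⟩
    obtain ⟨σ', n⟩ := hs σ t t.le (.inl fun k => h (σ.A_le.antisymm k)) h
    refine ih _ (hμ ▸ n.lt) σ' (fun k => ?_) (fun k => ?_) rfl
    · rcases n.le with k1 | ⟨k1, k2⟩
      · exact h (k1 ▸ k)
      have k3 : C1 ≤ σ.V (σ.p + 1) := k.ge.trans k2
      have k4 := σ.cur.mono (Nat.succ_le_of_lt k1)
      have k5 : σ.V σ.q = C1 := σ.V_le.antisymm (k3.trans k4)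
      rcases (Nat.succ_le_of_lt k1).eq_or_lt with k6 | k6
      · refine e ⟨k5, ?_⟩
        rw [σ.cur.top _ le_rfl k6, div_self σ.cur.pos.ne']
        exact fun ⟨_, b⟩ => σ.s.inf.one_lt.not_ge (by simpa using b)
      · exact σ.cur.ne _ σ.p.lt_succ_self k6 (k4.antisymm (k5.trans_le k3))
    · rcases n.big with k1 | ⟨k1, k2⟩
      · exact k1
      refine k2 (σ.cur.pq.lt_of_ne fun k3 => h ?_) (not_not.1 fun b => e ⟨k1 ▸ k, b⟩)
      rw [← σ.Vp, k3, ← k1, k]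

variable (h : Steps) (hi : Inits) (hs : Stp g f) (t : M.Tow C' X C1 C)
include h hi hs t

theorem phase2 (s : Core M C' T Jν J C1 C1) (n : s.NF C1) : M.GS C := by
  obtain ⟨ch, e0, e1⟩ := h.chain M C1 C t.t1 t.t t.le
  obtain ⟨σ, k, -⟩ := hi.init (C1 := C1) s t.t1 ch e0 e1 f
  obtain ⟨J, _, _, s', -⟩ := run hs t le_rfl σ (.inr (k.2.2 n))
  exact h.fin s'

theorem special (e : M.GS C') (k : M.Special C' C1) : M.GS C := by
  obtain ⟨T, n, s, R, h1, h2, h3, h4⟩ := h.spec M C' X C1 C t e k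
  obtain ⟨ch, σ, h5⟩ := hi.spec t s h1 h2 h4 f
  obtain ⟨J, _, _, s', h6⟩ := run hs t t.le σ (.inl rfl)
  exact phase2 h hi hs t s' (h.end2 s' t (h6.2.1 (h5.2.1 h3)))

theorem phase1 (e : M.GS C') : M.GS C := by
  obtain ⟨T, ⟨s⟩⟩ := h.start M C' t.t' e
  obtain ⟨ch, e0, e1⟩ := h.chain M C' C1 t.t' t.t1 t.le'
  obtain ⟨σ, -, h1, h2⟩ := hi.init (C1 := C1) s t.t' ch e0 e1 f
  obtain ⟨σ₁, h3, h4, h5, h6⟩ := run0 hs t σ (h1.trans_ne t.lt.ne) fun k =>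
    (t.lt.ne (h2.symm.trans k)).elim
  obtain ⟨σ₂, h7⟩ := hi.nu h.nu σ₁ h3 h4 h5 h6
  obtain ⟨J, _, _, s', h8⟩ := run hs t t.le σ₂ (.inl rfl)
  rcases h.end1 s' t (h8.1 h7) with ⟨s'', k⟩ | k
  exacts [phase2 h hi hs t s'' k, special h hi hs t e k]

omit t in
theorem gs (hC : M.Tight C) : M.GS C := by
  induction hn : finrank ℂ C using Nat.strong_induction_on generalizing C with
  | h n ih =>
    rcases eq_or_ne C ⊥ with rfl | e
    · exact s_gs0 M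
    obtain ⟨C', X, C1, t⟩ := s_tow M C hC e
    exact phase1 h hi hs t
      (ih _ (hn ▸ Submodule.finrank_lt_finrank_of_lt (t.lt.trans_le t.le)) t.t' rfl)

end Gl

theorem eac_of (h : Steps) (hi : Inits) {g N : ℕ} (A : AbVar g N)
    (I : Set (MvPolynomial (Fin g ⊕ Fin N) ℂ)) (hirr : A.Irred (A.zeroSet I))
    (hfree : A.Free (A.zeroSet I)) (hrot : A.Rotund (A.zeroSet I)) :
    ∃ z : Fin g → ℂ, (z, z) ∈ A.zeroSet I :=
  let ⟨M, k⟩ := s_top A I hirr hfree hrot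
  let ⟨_, hf⟩ := s_step h g
  k (Gl.gs h hi hf M.tight_top)

end

end Pool.Agent.P.MP_f17f76_ag
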