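import Pool.Agent.P.MP_f17f76_ag.S.Glue

/-!
The three ways of starting the loop.
-/

namespace Pool.Agent.P.MP_f17f76_ag

open Module Set Matrix E N

noncomputable section

namespace Gl

variable {g N : ℕ} {A : AbVar g N} {M : Model A} {C' X C0 C1 C : Sub g} {T : ℝ*} {Jν J : Type}
  [Fintype Jν] [DecidableEq Jν] [Fintype J] [DecidableEq J] {A' Z U : Sub g} {κ : Sub g → ℕ}
  {f : ℕ → ℕ} {ϱ : ℝ*}

theorem que_nil (s : Core M C' T Jν J A' Z) (hU : A.IsLie U) (h : 0 < ϱ) (lab : J → ℕ ⊕ ℕ) :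
    Que κ f s 0 0 (fun _ => U) (fun _ => ⟨⊥, ⊥, ⊥, ⊥, 0, 0⟩) (fun _ => 0) ϱ lab :=
  ⟨le_rfl, monotone_const, fun _ => hU, h, by simp, by simp, by simp, by simp⟩

theorem init (s : Core M C' T Jν J C0 C0) (h : M.Tight C0) (ch : M.Chain C) (e0 : ch.U 0 = C0)
    (e1 : ch.U 1 = C0) (f : ℕ → ℕ) :
    ∃ σ : Sta M C' T Jν ch f, Ps C1 s σ.s ∧ σ.A' = C0 ∧ σ.V σ.q = C0 := by
  have : IsEmpty J := Fintype.card_eq_zero_iff.1 (by have := s.count; rw [h.2] at this; omega)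
  exact ⟨⟨J, C0, C0, s, 0, 0, 0, 0, 0, fun _ => C0, 0, 1, isEmptyElim, _, _, _,
    ⟨le_rfl, monotone_const, fun _ => h.1, by simp, by simp, by simp, by simp, by simp, poly_one,
      one_pos, nsm_of_one_le s.inf le_rfl⟩, que_nil s h.1 one_pos _, e0.le, e1 ▸ ch.mono 1,
    by rw [Model.Eqn, h.2, add_comm], rfl, rfl, rfl, ⟨0, le_rfl, le_rfl, e1.symm⟩, isEmptyElim⟩,
    ps_refl _ _, rfl, rfl⟩

theorem fam_self (M : Model A) (κ : Sub g → ℕ) (U : Sub g) : ∃ E Nn, M.Fam κ U U E Nn :=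
  ⟨_, _, M.k0, 0, M.fld, zero_mem _, rfl, rfl, fun Q h => by
    rw [h.eq, A.rel_self, A.du_bot, inf_bot_eq, finrank_bot, add_zero]⟩

theorem init_spec {R : ℝ*} {n : ℕ} (t : M.Tow C' X C1 C) (s : Core M C' T Unit (Fin n) C' C1)
    (h1 : Ll 1 R) (h2 : Poly T R)
    (h3 : s.Grp (fun Q => g + finrank ℂ Q - M.H C1 Q) C' C1 univ R) (f : ℕ → ℕ) :
    ∃ (ch : M.Chain C1) (σ : Sta M C' T Unit ch f), Ps C1 s σ.s := by
  let U : ℕ → Sub g := fun j => if j = 0 then C' else C1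
  have u1 : ∀ j, U j ≤ C1 := fun j => by
    dsimp only [U]
    split_ifs
    exacts [t.le', le_rfl]
  have u2 : ∀ j, A.IsLie (U j) := fun j => by
    dsimp only [U]
    split_ifs
    exacts [t.t'.1, t.t1.1]
  have e : ∀ Q, A.IsLie Q → M.Eqn (fun Q => g + finrank ℂ Q - M.H C1 Q) Q C1 := fun Q h => by
    have := (M.H_mono t.t1.1 h le_top le_top).trans_eq M.tight_top.2
    rw [finrank_top, finrank_fin_fun] at this
    simp only [Model.Eqn, t.t1.2]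
    omega
  refine ⟨⟨1, U, _, u2, u1, fun j a => if_neg (by omega), fun j Q₁ Q₂ a b => ?_,
    fun j Qa Q a b => ?_, fun _ => e _ t.t1.1, fun j _ A'' Z _ a b _ =>
      ⟨C1, .right t.t1.1 b.2.2, e _ a.1⟩⟩,
    ⟨Fin n, C', C1, s, 0, 0, 1, 0, 0, U, fun _ => R, R, fun _ => .inl 0, _, _, _,
      ⟨zero_le_one, monotone_nat_of_le_succ u1, u2, fun i a b => by omega, fun i _ a => ?_,
        fun _ _ _ => h1, fun i i' _ a b => by omega, fun _ _ _ => rfl, h2, h1.pos,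
        nsm_of_one_le s.inf h1.le⟩, que_nil s t.t1.1 h1.pos _, le_rfl, le_rfl, e _ t.t'.1, rfl,
      rfl, rfl, ⟨0, le_rfl, le_rfl, rfl⟩, fun _ => .inl ⟨0, rfl, le_rfl, one_pos⟩⟩, ps_refl _ _⟩
  · obtain rfl : Q₂ = C1 := (b.mono a.2.1 le_rfl).eq
    obtain rfl : Q₁ = Q₂ := a.eq
    exact fam_self M _ _
  · obtain rfl : Q = C1 := b.eq
    exact (e _ a.1).le
  · obtain rfl : i = 0 := by omega
    simpa [U] using h3

theorem nu_step (h : S_NU) {ch : M.Chain C1} (σ : Sta M C' T Empty ch f) (h1 : σ.A' ≠ C1)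
    (h2 : σ.V σ.q = C1) (h3 : Big T σ.ϱ) (h4 : ¬ Big T (σ.ϱ / σ.R σ.p)) :
    ∃ σ' : Sta M C' T σ.J ch f, σ'.s.P1 C1 := by
  have hT := σ.s.inf
  have k1 : ∀ t, σ.t0 ≤ t → t ≤ σ.t1 → σ.W t = C1 := fun t a b =>
    (((σ.que.mono b).trans_eq σ.Wt).trans σ.Z_le).antisymm
      ((h2.symm.trans σ.Vq).trans_le (σ.que.mono a))
  have k2 : σ.p < σ.q := σ.cur.pq.lt_of_ne fun e => h1 (by rw [← σ.Vp, e, h2])
  have k3 := σ.cur.inf _ le_rfl k2
  have k4 := σ.cur.pos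
  have k5 := σ.cur.rate (σ.VU.trans σ.UZ) σ.cur.pq le_rfl
  have k6 : σ.Z = C1 := σ.Wt.symm.trans (k1 _ σ.que.tt le_rfl)
  have k7 : ∀ l, ¬ Big T (σ.ϱ / nm (σ.s.ρ l)) := fun l => by
    rcases σ.cov l with ⟨i, a, b, c⟩ | ⟨t, a, b, c⟩
    · rw [(σ.cur.grp i b c).rho l a]
      exact fun e => h4 (e.of_le (div_pos k4 (σ.cur.inf i b c).pos).le
        (div_le_div_of_nonneg_left k4.le k3.pos (σ.cur.le le_rfl b c)))
    · have o := σ.que.ok t b c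
      rw [k1 t b c.le, k1 _ (b.trans t.le_succ) c] at o
      exact absurd a (has_empty (σ.que.has t b c).choose_spec.2 o l)
  obtain ⟨e, k8, -⟩ := exists_slow hT countable_empty (by simp)
  have k9 := inv_pos.2 k8.1
  have m1 : ¬ Big T e⁻¹ := by rw [big_inv k8.1]; exact k8.not_sm
  have m2 : Ll 1 e⁻¹ := by simpa using k8.2.1.inv k8.1
  have m3 := div_pos k9 k3.pos
  have m4 : ¬ Big T (e⁻¹ / σ.R σ.p * σ.ϱ) := by
    rw [div_mul_eq_mul_div, mul_div_assoc]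
    exact nbig_mul k9.le (div_pos k4 k3.pos).le m1 h4
  have m5 : e⁻¹ / σ.R σ.p ≤ 1 := not_lt.1 fun a =>
    m4 (h3.of_le k4.le (le_mul_of_one_le_left k4.le a.le))
  have m6 : ∀ a, σ.R σ.p ≤ a → Ll 1 (e⁻¹ / σ.R σ.p * a) := fun a b => m2.trans_le (by
    rw [div_mul_eq_mul_div, mul_div_assoc]
    exact le_mul_of_one_le_right k9.le ((one_le_div k3.pos).2 b))
  have m7 : ¬ Tiny T (e⁻¹ / σ.R σ.p) := (not_tiny hT m3.le).2 ⟨m3, by
    rw [inv_div]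
    exact (σ.cur.poly.of_le (σ.cur.le_top le_rfl k2)).of_le (div_le_self k3.pos.le m2.le)⟩
  rw [h2.trans k6.symm, σ.Vp] at k5
  obtain ⟨s', n1, n2, n3⟩ := h σ.s σ.ϱ _ (h1 ∘ (·.trans k6)) k4 h3 σ.cur.poly k5 k7 m7 m4
  exact ⟨{ σ with
    s := s'
    R := _
    ϱ := _
    B := _
    cur := σ.cur.tr n1 le_rfl k2.le (fun _ _ _ => cor_same fun l _ => n3 l) (σ.VU.trans σ.UZ) m3 m5
      (fun i a b => m6 _ (σ.cur.le le_rfl a b))
      (nsm_of_one_le hT (m6 _ (σ.cur.le_top le_rfl k2)).le)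
    que := σ.que.scale n1 (fun _ _ _ => cor_same fun l _ => n3 l) σ.Wt.le m3 m5 },
    (congrArg s'.P1 k6).mp n2⟩

end Gl

theorem inits : Inits := ⟨Gl.init, Gl.init_spec, fun h => Gl.nu_step h⟩

end

end Pool.Agent.P.MP_f17f76_ag
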