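import Pool.Agent.P.MP_f17f76_ag.S.Sta

/-!
One step of the main loop.
-/

namespace Pool.Agent.P.MP_f17f76_ag

open Module Set Matrix E N

noncomputable section

namespace Gl

variable {g N : ℕ} {A : AbVar g N} {M : Model A} {C' X C1 C Cc : Sub g} {T : ℝ*} {Jν J : Type}
  [Fintype Jν] [DecidableEq Jν] [Fintype J] [DecidableEq J] {A' Z U : Sub g} {ch : M.Chain Cc}
  {f D : ℕ → ℕ} {κ : Sub g → ℕ} {s : Core M C' T Jν J A' Z} {p p' q t0 t0' t1 : ℕ}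
  {V W : ℕ → Sub g} {R : ℕ → ℝ*} {ϱ : ℝ*} {lab : J → ℕ ⊕ ℕ} {B : ℕ → Blk g}

theorem Cur.adv (h : Cur κ s p q V R ϱ lab) (h1 : p ≤ p') (h2 : p' ≤ q) :
    Cur κ s p' q V R ϱ lab :=
  ⟨h2, h.mono, h.lie, fun i a => h.ne i (h1.trans_lt a), fun i a => h.grp i (h1.trans a),
    fun i a => h.inf i (h1.trans a), fun i i' a => h.sep i i' (h1.trans a),
    fun i a => h.top i (h1.trans a), h.poly, h.pos, h.low⟩

theorem Que.pop (h : Que κ f s t0 t1 W B D ϱ lab) (h1 : t0 ≤ t0') (h2 : t0' ≤ t1) :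
    Que κ f s t0' t1 W B D ϱ lab :=
  ⟨h2, h.mono, h.lie, h.pos, fun t a => h.ok t (h1.trans a), fun t a b =>
    (h.has t (h1.trans a) b).imp fun _ k => ⟨(Nat.add_le_add_left (Finset.sum_le_sum_of_subset
      (Finset.Ico_subset_Ico_left h1)) _).trans k.1, k.2⟩,
    fun t a => h.saf t (h1.trans a), fun u t a => h.gap u t (h1.trans a)⟩

theorem ps_refl (C1 : Sub g) (s : Core M C' T Jν J A' Z) : Ps C1 s s := ⟨id, id, id⟩

theorem chain_le (ch : M.Chain Cc) (j : ℕ) : ch.U j ≤ Cc :=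
  (monotone_nat_of_le_succ ch.mono (le_max_left j ch.m)).trans_eq (ch.last _ (le_max_right _ _))

theorem lex_lt {a a' b b' c c' d d' : ℕ}
    (h : a' < a ∨ a' = a ∧ (b' < b ∨ b' = b ∧ (c' < c ∨ c' = c ∧ d' < d))) :
    (toLex (a', toLex (b', toLex (c', d'))) : ℕ ×ₗ ℕ ×ₗ ℕ ×ₗ ℕ) <
      toLex (a, toLex (b, toLex (c, d))) := by
  simpa only [Prod.Lex.toLex_lt_toLex] using h

theorem codim_lt (h : A' ≤ U) (h' : U ≠ A') : g - finrank ℂ U < g - finrank ℂ A' := by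
  have h1 := Submodule.finrank_lt_finrank_of_lt (h.lt_of_ne h'.symm)
  have h2 := U.finrank_le
  rw [finrank_fin_fun] at h2
  omega

namespace Sta

variable (σ : Sta M C' T Jν ch f)

theorem VU : σ.V σ.q ≤ ch.U (σ.j + 1) :=
  let ⟨_, a, _, c⟩ := σ.bnd; (σ.Vq.trans_le (σ.que.mono a)).trans_eq c

theorem UZ : ch.U (σ.j + 1) ≤ σ.Z :=
  let ⟨_, _, b, c⟩ := σ.bnd; (c.symm.trans_le (σ.que.mono b)).trans_eq σ.Wt

theorem bZ : A.Btw (ch.U (σ.j + 1)) σ.Z (ch.U (σ.j + 2)) := ⟨σ.s.lie, σ.UZ, σ.hi⟩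

theorem bU (h : σ.p < σ.q) (hU : A.Btw σ.A' U (σ.V (σ.p + 1))) :
    A.Btw σ.A' U (ch.U (σ.j + 1)) := hU.mono le_rfl ((σ.cur.mono h).trans σ.VU)

theorem bV : A.Btw σ.A' (σ.V (σ.p + 1)) (σ.V (σ.p + 1)) :=
  .right (σ.cur.lie _) (σ.Vp ▸ σ.cur.mono σ.p.le_succ)

theorem cnt (hU : A.Btw σ.A' U (ch.U (σ.j + 1))) (h : ch.κ U ≤ ch.κ σ.A') :
    ch.κ U = ch.κ σ.A' ∧ M.Eqn ch.κ U σ.Z ∧
      M.H σ.Z U + finrank ℂ σ.A' = M.H σ.Z σ.A' + finrank ℂ U := by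
  have h1 := ch.ineq σ.j U σ.Z (hU.mono σ.lo le_rfl) σ.bZ
  have h2 := σ.eqn
  have h3 := M.H_le_right σ.s.lie σ.s.btw.1 hU.1 hU.2.1
  rw [Model.Ineq] at h1
  rw [Model.Eqn] at h2 ⊢
  omega

theorem adv (h : σ.p < σ.q) (e : σ.V (σ.p + 1) = σ.A') : ∃ σ', Nxt C1 σ σ' := by
  refine ⟨{ σ with
    p := σ.p + 1
    cur := σ.cur.adv σ.p.le_succ h
    Vp := e
    cov := fun l => (σ.cov l).imp_left fun ⟨i, a, b, c⟩ => ⟨i, a, b.lt_of_ne ?_, c⟩ },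
    lex_lt (.inr ⟨rfl, .inr ⟨rfl, .inr ⟨rfl, Nat.sub_succ_lt_self _ _ h⟩⟩⟩), ps_refl _ _,
    .inl rfl, .inr ⟨rfl, fun _ k => k.of_le (div_pos σ.cur.pos (σ.cur.inf _ le_rfl h).pos).le
      (div_le_self σ.cur.pos.le (σ.cur.inf _ le_rfl h).le)⟩⟩
  rintro rfl
  have := σ.cur.grp _ b c
  rw [e, σ.Vp] at this
  exact grp_empty this l a

theorem pop (h : σ.p = σ.q) {t : ℕ} (h1 : σ.t0 < t) (h2 : t ≤ σ.t1) (h3 : σ.W t = ch.U (σ.j + 1))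
    (e : σ.W (σ.t0 + 1) = σ.W σ.t0) : ∃ σ', Nxt C1 σ σ' := by
  refine ⟨{ σ with
    t0 := σ.t0 + 1
    que := σ.que.pop σ.t0.le_succ (h1.trans_le h2)
    Vq := σ.Vq.trans e.symm
    bnd := ⟨t, h1, h2, h3⟩
    cov := fun l => (σ.cov l).imp_right fun ⟨i, a, b, c⟩ => ⟨i, a, b.lt_of_ne ?_, c⟩ },
    lex_lt (.inr ⟨rfl, .inr ⟨rfl, .inl (Nat.sub_succ_lt_self _ _ (h1.trans_le h2))⟩⟩), ps_refl _ _,
    .inl rfl, .inr ⟨rfl, fun k => absurd h k.ne⟩⟩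
  rintro rfl
  have := σ.que.ok _ b c
  rw [e] at this
  exact has_empty (σ.que.has _ b c).choose_spec.2 this l a

theorem abs (S : Steps) (tw : M.Tow C' X C1 C) (hC : Cc ≤ C) (ph : σ.s.PH C1) (h : σ.p < σ.q)
    {V' : ℕ → Sub g} (hc : Cur ch.κ σ.s p' σ.q V' σ.R σ.ϱ σ.lab) (e1 : V' p' = U)
    (e2 : V' σ.q = σ.V σ.q) (hl : ∀ l i, σ.lab l = .inl i → σ.p ≤ i → p' ≤ i)
    (hU : A.Btw σ.A' U (σ.V (σ.p + 1))) (hne : U ≠ σ.A') (hk : ch.κ U ≤ ch.κ σ.A') {r : ℝ*}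
    (h1 : σ.s.Rate (A.rel U σ.A') r) (h2 : 1 ≤ r) (h3 : r ≤ σ.R σ.p)
    (h4 : ∀ i, p' ≤ i → i < σ.q → Ll r (σ.R i)) : ∃ σ', Nxt C1 σ σ' := by
  have hT := σ.s.inf
  have r0 := one_pos.trans_le h2
  have k0 := h3.trans (σ.cur.le_top le_rfl h)
  obtain ⟨e, k1, k2⟩ := exists_fac hT r0 (S := {i | p' ≤ i ∧ i < σ.q}) fun i a => h4 i a.1 a.2
  obtain ⟨-, k3, k4⟩ := σ.cnt (σ.bU h hU) hk
  obtain ⟨s', φ, n, k5, k6⟩ := S.abs σ.s U r (e / r) tw ((σ.hi.trans (chain_le _ _)).trans hC) ph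
    ((σ.bU h hU).mono le_rfl σ.UZ) k4 h1 h2 (ntiny_div hT k1 r0 (σ.cur.poly.of_le k0))
    (by simpa only [div_mul_cancel₀ _ r0.ne'] using k1.2.1)
  have t := S.der _ _ _ _ _ k5
  have k7 := div_pos k1.1 r0
  have k8 : e / r ≤ 1 := (div_le_one r0).2 (k1.2.1.le.trans h2)
  have k9 : e / r * σ.ϱ = e * (σ.ϱ / r) := by ring
  have n1 : ¬ Sm T (e / r * σ.ϱ) := k9 ▸ nsm_mul hT k1.1 (div_pos σ.cur.pos r0) k1.not_sm
    (nsm_of_one_le hT ((one_le_div r0).2 k0))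
  have n2 : Big T (σ.ϱ / σ.R σ.p) → Big T (e / r * σ.ϱ) := fun k => by
    rw [k9]
    exact big_mul k1.1 (div_pos σ.cur.pos r0).le k1.not_sm (k.of_le (div_pos σ.cur.pos
      (r0.trans_le h3)).le (div_le_div_of_nonneg_left σ.cur.pos.le r0 h3))
  exact ⟨{ σ with
    A' := U
    s := s'
    p := p'
    V := V'
    R := _
    ϱ := _
    B := _
    cur := hc.tr t le_rfl hc.pq (fun _ _ _ => cor_same fun l _ => k6 l)
      (e2.trans_le (σ.VU.trans σ.UZ)) k7 k8 (fun i a b => k2 e le_rfl i ⟨a, b⟩) n1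
    que := σ.que.scale t (fun _ _ _ => cor_same fun l _ => k6 l) σ.Wt.le k7 k8
    lo := σ.lo.trans hU.2.1
    eqn := k3
    Vp := e1
    Vq := e2.trans σ.Vq
    cov := fun l => (σ.cov l).imp_left fun ⟨i, a, b, c⟩ => ⟨i, a, hl l i a b, c⟩ },
    lex_lt (.inr ⟨rfl, .inl (codim_lt hU.2.1 hne)⟩), S.pass _ _ _ _ _ _ tw.t1.1 k5,
    .inr ⟨h, hU.2.2⟩, .inr ⟨e2, fun _ => n2⟩⟩

theorem gf (S : Steps) (tw : M.Tow C' X C1 C) (hC : Cc ≤ C) (ph : σ.s.PH C1) (h1 : σ.p ≤ p')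
    (h2 : p' ≤ σ.q) {I : Finset σ.J} (hI : ∀ l, l ∈ I ↔ ∃ i < p', σ.lab l = .inl i) {r : ℝ*}
    (hg : σ.s.Grp ch.κ σ.A' (σ.V p') I r) (h3 : 1 ≤ r) (h4 : Poly T r)
    (h5 : σ.V p' ≠ σ.A' → Ll 1 r ∧ I.Nonempty)
    (h6 : ∀ Q, A.Btw σ.A' Q (σ.V p') → σ.s.Less (A.rel Q σ.A') r → Q = σ.A')
    (h7 : ∀ i, p' ≤ i → i < σ.q → Ll r (σ.R i)) (h8 : ¬ Sm T (σ.ϱ / r))
    (h9 : σ.p < σ.q → r = σ.R σ.p) {Z'' : Sub g} (hZ : A.Btw σ.Z Z'' (ch.U (σ.j + 2)))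
    (he : M.Eqn ch.κ (σ.V p') Z'') {j' : ℕ} (hj : σ.j ≤ j') (lo : ch.U j' ≤ σ.V p')
    (bnd : j' = σ.j ∨ Z'' = ch.U (j' + 1))
    (lt : ch.m - j' < ch.m - σ.j ∨ j' = σ.j ∧ σ.V p' ≠ σ.A')
    (le : σ.V p' = σ.A' ∨ σ.p < σ.q ∧ σ.V p' ≤ σ.V (σ.p + 1)) : ∃ σ', Nxt C1 σ σ' := by
  have hT := σ.s.inf
  have r0 := one_pos.trans_le h3
  have b1 : A.Btw σ.A' (σ.V p') (ch.U (σ.j + 1)) :=
    ⟨σ.cur.lie _, σ.Vp ▸ σ.cur.mono h1, (σ.cur.mono h2).trans σ.VU⟩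
  obtain ⟨k, d, k0⟩ := S.gf σ.s ch.κ (σ.V p') Z'' I r tw ph (b1.mono le_rfl σ.UZ)
    (hZ.mono le_rfl ((chain_le _ _).trans hC)) (ch.fam σ.j _ _ (σ.bZ.mono le_rfl le_rfl |>.imp_right
      (.imp_right fun _ => hZ.2.1)) hZ)
    (fun Qa Q a b => ch.ineq σ.j Qa Q (a.mono σ.lo b1.2.2) (b.mono σ.UZ hZ.2.2)) σ.eqn he hg h3 h4
    h5 h6
  obtain ⟨e₀, k1, k2⟩ := exists_fac hT r0 (S := {i | p' ≤ i ∧ i < σ.q}) fun i a => h7 i a.1 a.2
  obtain ⟨m, k3, k4⟩ := σ.que.exists_bd σ.cur.poly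
  obtain ⟨e, s', φ, n, b, m1, m2, m3, m4, m5, m6, m7⟩ :=
    k0 (f (d + ∑ u ∈ Finset.Ico σ.t0 σ.t1, f (σ.D u)) + 1 + m) e₀ k1.2.1
  have k5 := k1.of_le hT m1 m2
  have t := S.der _ _ _ _ _ m3
  have k7 := div_pos k5.1 r0
  have k8 : e / r ≤ 1 := (div_le_one r0).2 (m2.le.trans h3)
  have k9 : e / r * σ.ϱ = e * (σ.ϱ / r) := by ring
  let lab' : {l // l ∉ I} ⊕ Fin k → ℕ ⊕ ℕ := Sum.elim (fun l => σ.lab l) fun _ => .inr σ.t1
  have c : ∀ x, x ≠ .inr σ.t1 → (∀ i < p', x ≠ .inl i) →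
      Cor (e / r) σ.s s' {l | σ.lab l = x} {l | lab' l = x} := fun x a b =>
    ⟨fun l' hl => by
      rcases l' with l | l
      exacts [⟨l, hl, m4 l⟩, absurd hl a.symm],
    fun l hl => ⟨.inl ⟨l, fun y => let ⟨i, y1, y2⟩ := (hI l).1 y; b i y1 (hl.symm.trans y2)⟩, hl,
      (m4 _).1⟩⟩
  have c2 : {l | lab' l = .inr σ.t1} = range .inr := Set.ext fun l => by
    rcases l with l | l
    · rcases σ.cov l with ⟨i, a, -⟩ | ⟨i, a, -, b⟩ <;> simp [lab', a]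
      omega
    · simp [lab']
  have q1 := σ.que.scale t (fun u _ b => c (.inr u) (by simpa using b.ne) (by simp)) σ.Wt.le k7 k8
  have n2 : σ.p < σ.q → Big T (σ.ϱ / σ.R σ.p) → Big T (e / r * σ.ϱ) := fun a k => by
    rw [k9]
    exact big_mul k5.1 (div_pos σ.cur.pos r0).le k5.not_sm (h9 a ▸ k)
  refine ⟨{
    J := {l // l ∉ I} ⊕ Fin k
    A' := σ.V p'
    Z := Z''
    s := s'
    j := j'
    p := p'
    q := σ.q
    t0 := σ.t0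
    t1 := σ.t1 + 1
    V := σ.V
    R := _
    ϱ := _
    lab := lab'
    W := _
    B := _
    D := _
    cur := σ.cur.tr t h1 h2 (fun i a _ => c (.inl i) (by simp) fun i' b => by
        simpa using (b.trans_le a).ne')
      (σ.VU.trans σ.UZ) k7 k8 (fun i a b => k2 e m1 i ⟨a, b⟩)
      (k9 ▸ nsm_mul hT k5.1 (div_pos σ.cur.pos r0) k5.not_sm h8)
    que := q1.app (σ.Wt ▸ m5) hZ.1 (σ.Wt ▸ hZ.2.1) (c2 ▸ m6)
      ((mul_le_of_le_one_left σ.cur.pos.le k8).trans k3) (fun u a b i => le_trans ?_ (k4 u a b i))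
      m7
    lo := lo
    hi := hZ.2.2.trans (monotone_nat_of_le_succ ch.mono (by omega))
    eqn := he
    Vp := rfl
    Vq := by simpa only [σ.que.tt, if_true] using σ.Vq
    Wt := by simp
    bnd := ?_
    cov := ?_ },
    lex_lt (lt.imp_right fun a => ⟨congrArg (ch.m - ·) a.1, .inl (codim_lt b1.2.1 a.2)⟩),
    S.pass _ _ _ _ _ _ tw.t1.1 m3, le, .inr ⟨rfl, n2⟩⟩
  · exact mul_le_mul_of_nonneg_left (mul_le_of_le_one_left (σ.que.rpos a b i).le k8)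
      (pow_pos hT.pos _).le
  · rcases bnd with rfl | a
    · obtain ⟨u, a, b, c⟩ := σ.bnd
      exact ⟨u, a, b.trans σ.t1.le_succ, by rwa [if_pos b]⟩
    · exact ⟨σ.t1 + 1, σ.que.tt.trans σ.t1.le_succ, le_rfl, by simpa using a⟩
  · rintro (l | l)
    · exact (σ.cov l).imp (fun ⟨i, a, _, b⟩ => ⟨i, a, not_lt.1 fun y => l.2 ((hI l).2 ⟨i, y, a⟩), b⟩)
        fun ⟨i, a, b, c⟩ => ⟨i, a, b, c.trans σ.t1.lt_succ_self⟩
    · exact .inr ⟨σ.t1, rfl, σ.que.tt, σ.t1.lt_succ_self⟩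

theorem next (S : Steps) (hC : A.IsLie C1) (σ : Sta M C' T Jν ch (S.next g).choose) (h : σ.p = σ.q)
    {t : ℕ} (h1 : σ.t0 < t) (h2 : t ≤ σ.t1) (h3 : σ.W t = ch.U (σ.j + 1))
    (e : σ.W (σ.t0 + 1) ≠ σ.W σ.t0) : ∃ σ', Nxt C1 σ σ' := by
  have hT := σ.s.inf
  have h4 := h1.trans_le h2
  have e0 : σ.W σ.t0 = σ.A' := by rw [← σ.Vq, ← h, σ.Vp]
  obtain ⟨d, k1, k2⟩ := σ.que.has _ le_rfl h4
  have k3 := σ.que.saf _ le_rfl h4
  have k4 := σ.que.rpos le_rfl h4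
  have k5 := big_mul σ.cur.pos hT.pos.le σ.cur.low big_self
  have k6 := mul_pos σ.cur.pos hT.pos
  have k7 := (S.next g).choose_spec σ.s ch.κ (σ.W (σ.t0 + 1)) (σ.B σ.t0)
    {l | σ.lab l = .inr σ.t0} (σ.D σ.t0)
  generalize (S.next g).choose = f at *
  have k8 := pow_pos hT.pos (f (σ.D σ.t0))
  have k9 : ∀ j, Lc (T ^ f (σ.D σ.t0) * (σ.ϱ * T)) ((σ.B σ.t0).r j) := fun j => by
    simpa only [pow_succ, mul_assoc, mul_comm T] using k3 j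
  obtain ⟨s', φ, n, η, q, V, R, lv, m1, m2, m3, m4, m5, m6, m7, m8, m9⟩ := k7
    ⟨σ.que.lie _, e0 ▸ σ.que.mono σ.t0.le_succ, σ.Wt ▸ σ.que.mono h4⟩ (e0 ▸ e.symm)
    (e0 ▸ σ.que.ok _ le_rfl h4) (has_mono k2 (fun j => (k4 j).le) (by omega)) fun j =>
      (k5.of_lc hT k6.le (k4 j).le (Lc.le_trans (le_mul_of_one_le_left k6.le
        (one_le_pow₀ hT.one_lt.le)) (k9 j))).ll hT (k4 j).le
  have n0 : 0 < η := (mul_pos_iff_of_pos_right k8).1 (one_pos.trans_le m3)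
  have n1 : Monotone fun i => V (min i q) := monotone_nat_of_le_succ fun i => by
    rcases lt_or_ge i q with a | a
    · rw [min_eq_left a.le, min_eq_left a]
      exact (m9 i a).2.1
    · rw [min_eq_right a, min_eq_right (a.trans i.le_succ)]
  have n2 : ∃ i, V (min i q) = σ.W (σ.t0 + 1) := ⟨q, by rwa [min_self]⟩
  classical
  have n3 := Nat.find_spec n2
  have n4 : Nat.find n2 ≤ q := Nat.find_min' n2 (by rwa [min_self])
  have n5 := fun i => Nat.find_min n2 (m := i)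
  generalize Nat.find n2 = q' at n3 n4 n5
  have n6 : 0 < q' := Nat.pos_of_ne_zero fun a => e (by rw [← n3, a, zero_min, m5, e0])
  have n7 : ∀ i < q, 0 < R i ∧ Big T (R i) := fun i a => by
    obtain ⟨j, b⟩ := (m9 i a).2.2.2.1
    have c := ((k9 j).trans b).mul_left (inv_pos.2 k8).le
    rw [inv_mul_cancel_left₀ k8.ne', inv_mul_cancel_left₀ k8.ne'] at c
    exact ⟨pos_of_lc c k6, k5.of_lc hT k6.le (pos_of_lc c k6).le c⟩
  have n8 : ∀ i, q' ≤ i → i ≤ q → V i = σ.W (σ.t0 + 1) := fun i a b => le_antisymm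
    (by simpa only [min_eq_left b, min_self, m6] using n1 b)
    (by simpa only [min_eq_left b, n3] using n1 a)
  obtain ⟨j₀, n9⟩ := (m9 (q' - 1) (by omega)).2.2.2.2
  let lab' : σ.J → ℕ ⊕ ℕ := fun l => if σ.lab l = .inr σ.t0 then .inl (lv l) else σ.lab l
  have c1 : ∀ i, {l | lab' l = .inl i} = {l ∈ {l | σ.lab l = .inr σ.t0} | lv l = i} := fun i =>
    Set.ext fun l => by
      rcases σ.cov l with ⟨i, -, a, b⟩ | ⟨u, a, -⟩
      · omega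
      · by_cases b : u = σ.t0 <;> simp [lab', a, b]
  have c2 : ∀ u, σ.t0 < u → {l | lab' l = .inr u} = {l | σ.lab l = .inr u} := fun u a =>
    Set.ext fun l => by
      by_cases b : σ.lab l = .inr σ.t0 <;> simp [lab', b, a.ne]
  have c3 : ∀ u, σ.t0 < u → ∀ l, σ.lab l = .inr u → σ.lab l ≠ .inr σ.t0 := fun u a l b => by
    simp [b, a.ne']
  refine ⟨{ σ with
    s := s'
    p := 0
    q := q'
    t0 := σ.t0 + 1
    V := fun i => V (min i q)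
    R := R
    ϱ := R (q' - 1)
    lab := lab'
    B := _
    cur := ⟨q'.zero_le, n1, fun i => ?_, fun i _ b => n3 ▸ n5 i b, fun i _ b => ?_,
      fun i _ b => (n7 i (by omega)).2.ll hT (n7 i (by omega)).1.le,
      fun i i' _ a b => m8 i i' a (by omega), fun i _ b => by rw [← b, Nat.add_sub_cancel],
      ((poly_pow _).mul hT (k2.poly j₀) (k4 j₀).le).of_lc hT n9, (n7 _ (by omega)).1,
      nsm_of_one_le hT ((n7 _ (by omega)).2.ll hT (n7 _ (by omega)).1.le).le⟩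
    que := σ.que.tr (S.der _ _ _ _ _ m1) σ.t0.le_succ h4
      (fun u a _ => by rw [c2 u a]; exact cor_same fun l b => m4 l (c3 u a l b)) σ.Wt.le n0.le m2
      m3 (by simp) (n7 _ (by omega)).1 fun u a b j => ?_
    Vp := by rw [zero_min, m5]
    Vq := n3
    bnd := ⟨t, h1, h2, h3⟩
    cov := fun l => ?_ },
    lex_lt (.inr ⟨rfl, .inr ⟨rfl, .inl (Nat.sub_succ_lt_self _ _ h4)⟩⟩),
    S.pass _ _ _ _ _ _ hC m1, .inl rfl, .inl (n7 _ (by omega)).2⟩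
  · rcases lt_or_ge i q with a | a
    · rw [min_eq_left a.le]
      exact (m9 i a).1
    · rw [min_eq_right a, m6]
      exact σ.que.lie _
  · rw [min_eq_left (by omega), min_eq_left (by omega), c1]
    exact (m9 i (by omega)).2.2.1
  · have y0 := pow_pos hT.pos (f (σ.D u) + 1)
    have y1 := (σ.que.gap _ u le_rfl a b j₀ j).mul_left n0.le
    refine (n9.mul_left y0.le).trans (Lc.le_trans ?_ y1)
    refine (le_mul_of_one_le_left (mul_pos y0 (mul_pos k8 (k4 j₀))).le m3).trans_eq ?_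
    ring
  · by_cases b : σ.lab l = .inr σ.t0
    · refine .inl ⟨lv l, if_pos b, Nat.zero_le _, not_le.1 fun a => ?_⟩
      have y := (m9 _ (m7 l b)).2.2.1
      rw [n8 _ a (m7 l b).le, n8 _ (by omega) (m7 l b)] at y
      exact grp_empty y l ⟨b, rfl⟩
    · rcases σ.cov l with ⟨i, -, a, c⟩ | ⟨u, a, c, y⟩
      · omega
      · exact .inr ⟨u, (if_neg b).trans a, c.lt_of_ne fun x => b (x ▸ a), y⟩

end Sta

end Gl

open Gl in
theorem s_step (S : Steps) : S_STEP := fun g => ⟨(S.next g).choose, by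
  intro N A M C' X C1 C Cc T Jν _ _ ch σ tw hC ph hne
  classical
  have hT := σ.s.inf
  rcases σ.cur.pq.eq_or_lt with h | h
  · by_cases e : σ.A' = ch.U (σ.j + 1)
    · refine σ.gf S tw hC ph le_rfl h.le (I := ∅) (fun l => ?_) (r := 1) ?_ le_rfl poly_one
        (fun a => absurd σ.Vp a) (fun Q a _ => by rw [σ.Vp] at a; exact a.eq) (fun i a b => by omega)
        (by simpa using σ.cur.low) (fun a => by omega) (.right (ch.lie _) σ.hi)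
        (by rw [σ.Vp, e]; exact ch.eqn _) σ.j.le_succ (σ.Vp.trans e).ge (.inr rfl) (.inl ?_)
        (.inl σ.Vp)
      · rcases σ.cov l with ⟨i, -, a, b⟩ | ⟨u, a, -⟩
        · omega
        · simp [a]
      · rw [σ.Vp]
        exact ⟨by simp, by simp, by simp, fun Q a => (congrArg ch.κ a.eq).trans_le (Nat.le_add_right _ _), rate_bot _ _ _⟩
      · have : ¬ ch.m ≤ σ.j + 1 := fun a => hne (e.trans (ch.last _ a))
        omega
    · obtain ⟨t, a, b, c⟩ := σ.bnd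
      have d : σ.t0 < t := a.lt_of_ne fun y => e (by rw [← c, ← y, ← σ.Vq, ← h, σ.Vp])
      by_cases y : σ.W (σ.t0 + 1) = σ.W σ.t0
      exacts [σ.pop h d b c y, σ.next S tw.t1.1 h d b c y]
  by_cases e : σ.V (σ.p + 1) = σ.A'
  · exact σ.adv h e
  have hg := σ.cur.grp _ le_rfl h
  have hR := σ.cur.inf _ le_rfl h
  rw [σ.Vp] at hg
  by_cases hI : ∃ l, σ.lab l = .inl σ.p
  swap
  · refine σ.abs S tw hC ph h (σ.cur.adv σ.p.le_succ h) rfl rfl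
      (fun l i a b => b.lt_of_ne fun c => hI ⟨l, c ▸ a⟩) σ.bV e ?_ hg.rate hR.le le_rfl
      fun i a b => σ.cur.sep _ i le_rfl a b
    have := hg.card
    rw [eq_empty_of_forall_notMem (s := {l | σ.lab l = .inl σ.p}) fun l a => hI ⟨l, a⟩,
      image_empty, Submodule.span_empty, finrank_bot, zero_add] at this
    exact this.ge
  by_cases hf : ∀ Q, A.Btw σ.A' Q (σ.V (σ.p + 1)) → σ.s.Less (A.rel Q σ.A') (σ.R σ.p) → Q = σ.A'
  · obtain ⟨Z'', k1, k2⟩ := ch.att σ.j σ.A' _ σ.Z ⟨σ.s.btw.1, σ.lo, σ.bV.2.1⟩ (σ.bU h σ.bV) σ.bZ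
      σ.eqn
    refine σ.gf S tw hC ph σ.p.le_succ h (I := Finset.univ.filter fun l => σ.lab l = .inl σ.p)
      (fun l => ?_) (by simpa using hg) hR.le (σ.cur.poly.of_le (σ.cur.le_top le_rfl h))
      (fun _ => ⟨hR, hI.imp fun l a => by simpa⟩) hf (fun i a b => σ.cur.sep _ i le_rfl a b)
      (nsm_of_one_le hT ((one_le_div hR.pos).2 (σ.cur.le_top le_rfl h))) (fun _ => rfl) k1 k2
      le_rfl (σ.lo.trans σ.bV.2.1) (.inl rfl) (.inr ⟨rfl, e⟩) (.inr ⟨h, le_rfl⟩)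
    rcases σ.cov l with ⟨i, a, b, -⟩ | ⟨u, a, -⟩ <;> simp [a]
    omega
  · simp only [not_forall] at hf
    obtain ⟨Q, k1, k2, k3⟩ := hf
    obtain ⟨r, k4, k5, k6⟩ := exists_rate k2 hR
    have k7 := hg.rank Q k1
    rw [S.split σ.s Q _ _ _ k1 ⟨σ.cur.lie _, k1.2.2, (σ.bU h σ.bV).2.2.trans σ.UZ⟩ hg.du hg.rho hR
      k2, finrank_bot, add_zero] at k7
    exact σ.abs S tw hC ph h (σ.cur.shift h (by rwa [σ.Vp])
      (by rw [σ.Vp]; exact (σ.cnt (σ.bU h k1) k7).1))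
      (if_pos le_rfl) (if_neg h.not_ge) (fun _ _ _ a => a) k1 k3 k7 k6 k4 k5.le
      fun i a b => k5.trans_le (σ.cur.le le_rfl a b)⟩

end

end Pool.Agent.P.MP_f17f76_ag
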