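import Pool.Agent.P.MP_f17f76_ag.S.Alg
import Pool.Agent.P.MP_f17f76_ag.E.AxZ
import Pool.Agent.P.MP_f17f76_ag.E.Tw1
import Pool.Agent.P.MP_f17f76_ag.E.Loc
import Pool.Agent.P.MP_f17f76_ag.E.Log
import Pool.Agent.P.MP_f17f76_ag.E.Tau

/-!
Ax-Schanuel in the differential field of germs: tools.
-/

namespace Pool.Agent.P.MP_f17f76_ag

open Module Set E N MvPolynomial

/-- A finite part of the base already gives the transcendence degree. -/
theorem E.exists_fin_base {K : Type} [Field K] (F S : Set K) {s' : Set K} (hf' : s'.Finite) :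
    ∃ s ⊆ S, s.Finite ∧ trd (F ∪ s) s' ≤ trd (F ∪ S) s' := by
  induction s', hf' using Set.Finite.induction_on with
  | empty => exact ⟨∅, empty_subset _, finite_empty, by simp⟩
  | @insert x T _ hT ih =>
    obtain ⟨s, hs, hf, h1⟩ := ih
    by_cases h2 : x ∈ acl (F ∪ S ∪ T)
    · have h3 : x ∈ (mt (F ∪ T)).closure S := by rwa [mt_closure, union_right_comm]
      obtain ⟨I, hI, hIf, -, h4⟩ := Matroid.exists_mem_finite_closure_of_mem_closure h3
      rw [mt_closure, union_right_comm] at h4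
      refine ⟨s ∪ I, union_subset hs hI, hf.union hIf, ?_⟩
      rw [trd_insert_of_mem h2, trd_insert_of_mem (acl_mono (union_subset_union_left _
        (union_subset_union_right _ subset_union_right)) h4)]
      exact (trd_anti hT ((union_subset_union_right _ subset_union_left).trans
        (subset_acl _))).trans h1
    · refine ⟨s, hs, hf, ?_⟩
      rw [trd_insert_of_notMem hT h2, trd_insert_of_notMem hT fun h3 => h2
        (acl_mono (union_subset_union_left _ (union_subset_union_right _ hs)) h3)]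
      omega

namespace AbVar

variable {g N : ℕ} {A : AbVar g N} {k : Subfield ℂ} {U : Sub g} {I : Type} [Fintype I]

/-- Ax-Schanuel over the field of constants: `V` is the largest frozen part of `U`. -/
theorem Over.as_frz [DecidableEq I] (h : A.Over k) (hk : (k : Set ℂ).Countable) {D : I → Der ℂ}
    (hD : ∀ i, D i ∈ kil (k : Set ℂ)) {X : I → ℂ}
    (hX : ∀ i l, D i (X l) = if i = l then 1 else 0) (hU : A.IsLie U) {a W : Fin g → ℂ}
    (hW : ∀ i, A.dl a (D i) = dv W (D i)) : ∃ V, A.IsLie V ∧ V ≤ U ∧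
      range (A.crd (A.pr V a)) ⊆ csts (range D) ∧ range (A.pr V W) ⊆ csts (range D) ∧
      (∀ V', V' ≤ U → A.IsLie V' → range (A.crd (A.pr V' a)) ⊆ csts (range D) → V' ≤ V) ∧
      Fintype.card I + finrank ℂ U ≤
        trd (csts (range D) : Set ℂ) (range X ∪ (range (A.crd a) ∪ range W)) + finrank ℂ V := by
  have h0 : (k : Set ℂ) ⊆ csts (range D) := subset_csts.2 (range_subset_iff.2 hD)
  have h1 := hU.inf (A.isLie_rh (A.dl a '' range D)).perp
  have h2 : ∀ i, A.pr (U ⊓ A.perp (A.rh (A.dl a '' range D))) (A.dl a (D i)) = 0 := fun i =>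
    A.pr_eq_zero_iff.2 (A.le_perp_comm.1 inf_le_right (A.subset_rh _ ⟨_, ⟨i, rfl⟩, rfl⟩))
  refine ⟨_, h1, inf_le_left, subset_csts.2 (range_subset_iff.2 fun i =>
    (h.dl_eq_zero_iff (hD i)).1 (by rw [h.dl_pr (hD i) h1, h2])),
    subset_csts.2 (range_subset_iff.2 fun i => dv_eq_zero.1 (by rw [h.dv_pr h1 (hD i), ← hW, h2])),
    fun V' h3 h4 h5 => le_inf h3 (A.le_perp_comm.1 ((rh_le_iff h4.perp).2 ?_)), ?_⟩
  · rintro _ ⟨_, ⟨i, rfl⟩, rfl⟩
    exact A.pr_eq_zero_iff.1 ((h.dl_pr (hD i) h4 a).symm.trans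
      (A.dl_eq_zero (subset_csts.1 h5 ⟨i, rfl⟩)))
  obtain ⟨s, h3, h4, h5⟩ := exists_fin_base (k : Set ℂ) (csts (range D))
    ((finite_range X).union ((finite_range (A.crd a)).union (finite_range W)))
  have h6 : ∀ i, D i ∈ kil ((k : Set ℂ) ∪ s) ∧ A.dl a (D i) - dv W (D i) ∈ ann (A.du U) := fun i =>
    ⟨subset_csts.1 (union_subset h0 h3) ⟨i, rfl⟩, by rw [hW, sub_self]; exact zero_mem _⟩
  have := h.as_trd (Δ := range D) h.isGen (hk.union h4.countable) (acl_ul _ _)
    ((h.ov_du hU).mono (acl_ul _ _)) W (forall_mem_range.2 h6) h6 hX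
  rw [← A.du_perp, ← A.du_inf, A.finrank_du, A.finrank_du] at this
  rw [union_eq_right.2 h0] at h5
  omega

/-- A polynomial that vanishes at a generic point of a chart vanishes on the chart. -/
theorem Over.eval_aff (h : A.Over k) {F : Set ℂ} (hF : F.Countable) (hk : (k : Set ℂ) ⊆ acl F)
    (hU : A.IsLie U) {b u : Fin g → ℂ} (hb : b ∈ U) (h1 : finrank ℂ U ≤ trd F (range (A.crd b)))
    (hu : u ∈ U) {i : Fin N} (hi : A.θ u i ≠ 0) {p : MvPolynomial (Fin N) ℂ} (hp : Cf (acl F) p)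
    (h0 : eval (A.aff i b) p = 0) : eval (A.aff i u) p = 0 := by
  obtain ⟨q, h2, h3⟩ := (hp.rename (Sum.inr : _ → Fin g ⊕ Fin N)).exists_homog i
  have h4 : q ∈ A.locI (acl F) (0, b) := (mem_locI h2).2 fun t => (h3 _ _).2 (by
    rcases eq_or_ne t 0 with rfl | ht
    · simp
    · right
      rw [eval_rename, Pi.smul_apply, smul_eq_mul, mul_inv_rev, mul_smul, inv_smul_smul₀ ht]
      exact h0)
  rw [h.locI_lie hF hk hU hb h1] at h4
  have h5 := ((h3 _ _).1 (A.mem_idl.1 h4 (0, u) ⟨0, rfl, by simp, by simpa⟩ 1)).resolve_left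
    (by simpa)
  rwa [eval_rename, one_smul] at h5

/-- Transfer of points of the cone over `exp U` along a relation. -/
theorem Over.pt_H (h : A.Over k) (hU : A.IsLie U) {W : Fin g → H I} {y : Fin N → H I}
    (hW : ∀ x, Pt x → evv x W ∈ St U) (hy : ∀ x, Pt x → A.Exp (evv x W) (evv x y))
    (r : ℂ → H I → Prop) (h0 : ∀ c, r c 0 → c = 0) (h1 : ∀ c ∈ k, r c (cn (co c)))
    (h2 : ∀ a b a' b', r a a' → r b b' → r (a + b) (a' + b'))
    (h3 : ∀ a b a' b', r a a' → r b b' → r (a * b) (a' * b')) {β : Fin N → ℂ}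
    (hβ : ∀ j, r (β j) (y j)) : ∃ u ∈ U, ∃ t : ℂ, β = t • A.θ u := by
  refine (h.zero_iff hU).1 fun p hp hc => h0 _ ?_
  convert hc.rel' (cn.comp co) r h1 h2 h3 hβ
  refine H.ext fun x hx => ?_
  obtain ⟨t, ht⟩ := hy x hx
  obtain ⟨t, rfl⟩ := qs_surj t
  have e : ev x ∘ y = vec fun n => t n • A.θ (rep (evv x W) n) := funext ht
  rw [eval₂_comp_left, e, show (ev x).comp (cn.comp co) = co from RingHom.ext fun a => ev_cn x _,
    ← aeval_def, aeval_vec, map_zero]
  exact (qs_eq_zero.2 ((hW x hx).mono fun n hn => A.mem_lieI.1 hp _ hn _)).symm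

theorem exists_unit_of_exp {W : Fin g → H I} {y : Fin N → H I} {i : Fin N} (hi : y i = 1)
    (hy : ∀ x, Pt x → A.Exp (evv x W) (evv x y)) : ∃ s, IsUnit s ∧ ∀ j, y j = s * thH A W j := by
  have key : ∀ x, Pt x → ∃ t, ∀ j, ev x (y j) = t * ev x (thH A W j) := fun x hx =>
    (hy x hx).imp fun t ht j => by rw [thH, ev_cmp' (diff_th A j) W hx]; exact ht j
  obtain ⟨s, hs⟩ := isUnit_of_ne (g := thH A W i) fun x hx e => by
    obtain ⟨t, ht⟩ := key x hx
    simpa [hi, e] using ht i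
  refine ⟨(s⁻¹ :), Units.isUnit _, fun j => (Units.eq_inv_mul_iff_mul_eq _).2 (H.ext fun x hx => ?_)⟩
  obtain ⟨t, ht⟩ := key x hx
  have := ht i
  rw [hi, map_one] at this
  rw [map_mul, hs, ht j, ← mul_assoc, mul_comm _ t, ← this, one_mul]

/-- The logarithmic derivative is the image of the derivative of the logarithm. -/
theorem Over.tau_dl [DecidableEq I] (h : A.Over k) {T : ℝ*} {hT : Ll 1 T} {τ : Tau I hT}
    (hk : ∀ c ∈ k, τ.R c (cn (co c))) {W : Fin g → H I} (hW : ∀ e, W e ∈ PB I hT)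
    {y : Fin N → H I} {i : Fin N} (hi : y i = 1) (hy : ∀ x, Pt x → A.Exp (evv x W) (evv x y))
    {u : Fin g → ℂ} {t : ℂ} (ht : t ≠ 0) (hr : ∀ j, τ.R ((t • A.θ u) j) (y j)) (l : I) (e : Fin g) :
    τ.R (A.dl u (τ.D l) e) (dd l (W e)) := by
  obtain ⟨s, h1, h2⟩ := exists_unit_of_exp hi hy
  obtain ⟨ρ, ρ', h3, h4, h5⟩ := dl_H A h (D := τ.D l) (fun c hc => (hk c hc).der_cn l) τ.R hk
    (fun _ _ _ _ => .add) (fun _ _ _ _ => .mul) ht h1 (Pi.single l 1) (fun j => h2 j ▸ hr j)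
    fun j => by simpa [Pi.single_apply, ← h2] using (hr j).dd l
  exact .cancel h3 h4 (by simpa [Pi.single_apply] using h5 e) (dd_mem_PB hT (hW e) l)

end AbVar

end Pool.Agent.P.MP_f17f76_ag
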