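import Pool.Agent.P.MP_f17f76_ag.E.NxA
import Pool.Agent.P.MP_f17f76_ag.E.Ext
import Pool.Agent.P.MP_f17f76_ag.S.Ndg
import Pool.Agent.P.MP_f17f76_ag.S.St

/-!
The algebraic core of the step NEXT, for internal numbers.
-/

namespace Pool.Agent.P.MP_f17f76_ag

open Module Set Matrix E N

variable {g N : ℕ} {A : AbVar g N} {M : Model A} {κ : Sub g → ℕ} {A' Z₁ : Sub g} {L : Type}
  [Fintype L] [DecidableEq L]

theorem N.pst_iff {x y : Cs} : Pst.v x ≤ Pst.v y ↔ Lc (nm x) (nm y) := by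
  rcases eq_or_ne y 0 with rfl | h
  · exact ⟨lc_of_pst, fun ⟨k, hk⟩ => by
      rw [nm.eq_zero.1 (le_antisymm (by simpa using hk) (nm.nonneg x))]⟩
  · exact pst_le_iff h

theorem Blk.Ok.next {b : Blk g} (hb : b.Ok M κ A' Z₁) (hA : A.IsLie A') (hZ : A.IsLie Z₁)
    (hle : A' ≤ Z₁) (hne : A' ≠ Z₁) {n : Matrix L (Fin g) ℂ} (hli : LinearIndependent ℂ n.row)
    (hn : ∀ l k, n l k ∈ acl ((b.k1 : Set ℂ) ∪ b.E)) (hsp : Submodule.span ℂ (range n.row) = b.Nn)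
    {J : Matrix (Fin g) L Cs} {ρ : L → Cs} (hρ : ∀ l, ρ l ≠ 0) (hJ : n.map co * J = diagonal ρ)
    (hr : ∀ j, Ll 1 (b.r j)) (ent : ∀ l j, (n l ᵥ* b.G) j ≠ 0 → Lc (b.r j) (nm (ρ l))) {X Y : ℝ*}
    (hX : 0 < X) (hY : Y = X ^ (Fintype.card L * 2))
    (bd : ∀ j l, Lc (nm ((b.G⁻¹.map co * J) j l)) (X * b.r j)) {S : Set ℂ} (hS : S.Countable) :
    ∃ (E' : Subfield ℂ) (N' : Sub g) (q : ℕ) (U : ℕ → Sub g) (w : ℕ → Cs) (n' : L → Fin g → ℂ)
      (lab : L → ℕ), M.Fam κ A' Z₁ E' N' ∧ Free (M.k0 : Set ℂ) S E' ∧ U 0 = ⊥ ∧ U q = b.B ∧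
      (∀ i, A.IsLie (U i) ∧ U i ≤ b.B) ∧ (∀ i < q, U i ≤ U (i + 1)) ∧
      (∀ i i', i < i' → i' < q → Ll (nm (w i)) (nm (w i'))) ∧
      (∀ i, w i ≠ 0 ∧ (∃ j, Lc (b.r j) (Y * nm (w i))) ∧ ∃ j, Lc (nm (w i)) (Y * b.r j)) ∧
      LinearIndependent ℂ n' ∧ (∀ l, lab l < q ∧ ∀ j, n' l j ∈ E') ∧
      (∀ i ≤ q, Submodule.span ℂ (n' '' {l | lab l < i}) = N' ⊓ A.du (U i)) ∧
      ∀ (c : L → Cs) (y : Fin g → Cs), (∀ j, Lc (Y * nm ((b.G⁻¹.map co *ᵥ y) j)) (b.r j)) →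
        (∀ l, Lc (nm (dot (n' l) (J *ᵥ c + y))) (nm (w (lab l)))) →
        (∀ l, Lc (nm (c l)) Y) ∧ ∀ i < q, ∀ u ∈ A.du (U (i + 1)), (∀ j, u j ∈ M.k0) →
          Lc (nm (dot u (J *ᵥ c + y))) (nm (w i)) := by
  have hB0 : A.rel Z₁ A' ≠ ⊥ := fun h => hne ((A.rel_eq_bot_iff hle).1 h).symm
  obtain ⟨j₀⟩ : Nonempty (Fin g) := not_isEmpty_iff.1 fun _ => hB0 (Subsingleton.elim _ _)
  have := hb.fld.isAlgClosed
  let T₁ : Set Cs := co '' b.k1 ∪ (range (Function.uncurry J) ∪ range fun j => ofR (b.r j))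
  have hT₁ : T₁.Countable :=
    (hb.fld.cnt.image _).union ((countable_range _).union (countable_range _))
  obtain ⟨σ, hσ, f', hfr⟩ := hb.fam.fresh' hA hZ (k₁ := b.k1) (hb.fld.le.trans (subset_acl _))
    hb.fld.cnt (hS.union (Plc.countable_res (P := Pst) (countable_acl hT₁)))
  rw [hb.fld.acl] at hσ
  have him : ∀ F : Subfield ℂ, F ≤ b.k1 → σ.toRingHom '' F = F := fun F hF =>
    (image_congr fun x hx => hσ x (hF hx)).trans (image_id' _)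
  generalize hE' : b.E.map σ.toRingHom = E' at f' hfr
  have h01 : Free (M.k0 : Set ℂ) b.k1 E' := by
    have := (free_map σ.toRingHom).2 hb.free
    rwa [him _ hb.fld.le, him _ le_rfl, ← Subfield.coe_map, hE'] at this
  have hσ' : ∀ x ∈ acl ((b.k1 : Set ℂ) ∪ b.E), σ x ∈ acl ((b.k1 : Set ℂ) ∪ E') := fun x hx => by
    have := (mem_acl_map σ.toRingHom).2 hx
    rwa [image_union, him _ le_rfl, ← Subfield.coe_map, hE'] at this
  have hσ'' : ∀ x ∈ acl ((b.k1 : Set ℂ) ∪ E'), σ.symm x ∈ acl ((b.k1 : Set ℂ) ∪ b.E) := fun x hx => by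
    rw [← mem_acl_map σ.toRingHom, image_union, him _ le_rfl, ← Subfield.coe_map, hE']
    simpa using hx
  let F := acl ((b.k1 : Set ℂ) ∪ b.E ∪ E')
  have : Uncountable ℂ := Complex.ofReal_injective.uncountable
  obtain ⟨ψ, hψ⟩ := exists_equiv_sub mk_Cs.symm F (countable_acl
    ((hb.fld.cnt.union hb.fam.fld.cnt).union f'.fld.cnt)) (co.comp F.subtype)
  replace hψ : ∀ a ∈ F, ψ a = co a := fun a ha => hψ ⟨a, ha⟩
  have hF₁ : acl ((b.k1 : Set ℂ) ∪ b.E) ≤ F := acl_mono subset_union_left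
  have hF₂ : acl ((b.k1 : Set ℂ) ∪ E') ≤ F := acl_mono (union_subset_union_left _ subset_union_left)
  have hk₁ : b.k1 ≤ acl ((b.k1 : Set ℂ) ∪ b.E) := fun a ha => subset_acl _ (.inl ha)
  have hE₂ : E' ≤ acl ((b.k1 : Set ℂ) ∪ E') := fun a ha => subset_acl _ (.inr ha)
  let P : Plc ℂ ℂ := Pst.comap (ψ : ℂ →+* Cs)
  have hv : ∀ x y, P.v x ≤ P.v y ↔ Lc (nm (ψ x)) (nm (ψ y)) := fun x y =>
    (Plc.comap_le _).trans pst_iff
  have hP : P.IdOn F := fun a ha => ⟨(Plc.comap_le_one _).2 (pst_le.2 (hψ a ha ▸ lc_co a)),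
    (Plc.comap_r _ a).trans ((congrArg Pst.r (hψ a ha)).trans ((pst_r (lc_co a)).trans (stc_co a)))⟩
  let K₀ := acl (ψ.symm '' T₁)
  have hK₀ : ∀ a ∈ T₁, ψ.symm a ∈ K₀ := fun a ha => subset_acl _ ⟨a, ha, rfl⟩
  have hK : b.k1 ≤ K₀ := fun a ha => by
    simpa [← hψ a (hF₁ (hk₁ ha))] using hK₀ _ (.inl ⟨a, ha, rfl⟩)
  have hf : Free (b.k1 : Set ℂ) (P.res K₀) (acl ((b.k1 : Set ℂ) ∪ E')) := by
    have : K₀.map (ψ : ℂ →+* Cs) = acl T₁ := SetLike.coe_injective (by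
      rw [Subfield.coe_map, map_acl, image_image]
      simp)
    rw [Plc.comap_res, this]
    exact (hfr.symm.mono subset_union_right fun a ha => subset_acl _ (.inr ha)).acl_right
  have hr0 : ∀ j, 0 < b.r j := fun j => (hr j).pos
  let p₀ := fun j => ψ.symm (ofR (b.r j))
  have hp : ∀ j, nm (ψ (p₀ j)) = b.r j := fun j => by simp [p₀, abs_of_pos (hr0 j)]
  have hp₀ : ∀ j, p₀ j ∈ K₀ ∧ p₀ j ≠ 0 := fun j => ⟨hK₀ _ (.inr (.inr ⟨j, rfl⟩)), fun h => by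
    simpa [h, (hr0 j).ne] using hp j⟩
  let J' := J.map ψ.symm
  let ρ' := fun l => ψ.symm (ρ l)
  let X' := ψ.symm (ofR X)
  have hX' : nm (ψ X') = X := by simp [X', abs_of_pos hX]
  have hX0 : X' ≠ 0 := fun h => by simp [h, hX.ne] at hX'
  have hρ' : ∀ l, ρ' l ≠ 0 := fun l => by simpa [ρ'] using hρ l
  have hm : ∀ {α : Type} (G : Matrix α (Fin g) ℂ), (∀ i j, G i j ∈ F) → ∀ i l,
      ψ ((G * J') i l) = (G.map co * J) i l := fun G hG i l => by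
    simp [mul_apply, J', hψ _ (hG _ _)]
  have hJ' : n * J' = diagonal ρ' := ext fun i l => ψ.injective (by
    rw [hm n fun i j => hF₁ (hn i j), hJ, diagonal_apply, diagonal_apply]
    split_ifs <;> simp [ρ'])
  have hg₀ : GrM b.k1 ⊤ b.G := ⟨hb.det, hb.mem, fun _ _ _ => trivial⟩
  have hent : ∀ l j, (n l ᵥ* b.G) j ≠ 0 → P.v (p₀ j) ≤ P.v (ρ' l) := fun l j h =>
    (hv _ _).2 (by rw [hp]; simpa [ρ'] using ent l j h)
  have hnG : ∀ l j, (n l ᵥ* b.G) j ∈ acl ((b.k1 : Set ℂ) ∪ b.E) := fun l =>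
    vecMul_mem (hn l) fun i j => hk₁ (hb.mem i j)
  let n₀ := diagonal (fun l => (ρ' l)⁻¹) * n.map σ
  let c₀ : Matrix L L ℂ := diagonal fun _ => X'⁻¹
  obtain ⟨x, hx⟩ : ∃ x, (n₀ * J' * c₀).det ^ 2 = x := ⟨_, rfl⟩
  let Y' := X' ^ (Fintype.card L * 2)
  have hY' : nm (ψ Y') = Y := by rw [hY, map_pow, map_pow, hX']
  have hxY : 1 ≤ P.v (x * Y') := by
    have h1 := Plc.v_conj_le hK (hP.mono hF₂) hf σ.symm.toRingHom
      (fun a ha => σ.symm_apply_eq.2 (hσ a ha).symm) (fun a ha => (hP _ (hF₁ (hσ'' a ha))).1)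
      (e := fun f : L → Fin g => ((n.map σ).submatrix id f).det) (a := fun f => ∏ l, J' (f l) l)
      (fun f => Lang.det_mem fun l l' => hσ' _ (hn _ _))
      fun f => prod_mem fun l _ => hK₀ _ (.inr (.inl ⟨(f l, l), rfl⟩))
    have h2 : ∀ f : L → Fin g, σ.symm.toRingHom ((n.map σ).submatrix id f).det =
        (n.submatrix id f).det := fun f => by
      rw [RingHom.map_det]
      congr 1
      ext
      simp
    simp only [h2] at h1
    have h3 : P.v (n * J').det ≤ P.v (n.map σ * J').det := by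
      rw [det_mul_sum, det_mul_sum]
      convert h1
    have h4 : ∏ l, ρ' l ≠ 0 := Finset.prod_ne_zero_iff.2 fun l _ => hρ' l
    have h5 : x * Y' = ((n.map σ * J').det / ∏ l, ρ' l) ^ 2 := by
      rw [← hx, Matrix.mul_assoc (diagonal _), det_mul, det_mul, det_diagonal, det_diagonal,
        Finset.prod_const, Finset.card_univ, Finset.prod_inv_distrib,
        show Y' = _ from pow_mul _ _ _, ← mul_pow, inv_pow,
        inv_mul_cancel_right₀ (pow_ne_zero _ hX0), div_eq_inv_mul]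
    rw [hJ', det_diagonal] at h3
    rw [h5, map_pow, map_div₀]
    exact one_le_pow₀ ((one_le_div₀ (P.v_pos h4)).2 h3)
  have hxy : ∀ {a c}, P.v (x * a) ≤ P.v c → P.v a ≤ P.v (Y' * c) := fun {a c} h => by
    refine (le_mul_of_one_le_left' hxY).trans ?_
    rw [map_mul, mul_comm (P.v x), mul_assoc, ← map_mul P.v x, map_mul P.v Y']
    exact mul_le_mul_right h _
  obtain ⟨kb, b', hkb, -, hE, hN, -⟩ := id f'
  have hkE : (kb : Set ℂ) ⊆ E' := hE ▸ fun a ha => subset_acl _ (.inl ha)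
  obtain ⟨q, U, w, n', lab, a1, a2, a3, a4, a5, a6, a7, a8, a9, a10⟩ := M.ov.next_alg
    (E₂ := acl ((b.k1 : Set ℂ) ∪ E')) (K₀ := K₀) (L := L) hkb.cnt hkb.sub (hZ.rel hA) hB0 (b := b')
    hb.fld.cnt hb.fld.le ((h01.base hkb.sub (hkE.trans fun a ha => subset_acl _ (.inr ha))).symm.mono
      (hE ▸ fun a ha => subset_acl _ (.inr ha)) fun a ha => subset_acl _ (.inr ha))
    (hE ▸ hE₂) (hN ▸ (f'.rigid hA hZ).base hb.fld.le h01) (hP.mono hF₂) hK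
    (inv_mem (hp₀ j₀).1) (inv_ne_zero (hp₀ j₀).2)
    ((Plc.comap_lt_one _).2 (pst_lt.2 (by
      simpa [p₀, abs_of_pos (hr0 j₀)] using (hr j₀).inv one_pos)))
    hf (J := J') (fun i l => hK₀ _ (.inr (.inl ⟨(i, l), rfl⟩)))
    (by rw [← hN, finrank_cj, ← hsp, finrank_span_eq_card hli]) hg₀ hp₀ (n₀ := n₀) (c₀ := c₀)
    (fun l => by
      rw [← hN, show n₀ l = (ρ' l)⁻¹ • fun j => σ (n l j) from funext fun j => diagonal_mul ..]
      exact Submodule.smul_mem _ _ (map_mem_cj.2 (hsp ▸ Submodule.subset_span (mem_range_self l))))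
    (fun l j => by
      have : (n.map σ * b.G) l j = σ ((n l ᵥ* b.G) j) := by
        simp [mul_apply, vecMul, dotProduct, hσ _ (hb.mem _ _)]
      rw [← Matrix.mul_assoc, mul_diagonal, Matrix.mul_assoc, diagonal_mul, this]
      by_cases h : (n l ᵥ* b.G) j = 0
      · simp [h]
      rw [mul_right_comm]
      refine Plc.v_mul_le ?_ (hP _ (hF₂ (hσ' _ (hnG l j)))).1
      rw [← div_eq_inv_mul, P.v_div_le_one (hρ' l)]
      exact hent l j h)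
    (fun j l => by
      rw [mul_diagonal, inv_frame fun i => (hp₀ i).2, Matrix.mul_assoc, diagonal_mul, mul_right_comm,
        ← mul_inv, ← div_eq_inv_mul, P.v_div_le_one (mul_ne_zero (hp₀ j).2 hX0), hv,
        hm _ fun i j => hF₁ (hk₁ (hg₀.inv.mem i j)), map_mul, map_mul, hp, hX', mul_comm]
      exact bd j l) hx (fun h => by simp [h] at hxY)
  have hd : ∀ u : Fin g → ℂ, (∀ j, u j ∈ F) → ∀ c y, ψ (u ⬝ᵥ (J' *ᵥ (ψ.symm ∘ c) + ψ.symm ∘ y)) =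
      dot u (J *ᵥ c + y) := fun u hu c y => by
    simp [dot, dotProduct, mulVec, J', hψ _ (hu _)]
  refine ⟨E', _, q, U, fun i => ψ (w i), n', lab, f', h01.tower hb.fld.le (hfr.symm.mono subset_union_left
    fun a ha => subset_acl _ (.inr ha)), a1, hb.eq ▸ a2, hb.eq ▸ a3, fun i hi => (a4 i hi).1,
    fun i i' h h' => (pst_lt_iff ((map_ne_zero ψ).2 (a6 _).1)).1 ((Plc.comap_lt _).1 (a5 i i' h h')),
    fun i => ⟨(map_ne_zero ψ).2 (a6 _).1, (a6 i).2.1.imp fun j h => ?_, (a6 i).2.2.imp fun j h => ?_⟩,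
    a7, hE ▸ a8, hN ▸ a9, fun c y hy hc => ?_⟩
  · simpa only [hp, map_mul, hY'] using (hv _ _).1 (hxy h)
  · simpa only [hp, map_mul, hY'] using (hv _ _).1 (hxy h)
  obtain ⟨b1, b2⟩ := a10 (ψ.symm ∘ c) (ψ.symm ∘ y) (fun j => by
    refine (le_mul_of_one_le_left' hxY).trans ?_
    rw [map_mul, mul_assoc, ← map_mul P.v Y', map_mul P.v x]
    refine mul_le_mul_right ((hv _ _).2 ?_) _
    rw [hp, map_mul, map_mul, hY']
    convert hy j using 3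
    simp [mulVec, dotProduct, hψ _ (hF₁ (hk₁ (hg₀.inv.mem _ _)))])
    fun l => (hv _ _).2 (hd _ (fun j => hF₂ (hE₂ (hE ▸ (a8 l).2 j))) c y ▸ hc l)
  refine ⟨fun l => ?_, fun i hi u hu hu' => ?_⟩
  · have h1 : ρ' l * ψ.symm (c l) = (n l ᵥ* b.G) ⬝ᵥ (b.G⁻¹ *ᵥ J' *ᵥ (ψ.symm ∘ c)) := by
      rw [← dot_frame hb.det]
      exact (mulVec_diagonal ρ' (ψ.symm ∘ c) l).symm.trans
        (by rw [← hJ', ← mulVec_mulVec]; rfl)
    have h2 : P.v (ρ' l * ψ.symm (c l)) ≤ P.v (ρ' l * Y') := h1 ▸ Plc.v_dot_le fun j => by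
      by_cases h : (n l ᵥ* b.G) j = 0
      · simp [h]
      rw [map_mul, map_mul, mul_comm (P.v (ρ' l))]
      exact (mul_le_of_le_one_left' (hP _ (hF₁ (hnG l j))).1).trans ((hxy (b1 j)).trans
        ((map_mul P.v _ _).trans_le (mul_le_mul_right (hent l j h) _)))
    rw [map_mul, map_mul, mul_le_mul_iff_right₀ (P.v_pos (hρ' l)), hv, hY'] at h2
    simpa using h2
  · exact hd _ (fun j => hF₁ (hk₁ (hb.fld.le (hu' j)))) c y ▸
      (hv _ _).1 (b2 i hi u hu fun j => hb.fld.le (hu' j))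

end Pool.Agent.P.MP_f17f76_ag
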