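import Pool.Agent.P.MP_f17f76_ag.S.Ndg

/-!
The algebraic part of the special start.
-/

namespace Pool.Agent.P.MP_f17f76_ag

open Set Module E AbVar Matrix

variable {g N : ℕ} {A : AbVar g N} {k E₀ : Subfield ℂ} {F : Set ℂ} {b : Fin g → ℂ}
  {B L Q Q₁ Q₂ C C' X C1 Nn : Sub g} {κ : Sub g → ℕ}

theorem AbVar.Over.con_inf_ann (h : A.Over k) (hF : F.Countable) (hk : (k : Set ℂ) ⊆ acl F)
    (hB : A.IsLie B) (hL : Ov (acl F) L)
    (hr : ∀ U, A.IsLie U → U ≤ B → finrank ℂ (A.con F b U) ≤ finrank ℂ (L.map (A.pr U))) :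
    A.con F b B ⊓ ann L = ⊥ := by
  obtain ⟨U, h1, h2, h3⟩ := h.lov_finrank (b := b) h.isGen hF countable_empty hk
    (fun s _ _ => by rw [union_empty]) (hL.ann.mono (acl_mono subset_union_left)) hB
  have h4 := hr U h1 h2
  have h5 := A.finrank_ann_inf_du L U
  exact Submodule.finrank_eq_zero.1 (by omega)

/-- Dual bases over a field of definition. -/
theorem E.exists_dual {K ι : Type} [Field K] [Fintype ι] {k : Subfield K}
    {R L : Submodule K (ι → K)} (hR : Ov k R) (hL : Ov k L) (h : R ⊓ ann L = ⊥)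
    (e : finrank K R = finrank K L) : ∃ row f : Fin (finrank K L) → ι → K,
      (∀ l i, row l i ∈ k) ∧ Submodule.span K (range row) = R ∧ (∀ l i, f l i ∈ k) ∧
      (∀ l, f l ∈ L) ∧ (∀ l m, row l ⬝ᵥ f m = if l = m then 1 else 0) ∧
      ∀ v ∈ L, v = ∑ l, (row l ⬝ᵥ v) • f l := by
  obtain ⟨r, r1, r2, r3⟩ := hR.exists_basis
  obtain ⟨f, f1, -, f3⟩ := hL.exists_basis
  generalize finrank K R = n at r r1 r2 r3 e
  subst e
  let P : Matrix (Fin (finrank K L)) (Fin (finrank K L)) k :=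
    of fun l m => ⟨r l ⬝ᵥ f m, dot_mem (r1 l) (f1 m)⟩
  have hP : P.det ≠ 0 := fun e => by
    have e' : (P.map k.subtype).det = 0 := by
      rw [← RingHom.mapMatrix_apply, ← RingHom.map_det, e, map_zero]
    obtain ⟨v, hv, h1⟩ := exists_vecMul_eq_zero_iff.2 e'
    refine hv (funext (Fintype.linearIndependent_iff.1 r2 v (h.le ⟨?_, ?_⟩)))
    · exact r3 ▸ sum_mem fun l _ => Submodule.smul_mem _ _ (Submodule.subset_span ⟨l, rfl⟩)
    · refine ann_anti f3.ge (mem_ann_span.2 (forall_mem_range.2 fun m => ?_))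
      rw [← show _ = (0 : K) from congrFun h1 m, sum_dotProduct]
      simp [vecMul, dotProduct, P, Finset.mul_sum, mul_assoc]
  have h1 : ∀ l m, r l ⬝ᵥ ∑ j, (P⁻¹ j m : K) • f j = if l = m then 1 else 0 := fun l m => by
    have := congrArg (fun x : k => (x : K)) (congrFun₂ (mul_nonsing_inv P hP.isUnit) l m)
    rw [dotProduct_sum]
    simp only [mul_apply, one_apply, apply_ite (fun x : k => (x : K)), OneMemClass.coe_one,
      ZeroMemClass.coe_zero, AddSubmonoidClass.coe_finsetSum, MulMemClass.coe_mul] at this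
    simpa only [dotProduct_smul, smul_eq_mul, mul_comm, P, of_apply] using this
  have h2 : ∀ m, ∑ j, (P⁻¹ j m : K) • f j ∈ L := fun m =>
    f3.le (sum_mem fun l _ => Submodule.smul_mem _ _ (Submodule.subset_span ⟨l, rfl⟩))
  refine ⟨r, fun m => ∑ j, (P⁻¹ j m : K) • f j, r1, r3, fun m i => ?_, h2, h1, fun v hv => ?_⟩
  · simp only [Finset.sum_apply]
    exact sum_mem fun j _ => mul_mem (P⁻¹ j m).2 (f1 j i)
  · have h3 : L ⊓ ann R = ⊥ := by
      have h4 := Submodule.finrank_sup_add_finrank_inf_eq R (ann L)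
      have h5 := finrank_ann L
      have h6 := finrank_ann (R ⊔ ann L)
      have h7 := finrank_span_eq_card r2
      rw [h, finrank_bot] at h4
      rw [ann_sup, ann_ann, inf_comm] at h6
      rw [r3, Fintype.card_fin] at h7
      exact Submodule.finrank_eq_zero.1 (by omega)
    refine sub_eq_zero.1 (h3.le ⟨sub_mem hv (sum_mem fun l _ => L.smul_mem _ (h2 l)), ?_⟩)
    rw [← r3]
    refine mem_ann_span.2 (forall_mem_range.2 fun m => ?_)
    rw [dotProduct_comm, dotProduct_sub, dotProduct_sum]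
    simp [dotProduct_smul, h1]

namespace Model

variable {M : Model A}

theorem Fam.rank (f : M.Fam κ Q₁ Q₂ E₀ Nn) (hQ : A.Btw Q₁ Q Q₂) :
    κ Q ≤ κ Q₁ + Module.finrank ℂ (Nn ⊓ ann (A.rel Q₂ Q) : Sub g) := by
  rw [f.rk hQ]
  exact Nat.add_le_add_left (Submodule.finrank_mono (inf_le_inf_left _ (ann_anti
    ((A.rel_le_perp _ _).trans (A.perp_anti (A.rel_le _ _)))))) _

theorem H_le_add (M : Model A) (h₁ : A.IsLie Q₁) (h₂ : A.IsLie Q₂) :
    M.H Q₁ Q₂ ≤ g + finrank ℂ Q₂ := by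
  have h3 := M.H_le_right h₁ isLie_bot h₂ bot_le
  have h4 := M.H_le_left isLie_bot h₁ isLie_bot bot_le
  have h5 := A.finrank_perp Q₁
  rw [M.tight_bot.2] at h4
  omega

/-- The projections of `z` lie in translates of the projections of `L`. -/
theorem H_le_of_mem (hC : M.Tight C') (hL : Ov M.k0 L) {c₀ : Fin g → ℂ}
    (hc : ∀ k, c₀ k ∈ M.kq C') (hz : A.pr (A.rel C1 C') M.z - c₀ ∈ L) (hQ : A.Btw C' Q C1) :
    M.H Q C' ≤ finrank ℂ C' + finrank ℂ (L.map (A.pr (A.rel Q C'))) := by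
  have k1 := acl_ul (M.k0 : Set ℂ) (M.qs C' C')
  rw [M.H_add hC.1 hC.1 hQ.2.1 le_rfl, hC.2]
  refine Nat.add_le_add_left ((M.ov.HH_rel_left k1 hC.1 hQ.1 hC.1 hQ.2.1 (acl_ur _ _)).trans_le
    ?_) _
  rw [← finrank_map_dv]
  refine Submodule.finrank_mono ?_
  rintro _ ⟨D, hD, rfl⟩
  refine ⟨_, hL.der (kil_le k1 hD) hz, ?_⟩
  rw [← A.pr_pr_of_le (A.rel_mono hQ.2.2 C') M.z, M.ov.dv_pr (hQ.1.rel hC.1) (kil_le k1 hD)]
  congr 1
  funext i
  rw [dv_apply, Pi.sub_apply, map_sub, acl_le_cst hD (hc i), sub_zero, dv_apply]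

theorem Tow.spec_alg (t : M.Tow C' X C1 C) (hs : M.Special C' C1) :
    ∃ (L : Sub g) (c₀ : Fin g → ℂ), L ≤ A.rel C1 C' ∧ Ov M.k0 L ∧ ¬ A.IsLie L ∧
      (∀ k, c₀ k ∈ M.kq C') ∧ A.pr (A.rel C1 C') M.z - c₀ ∈ L ∧
      finrank ℂ L + finrank ℂ C' = M.H C1 C' ∧ ∀ S : Set ℂ, S.Countable →
        ∃ (E : Subfield ℂ) (Nn : Sub g) (row f : Fin (finrank ℂ L) → Fin g → ℂ),
          M.Fam (fun Q => g + finrank ℂ Q - M.H C1 Q) C' C1 E Nn ∧ Free (M.k0 : Set ℂ) E S ∧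
          (∀ l k, row l k ∈ E) ∧ Submodule.span ℂ (range row) = Nn ∧ (∀ l k, f l k ∈ E) ∧
          (∀ l, f l ∈ L) ∧ (∀ l m, row l ⬝ᵥ f m = if l = m then 1 else 0) ∧
          ∀ v ∈ L, v = ∑ l, (row l ⬝ᵥ v) • f l := by
  obtain ⟨h0, L, h1, h2, h3, c₀, h4, h5⟩ := hs
  have hz := fun Q => H_le_of_mem (Q := Q) t.t' h3 h4 h5
  refine ⟨L, c₀, h1, h3, fun hL => ?_, h4, h5, h2, fun S hS => ?_⟩
  · have l1 := (t.t1.1.rel t.t'.1).rel hL
    have l2 : A.rel (A.rel C1 C') L ≤ A.rel C1 C' := A.rel_le _ _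
    have b1 : A.Btw C' (C' ⊔ A.rel (A.rel C1 C') L) C1 :=
      ⟨t.t'.1.sup l1, le_sup_left, sup_le t.le' (l2.trans (A.rel_le _ _))⟩
    have h6 := hz _ b1
    have h7 := A.finrank_rel h1
    have h8 := A.finrank_rel t.le'
    have h9 := A.finrank_rel b1.2.1
    have h10 := M.H_kq t.t' le_rfl t.le'
    rw [A.rel_sup (l2.trans (A.rel_le_perp _ _))] at h6 h9
    rw [show L.map (A.pr (A.rel (A.rel C1 C') L)) = ⊥ from eq_bot_iff.2 (by
      rintro _ ⟨x, hx, rfl⟩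
      exact A.pr_eq_zero_iff.2 (A.le_perp_comm.1 (A.rel_le_perp _ _) hx)), finrank_bot,
      M.H_kq t.t' b1.2.1 le_rfl] at h6
    rw [t.eq_of_z (b1.mono le_rfl t.le) ((M.zs_sub _ C').trans
      (((trd_eq_zero_iff (M.finite_qs _ _)).1 (by omega)).trans (M.fld_kq C').acl.le))] at h9
    exact t.na ((M.as_sub C' C1).trans
      (((trd_eq_zero_iff (M.finite_qs _ _)).1 (by omega)).trans (M.fld_kq C').acl.le))
  obtain ⟨ch, -, -, -, h6, E₁, N₁, f1⟩ := t.t1.exists_chain t.t'.1 t.le'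
  have h7 := h6 C' (.left t.t'.1 t.le')
  have f2 : M.Fam (fun Q => g + finrank ℂ Q - M.H C1 Q) C' C1 E₁ N₁ :=
    fam_iff.2 ⟨f1.fm, fun Q hQ => by
      have h8 := f1.rk hQ
      have h9 := h6 Q hQ
      have h10 := M.H_le_add t.t1.1 hQ.1
      have h11 := M.H_le_add t.t1.1 t.t'.1
      omega⟩
  obtain ⟨E₀, Nn, f3, f4⟩ := f2.fresh t.t'.1 t.t1.1 hS
  have h8 := f3.finrank t.t1.1 t.le'
  have h9 := M.H_le_add t.t1.1 t.t'.1
  have h10 : Nn ⊓ ann L = ⊥ := by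
    have f5 := fun Q => f3.rk (Q := Q)
    obtain ⟨kb, b, h11, -, -, rfl, -⟩ := f3
    refine M.ov.con_inf_ann h11.cnt h11.sub (t.t1.1.rel t.t'.1) (h3.mono h11.sub) fun U hU h12 => ?_
    have b1 : A.Btw C' (C' ⊔ U) C1 :=
      ⟨t.t'.1.sup hU, le_sup_left, sup_le t.le' (h12.trans (A.rel_le _ _))⟩
    have h13 := f5 _ b1
    have h14 := hz _ b1
    have h15 := M.H_submod t.t1.1 b1.1 t.t'.1 t.t1.1
    have h16 := M.H_submod b1.1 t.t'.1 t.t'.1 b1.1
    have h17 := M.le_H b1.1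
    have h18 := M.H_le_add t.t1.1 b1.1
    rw [rk, A.rel_sup (h12.trans (A.rel_le_perp _ _)), A.con_inf_du h12] at h13
    rw [A.rel_sup (h12.trans (A.rel_le_perp _ _))] at h14
    rw [inf_eq_right.2 t.le', inf_eq_left.2 b1.2.2, sup_eq_left.2 t.le', sup_eq_right.2 b1.2.2,
      t.t1.2] at h15
    rw [inf_eq_right.2 b1.2.1, inf_eq_left.2 b1.2.1, sup_eq_left.2 b1.2.1, sup_eq_right.2 b1.2.1,
      t.t'.2] at h16
    omega
  obtain ⟨row, f, h11⟩ := exists_dual (f3.ov t.t'.1 t.t1.1) (h3.mono f3.fld.le) h10 (by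
    rw [t.t1.2] at h8
    omega)
  exact ⟨E₀, Nn, row, f, f3, f4, h11⟩

end Model

end Pool.Agent.P.MP_f17f76_ag
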