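import Pool.Agent.P.MP_f17f76_ag.S.Book

/-!
The full state of the main loop and the statement of one step.
-/

namespace Pool.Agent.P.MP_f17f76_ag

open Module Set Matrix E N

noncomputable section

namespace Gl

variable {g N : ℕ} {A : AbVar g N}

/-- The full state: core, stage `j`, current block and queue. -/
structure Sta (M : Model A) (C' : Sub g) (T : ℝ*) (Jν : Type) [Fintype Jν] [DecidableEq Jν]
    {C : Sub g} (ch : M.Chain C) (f : ℕ → ℕ) where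
  J : Type
  [fin : Fintype J]
  [dec : DecidableEq J]
  A' : Sub g
  Z : Sub g
  s : Core M C' T Jν J A' Z
  j : ℕ
  p : ℕ
  q : ℕ
  t0 : ℕ
  t1 : ℕ
  V : ℕ → Sub g
  R : ℕ → ℝ*
  ϱ : ℝ*
  lab : J → ℕ ⊕ ℕ
  W : ℕ → Sub g
  B : ℕ → Blk g
  D : ℕ → ℕ
  cur : Cur ch.κ s p q V R ϱ lab
  que : Que ch.κ f s t0 t1 W B D ϱ lab
  lo : ch.U j ≤ A'
  hi : Z ≤ ch.U (j + 2)
  eqn : M.Eqn ch.κ A' Z
  Vp : V p = A'
  Vq : V q = W t0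
  Wt : W t1 = Z
  bnd : ∃ t, t0 ≤ t ∧ t ≤ t1 ∧ W t = ch.U (j + 1)
  cov : ∀ l, (∃ i, lab l = .inl i ∧ p ≤ i ∧ i < q) ∨ ∃ t, lab l = .inr t ∧ t0 ≤ t ∧ t < t1

attribute [instance] Sta.fin Sta.dec

variable {M : Model A} {C' C : Sub g} {T : ℝ*} {Jν J J' : Type} [Fintype Jν] [DecidableEq Jν]
  [Fintype J] [DecidableEq J] [Fintype J'] [DecidableEq J'] {A' Z A'' Z'' : Sub g}
  {ch : M.Chain C} {f : ℕ → ℕ}

/-- The termination measure. -/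
def Sta.μ (σ : Sta M C' T Jν ch f) : ℕ ×ₗ ℕ ×ₗ ℕ ×ₗ ℕ :=
  toLex (ch.m - σ.j, toLex (g - finrank ℂ σ.A', toLex (σ.t1 - σ.t0, σ.q - σ.p)))

/-- The passengers survive. -/
def Ps (C1 : Sub g) (s : Core M C' T Jν J A' Z) (s' : Core M C' T Jν J' A'' Z'') : Prop :=
  (s.P1 C1 → s'.P1 C1) ∧ (s.P2 C1 → s'.P2 C1) ∧ (s.NF C1 → s'.NF C1)

/-- One step of the loop. -/
structure Nxt (C1 : Sub g) (σ σ' : Sta M C' T Jν ch f) : Prop where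
  lt : σ'.μ < σ.μ
  ps : Ps C1 σ.s σ'.s
  le : σ'.A' = σ.A' ∨ σ.p < σ.q ∧ σ'.A' ≤ σ.V (σ.p + 1)
  big : Big T σ'.ϱ ∨ σ'.V σ'.q = σ.V σ.q ∧ (σ.p < σ.q → Big T (σ.ϱ / σ.R σ.p) → Big T σ'.ϱ)

end Gl

/-- All steps. -/
structure Steps : Prop where
  chain : S_CHAIN
  der : S_DER
  pass : S_PASS
  start : S_START
  fin : S_FIN
  abs : S_ABS
  split : S_SPLIT
  gf : S_GF
  next : S_NEXT
  nu : S_NU
  spec : S_SPEC
  end1 : S_END1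
  end2 : S_END2

/-- The loop can always make a step. -/
def S_STEP : Prop := ∀ g : ℕ, ∃ f : ℕ → ℕ, ∀ {N : ℕ} {A : AbVar g N} {M : Model A}
  {C' X C1 C Cc : Sub g} {T : ℝ*} {Jν : Type} [Fintype Jν] [DecidableEq Jν] {ch : M.Chain Cc}
  (σ : Gl.Sta M C' T Jν ch f), M.Tow C' X C1 C → Cc ≤ C → σ.s.PH C1 → σ.A' ≠ Cc →
    ∃ σ', Gl.Nxt C1 σ σ'

end

end Pool.Agent.P.MP_f17f76_ag
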